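import Pool.Agent.Lib.MP_b0c2b5_co.LS.Defs

section

/-!
Trees of radius three in Hasse diagrams: definitions.

`r` is the covering relation (arcs, `r u v`: `v` is a child of `u`), `lt` the order, `HO r lt` (see `LS/Defs.lean`).
-/

set_option autoImplicit false

namespace Pool.Agent.Lib.MP_b0c2b5_co.R3

open Finset LS
open scoped Classical

universe u v

/-! ### families with few traces, scales of small sets -/

/-- the sets `S i` have at most `(a (|X| + 1)) ^ b` traces on every finite set `X` -/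
def Trc {Y : Type u} {ι : Type v} (S : ι → Finset Y) (a b : ℕ) : Prop :=
  ∀ X : Finset Y, Set.ncard (Set.range (fun i => X ∩ S i)) ≤ (a * (X.card + 1)) ^ b

/-- a scale of small sets: `P k A` means that `A` is small with constant `k` -/
structure Scl {X : Type u} (P : ℕ → Finset X → Prop) : Prop where
  emp : P 0 ∅
  mono : ∀ k l A B, k ≤ l → B ⊆ A → P k A → P l B
  union : ∀ k l A B, P k A → P l B → P (k + l) (A ∪ B)

/-- finite witnesses: a set which is not small with constant `w k` has a subset with at most `q k` elements which is not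
small with constant `k` -/
def FW {X : Type u} (P : ℕ → Finset X → Prop) (w q : ℕ → ℕ) : Prop :=
  ∀ k B, ¬ P (w k) B → ∃ Y ⊆ B, Y.card ≤ q k ∧ ¬ P k Y

/-- rank: `Rk P A q k X` -/
def Rk {X : Type u} {F : Type v} (P : ℕ → Finset X → Prop) (A : F → Finset X) : ℕ → ℕ → Finset X → Prop
  | 0, k, Z => ¬ P k Z
  | q + 1, k, Z => ¬ ∃ G : Finset F, G.card ≤ k ∧ ∀ f, Rk P A q k (Z ∩ A f) → P k (A f \ G.biUnion A)

/-- the centres `D` and the assignment `Th` form a scheme of order `q` -/
structure Sch {X : Type u} {F : Type v} (P : ℕ → Finset X → Prop) (A : F → Finset X) (lo q hi M : ℕ)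
    (D : Finset F) (Th : F → Finset F) : Prop where
  sub : ∀ f, Th f ⊆ D
  card : ∀ f, (Th f).card ≤ M
  low : ∀ G : Finset F, G.card ≤ lo → (D.filter (fun d => P lo (A d \ G.biUnion A))).card ≤ M
  rk : ∀ f, ¬ Rk P A q hi (A f \ (Th f).biUnion A)

/-! ### neighbourhoods -/

variable {V : Type u} [Fintype V]

/-- children -/
noncomputable def oN (r : V → V → Prop) (g : V) : Finset V := univ.filter (fun x => r g x)

/-- parents -/
noncomputable def iN (r : V → V → Prop) (g : V) : Finset V := univ.filter (fun x => r x g)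

/-- neighbours -/
noncomputable def aN (r : V → V → Prop) (g : V) : Finset V := univ.filter (fun x => r g x ∨ r x g)


theorem mem_oN {r : V → V → Prop} {g x : V} : x ∈ oN r g ↔ r g x := by simp [oN]

theorem mem_iN {r : V → V → Prop} {g x : V} : x ∈ iN r g ↔ r x g := by simp [iN]

theorem mem_aN {r : V → V → Prop} {g x : V} : x ∈ aN r g ↔ r g x ∨ r x g := by simp [aN]

theorem aN_comm {r : V → V → Prop} {g x : V} : x ∈ aN r g ↔ g ∈ aN r x := by
  rw [mem_aN, mem_aN, or_comm]

theorem oN_rev (r : V → V → Prop) (g : V) : oN (rev r) g = iN r g := rfl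

theorem iN_rev (r : V → V → Prop) (g : V) : iN (rev r) g = oN r g := rfl

theorem oN_sub_aN (r : V → V → Prop) (g : V) : oN r g ⊆ aN r g := fun x hx =>
  mem_aN.2 (Or.inl (mem_oN.1 hx))

theorem iN_sub_aN (r : V → V → Prop) (g : V) : iN r g ⊆ aN r g := fun x hx =>
  mem_aN.2 (Or.inr (mem_iN.1 hx))

/-- `Sm r U j k A`: the set `A` is `j`-small with constant `k` in the universe `U`. For `j = 0`: at most `k` elements. For
`j + 1`: there is `D ⊆ U` with at most `k` elements such that for every `v ∈ A` the neighbours of `v` in `U` which are not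
neighbours of `D` form a `j`-small set with constant `k`. -/
def Sm (r : V → V → Prop) (U : Finset V) : ℕ → ℕ → Finset V → Prop
  | 0, k, A => A.card ≤ k
  | j + 1, k, A => ∃ D ⊆ U, D.card ≤ k ∧ ∀ v ∈ A, Sm r U j k ((aN r v ∩ U) \ D.biUnion (aN r))

/-! ### chains -/

/-- one step of a chain: `U'` is a part of `U` with (C) and (P) -/
structure Stp (r : V → V → Prop) (K : ℕ) (U U' : Finset V) : Prop where
  sub : U' ⊆ U
  c : ∀ u ∈ U', ∃ D ⊆ U, D.card ≤ K ∧ ∀ v ∈ U', v ∈ aN r u → ((aN r v ∩ U) \ D.biUnion (aN r)).card ≤ K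
  p : ∀ x ∈ U', ∃ Z ⊆ U, Z.card ≤ K ∧ ∀ y ∈ U', r y x → y ∈ Z.biUnion (oN r)

/-- a chain `Vs 0 ⊇ Vs 1 ⊇ ... ⊇ Vs n` (and `Vs i = Vs n` for `i ≥ n` is not required, but the sequence is antitone) -/
structure Chn (r : V → V → Prop) (K n : ℕ) (Vs : ℕ → Finset V) : Prop where
  anti : ∀ i j, i ≤ j → Vs j ⊆ Vs i
  stp : ∀ i < n, Stp r K (Vs i) (Vs (i+1))

/-- the loose vertices: `z ∈ Vs i` such that the children of `z` in `Λ` are not covered by `M` sets of children of elements
of `Vs j`, up to `M` points -/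
noncomputable def Lam (r : V → V → Prop) (Vs : ℕ → Finset V) (M i j : ℕ) (Λ : Finset V) : Finset V :=
  (Vs i).filter (fun z => ¬ ∃ G ⊆ Vs j, G.card ≤ M ∧ ((oN r z ∩ Λ) \ G.biUnion (oN r)).card ≤ M)

/-! ### labelled classes -/

/-- the class `Y` is labelled -/
structure Lab (r : V → V → Prop) (Vs : ℕ → Finset V) (b a c : ℕ) (Y : Finset V) (L B Th : V → Finset V) : Prop where
  Lc : ∀ z ∈ Y, (L z).card ≤ c
  Bc : ∀ h, (B h).card ≤ c
  Bs : ∀ h, B h ⊆ Vs a
  Tc : ∀ e, (Th e).card ≤ c
  hit : ∀ e ∈ Vs b, ((oN r e ∩ Y).filter (fun z => Disjoint (L z) (Th e))).card ≤ c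
  adj : ∀ z ∈ Y, ∀ h ∈ L z, ∃ g ∈ B h, z ∈ aN r g

/-- the set `Λ` is the union of `κ` labelled classes with constant `c`, with gaps at least `gap` and upper scales at
most `a0` -/
def Lev (r : V → V → Prop) (Vs : ℕ → Finset V) (κ c gap a0 : ℕ) (Λ : Finset V) : Prop :=
  ∃ (cl : V → ℕ) (b a : ℕ → ℕ) (L : V → Finset V) (B Th : ℕ → V → Finset V),
    (∀ z ∈ Λ, cl z < κ) ∧ ∀ i < κ, b i + gap ≤ a i ∧ a i ≤ a0 ∧
      Lab r Vs (b i) (a i) c (Λ.filter (fun z => cl z = i)) L (B i) (Th i)

/-! ### the tree -/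

/-- the rooted tree of depth `d` in which every vertex which is not a leaf has `t` children; the vertices are the lists of
length at most `d`, the children of `l` are the lists `i :: l` -/
def treeG (d t : ℕ) : SimpleGraph {l : List (Fin t) // l.length ≤ d} :=
  SimpleGraph.fromRel (fun x y => ∃ i, y.1 = i :: x.1)

/-- the cover graph of `r` -/
def Gr {V : Type u} (r : V → V → Prop) : SimpleGraph V := SimpleGraph.fromRel r

/-- a spread object of depth `d` on `B`: a `T`-branching tree of vertices -/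
structure Obj (r : V → V → Prop) (U : Finset V) (T m d : ℕ) (B : Finset V) (φ : List (Fin T) → V) : Prop where
  base : ∀ s, φ [s] ∈ B
  edge : ∀ s l, 1 ≤ l.length → l.length < d → φ (s :: l) ∈ aN r (φ l) ∩ U
  pair : ∀ l : List (Fin T), l.length + 2 ≤ d → ∀ g ∈ U,
    m * (univ.filter (fun p : Fin T × Fin T => φ (p.2 :: p.1 :: l) ∈ aN r g)).card ≤ T * T
  last : ∀ l : List (Fin T), l.length + 1 = d → ∀ g, m * (univ.filter (fun s : Fin T => φ (s :: l) = g)).card ≤ T
  few : ∀ l : List (Fin T), l.length + 1 = d → (univ.image (fun s : Fin T => φ (s :: l))).card ≤ m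

end Pool.Agent.Lib.MP_b0c2b5_co.R3
end

section

/-!
# R3, Emb: every tree of radius at most `d` is an induced subgraph of `treeG d t` for some `t`

`treeG_adj`: unfold `treeG`, `SimpleGraph.fromRel_adj`; `x ≠ y` is automatic as the lists have different lengths. `treeG_col`: colour a list by the parity of its length.

PROOF of `tree_emb`. `t := card W`, `e : W ≃ Fin t`. In a tree every `w ≠ r0` has a unique neighbour `p w` with `dist r0 (p w) + 1 = dist r0 w`, and for adjacent `w, w'` one of `w' = p w`, `w = p w'` holds. (Existence of `p w`: the last but one vertex of a shortest path from `r0` to `w`.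
Adjacent `w, w'`: the distances from `r0` differ by exactly one and the farther one, say `w`, has `w' = p w`: the unique path from `r0` to `w` (`SimpleGraph.IsTree.existsUnique_path` or `IsAcyclic.path_unique`) passes through `w'`: take the path from `r0` to `w'`; if it does not contain `w`, extend it by the
edge to `w`: it is the path to `w`, so `dist r0 w = dist r0 w' + 1` and the last but one vertex is `w'`; if it contains `w`, then its initial part is the path to `w` and the rest of it is the path from `w` to `w'`, which is the edge: `dist r0 w' = dist r0 w + 1`. Uniqueness of `p w` in the same way.)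
Define the code of `w` by strong recursion on the distance: `code r0 = []`, `code w = e w :: code (p w)`; more convenient: prove by induction on `n`: there is `code : W → List (Fin t)` ... or define it on `n` with fuel: `code 0 w = []`, `code (n+1) w = if w = r0 then [] else e w :: code n (p w)` and use `code (dist r0 w) w`.
The length of the code is `dist r0 w ≤ d`. It is injective (the head determines `w`), and `w, w'` are adjacent iff one of the codes is `i :: ` the other: `→` by the choice of `p`; `←`: `code w = i :: code w'` implies `w ≠ r0` and `code (p w) = code w'`, so `w' = p w`, which is adjacent to `w`.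
-/

set_option autoImplicit false

namespace Pool.Agent.Lib.MP_b0c2b5_co.R3

open Finset LS
open scoped Classical

universe u v

theorem treeG_adj {d t : ℕ} {x y : {l : List (Fin t) // l.length ≤ d}} :
    (treeG d t).Adj x y ↔ (∃ i, y.1 = i :: x.1) ∨ ∃ i, x.1 = i :: y.1 := by
  unfold treeG
  rw [SimpleGraph.fromRel_adj]
  refine ⟨fun h => h.2, fun h => ⟨?_, h⟩⟩
  rintro rfl
  rcases h with ⟨i, hi⟩ | ⟨i, hi⟩
  · exact absurd (congrArg List.length hi) (by simp)
  · exact absurd (congrArg List.length hi) (by simp)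

theorem treeG_col (d t : ℕ) : (treeG d t).Colorable 2 := by
  refine ⟨SimpleGraph.Coloring.mk (fun x => (⟨x.1.length % 2, Nat.mod_lt _ (by norm_num)⟩ : Fin 2)) ?_⟩
  intro x y h heq
  have h1 : x.1.length % 2 = y.1.length % 2 := congrArg Fin.val heq
  rcases treeG_adj.1 h with ⟨i, hi⟩ | ⟨i, hi⟩
  · rw [hi, List.length_cons] at h1
    omega
  · rw [hi, List.length_cons] at h1
    omega

instance treeG_finite (d t : ℕ) : Finite {l : List (Fin t) // l.length ≤ d} := by
  exact (List.finite_length_le (Fin t) d).to_subtype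

theorem tree_emb {W : Type v} [Finite W] (T : SimpleGraph W) (hT : T.IsTree) (d : ℕ) (r0 : W)
    (h : ∀ w, T.dist r0 w ≤ d) : ∃ t : ℕ, Nonempty (T ↪g treeG d t) := by
  have hne : Nonempty W := ⟨r0⟩
  have hp : ∀ w, w ≠ r0 → ∃ a, T.Adj a w ∧ T.dist r0 w = T.dist r0 a + 1 := by
    intro w hw
    obtain ⟨q, hq⟩ := hT.connected.exists_walk_length_eq_dist w r0
    cases q with
    | nil => exact absurd rfl hw
    | cons hadj q' =>
      rename_i a
      refine ⟨a, hadj.symm, ?_⟩
      have h1 : T.dist a r0 ≤ q'.length := SimpleGraph.dist_le q'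
      rw [SimpleGraph.Walk.length_cons] at hq
      rcases hT.dist_eq_dist_add_one_of_adj r0 hadj with h2 | h2
      · exact h2
      · rw [SimpleGraph.dist_comm (u := r0) (v := a), SimpleGraph.dist_comm (u := r0) (v := w)] at h2
        omega
  have huniq : ∀ w a b, T.Adj a w → T.Adj b w → T.dist r0 w = T.dist r0 a + 1 →
      T.dist r0 w = T.dist r0 b + 1 → a = b := by
    intro w a b ha hb hda hdb
    obtain ⟨q, hq⟩ := hT.connected.exists_walk_length_eq_dist r0 a
    obtain ⟨q', hq'⟩ := hT.connected.exists_walk_length_eq_dist r0 b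
    have h1 : (q.concat ha).IsPath := by
      refine SimpleGraph.Walk.isPath_of_length_eq_dist _ ?_
      rw [SimpleGraph.Walk.length_concat, hq, hda]
    have h2 : (q'.concat hb).IsPath := by
      refine SimpleGraph.Walk.isPath_of_length_eq_dist _ ?_
      rw [SimpleGraph.Walk.length_concat, hq', hdb]
    have h3 : (⟨q.concat ha, h1⟩ : T.Path r0 w) = ⟨q'.concat hb, h2⟩ :=
      (hT.isAcyclic.subsingleton_path r0 w).elim _ _
    have h4 : q.concat ha = q'.concat hb := congrArg Subtype.val h3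
    exact (SimpleGraph.Walk.concat_inj h4).1
  choose! p hp1 hp2 using hp
  obtain ⟨t, ⟨e⟩⟩ := Finite.exists_equiv_fin W
  obtain ⟨code, hc0, hcs⟩ : ∃ code : ℕ → W → List (Fin t), (∀ w, code 0 w = []) ∧
      ∀ n w, code (n + 1) w = e w :: code n (p w) :=
    ⟨fun n => Nat.rec (fun _ => []) (fun _ ih w => e w :: ih (p w)) n, fun _ => rfl, fun _ _ => rfl⟩
  have hlen : ∀ n w, (code n w).length = n := by
    intro n
    induction n with
    | zero =>
      intro w
      rw [hc0]
      rfl
    | succ n ih =>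
      intro w
      rw [hcs, List.length_cons, ih]
  obtain ⟨c, hc⟩ : ∃ c : W → List (Fin t), ∀ w, c w = code (T.dist r0 w) w := ⟨_, fun _ => rfl⟩
  have hcl : ∀ w, (c w).length = T.dist r0 w := fun w => by rw [hc, hlen]
  have hcr : ∀ w, w ≠ r0 → c w = e w :: c (p w) := by
    intro w hw
    rw [hc, hc, hp2 w hw, hcs]
  have hcr0 : c r0 = [] := by
    rw [hc, SimpleGraph.dist_self, hc0]
  have hinj : Function.Injective c := by
    intro w w' hww
    by_cases h0 : w = r0
    · by_cases h0' : w' = r0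
      · rw [h0, h0']
      · rw [h0, hcr0, hcr w' h0'] at hww
        exact absurd hww (by simp)
    · by_cases h0' : w' = r0
      · rw [h0', hcr0, hcr w h0] at hww
        exact absurd hww (by simp)
      · rw [hcr w h0, hcr w' h0'] at hww
        exact e.injective (List.cons.inj hww).1
  have hadj1 : ∀ w w', T.Adj w' w → T.dist r0 w = T.dist r0 w' + 1 → c w = e w :: c w' := by
    intro w w' hadj hd
    have hw : w ≠ r0 := by
      rintro rfl
      rw [SimpleGraph.dist_self] at hd
      omega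
    have h5 : p w = w' := huniq w _ _ (hp1 w hw) hadj (hp2 w hw) hd
    rw [hcr w hw, h5]
  have hadj2 : ∀ w w' i, c w' = i :: c w → T.Adj w w' := by
    intro w w' i hi
    have hw : w' ≠ r0 := by
      rintro rfl
      rw [hcr0] at hi
      exact absurd hi (by simp)
    rw [hcr w' hw] at hi
    have h6 : p w' = w := hinj (List.cons.inj hi).2
    have h7 := hp1 w' hw
    rwa [h6] at h7
  refine ⟨t, ⟨⟨⟨fun w => ⟨c w, by rw [hcl]; exact h w⟩, ?_⟩, ?_⟩⟩⟩
  · intro w w' hww
    exact hinj (congrArg Subtype.val hww)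
  · intro w w'
    change (treeG d t).Adj ⟨c w, _⟩ ⟨c w', _⟩ ↔ T.Adj w w'
    rw [treeG_adj]
    constructor
    · rintro (⟨i, hi⟩ | ⟨i, hi⟩)
      · exact hadj2 w w' i hi
      · exact (hadj2 w' w i hi).symm
    · intro hadj
      rcases hT.dist_eq_dist_add_one_of_adj r0 hadj with h2 | h2
      · exact Or.inr ⟨e w, hadj1 w w' hadj.symm h2⟩
      · exact Or.inl ⟨e w', hadj1 w' w hadj h2⟩

end Pool.Agent.Lib.MP_b0c2b5_co.R3
end

section

/-!
# AT, Defs: all trees in Hasse diagrams, definitions.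

Paper: MP_b0c2b5_FULL_PROOF.md (section numbers refer to it).

* `World V`: the disjoint union of finite Hasse diagrams (fibres of `fib`), `r x y`: `y` is a child of `x`, `lt` the order.
* An exact tuple is an ultrafilter `p` on a type `Ω` together with functions `x : Ω → V`; an extension is an ultrafilter `p'` on
  `Ω × Z` with `p'.map Prod.fst = p`.
* `Unk p Y b K`: the information `Y` does not know the resource `K` about the vertex `b` (paper: `K ∉ k(b|Y)`).
* `Sys W q U`: `q` an ultrafilter of large sets, `U` the set of the unknown resources (paper: the complement of `rho`).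
* `Fr U p Y b`: `b` is free over `Y`; `Kn U p Y b`: `Y |- b`, i.e. `Y` knows all resources outside `U` about `b`.
* `CA W q U p x y`: `(x, y)` is an exact pair in `C`, an arc `x → y`; `CE`: the same with any orientation.
* `Nd t m`: the nonroot nodes of the `t`-ary tree of depth `m`; a tree is `x : V` (root) and `τ : Nd t m → V`.
-/

set_option autoImplicit false

namespace Pool.Agent.Lib.MP_b0c2b5_co.AT

open LS Filter
open scoped Classical

/-! ### worlds -/

/-- a disjoint union of finite Hasse diagrams -/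
structure World (V : Type) where
  fib : V → ℕ
  r : V → V → Prop
  lt : V → V → Prop
  ho : HO r lt
  rf : ∀ x y, r x y → fib x = fib y
  fin : ∀ n, {v | fib v = n}.Finite

variable {V : Type}

/-- the reversed world -/
def World.dual (W : World V) : World V where
  fib := W.fib
  r := rev W.r
  lt := rev W.lt
  ho := W.ho.flip
  rf x y h := (W.rf y x h).symm
  fin := W.fin

@[simp] lemma World.dual_dual (W : World V) : W.dual.dual = W := rfl

/-! ### resources and knowledge -/

/-- a resource: a convex set of functions with values in `[0,1]` -/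
structure IsRes (K : Set (V → ℝ)) : Prop where
  conv : Convex ℝ K
  nn : ∀ g ∈ K, ∀ v, 0 ≤ g v
  le1 : ∀ g ∈ K, ∀ v, g v ≤ 1

/-- `Y` does not know `K` about `b` -/
def Unk {Ω D : Type} (p : Ultrafilter Ω) (Y : Ω → D) (b : Ω → V) (K : Set (V → ℝ)) : Prop :=
  ∀ g : D → V → ℝ, (∀ d, g d ∈ K) → ∀ δ : ℝ, 0 < δ → ∀ᶠ ω in (p : Filter Ω), g (Y ω) (b ω) < δ

/-- the resource of equality -/
def EQr (V : Type) : Set (V → ℝ) :=
  convexHull ℝ (Set.range (fun a : V => fun v : V => if v = a then (1 : ℝ) else 0))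

/-- the join of two resources -/
def jn (K K' : Set (V → ℝ)) : Set (V → ℝ) := convexHull ℝ (K ∪ K')

/-- `q` is an ultrafilter of large sets, `U` the set of the unknown resources of a minimal arc -/
structure Sys (W : World V) (q : Ultrafilter V) (U : Set (Set (V → ℝ))) : Prop where
  large : ∀ A ∈ q, ∀ c, ¬ ColOn W.r A c
  res : ∀ K ∈ U, IsRes K
  join : ∀ K ∈ U, ∀ K' ∈ U, jn K K' ∈ U
  eq : EQr V ∈ U
  mini : ∀ p : Ultrafilter (V × V), p.map Prod.fst = q → p.map Prod.snd = q →
    (∀ᶠ z in (p : Filter (V × V)), W.r z.1 z.2 ∨ W.r z.2 z.1) → (∀ K ∈ U, Unk p Prod.fst Prod.snd K) →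
    ∀ K, IsRes K → K ∉ U → ¬ Unk p Prod.fst Prod.snd K
  ex : ∃ p : Ultrafilter (V × V), p.map Prod.fst = q ∧ p.map Prod.snd = q ∧
    (∀ᶠ z in (p : Filter (V × V)), W.r z.1 z.2 ∨ W.r z.2 z.1) ∧ ∀ K ∈ U, Unk p Prod.fst Prod.snd K

/-- `b` is free over `Y` -/
def Fr {Ω D : Type} (U : Set (Set (V → ℝ))) (p : Ultrafilter Ω) (Y : Ω → D) (b : Ω → V) : Prop :=
  ∀ K ∈ U, Unk p Y b K

/-- `Y` knows all resources outside `U` about `b` -/
def Kn {Ω D : Type} (U : Set (Set (V → ℝ))) (p : Ultrafilter Ω) (Y : Ω → D) (b : Ω → V) : Prop :=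
  ∀ K, IsRes K → K ∉ U → ¬ Unk p Y b K

/-- `(x, y)` is an exact `C`-arc -/
structure CA {Ω : Type} (W : World V) (q : Ultrafilter V) (U : Set (Set (V → ℝ))) (p : Ultrafilter Ω)
    (x y : Ω → V) : Prop where
  qx : p.map x = q
  qy : p.map y = q
  arc : ∀ᶠ ω in (p : Filter Ω), W.r (x ω) (y ω)
  fw : Fr U p x y
  bw : Fr U p y x

/-- `(x, y)` is an exact `C`-edge -/
def CE {Ω : Type} (W : World V) (q : Ultrafilter V) (U : Set (Set (V → ℝ))) (p : Ultrafilter Ω)
    (x y : Ω → V) : Prop := CA W q U p x y ∨ CA W q U p y x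

/-- `φ` contains all exact `C`-arcs (it belongs to the filter `F_C`): finite data -/
def InFC (W : World V) (q : Ultrafilter V) (U : Set (Set (V → ℝ))) (φ : V → V → Prop) : Prop :=
  ∃ A ∈ q, ∃ K ∈ U, ∃ g g' : V → V → ℝ, (∀ x, g x ∈ K) ∧ (∀ x, g' x ∈ K) ∧ ∃ δ : ℝ, 0 < δ ∧
    ∀ x ∈ A, ∀ y ∈ A, W.r x y → g x y < δ → g' y x < δ → φ x y

/-! ### finite probabilities -/

/-- `θ` is a probability on the finite set `D` -/
structure IsPr {Z : Type} (D : Finset Z) (θ : Z → ℝ) : Prop where
  nn : ∀ z, 0 ≤ θ z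
  supp : ∀ z, z ∉ D → θ z = 0
  sum : ∑ z ∈ D, θ z = 1

/-- expectation -/
def Ex {Z : Type} (D : Finset Z) (θ : Z → ℝ) (f : Z → ℝ) : ℝ := ∑ z ∈ D, θ z * f z

/-- probability of an event -/
noncomputable def Pr {Z : Type} (D : Finset Z) (θ : Z → ℝ) (E : Z → Prop) : ℝ :=
  Ex D θ (fun z => if E z then 1 else 0)

/-- probability of an event for two independent points -/
noncomputable def Pr2 {Z Z' : Type} (D : Finset Z) (θ : Z → ℝ) (D' : Finset Z') (θ' : Z' → ℝ) (E : Z → Z' → Prop) : ℝ :=
  Ex D θ (fun z => Ex D' θ' (fun z' => if E z z' then 1 else 0))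

/-- restriction of a sequence to a set of indices -/
noncomputable def res {I : Type} (s : Finset I) (z : I → V) : I → Option V := fun i => if i ∈ s then some (z i) else none

/-- the probabilities on `D` which are spread with bound `δ` for the tests `(b, past b)`, resource `K` -/
def SP {I : Type} (past : I → Finset I) (K : Set (V → ℝ)) (δ : ℝ) (D : Finset (I → V)) : Set ((I → V) → ℝ) :=
  {θ | IsPr D θ ∧ ∀ (b : I) (h : (I → Option V) → V → ℝ), (∀ s, h s ∈ K) →
    Ex D θ (fun z => h (res (past b) z) (z b)) ≤ δ}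

/-! ### trees -/

/-- the nonroot nodes of the `t`-ary tree of depth `m`: `(i, none)` is the `i`-th child of the root, `(i, some n)` the node
`n` of the subtree at this child -/
def Nd (t : ℕ) : ℕ → Type
  | 0 => Empty
  | m + 1 => Fin t × Option (Nd t m)

noncomputable instance Nd.fintype (t : ℕ) : ∀ m, Fintype (Nd t m)
  | 0 => (inferInstance : Fintype Empty)
  | m + 1 => by
    have := Nd.fintype t m
    exact (inferInstance : Fintype (Fin t × Option (Nd t m)))

/-- the vertex at a node; the root is `none` -/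
def ev {t m : ℕ} (x : V) (τ : Nd t m → V) : Option (Nd t m) → V
  | none => x
  | some n => τ n

/-- the `i`-th child of the root -/
def rt {t m : ℕ} (τ : Nd t (m + 1) → V) (i : Fin t) : V := τ (i, none)

/-- the subtree at the `i`-th child -/
def sb {t m : ℕ} (τ : Nd t (m + 1) → V) (i : Fin t) : Nd t m → V := fun n => τ (i, some n)

/-- grafting: the tree with the children `P i` and the subtrees `T i` -/
def gr {t m : ℕ} (P : Fin t → V) (T : Fin t → Nd t m → V) : Nd t (m + 1) → V
  | (i, none) => P i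
  | (i, some n) => T i n

/-- the father of a node -/
def fa {t : ℕ} : ∀ {m : ℕ}, Nd t m → Option (Nd t m)
  | 0, n => n.elim
  | _ + 1, (_, none) => none
  | m + 1, (i, some n) => some (i, @fa t m n)

/-- the ancestors of a node (without the root and without the node) -/
noncomputable def anc {t : ℕ} : ∀ {m : ℕ}, Nd t m → Finset (Nd t m)
  | 0, n => n.elim
  | _ + 1, (_, none) => ∅
  | m + 1, (i, some n) => insert ((i, none) : Nd t (m + 1)) ((@anc t m n).image (fun n' => ((i, some n') : Nd t (m + 1))))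

/-- the nodes strictly below `a` on the branch to `n`, for `a ∈ anc n` -/
noncomputable def seg {t m : ℕ} (a n : Nd t m) : Finset (Nd t m) := insert n ((anc n).filter (fun a' => a ∈ anc a'))

/-- a conflict between two rooted trees: a common vertex or an arc from the first to the second -/
def Cross (W : World V) {t m : ℕ} (x : V) (τ : Nd t m → V) (x' : V) (τ' : Nd t m → V) : Prop :=
  ∃ a b : Option (Nd t m), ev x τ a = ev x' τ' b ∨ W.r (ev x τ a) (ev x' τ' b)

/-- no conflicts between different branches, at all levels -/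
def Ind (W : World V) {t : ℕ} : ∀ {m : ℕ}, (Nd t m → V) → Prop
  | 0, _ => True
  | m + 1, τ => (∀ i, Ind (m := m) W (sb τ i)) ∧ ∀ i j, i ≠ j → ¬ Cross W (rt τ i) (sb τ i) (rt τ j) (sb τ j)

/-- induced out-tree -/
def OutT (W : World V) {t m : ℕ} (x : V) (τ : Nd t m → V) : Prop :=
  (∀ n, W.r (ev x τ (fa n)) (τ n)) ∧ Ind W τ

/-- there is no induced out-tree -/
def NoOut (W : World V) (t d : ℕ) : Prop := ¬ ∃ (x : V) (τ : Nd t d → V), OutT W x τ

/-- forward free trees (F-trees) -/
structure IsF {Ω : Type} (W : World V) (q : Ultrafilter V) (U : Set (Set (V → ℝ))) {t m : ℕ} (p : Ultrafilter Ω)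
    (x : Ω → V) (τ : Ω → Nd t m → V) : Prop where
  qx : p.map x = q
  arc : ∀ n, CA W q U p (fun ω => ev (x ω) (τ ω) (fa n)) (fun ω => τ ω n)
  out : ∀ᶠ ω in (p : Filter Ω), OutT W (x ω) (τ ω)
  free : ∀ n, Fr U p (fun ω => (x ω, res (anc n) (τ ω))) (fun ω => τ ω n)

/-- bi-free trees -/
structure IsB {Ω : Type} (W : World V) (q : Ultrafilter V) (U : Set (Set (V → ℝ))) {t m : ℕ} (p : Ultrafilter Ω)
    (x : Ω → V) (τ : Ω → Nd t m → V) : Prop extends IsF W q U p x τ where
  bx : ∀ n, Fr U p (fun ω => res (insert n (anc n)) (τ ω)) x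
  bn : ∀ n, ∀ a ∈ anc n, Fr U p (fun ω => res (seg a n) (τ ω)) (fun ω => τ ω a)

/-! ### finite data -/

/-- finite data for F-trees -/
structure FD (W : World V) (q : Ultrafilter V) (U : Set (Set (V → ℝ))) (t m : ℕ) where
  A : Set V
  hA : A ∈ q
  φ : V → V → Prop
  hφ : InFC W q U φ
  K : Set (V → ℝ)
  hK : K ∈ U
  g0 : V → V → ℝ
  hg0 : ∀ e, g0 e ∈ K
  g : Nd t m → V → V → (Nd t m → Option V) → V → ℝ
  hg : ∀ n e p s, g n e p s ∈ K
  η : ℝ
  hη : 0 < η

/-- the branch `(p, τ)` below the root `e` satisfies the finite data: geometric part -/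
def FD.Geo {W : World V} {q : Ultrafilter V} {U : Set (Set (V → ℝ))} {t m : ℕ} (F : FD W q U t m) (e p : V)
    (τ : Nd t m → V) : Prop :=
  e ∈ F.A ∧ p ∈ F.A ∧ (∀ n, τ n ∈ F.A) ∧ W.r e p ∧ F.φ e p ∧ (∀ n, F.φ (ev p τ (fa n)) (τ n)) ∧ OutT W p τ

/-- geometric part and forward tests -/
def FD.Good {W : World V} {q : Ultrafilter V} {U : Set (Set (V → ℝ))} {t m : ℕ} (F : FD W q U t m) (e p : V)
    (τ : Nd t m → V) : Prop :=
  F.Geo e p τ ∧ F.g0 e p < F.η ∧ ∀ n, F.g n e p (res (anc n) τ) (τ n) < F.η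

/-- no tree of depth `m + 1` satisfies the finite data -/
def FD.Emp {W : World V} {q : Ultrafilter V} {U : Set (Set (V → ℝ))} {t m : ℕ} (F : FD W q U t m) : Prop :=
  ∀ (e : V) (P : Fin t → V) (T : Fin t → Nd t m → V), (∀ i, F.Good e (P i) (T i)) →
    ∃ i j, i ≠ j ∧ Cross W (P i) (T i) (P j) (T j)

/-- finite data for bi-free trees: backward functions in addition -/
structure BD (W : World V) (q : Ultrafilter V) (U : Set (Set (V → ℝ))) (t m : ℕ) extends FD W q U t m where
  b0 : V → V → ℝ
  hb0 : ∀ p, b0 p ∈ K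
  be : Nd t m → V → (Nd t m → Option V) → V → ℝ
  hbe : ∀ n p s, be n p s ∈ K
  bx : Nd t m → (Nd t m → Option V) → V → ℝ
  hbx : ∀ n s, bx n s ∈ K
  bn : Nd t m → Nd t m → (Nd t m → Option V) → V → ℝ
  hbn : ∀ n a s, bn n a s ∈ K

/-- backward tests inside a branch -/
def BD.Inn {W : World V} {q : Ultrafilter V} {U : Set (Set (V → ℝ))} {t m : ℕ} (F : BD W q U t m) (p : V)
    (τ : Nd t m → V) : Prop :=
  (∀ n, F.bx n (res (insert n (anc n)) τ) p < F.η) ∧ ∀ n, ∀ a ∈ anc n, F.bn n a (res (seg a n) τ) (τ a) < F.η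

/-- backward tests for the root `e` -/
def BD.Bck {W : World V} {q : Ultrafilter V} {U : Set (Set (V → ℝ))} {t m : ℕ} (F : BD W q U t m) (e p : V)
    (τ : Nd t m → V) : Prop :=
  F.b0 p e < F.η ∧ ∀ n, F.be n p (res (insert n (anc n)) τ) e < F.η

/-- no bi-free tree of depth `m + 1` satisfies the finite data -/
def BD.Emp {W : World V} {q : Ultrafilter V} {U : Set (Set (V → ℝ))} {t m : ℕ} (F : BD W q U t m) : Prop :=
  ∀ (e : V) (P : Fin t → V) (T : Fin t → Nd t m → V), (∀ i, F.toFD.Good e (P i) (T i) ∧ F.Inn (P i) (T i) ∧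
    F.Bck e (P i) (T i)) → ∃ i j, i ≠ j ∧ Cross W (P i) (T i) (P j) (T j)

/-- an arc from a node (or the root) of the first tree to a nonroot node of the second tree -/
def Arr (W : World V) {t m : ℕ} (x : V) (τ : Nd t m → V) (τ' : Nd t m → V) : Prop :=
  ∃ (a : Option (Nd t m)) (n : Nd t m), W.r (ev x τ a) (τ' n)

/-- free `C`-path from `v` -/
structure FPath {Ω : Type} (W : World V) (q : Ultrafilter V) (U : Set (Set (V → ℝ))) (p : Ultrafilter Ω) {M : ℕ}
    (v : Ω → V) (w : Ω → Fin (M + 1) → V) : Prop where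
  e0 : CE W q U p v (fun ω => w ω 0)
  e : ∀ i : Fin M, CE W q U p (fun ω => w ω i.castSucc) (fun ω => w ω i.succ)
  free : ∀ i, Fr U p (fun ω => (v ω, res (Finset.Iio i) (w ω))) (fun ω => w ω i)

end Pool.Agent.Lib.MP_b0c2b5_co.AT
end

section

/-!
# AT, Red: reduction of the theorem on Hasse diagrams of finite posets to worlds.

* `Red_arc`, `Red_inj`: an `OutT` tree is an induced tree.
* `Red_emb`: an `OutT` tree gives an embedding of `treeG d t` into the cover graph.
* `exists_q`: an ultrafilter of large sets.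
* `final`: the theorem from the statement about worlds.
-/

set_option autoImplicit false

namespace Pool.Agent.Lib.MP_b0c2b5_co.AT

open LS Filter R3
open scoped Classical

universe u v

variable {V : Type}

/-! ### trees -/

theorem Red_ev_sb {t m : ℕ} (x : V) (τ : Nd t (m + 1) → V) (i : Fin t) (a : Option (Nd t m)) :
    ev (rt τ i) (sb τ i) a = ev x τ (some ((i, a) : Nd t (m + 1))) := by
  rcases a with _ | n
  · rfl
  · rfl

theorem Red_sb {W : World V} {t m : ℕ} {x : V} {τ : Nd t (m + 1) → V} (h : OutT W x τ) (i : Fin t) :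
    OutT W (rt τ i) (sb τ i) := by
  refine ⟨?_, h.2.1 i⟩
  intro n
  have h1 := h.1 ((i, some n) : Nd t (m + 1))
  rw [Red_ev_sb x τ i (fa n)]
  exact h1

theorem Red_rt {W : World V} {t m : ℕ} {x : V} {τ : Nd t (m + 1) → V} (h : OutT W x τ) (i : Fin t) :
    W.r x (rt τ i) := h.1 ((i, none) : Nd t (m + 1))

theorem Red_lt {W : World V} {t : ℕ} : ∀ {m : ℕ} {x : V} {τ : Nd t m → V}, OutT W x τ → ∀ n, W.lt x (τ n)
  | 0, _, _, _, n => n.elim
  | _ + 1, _, _, h, (i, none) => W.ho.arc _ _ (Red_rt h i)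
  | _ + 1, _, _, h, (i, some n) => W.ho.trans _ _ _ (W.ho.arc _ _ (Red_rt h i)) (Red_lt (Red_sb h i) n)

/-- the only arcs of the tree are the arcs from the fathers -/
theorem Red_arc {W : World V} {t : ℕ} : ∀ {m : ℕ} {x : V} {τ : Nd t m → V}, OutT W x τ →
    ∀ a b : Option (Nd t m), W.r (ev x τ a) (ev x τ b) ↔ ∃ n, b = some n ∧ fa n = a := by
  intro m
  induction m with
  | zero =>
    intro x τ _ a b
    rcases a with _ | a
    · rcases b with _ | b
      · constructor
        · intro h
          exact absurd (W.ho.arc _ _ h) (W.ho.irr _)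
        · rintro ⟨n, _, _⟩
          exact n.elim
      · exact b.elim
    · exact a.elim
  | succ m ih =>
    intro x τ h a b
    rcases a with _ | ⟨i, a⟩
    · rcases b with _ | ⟨j, b⟩
      · constructor
        · intro h
          exact absurd (W.ho.arc _ _ h) (W.ho.irr _)
        · rintro ⟨n, hn, _⟩
          exact absurd hn (by simp)
      · rcases b with _ | b
        · constructor
          · intro _
            exact ⟨_, rfl, rfl⟩
          · intro _
            exact Red_rt h j
        · constructor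
          · intro h1
            have h2 : W.lt x (rt τ j) := W.ho.arc _ _ (Red_rt h j)
            have h3 : W.lt (rt τ j) (τ ((j, some b) : Nd t (m + 1))) := Red_lt (Red_sb h j) b
            exact absurd h3 (W.ho.sf _ _ _ h1 h2)
          · rintro ⟨n, hn, hn2⟩
            obtain rfl : ((j, some b) : Nd t (m + 1)) = n := Option.some.inj hn
            exact absurd hn2 (by
              change (some ((j, fa b) : Nd t (m + 1))) ≠ none
              simp)
    · rcases b with _ | ⟨j, b⟩
      · constructor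
        · intro h1
          have h2 : W.lt x (τ ((i, a) : Nd t (m + 1))) := Red_lt h _
          exact absurd (W.ho.trans _ _ _ h2 (W.ho.arc _ _ h1)) (W.ho.irr _)
        · rintro ⟨n, hn, _⟩
          exact absurd hn (by simp)
      · by_cases hij : i = j
        · subst hij
          have h1 := ih (Red_sb h i) a b
          rw [Red_ev_sb x τ i a, Red_ev_sb x τ i b] at h1
          refine h1.trans ?_
          constructor
          · rintro ⟨n, rfl, hn⟩
            refine ⟨_, rfl, ?_⟩
            change (some ((i, fa n) : Nd t (m + 1))) = _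
            rw [hn]
            rfl
          · rintro ⟨n, hn, hn2⟩
            obtain rfl : ((i, b) : Nd t (m + 1)) = n := Option.some.inj hn
            rcases b with _ | n
            · exact absurd hn2 (by
                change (none : Option (Nd t (m + 1))) ≠ _
                simp)
            · refine ⟨n, rfl, ?_⟩
              have h3 : (some ((i, fa n) : Nd t (m + 1))) = some ((i, a) : Nd t (m + 1)) := hn2
              exact (Prod.mk.inj (Option.some.inj h3)).2
        · constructor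
          · intro h1
            exact absurd ⟨a, b, Or.inr (by
              rw [Red_ev_sb x τ i a, Red_ev_sb x τ j b]
              exact h1)⟩ (h.2.2 i j hij)
          · rintro ⟨n, hn, hn2⟩
            obtain rfl : ((j, b) : Nd t (m + 1)) = n := Option.some.inj hn
            rcases b with _ | n
            · exact absurd hn2 (by
                change (none : Option (Nd t (m + 1))) ≠ _
                simp)
            · have h3 : (some ((j, fa n) : Nd t (m + 1))) = some ((i, a) : Nd t (m + 1)) := hn2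
              exact absurd (Prod.mk.inj (Option.some.inj h3)).1.symm hij

/-- the vertices of the tree are different -/
theorem Red_inj {W : World V} {t : ℕ} : ∀ {m : ℕ} {x : V} {τ : Nd t m → V}, OutT W x τ →
    ∀ a b : Option (Nd t m), ev x τ a = ev x τ b → a = b := by
  intro m
  induction m with
  | zero =>
    intro x τ _ a b _
    rcases a with _ | a
    · rcases b with _ | b
      · rfl
      · exact b.elim
    · exact a.elim
  | succ m ih =>
    intro x τ h a b hab
    have hroot : ∀ n, x ≠ τ n := by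
      intro n hn
      have h2 := Red_lt h n
      rw [← hn] at h2
      exact W.ho.irr _ h2
    rcases a with _ | ⟨i, a⟩
    · rcases b with _ | ⟨j, b⟩
      · rfl
      · exact absurd hab (hroot _)
    · rcases b with _ | ⟨j, b⟩
      · exact absurd hab.symm (hroot _)
      · by_cases hij : i = j
        · subst hij
          have h1 := ih (Red_sb h i) a b
          rw [Red_ev_sb x τ i a, Red_ev_sb x τ i b] at h1
          rw [h1 hab]
        · exact absurd ⟨a, b, Or.inl (by
              rw [Red_ev_sb x τ i a, Red_ev_sb x τ j b]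
              exact hab)⟩ (h.2.2 i j hij)

/-- the node at the end of a path from the root -/
def RedNode {t : ℕ} : ∀ (m : ℕ), List (Fin t) → Option (Nd t m)
  | 0, _ => none
  | _ + 1, [] => none
  | m + 1, i :: l => some ((i, RedNode m l) : Nd t (m + 1))

theorem Red_node_snoc {t : ℕ} : ∀ (m : ℕ) (l : List (Fin t)) (i : Fin t), l.length < m →
    ∃ n, RedNode m (l ++ [i]) = some n ∧ fa n = RedNode m l := by
  intro m
  induction m with
  | zero =>
    intro l i h
    exact absurd h (Nat.not_lt_zero _)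
  | succ m ih =>
    intro l i h
    rcases l with _ | ⟨j, l⟩
    · refine ⟨((i, RedNode m []) : Nd t (m + 1)), rfl, ?_⟩
      have h1 : (RedNode m ([] : List (Fin t))) = none := by
        cases m
        · rfl
        · rfl
      rw [h1]
      rfl
    · obtain ⟨n, hn1, hn2⟩ := ih l i (by
        rw [List.length_cons] at h
        omega)
      refine ⟨((j, some n) : Nd t (m + 1)), ?_, ?_⟩
      · change some ((j, RedNode m (l ++ [i])) : Nd t (m + 1)) = _
        rw [hn1]
        rfl
      · change some ((j, fa n) : Nd t (m + 1)) = some ((j, RedNode m l) : Nd t (m + 1))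
        rw [hn2]

theorem Red_node_inj {t : ℕ} : ∀ (m : ℕ) (l l' : List (Fin t)), l.length ≤ m → l'.length ≤ m →
    RedNode m l = RedNode m l' → l = l' := by
  intro m
  induction m with
  | zero =>
    intro l l' hl hl' _
    rw [List.eq_nil_of_length_eq_zero (Nat.le_zero.1 hl), List.eq_nil_of_length_eq_zero (Nat.le_zero.1 hl')]
  | succ m ih =>
    intro l l' hl hl' h
    rcases l with _ | ⟨i, l⟩
    · rcases l' with _ | ⟨j, l'⟩
      · rfl
      · exact absurd h (by
          change none ≠ some ((j, RedNode m l') : Nd t (m + 1))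
          simp)
    · rcases l' with _ | ⟨j, l'⟩
      · exact absurd h (by
          change some ((i, RedNode m l) : Nd t (m + 1)) ≠ none
          simp)
      · have h1 : some ((i, RedNode m l) : Nd t (m + 1)) = some ((j, RedNode m l') : Nd t (m + 1)) := h
        obtain ⟨h2, h3⟩ := Prod.mk.inj (Option.some.inj h1)
        rw [List.length_cons] at hl hl'
        rw [h2, ih l l' (by omega) (by omega) h3]

/-- the tree contains `treeG m t` -/
theorem Red_emb {W : World V} {t m : ℕ} {x : V} {τ : Nd t m → V} (h : OutT W x τ) :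
    ∃ f : {l : List (Fin t) // l.length ≤ m} → V, Function.Injective f ∧
      (∀ s s', W.r (f s) (f s') ↔ ∃ i, s'.1 = i :: s.1) ∧ ∀ s, f s = x ∨ W.lt x (f s) := by
  refine ⟨fun s => ev x τ (RedNode m s.1.reverse), ?_, ?_, ?_⟩
  · intro s s' hss
    have h1 := Red_inj h _ _ hss
    have h2 := Red_node_inj m _ _ (by rw [List.length_reverse]; exact s.2) (by rw [List.length_reverse]; exact s'.2) h1
    exact Subtype.ext (List.reverse_injective h2)
  · intro s s'
    rw [Red_arc h]
    constructor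
    · rintro ⟨n, hn1, hn2⟩
      rcases hs : s'.1.reverse with _ | ⟨i, l⟩
      · rw [hs] at hn1
        exact absurd hn1 (by
          cases m
          · simp [RedNode]
          · simp [RedNode])
      · -- write the reversed list as l' ++ [j]
        have hne : s'.1 ≠ [] := by
          intro h0
          rw [h0] at hs
          simp at hs
        obtain ⟨j, l', hl'⟩ := List.exists_cons_of_ne_nil hne
        have hlen : l'.length < m := by
          have := s'.2
          rw [hl', List.length_cons] at this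
          omega
        obtain ⟨n', hn1', hn2'⟩ := Red_node_snoc m l'.reverse j (by rw [List.length_reverse]; exact hlen)
        have h3 : s'.1.reverse = l'.reverse ++ [j] := by
          rw [hl', List.reverse_cons]
        rw [h3, hn1'] at hn1
        obtain rfl := Option.some.inj hn1
        rw [hn2'] at hn2
        have h4 := Red_node_inj m _ _ (by rw [List.length_reverse]; exact hlen.le) (by rw [List.length_reverse]; exact s.2) hn2
        refine ⟨j, ?_⟩
        rw [hl', List.reverse_injective h4]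
    · rintro ⟨i, hi⟩
      have hlen : s.1.length < m := by
        have := s'.2
        rw [hi, List.length_cons] at this
        omega
      obtain ⟨n, hn1, hn2⟩ := Red_node_snoc m s.1.reverse i (by rw [List.length_reverse]; exact hlen)
      refine ⟨n, ?_, hn2⟩
      rw [hi, List.reverse_cons]
      exact hn1
  · intro s
    dsimp only
    rcases RedNode m s.1.reverse with _ | n
    · exact Or.inl rfl
    · exact Or.inr (Red_lt h n)

/-! ### colourings -/

theorem Red_col_union {r : V → V → Prop} {A B : Set V} {c c' : ℕ} (hA : ColOn r A c) (hB : ColOn r B c') :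
    ColOn r (A ∪ B) (c + c') := by
  obtain ⟨f, h1, h2⟩ := hA
  obtain ⟨f', h1', h2'⟩ := hB
  refine ⟨fun x => if x ∈ A then f x else c + f' x, ?_, ?_⟩
  · intro x hx
    by_cases hxA : x ∈ A
    · simp only [hxA, if_true]
      have := h1 x hxA
      omega
    · simp only [hxA, if_false]
      have := h1' x (hx.resolve_left hxA)
      omega
  · intro x hx y hy hxy
    by_cases hxA : x ∈ A <;> by_cases hyA : y ∈ A
    · simp only [hxA, hyA, if_true]
      exact h2 x hxA y hyA hxy
    · simp only [hxA, hyA, if_true, if_false]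
      have := h1 x hxA
      omega
    · simp only [hxA, hyA, if_true, if_false]
      have := h1 y hyA
      omega
    · simp only [hxA, hyA, if_false]
      have := h2' x (hx.resolve_left hxA) y (hy.resolve_left hyA) hxy
      omega

/-- an ultrafilter of large sets -/
theorem exists_q (r : V → V → Prop) (h : ¬ ∃ c, ColOn r (Set.univ : Set V) c) :
    ∃ q : Ultrafilter V, ∀ A ∈ q, ∀ c, ¬ ColOn r A c := by
  let F : Filter V :=
    { sets := {A | ∃ c, ColOn r Aᶜ c}
      univ_sets := by
        refine ⟨0, fun _ => 0, ?_, ?_⟩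
        · intro v hv
          exact absurd (Set.mem_univ v) hv
        · intro v hv
          exact absurd (Set.mem_univ v) hv
      sets_of_superset := by
        rintro A B ⟨c, f, h1, h2⟩ hAB
        exact ⟨c, f, fun v hv => h1 v (fun h3 => hv (hAB h3)), fun x hx y hy hxy =>
          h2 x (fun h3 => hx (hAB h3)) y (fun h3 => hy (hAB h3)) hxy⟩
      inter_sets := by
        rintro A B ⟨c, hA⟩ ⟨c', hB⟩
        refine ⟨c + c', ?_⟩
        rw [Set.compl_inter]
        exact Red_col_union hA hB }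
  have hF : F.NeBot := by
    rw [Filter.neBot_iff]
    intro h0
    have h1 : (∅ : Set V) ∈ F := by
      rw [h0]
      exact Filter.mem_bot
    have h2 : ∃ c, ColOn r (∅ : Set V)ᶜ c := h1
    rw [Set.compl_empty] at h2
    exact h h2
  refine ⟨Ultrafilter.of F, ?_⟩
  intro A hA c hcol
  have h1 : Aᶜ ∈ F := by
    refine ⟨c, ?_⟩
    rwa [compl_compl]
  have h2 : Aᶜ ∈ (Ultrafilter.of F) := Ultrafilter.of_le F h1
  exact Ultrafilter.compl_notMem_iff.2 hA h2

/-! ### from posets to worlds -/

/-- the reduction -/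
theorem Red_main (t d : ℕ)
    (hmain : ∀ (V : Type) (W : World V), NoOut W t d → NoOut W.dual t d → ∃ c, ColOn W.r (Set.univ : Set V) c) :
    ∃ C : ℕ, ∀ (P : Type u) [Finite P] [PartialOrder P], IsEmpty (treeG d t ↪g SimpleGraph.hasse P) →
      (SimpleGraph.hasse P).Colorable C := by
  by_contra hcon
  push Not at hcon
  choose P hfin hpo hT hcol using hcon
  have he : ∀ n, Nonempty (P n ≃ Fin (Nat.card (P n))) := fun n => ⟨Finite.equivFin (P n)⟩
  let e : ∀ n, P n ≃ Fin (Nat.card (P n)) := fun n => Classical.choice (he n)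
  let V : Type := Σ n : ℕ, Fin (Nat.card (P n))
  let lt : V → V → Prop := fun x y => ∃ h : x.1 = y.1, (e y.1).symm (h ▸ x.2) < (e y.1).symm y.2
  let pt : ∀ n, P n → V := fun n a => ⟨n, e n a⟩
  have lt_iff : ∀ n (a b : P n), lt (pt n a) (pt n b) ↔ a < b := by
    intro n a b
    constructor
    · rintro ⟨_, h⟩
      simpa [pt] using h
    · intro h
      exact ⟨rfl, by simpa [pt] using h⟩
  have lt_fib : ∀ x y, lt x y → x.1 = y.1 := fun x y h => h.1
  have pt_fst : ∀ n a, (pt n a).1 = n := fun _ _ => rfl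
  have surj : ∀ x : V, ∃ a, x = pt x.1 a := by
    rintro ⟨n, i⟩
    exact ⟨(e n).symm i, by simp [pt]⟩
  have surj' : ∀ (n : ℕ) (x : V), x.1 = n → ∃ a, x = pt n a := by
    rintro n x rfl
    exact surj x
  let r : V → V → Prop := fun x y => lt x y ∧ ∀ z, lt x z → ¬ lt z y
  have r_iff : ∀ n (a b : P n), r (pt n a) (pt n b) ↔ a ⋖ b := by
    intro n a b
    constructor
    · rintro ⟨h1, h2⟩
      rw [lt_iff] at h1
      refine ⟨h1, ?_⟩
      intro c hac hcb
      exact h2 (pt n c) ((lt_iff n a c).2 hac) ((lt_iff n c b).2 hcb)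
    · rintro ⟨h1, h2⟩
      refine ⟨(lt_iff n a b).2 h1, ?_⟩
      intro z hac hcb
      obtain ⟨c, rfl⟩ := surj' n z (lt_fib _ _ hac).symm
      exact h2 ((lt_iff n a c).1 hac) ((lt_iff n c b).1 hcb)
  let W : World V :=
    { fib := fun x => x.1
      r := r
      lt := lt
      ho :=
        { irr := by
            intro x h
            obtain ⟨a, ha⟩ := surj x
            rw [ha, lt_iff] at h
            exact lt_irrefl _ h
          trans := by
            intro x y z hxy hyz
            obtain ⟨n, hn⟩ : ∃ n, z.1 = n := ⟨_, rfl⟩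
            obtain ⟨a, rfl⟩ := surj' n x (((lt_fib _ _ hxy).trans (lt_fib _ _ hyz)).trans hn)
            obtain ⟨b, rfl⟩ := surj' n y ((lt_fib _ _ hyz).trans hn)
            obtain ⟨c, rfl⟩ := surj' n z hn
            rw [lt_iff] at hxy hyz ⊢
            exact hxy.trans hyz
          arc := fun x y h => h.1
          sf := fun x y z h => h.2 z }
      rf := fun x y h => lt_fib x y h.1
      fin := by
        intro n
        have h1 : {x : V | x.1 = n} ⊆ Set.range (pt n) := by
          intro x hx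
          obtain ⟨a, ha⟩ := surj' n x hx
          exact ⟨a, ha.symm⟩
        exact (Set.finite_range _).subset h1 }
  -- an induced out-tree lies in one fibre
  have key : ∀ (W' : World V), W'.fib = W.fib → (∀ n (a b : P n), (W'.r (pt n a) (pt n b) ∨ W'.r (pt n b) (pt n a)) ↔ (a ⋖ b ∨ b ⋖ a)) →
      (∀ x y, W'.lt x y → x.1 = y.1) → NoOut W' t d := by
    rintro W' hf hr hlt ⟨x, τ, h⟩
    obtain ⟨f, hf1, hf2, hf3⟩ := Red_emb h
    have h1 : ∀ s, (f s).1 = x.1 := by
      intro s
      rcases hf3 s with h2 | h2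
      · rw [h2]
      · exact (hlt _ _ h2).symm
    have h2 : ∀ s, ∃ a : P x.1, f s = pt x.1 a := fun s => surj' x.1 (f s) (h1 s)
    choose g hg using h2
    refine (hT x.1).false ⟨⟨g, ?_⟩, ?_⟩
    · intro s s' hss
      apply hf1
      rw [hg s, hg s', hss]
    · intro s s'
      change (SimpleGraph.hasse (P x.1)).Adj (g s) (g s') ↔ (treeG d t).Adj s s'
      rw [SimpleGraph.hasse_adj, treeG_adj, ← hr, ← hg s, ← hg s', hf2, hf2]
  have hO : NoOut W t d := by
    refine key W rfl ?_ lt_fib
    intro n a b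
    change r _ _ ∨ r _ _ ↔ _
    rw [r_iff, r_iff]
  have hI : NoOut W.dual t d := by
    refine key W.dual rfl ?_ (fun x y h => (lt_fib y x h).symm)
    intro n a b
    change r _ _ ∨ r _ _ ↔ _
    rw [r_iff, r_iff, or_comm]
  obtain ⟨c, f, hf1, hf2⟩ := hmain V W hO hI
  apply hcol c
  refine ⟨SimpleGraph.Coloring.mk (fun a => (⟨f (pt c a), hf1 _ (Set.mem_univ _)⟩ : Fin c)) ?_⟩
  intro a b hab heq
  have h2 : f (pt c a) = f (pt c b) := congrArg Fin.val heq
  rcases (SimpleGraph.hasse_adj (a := a) (b := b)).1 hab with h3 | h3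
  · exact hf2 _ (Set.mem_univ _) _ (Set.mem_univ _) ((r_iff c a b).2 h3) h2
  · exact hf2 _ (Set.mem_univ _) _ (Set.mem_univ _) ((r_iff c b a).2 h3) h2.symm

/-- the theorem on Hasse diagrams from the statement about worlds -/
theorem final
    (hmain : ∀ (t d : ℕ) (V : Type) (W : World V), NoOut W t d → NoOut W.dual t d →
      ∃ c, ColOn W.r (Set.univ : Set V) c)
    {W : Type v} [Finite W] (T : SimpleGraph W) (hT : T.IsTree) :
    ∃ C : ℕ, ∀ (P : Type u) [Finite P] [PartialOrder P],
      IsEmpty (T ↪g SimpleGraph.hasse P) → (SimpleGraph.hasse P).Colorable C := by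
  obtain ⟨r0⟩ := hT.connected.nonempty
  obtain ⟨d, hd⟩ : ∃ d : ℕ, ∀ w, T.dist r0 w ≤ d := by
    obtain ⟨d, hd⟩ := (Set.finite_range (fun w => T.dist r0 w)).bddAbove
    exact ⟨d, fun w => hd ⟨w, rfl⟩⟩
  obtain ⟨t, ⟨e⟩⟩ := tree_emb T hT d r0 hd
  obtain ⟨C, hC⟩ := Red_main.{u} t d (hmain t d)
  refine ⟨C, ?_⟩
  intro P _ _ hP
  exact hC P ⟨fun g => hP.false (e.trans g)⟩

end Pool.Agent.Lib.MP_b0c2b5_co.AT
end

section

/-!
# AT, K4: compactness; choosing a point.

PROOFS. `cpt`: the filter generated by `Filter.comap Prod.fst p` and `F` is proper; `Ultrafilter.of`; an ultrafilter `≤ comap fst p` maps to `p`. `pick`: otherwise `Pr E ≤ Σ Pr (B j)`.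
-/

set_option autoImplicit false

namespace Pool.Agent.Lib.MP_b0c2b5_co.AT

open LS Filter
open scoped Classical

variable {V : Type}

/-- compactness: exact extensions -/
theorem cpt {Ω Z : Type} (p : Ultrafilter Ω) (F : Set (Set (Ω × Z))) (hne : F.Nonempty)
    (hF : ∀ a ∈ F, ∀ b ∈ F, a ∩ b ∈ F)
    (h : ∀ a ∈ F, ∀ᶠ ω in (p : Filter Ω), ∃ z, (ω, z) ∈ a) :
    ∃ p' : Ultrafilter (Ω × Z), p'.map Prod.fst = p ∧ ∀ a ∈ F, a ∈ p' := by
  have hne' : Nonempty F := hne.to_subtype
  let L : F → Filter (Ω × Z) := fun a => Filter.comap Prod.fst (p : Filter Ω) ⊓ 𝓟 (a : Set (Ω × Z))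
  have hdir : Directed (· ≥ ·) L := by
    intro a b
    refine ⟨⟨a.1 ∩ b.1, hF a.1 a.2 b.1 b.2⟩, ?_, ?_⟩
    · exact inf_le_inf_left _ (principal_mono.2 Set.inter_subset_left)
    · exact inf_le_inf_left _ (principal_mono.2 Set.inter_subset_right)
  have hb : ∀ a, (L a).NeBot := by
    intro a
    show (Filter.comap Prod.fst (p : Filter Ω) ⊓ 𝓟 (a : Set (Ω × Z))).NeBot
    rw [Filter.inf_principal_neBot_iff]
    intro s hs
    obtain ⟨t, ht, hts⟩ := Filter.mem_comap.1 hs
    have h1 := h a.1 a.2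
    obtain ⟨ω, h2, z, h3⟩ := (Filter.Eventually.and (show ∀ᶠ ω in (p : Filter Ω), ω ∈ t from ht) h1).exists
    exact ⟨(ω, z), hts h2, h3⟩
  have hNe : (⨅ a, L a).NeBot := Filter.iInf_neBot_of_directed' hdir hb
  refine ⟨@Ultrafilter.of _ (⨅ a, L a) hNe, ?_, ?_⟩
  · apply Ultrafilter.coe_injective
    have h1 : ((@Ultrafilter.of _ (⨅ a, L a) hNe : Ultrafilter (Ω × Z)) : Filter (Ω × Z)) ≤ Filter.comap Prod.fst (p : Filter Ω) := by
      refine le_trans (Ultrafilter.of_le _) ?_
      exact le_trans (iInf_le _ hne'.some) inf_le_left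
    have h2 : (((@Ultrafilter.of _ (⨅ a, L a) hNe).map Prod.fst : Ultrafilter Ω) : Filter Ω) ≤ p := by
      rw [Ultrafilter.coe_map]
      exact Filter.map_le_iff_le_comap.2 h1
    exact congrArg _ (Ultrafilter.eq_of_le h2)
  · intro a ha
    have h1 : ((@Ultrafilter.of _ (⨅ a, L a) hNe : Ultrafilter (Ω × Z)) : Filter (Ω × Z)) ≤ 𝓟 a := by
      refine le_trans (Ultrafilter.of_le _) ?_
      exact le_trans (iInf_le _ ⟨a, ha⟩) inf_le_right
    exact Filter.le_principal_iff.1 h1

/-- a point which avoids finitely many bad events -/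
theorem pick {Z J : Type} [Fintype J] (D : Finset Z) (θ : Z → ℝ) (hθ : IsPr D θ) (E : Z → Prop) (B : J → Z → Prop)
    (ε : J → ℝ) (hB : ∀ j, Pr D θ (B j) ≤ ε j) (h : ∑ j, ε j < Pr D θ E) : ∃ z ∈ D, E z ∧ ∀ j, ¬ B j z := by
  by_contra hn
  have hcov : ∀ z ∈ D, E z → ∃ j, B j z := by
    intro z hz hE
    by_contra hc
    exact hn ⟨z, hz, hE, fun j hj => hc ⟨j, hj⟩⟩
  have h1 : Pr D θ E ≤ ∑ j, Pr D θ (B j) := by
    unfold Pr Ex
    rw [Finset.sum_comm]
    apply Finset.sum_le_sum
    intro z hz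
    rw [← Finset.mul_sum]
    apply mul_le_mul_of_nonneg_left _ (hθ.nn z)
    show (if E z then (1 : ℝ) else 0) ≤ ∑ i, (if B i z then (1 : ℝ) else 0)
    by_cases hE : E z
    · obtain ⟨j, hj⟩ := hcov z hz hE
      rw [if_pos hE]
      have h2 : (if B j z then (1 : ℝ) else 0) ≤ ∑ i, (if B i z then (1 : ℝ) else 0) :=
        Finset.single_le_sum (f := fun i => if B i z then (1 : ℝ) else 0)
          (fun i _ => by show (0 : ℝ) ≤ if B i z then 1 else 0; split_ifs <;> norm_num) (Finset.mem_univ j)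
      rw [if_pos hj] at h2
      exact h2
    · rw [if_neg hE]
      apply Finset.sum_nonneg
      intro i _
      split_ifs <;> norm_num
  have h2 : ∑ j, Pr D θ (B j) ≤ ∑ j, ε j := Finset.sum_le_sum (fun j _ => hB j)
  linarith

end Pool.Agent.Lib.MP_b0c2b5_co.AT
end

section

/-!
# AT, K1: knowledge (paper 1.1, 1.2, 1.3).

PROOFS. `Unk.comp`: use the map `g ∘ f`. `not_unk_iff`: `Ultrafilter.eventually_not`. `unk_jn`: a member of `convexHull (K ∪ K')` for convex `K, K'` is `α k + (1-α) k'` (or in `K` or in `K'`); choose `k d ∈ K`, `k' d ∈ K'`, one of the two is known with the same `δ` (ultrafilter); if `K` or `K'` is empty it is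
the other one (if `D` is empty then `Ω` is empty). `combine`: induction on the finite set of tests, or directly: `K'` := join of all `K j` and of `EQr V` (which is nonempty as `V` is nonempty: `q` is an ultrafilter), `g' d` := the mean of the `g j d`, `η' := (min η j) / (card J)`; `g j d v ≥ 0` by `S.res`. If `J` is empty: `K' := EQr V`.
-/

set_option autoImplicit false

namespace Pool.Agent.Lib.MP_b0c2b5_co.AT

open LS Filter
open scoped Classical

variable {V : Type}

theorem Unk.comp {Ω D D' : Type} {p : Ultrafilter Ω} {Y : Ω → D} {Y' : Ω → D'} {b : Ω → V} {K : Set (V → ℝ)}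
    (f : D → D') (hf : ∀ᶠ ω in (p : Filter Ω), Y' ω = f (Y ω)) (h : Unk p Y b K) : Unk p Y' b K := by
  intro g hg δ hδ
  filter_upwards [h (fun d => g (f d)) (fun d => hg _) δ hδ, hf] with ω h1 h2
  rw [h2]
  exact h1

theorem Unk.congr {Ω D : Type} {p : Ultrafilter Ω} {Y : Ω → D} {b b' : Ω → V} {K : Set (V → ℝ)}
    (hb : ∀ᶠ ω in (p : Filter Ω), b' ω = b ω) (h : Unk p Y b K) : Unk p Y b' K := by
  intro g hg δ hδ
  filter_upwards [h g hg δ hδ, hb] with ω h1 h2
  rw [h2]
  exact h1

theorem unk_map {Ω Ω' D : Type} (p : Ultrafilter Ω) (e : Ω → Ω') (Y : Ω' → D) (b : Ω' → V) (K : Set (V → ℝ)) :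
    Unk (p.map e) Y b K ↔ Unk p (fun ω => Y (e ω)) (fun ω => b (e ω)) K := by
  unfold Unk
  simp only [Ultrafilter.coe_map, Filter.eventually_map]

theorem Unk.mono {Ω D : Type} {p : Ultrafilter Ω} {Y : Ω → D} {b : Ω → V} {K K' : Set (V → ℝ)} (hK : K' ⊆ K)
    (h : Unk p Y b K) : Unk p Y b K' := by
  intro g hg δ hδ
  exact h g (fun d => hK (hg d)) δ hδ

theorem not_unk_iff {Ω D : Type} {p : Ultrafilter Ω} {Y : Ω → D} {b : Ω → V} {K : Set (V → ℝ)} :
    ¬ Unk p Y b K ↔ ∃ g : D → V → ℝ, (∀ d, g d ∈ K) ∧ ∃ δ : ℝ, 0 < δ ∧ ∀ᶠ ω in (p : Filter Ω), δ ≤ g (Y ω) (b ω) := by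
  constructor
  · intro h
    by_contra hc
    apply h
    intro g hg δ hδ
    by_contra hn
    apply hc
    refine ⟨g, hg, δ, hδ, ?_⟩
    have h1 := Ultrafilter.eventually_not.2 hn
    filter_upwards [h1] with ω hω
    exact not_lt.1 hω
  · rintro ⟨g, hg, δ, hδ, h⟩ hu
    have h1 := hu g hg δ hδ
    obtain ⟨ω, h2, h3⟩ := (h.and h1).exists
    exact absurd h3 (not_lt.2 h2)

theorem isRes_jn {K K' : Set (V → ℝ)} (hK : IsRes K) (hK' : IsRes K') : IsRes (jn K K') := by
  have hc0 : Convex ℝ {g : V → ℝ | ∀ v, 0 ≤ g v} := by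
    intro x hx y hy a b ha hb _ v
    exact add_nonneg (mul_nonneg ha (hx v)) (mul_nonneg hb (hy v))
  have hc1 : Convex ℝ {g : V → ℝ | ∀ v, g v ≤ 1} := by
    intro x hx y hy a b ha hb hab v
    have h1 : a * x v ≤ a * 1 := mul_le_mul_of_nonneg_left (hx v) ha
    have h2 : b * y v ≤ b * 1 := mul_le_mul_of_nonneg_left (hy v) hb
    show a * x v + b * y v ≤ 1
    linarith
  refine ⟨convex_convexHull ℝ _, ?_, ?_⟩
  · intro g hg
    exact convexHull_min (s := K ∪ K') (t := {g : V → ℝ | ∀ v, 0 ≤ g v})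
      (by rintro g (h | h); exacts [hK.nn g h, hK'.nn g h]) hc0 hg
  · intro g hg
    exact convexHull_min (s := K ∪ K') (t := {g : V → ℝ | ∀ v, g v ≤ 1})
      (by rintro g (h | h); exacts [hK.le1 g h, hK'.le1 g h]) hc1 hg

theorem isRes_EQ : IsRes (EQr V) := by
  have hc0 : Convex ℝ {g : V → ℝ | ∀ v, 0 ≤ g v} := by
    intro x hx y hy a b ha hb _ v
    exact add_nonneg (mul_nonneg ha (hx v)) (mul_nonneg hb (hy v))
  have hc1 : Convex ℝ {g : V → ℝ | ∀ v, g v ≤ 1} := by
    intro x hx y hy a b ha hb hab v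
    have h1 : a * x v ≤ a * 1 := mul_le_mul_of_nonneg_left (hx v) ha
    have h2 : b * y v ≤ b * 1 := mul_le_mul_of_nonneg_left (hy v) hb
    show a * x v + b * y v ≤ 1
    linarith
  refine ⟨convex_convexHull ℝ _, ?_, ?_⟩
  · intro g hg
    refine convexHull_min (t := {g : V → ℝ | ∀ v, 0 ≤ g v}) ?_ hc0 hg
    rintro _ ⟨a, rfl⟩ v
    show (0 : ℝ) ≤ if v = a then 1 else 0
    split_ifs <;> norm_num
  · intro g hg
    refine convexHull_min (t := {g : V → ℝ | ∀ v, g v ≤ 1}) ?_ hc1 hg
    rintro _ ⟨a, rfl⟩ v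
    show (if v = a then (1 : ℝ) else 0) ≤ 1
    split_ifs <;> norm_num

theorem unk_jn {Ω D : Type} {p : Ultrafilter Ω} {Y : Ω → D} {b : Ω → V} {K K' : Set (V → ℝ)} (hK : IsRes K)
    (hK' : IsRes K') (h : Unk p Y b K) (h' : Unk p Y b K') : Unk p Y b (jn K K') := by
  by_contra hn
  obtain ⟨g, hg, δ, hδ, hev⟩ := not_unk_iff.1 hn
  rcases Set.eq_empty_or_nonempty K with hK0 | hK0
  · have hg' : ∀ d, g d ∈ K' := by
      intro d
      have := hg d
      unfold jn at this
      rw [hK0, Set.empty_union, hK'.conv.convexHull_eq] at this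
      exact this
    exact not_unk_iff.2 ⟨g, hg', δ, hδ, hev⟩ h'
  rcases Set.eq_empty_or_nonempty K' with hK1 | hK1
  · have hg' : ∀ d, g d ∈ K := by
      intro d
      have := hg d
      unfold jn at this
      rw [hK1, Set.union_empty, hK.conv.convexHull_eq] at this
      exact this
    exact not_unk_iff.2 ⟨g, hg', δ, hδ, hev⟩ h
  have hch : ∀ d, ∃ a ∈ K, ∃ b ∈ K', ∃ s t : ℝ, 0 ≤ s ∧ 0 ≤ t ∧ s + t = 1 ∧ s • a + t • b = g d := by
    intro d
    have h1 := hg d
    unfold jn at h1
    rw [hK.conv.convexHull_union hK'.conv hK0 hK1, mem_convexJoin] at h1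
    obtain ⟨a, ha, b, hb, s, t, hs, ht, hst, he⟩ := h1
    exact ⟨a, ha, b, hb, s, t, hs, ht, hst, he⟩
  choose a ha b' hb s t hs ht hst he using hch
  have hor : ∀ᶠ ω in (p : Filter Ω), δ ≤ a (Y ω) (b ω) ∨ δ ≤ b' (Y ω) (b ω) := by
    filter_upwards [hev] with ω hω
    by_contra hc
    rw [not_or, not_le, not_le] at hc
    rw [← he (Y ω)] at hω
    have e1 : (s (Y ω) • a (Y ω) + t (Y ω) • b' (Y ω)) (b ω) = s (Y ω) * a (Y ω) (b ω) + t (Y ω) * b' (Y ω) (b ω) := rfl
    rw [e1] at hω
    have h1 := hs (Y ω)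
    have h2 := ht (Y ω)
    have h3 := hst (Y ω)
    have h4 : s (Y ω) * a (Y ω) (b ω) ≤ s (Y ω) * δ := mul_le_mul_of_nonneg_left hc.1.le h1
    have h5 : t (Y ω) * b' (Y ω) (b ω) ≤ t (Y ω) * δ := mul_le_mul_of_nonneg_left hc.2.le h2
    have h6 : s (Y ω) * δ + t (Y ω) * δ = δ := by rw [← add_mul, h3, one_mul]
    rcases h1.lt_or_eq with h7 | h7
    · have h8 : s (Y ω) * a (Y ω) (b ω) < s (Y ω) * δ := mul_lt_mul_of_pos_left hc.1 h7
      linarith
    · have h9 : t (Y ω) = 1 := by linarith
      have h8 : t (Y ω) * b' (Y ω) (b ω) < t (Y ω) * δ := mul_lt_mul_of_pos_left hc.2 (by rw [h9]; norm_num)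
      linarith
  rcases Ultrafilter.eventually_or.1 hor with h1 | h1
  · exact not_unk_iff.2 ⟨a, ha, δ, hδ, h1⟩ h
  · exact not_unk_iff.2 ⟨b', hb, δ, hδ, h1⟩ h'

/-- finitely many tests with unknown resources follow from one test -/
theorem combine {W : World V} {q : Ultrafilter V} {U : Set (Set (V → ℝ))} (S : Sys W q U) {J D : Type} [Fintype J]
    (K : J → Set (V → ℝ)) (hK : ∀ j, K j ∈ U) (g : J → D → V → ℝ) (hg : ∀ j d, g j d ∈ K j) (η : J → ℝ)
    (hη : ∀ j, 0 < η j) : ∃ K' ∈ U, (∀ j, K j ⊆ K') ∧ ∃ g' : D → V → ℝ, (∀ d, g' d ∈ K') ∧ ∃ η' : ℝ, 0 < η' ∧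
      ∀ d v, g' d v < η' → ∀ j, g j d v < η j := by
  have hV : Nonempty V := by
    have := q.neBot
    exact Filter.nonempty_of_neBot (q : Filter V)
  have hjoin : ∀ s : Finset J, ∃ K' ∈ U, EQr V ⊆ K' ∧ ∀ j ∈ s, K j ⊆ K' := by
    intro s
    induction s using Finset.induction_on with
    | empty => exact ⟨EQr V, S.eq, le_refl _, by simp⟩
    | insert a s has ih =>
      obtain ⟨K', hK', h1, h2⟩ := ih
      refine ⟨jn (K a) K', S.join _ (hK a) _ hK', ?_, ?_⟩
      · exact h1.trans (Set.subset_union_right.trans (subset_convexHull ℝ _))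
      · intro j hj
        rcases Finset.mem_insert.1 hj with rfl | hj
        · exact Set.subset_union_left.trans (subset_convexHull ℝ _)
        · exact (h2 j hj).trans (Set.subset_union_right.trans (subset_convexHull ℝ _))
  obtain ⟨K', hK', hE, hsub⟩ := hjoin Finset.univ
  have hsub' : ∀ j, K j ⊆ K' := fun j => hsub j (Finset.mem_univ j)
  refine ⟨K', hK', hsub', ?_⟩
  obtain ⟨v0⟩ := hV
  have hne : (fun v : V => if v = v0 then (1 : ℝ) else 0) ∈ K' :=
    hE (subset_convexHull ℝ _ ⟨v0, rfl⟩)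
  rcases isEmpty_or_nonempty J with hJ | hJ
  · exact ⟨fun _ => _, fun _ => hne, 1, one_pos, fun d v _ j => (hJ.false j).elim⟩
  obtain ⟨j0, hj0⟩ := Finite.exists_min η
  have hcard : (0 : ℝ) < Fintype.card J := by exact_mod_cast Fintype.card_pos
  refine ⟨fun d => ∑ j, (1 / (Fintype.card J : ℝ)) • g j d, ?_, η j0 / Fintype.card J, div_pos (hη j0) hcard, ?_⟩
  · intro d
    apply (S.res K' hK').conv.sum_mem
    · intro j _
      positivity
    · rw [Finset.sum_const, Finset.card_univ, nsmul_eq_mul]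
      field_simp
    · intro j _
      exact hsub' j (hg j d)
  · intro d v hlt j
    have h1 : (∑ j, (1 / (Fintype.card J : ℝ)) • g j d) v = (∑ j, g j d v) / Fintype.card J := by
      rw [Finset.sum_apply, Finset.sum_div]
      apply Finset.sum_congr rfl
      intro i _
      show (1 / (Fintype.card J : ℝ)) * g i d v = _
      ring
    have hlt' : (∑ j, g j d v) / Fintype.card J < η j0 / Fintype.card J := by
      rw [← h1]
      exact hlt
    rw [div_lt_div_iff_of_pos_right hcard] at hlt'
    have h2 : g j d v ≤ ∑ j, g j d v :=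
      Finset.single_le_sum (f := fun j => g j d v) (fun i _ => (S.res (K i) (hK i)).nn _ (hg i d) v) (Finset.mem_univ j)
    exact lt_of_le_of_lt h2 (hlt'.trans_le (hj0 j))

end Pool.Agent.Lib.MP_b0c2b5_co.AT
end

section

/-!
# AT, K2: minimax. Fintype version (proved by helper42): /team-store/MP_b0c2b5_h42_MM.lean.

PROOFS. `mm`: `S` is compact (closed in the product of `[0,1]`, supported by `D`). If no `θ ∈ S` works, the closed sets `{θ ∈ S : Ex D θ g ≤ α}`, `g ∈ G`, have empty intersection, so finitely many `g_1, .., g_r` do; separate the convex set `{(Ex D θ g_i)_i : θ ∈ S}` from `{y : y_i ≤ α}` in `ℝ^r`: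
a convex combination `g ∈ G` of the `g_i` has `Ex D θ g > α` for all `θ ∈ S`. `mm0`: `mm` for the set of all probabilities on `D` (point masses give the hypothesis).
-/

set_option autoImplicit false

namespace Pool.Agent.Lib.MP_b0c2b5_co.AT

open LS Filter
open scoped Classical

variable {V : Type}

private theorem K2_mm {Z : Type} (D : Finset Z) {S G : Set (Z → ℝ)} (hS : IsCompact S) (hSc : Convex ℝ S)
    (hSn : S.Nonempty) (hG : Convex ℝ G) {α : ℝ} (h : ∀ g ∈ G, ∃ θ ∈ S, ∑ z ∈ D, θ z * g z ≤ α) :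
    ∃ θ ∈ S, ∀ g ∈ G, ∑ z ∈ D, θ z * g z ≤ α := by
  have hcont : ∀ g : Z → ℝ, Continuous fun θ : Z → ℝ => ∑ z ∈ D, θ z * g z := fun g =>
    continuous_finsetSum _ fun z _ => (continuous_apply z).mul continuous_const
  -- finitely many `g`
  have hfin : ∀ F : Finset G, (S ∩ ⋂ g ∈ F, {θ : Z → ℝ | ∑ z ∈ D, θ z * (g : Z → ℝ) z ≤ α}).Nonempty := by
    intro F
    rcases F.eq_empty_or_nonempty with rfl | hF
    · simpa using hSn
    · obtain ⟨Y, hY⟩ : ∃ Y : Set (Z → ℝ), Y = convexHull ℝ ((fun g : G => (g : Z → ℝ)) '' (F : Set G)) := ⟨_, rfl⟩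
      have hYG : Y ⊆ G := by
        rw [hY]
        refine convexHull_min ?_ hG
        rintro _ ⟨g, _, rfl⟩
        exact g.2
      have hYc : IsCompact Y := by
        rw [hY]
        exact (F.finite_toSet.image _).isCompact_convexHull (𝕜 := ℝ)
      have hYn : Y.Nonempty := by
        rw [hY]
        obtain ⟨g, hg⟩ := hF
        exact ⟨g, subset_convexHull _ _ ⟨g, hg, rfl⟩⟩
      have hYx : Convex ℝ Y := by
        rw [hY]
        exact convex_convexHull _ _
      obtain ⟨a, ha, b, hb, hab⟩ := Sion.exists_isSaddlePointOn (X := S) (Y := Y)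
        (f := fun θ g : Z → ℝ => ∑ z ∈ D, θ z * g z) hSn hSc hS
        (fun g _ => (hcont g).lowerSemicontinuous.lowerSemicontinuousOn _)
        (fun g _ => by
          refine ConvexOn.quasiconvexOn ⟨hSc, ?_⟩
          intro x _ y _ p q _ _ _
          simp only [Pi.add_apply, Pi.smul_apply, smul_eq_mul, Finset.mul_sum, ← Finset.sum_add_distrib]
          refine le_of_eq (Finset.sum_congr rfl fun z _ => by ring))
        hYx hYn hYc
        (fun θ _ => by
          have : Continuous fun g : Z → ℝ => ∑ z ∈ D, θ z * g z :=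
            continuous_finsetSum _ fun z _ => continuous_const.mul (continuous_apply z)
          exact this.upperSemicontinuous.upperSemicontinuousOn _)
        (fun θ _ => by
          refine ConcaveOn.quasiconcaveOn ⟨hYx, ?_⟩
          intro x _ y _ p q _ _ _
          simp only [Pi.add_apply, Pi.smul_apply, smul_eq_mul, Finset.mul_sum, ← Finset.sum_add_distrib]
          refine le_of_eq (Finset.sum_congr rfl fun z _ => by ring))
      obtain ⟨θ, hθ, hθb⟩ := h b (hYG hb)
      refine ⟨a, ha, ?_⟩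
      simp only [Set.mem_iInter]
      intro g hg
      have hgY : (g : Z → ℝ) ∈ Y := by
        rw [hY]
        exact subset_convexHull _ _ ⟨g, hg, rfl⟩
      exact (hab θ hθ g hgY).trans hθb
  have hne := hS.inter_iInter_nonempty (fun g : G => {θ : Z → ℝ | ∑ z ∈ D, θ z * (g : Z → ℝ) z ≤ α})
    (fun g => isClosed_le (hcont g) continuous_const) hfin
  obtain ⟨θ, hθ, hθ2⟩ := hne
  refine ⟨θ, hθ, fun g hg => ?_⟩
  simp only [Set.mem_iInter] at hθ2
  exact hθ2 ⟨g, hg⟩

private theorem K2_le_one {Z : Type} {D : Finset Z} {θ : Z → ℝ} (h : IsPr D θ) (z : Z) : θ z ≤ 1 := by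
  by_cases hz : z ∈ D
  · rw [← h.sum]
    exact Finset.single_le_sum (fun w _ => h.nn w) hz
  · rw [h.supp z hz]
    exact zero_le_one

/-- minimax for a compact convex set of probabilities and a convex set of functions -/
theorem mm {Z : Type} (D : Finset Z) (S : Set (Z → ℝ)) (hS : ∀ θ ∈ S, IsPr D θ) (hne : S.Nonempty) (hconv : Convex ℝ S)
    (hcl : IsClosed S) (G : Set (Z → ℝ)) (hG : Convex ℝ G) (α : ℝ) (h : ∀ g ∈ G, ∃ θ ∈ S, Ex D θ g ≤ α) :
    ∃ θ ∈ S, ∀ g ∈ G, Ex D θ g ≤ α := by
  have hc : IsCompact (Set.pi Set.univ fun _ : Z => Set.Icc (0 : ℝ) 1) := isCompact_univ_pi fun _ => isCompact_Icc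
  refine K2_mm D (hc.of_isClosed_subset hcl fun θ hθ z _ => ⟨(hS θ hθ).nn z, K2_le_one (hS θ hθ) z⟩) hconv hne hG h

/-- all probabilities on a nonempty set -/
theorem mm0 {Z : Type} (D : Finset Z) (hD : D.Nonempty) (G : Set (Z → ℝ)) (hG : Convex ℝ G) (α : ℝ)
    (h : ∀ g ∈ G, ∃ z ∈ D, g z ≤ α) : ∃ θ, IsPr D θ ∧ ∀ g ∈ G, Ex D θ g ≤ α := by
  have hsingle : ∀ z ∈ D, IsPr D (fun w => if w = z then (1 : ℝ) else 0) := by
    intro z hz
    refine ⟨fun w => ?_, fun w hw => ?_, ?_⟩
    · show (0 : ℝ) ≤ if w = z then 1 else 0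
      split_ifs
      · exact zero_le_one
      · exact le_rfl
    · refine if_neg ?_
      rintro rfl
      exact hw hz
    · rw [Finset.sum_ite_eq' D z]
      exact if_pos hz
  obtain ⟨θ, hθ, hθG⟩ := mm D {θ | IsPr D θ} (fun θ hθ => hθ) (by
    obtain ⟨z, hz⟩ := hD
    exact ⟨_, hsingle z hz⟩) (by
    intro θ hθ θ' hθ' a b ha hb hab
    refine ⟨fun z => ?_, fun z hz => ?_, ?_⟩
    · simp only [Pi.add_apply, Pi.smul_apply, smul_eq_mul]
      exact add_nonneg (mul_nonneg ha (hθ.nn z)) (mul_nonneg hb (hθ'.nn z))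
    · simp only [Pi.add_apply, Pi.smul_apply, smul_eq_mul]
      rw [hθ.supp z hz, hθ'.supp z hz, mul_zero, mul_zero, add_zero]
    · simp only [Pi.add_apply, Pi.smul_apply, smul_eq_mul, Finset.sum_add_distrib, ← Finset.mul_sum]
      rw [hθ.sum, hθ'.sum, mul_one, mul_one, hab]) (by
    have : {θ : Z → ℝ | IsPr D θ} = (⋂ z, {θ : Z → ℝ | 0 ≤ θ z}) ∩ (⋂ z, ⋂ (_ : z ∉ D), {θ : Z → ℝ | θ z = 0}) ∩
        {θ : Z → ℝ | ∑ z ∈ D, θ z = 1} := by
      ext θ
      simp only [Set.mem_ofPred_eq, Set.mem_inter_iff, Set.mem_iInter]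
      exact ⟨fun h => ⟨⟨h.nn, h.supp⟩, h.sum⟩, fun h => ⟨h.1.1, h.1.2, h.2⟩⟩
    rw [this]
    refine ((isClosed_iInter fun z => isClosed_le continuous_const (continuous_apply z)).inter
      (isClosed_iInter fun z => isClosed_iInter fun _ => isClosed_eq (continuous_apply z) continuous_const)).inter
      (isClosed_eq (continuous_finsetSum _ fun z _ => continuous_apply z) continuous_const)) G hG α (by
    intro g hg
    obtain ⟨z, hz, hgz⟩ := h g hg
    refine ⟨_, hsingle z hz, ?_⟩
    unfold Ex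
    rw [Finset.sum_eq_single z]
    · simpa using hgz
    · intro w _ hw
      show (if w = z then (1 : ℝ) else 0) * g w = 0
      rw [if_neg hw, zero_mul]
    · exact fun h => absurd hz h)
  exact ⟨θ, hθ, hθG⟩

end Pool.Agent.Lib.MP_b0c2b5_co.AT
end

section

/-!
# AT, R2: C-arcs, the filter F_C, the resource of the parents.

PROOFS. `Sys.kn`: `S.mini` for the image of `p` under `(x, y)` (`unk_map`). `InFC.of_CA`: definition. `inFC_iff`: if `φ` is not in F_C, the sets `{(x,y) : x, y ∈ A, r x y, g x y < δ, g' y x < δ, ¬ φ x y}` (`A ∈ q`, `K ∈ U`, `g, g'` into `K`, `δ > 0`) are nonempty and closed under intersections up to inclusion (`combine`), so there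
is an ultrafilter containing them all; it is an exact C-arc. `par_not_mem`: otherwise `Unk` for the map `x ↦ (fun y => if r x y ∧ φ x y then 1 else 0)` (`x ∈ A`; any fixed element of `A` otherwise).
-/

set_option autoImplicit false

namespace Pool.Agent.Lib.MP_b0c2b5_co.AT

open LS Filter
open scoped Classical

variable {V : Type}

theorem R2_colOn_rev {r : V → V → Prop} {A : Set V} {c : ℕ} (h : ColOn (rev r) A c) : ColOn r A c := by
  obtain ⟨f, h1, h2⟩ := h
  exact ⟨f, h1, fun x hx y hy hr he => h2 y hy x hx hr he.symm⟩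

theorem R2_isRes_hull {s : Set (V → ℝ)} (h : ∀ f ∈ s, ∀ v, 0 ≤ f v ∧ f v ≤ 1) : IsRes (convexHull ℝ s) := by
  have hc : Convex ℝ {f : V → ℝ | ∀ v, 0 ≤ f v ∧ f v ≤ 1} := by
    intro f hf g hg a b ha hb hab v
    have h1 := hf v
    have h2 := hg v
    simp only [Pi.add_apply, Pi.smul_apply, smul_eq_mul]
    constructor
    · have := mul_nonneg ha h1.1
      have := mul_nonneg hb h2.1
      linarith
    · have := mul_le_mul_of_nonneg_left h1.2 ha
      have := mul_le_mul_of_nonneg_left h2.2 hb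
      linarith
  have hs : convexHull ℝ s ⊆ {f : V → ℝ | ∀ v, 0 ≤ f v ∧ f v ≤ 1} := convexHull_min h hc
  exact ⟨convex_convexHull ℝ s, fun g hg v => (hs hg v).1, fun g hg v => (hs hg v).2⟩

theorem Sys.dual {W : World V} {q : Ultrafilter V} {U : Set (Set (V → ℝ))} (S : Sys W q U) : Sys W.dual q U where
  large A hA c h := S.large A hA c (R2_colOn_rev h)
  res := S.res
  join := S.join
  eq := S.eq
  mini p h1 h2 h3 h4 := S.mini p h1 h2 (h3.mono fun _ h => h.symm) h4
  ex := by
    obtain ⟨p, h1, h2, h3, h4⟩ := S.ex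
    exact ⟨p, h1, h2, h3.mono fun _ h => h.symm, h4⟩

theorem CA_dual {W : World V} {q : Ultrafilter V} {U : Set (Set (V → ℝ))} {Ω : Type} {p : Ultrafilter Ω} {x y : Ω → V} :
    CA W.dual q U p x y ↔ CA W q U p y x :=
  ⟨fun h => ⟨h.qy, h.qx, h.arc, h.bw, h.fw⟩, fun h => ⟨h.qy, h.qx, h.arc, h.bw, h.fw⟩⟩

/-- minimality in an arbitrary exact tuple -/
theorem Sys.kn {W : World V} {q : Ultrafilter V} {U : Set (Set (V → ℝ))} (S : Sys W q U) {Ω : Type} {p : Ultrafilter Ω}
    {x y : Ω → V} (hx : p.map x = q) (hy : p.map y = q)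
    (ha : ∀ᶠ ω in (p : Filter Ω), W.r (x ω) (y ω) ∨ W.r (y ω) (x ω)) (hf : Fr U p x y) : Kn U p x y := by
  intro K hK hKU
  have h := S.mini (p.map fun ω => (x ω, y ω)) (by rw [Ultrafilter.map_map]; exact hx)
    (by rw [Ultrafilter.map_map]; exact hy) ha
    (fun K' hK' => by
      rw [unk_map]
      exact hf K' hK') K hK hKU
  rw [unk_map] at h
  exact h

theorem CA.map {W : World V} {q : Ultrafilter V} {U : Set (Set (V → ℝ))} {Ω Ω' : Type} {p : Ultrafilter Ω} {e : Ω → Ω'}
    {x y : Ω' → V} : CA W q U (p.map e) x y ↔ CA W q U p (fun ω => x (e ω)) (fun ω => y (e ω)) := by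
  constructor
  · intro h
    refine ⟨?_, ?_, h.arc, fun K hK => ?_, fun K hK => ?_⟩
    · have := h.qx
      rw [Ultrafilter.map_map] at this
      exact this
    · have := h.qy
      rw [Ultrafilter.map_map] at this
      exact this
    · have := h.fw K hK
      rw [unk_map] at this
      exact this
    · have := h.bw K hK
      rw [unk_map] at this
      exact this
  · intro h
    refine ⟨?_, ?_, h.arc, fun K hK => ?_, fun K hK => ?_⟩
    · rw [Ultrafilter.map_map]
      exact h.qx
    · rw [Ultrafilter.map_map]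
      exact h.qy
    · rw [unk_map]
      exact h.fw K hK
    · rw [unk_map]
      exact h.bw K hK

theorem InFC.of_CA {W : World V} {q : Ultrafilter V} {U : Set (Set (V → ℝ))} {φ : V → V → Prop}
    (h : InFC W q U φ) {Ω : Type} {p : Ultrafilter Ω} {x y : Ω → V} (hC : CA W q U p x y) :
    ∀ᶠ ω in (p : Filter Ω), φ (x ω) (y ω) := by
  obtain ⟨A, hA, K, hK, g, g', hg, hg', δ, hδ, H⟩ := h
  have h1 : ∀ᶠ ω in (p : Filter Ω), x ω ∈ A := by
    have : A ∈ p.map x := by rw [hC.qx]; exact hA
    exact this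
  have h2 : ∀ᶠ ω in (p : Filter Ω), y ω ∈ A := by
    have : A ∈ p.map y := by rw [hC.qy]; exact hA
    exact this
  have h3 := hC.fw K hK g hg δ hδ
  have h4 := hC.bw K hK g' hg' δ hδ
  filter_upwards [h1, h2, h3, h4, hC.arc] with ω a b c d e
  exact H _ a _ b e c d

/-- the base sets for a C-arc outside `φ` -/
def R2base (W : World V) (φ : V → V → Prop) (A : Set V) (g g' : V → V → ℝ) (δ : ℝ) : Set (V × V) :=
  {z | z.1 ∈ A ∧ z.2 ∈ A ∧ W.r z.1 z.2 ∧ g z.1 z.2 < δ ∧ g' z.2 z.1 < δ ∧ ¬ φ z.1 z.2}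

theorem inFC_iff {W : World V} {q : Ultrafilter V} {U : Set (Set (V → ℝ))} (S : Sys W q U) {φ : V → V → Prop} :
    InFC W q U φ ↔ ∀ p : Ultrafilter (V × V), CA W q U p Prod.fst Prod.snd →
      ∀ᶠ z in (p : Filter (V × V)), φ z.1 z.2 := by
  constructor
  · intro h p hC
    exact h.of_CA hC
  · intro h
    by_contra hn
    set F : Set (Set (V × V)) := {a | ∃ A ∈ q, ∃ K ∈ U, ∃ g g' : V → V → ℝ, (∀ x, g x ∈ K) ∧ (∀ x, g' x ∈ K) ∧
      ∃ δ : ℝ, 0 < δ ∧ R2base W φ A g g' δ ⊆ a} with hF
    have hcp := cpt q F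
    have hstep : ∃ p' : Ultrafilter (V × V), p'.map Prod.fst = q ∧ ∀ a ∈ F, a ∈ p' := by
      refine hcp ?_ ?_ ?_
      · have hv : Nonempty V := by
          by_contra hv
          rw [not_nonempty_iff] at hv
          exact q.neBot.ne (Filter.filter_eq_bot_of_isEmpty _)
        obtain ⟨v0⟩ := hv
        have heq : (fun v : V => if v = v0 then (1 : ℝ) else 0) ∈ EQr V := subset_convexHull ℝ _ ⟨v0, rfl⟩
        exact ⟨Set.univ, Set.univ, Filter.univ_mem, _, S.eq, fun _ v => if v = v0 then (1 : ℝ) else 0,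
          fun _ v => if v = v0 then (1 : ℝ) else 0, fun _ => heq, fun _ => heq, 1, one_pos, Set.subset_univ _⟩
      · rintro a ⟨A1, hA1, K1, hK1, g1, g1', hg1, hg1', δ1, hδ1, ha⟩ b ⟨A2, hA2, K2, hK2, g2, g2', hg2, hg2', δ2, hδ2, hb⟩
        obtain ⟨K', hK', _, g', hg', η', hη', H⟩ := combine S (J := Bool × Bool) (D := V)
          (fun j => if j.1 then K1 else K2) (fun j => by
            split_ifs
            · exact hK1
            · exact hK2)
          (fun j => if j.1 then (if j.2 then g1 else g1') else (if j.2 then g2 else g2')) (fun j d => by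
            rcases j with ⟨_ | _, _ | _⟩
            · exact hg2' d
            · exact hg2 d
            · exact hg1' d
            · exact hg1 d)
          (fun j => if j.1 then δ1 else δ2) (fun j => by
            split_ifs
            · exact hδ1
            · exact hδ2)
        refine ⟨A1 ∩ A2, Filter.inter_mem hA1 hA2, K', hK', g', g', hg', hg', η', hη', ?_⟩
        rintro z ⟨h1, h2, h3, h4, h5, h6⟩
        have e1 := H _ _ h4
        have e2 := H _ _ h5
        exact ⟨ha ⟨h1.1, h2.1, h3, e1 (true, true), e2 (true, false), h6⟩,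
          hb ⟨h1.2, h2.2, h3, e1 (false, true), e2 (false, false), h6⟩⟩
      · rintro a ⟨A, hA, K, hK, g, g', hg, hg', δ, hδ, ha⟩
        by_contra hne
        have hB : {x : V | ¬ ∃ z, (x, z) ∈ a} ∈ q := by
          rw [← Ultrafilter.eventually_not] at hne
          exact hne
        apply hn
        refine ⟨A ∩ {x : V | ¬ ∃ z, (x, z) ∈ a}, Filter.inter_mem hA hB, K, hK, g, g', hg, hg', δ, hδ, ?_⟩
        intro x hx y hy hr h1 h2
        by_contra hφ
        exact hx.2 ⟨y, ha ⟨hx.1, hy.1, hr, h1, h2, hφ⟩⟩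
    obtain ⟨p', hp1, hp2⟩ := hstep
    have key : ∀ A ∈ q, ∀ K ∈ U, ∀ g g' : V → V → ℝ, (∀ x, g x ∈ K) → (∀ x, g' x ∈ K) → ∀ δ : ℝ, 0 < δ →
        ∀ᶠ z in (p' : Filter (V × V)), z ∈ R2base W φ A g g' δ := by
      intro A hA K hK g g' hg hg' δ hδ
      exact hp2 _ ⟨A, hA, K, hK, g, g', hg, hg', δ, hδ, subset_rfl⟩
    have hv : Nonempty V := by
      by_contra hv
      rw [not_nonempty_iff] at hv
      exact q.neBot.ne (Filter.filter_eq_bot_of_isEmpty _)
    obtain ⟨v0⟩ := hv
    have heq : (fun v : V => if v = v0 then (1 : ℝ) else 0) ∈ EQr V := subset_convexHull ℝ _ ⟨v0, rfl⟩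
    have hC : CA W q U p' Prod.fst Prod.snd := by
      refine ⟨hp1, ?_, ?_, ?_, ?_⟩
      · refine Ultrafilter.coe_injective (le_antisymm ?_ ?_)
        · intro A hA
          have := key A hA _ S.eq (fun _ v => if v = v0 then (1 : ℝ) else 0)
            (fun _ v => if v = v0 then (1 : ℝ) else 0) (fun _ => heq) (fun _ => heq) 1 one_pos
          exact this.mono fun z hz => hz.2.1
        · exact (Ultrafilter.unique (f := q) (g := ((p'.map Prod.snd : Ultrafilter V) : Filter V)) (by
            intro A hA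
            have := key A hA _ S.eq (fun _ v => if v = v0 then (1 : ℝ) else 0)
              (fun _ v => if v = v0 then (1 : ℝ) else 0) (fun _ => heq) (fun _ => heq) 1 one_pos
            exact this.mono fun z hz => hz.2.1)).ge
      · have := key Set.univ Filter.univ_mem _ S.eq (fun _ v => if v = v0 then (1 : ℝ) else 0)
            (fun _ v => if v = v0 then (1 : ℝ) else 0) (fun _ => heq) (fun _ => heq) 1 one_pos
        exact this.mono fun z hz => hz.2.2.1
      · intro K hK g hg δ hδ
        exact (key Set.univ Filter.univ_mem K hK g g hg hg δ hδ).mono fun z hz => hz.2.2.2.1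
      · intro K hK g hg δ hδ
        exact (key Set.univ Filter.univ_mem K hK g g hg hg δ hδ).mono fun z hz => hz.2.2.2.2.1
    have h1 := h p' hC
    have h2 := key Set.univ Filter.univ_mem _ S.eq (fun _ v => if v = v0 then (1 : ℝ) else 0)
            (fun _ v => if v = v0 then (1 : ℝ) else 0) (fun _ => heq) (fun _ => heq) 1 one_pos
    obtain ⟨z, hz1, hz2⟩ := (h1.and h2).exists
    exact hz2.2.2.2.2.2 hz1

theorem InFC.and {W : World V} {q : Ultrafilter V} {U : Set (Set (V → ℝ))} (S : Sys W q U) {φ ψ : V → V → Prop}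
    (h : InFC W q U φ) (h' : InFC W q U ψ) : InFC W q U (fun x y => φ x y ∧ ψ x y) := by
  rw [inFC_iff S] at h h' ⊢
  intro p hC
  exact (h p hC).and (h' p hC)

/-- the resource 'parents in `A`, arcs in `φ`' -/
def ParR (W : World V) (A : Set V) (φ : V → V → Prop) : Set (V → ℝ) :=
  convexHull ℝ {f | ∃ e ∈ A, f = fun y => if W.r e y ∧ φ e y then (1 : ℝ) else 0}

theorem isRes_Par (W : World V) (A : Set V) (φ : V → V → Prop) : IsRes (ParR W A φ) := by
  refine R2_isRes_hull ?_
  rintro f ⟨e, _, rfl⟩ v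
  by_cases h : W.r e v ∧ φ e v
  · simp only [if_pos h]
    norm_num
  · simp only [if_neg h]
    norm_num

theorem par_not_mem {W : World V} {q : Ultrafilter V} {U : Set (Set (V → ℝ))} (S : Sys W q U)
    (hC : ∃ p : Ultrafilter (V × V), CA W q U p Prod.fst Prod.snd) {A : Set V} (hA : A ∈ q) {φ : V → V → Prop}
    (hφ : InFC W q U φ) : ParR W A φ ∉ U := by
  intro hU
  obtain ⟨p, hp⟩ := hC
  obtain ⟨a0, ha0⟩ := q.nonempty_of_mem hA
  have h1 := hp.fw _ hU (fun x => if x ∈ A then (fun y => if W.r x y ∧ φ x y then (1 : ℝ) else 0)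
    else (fun y => if W.r a0 y ∧ φ a0 y then (1 : ℝ) else 0)) (fun x => by
      split_ifs with hx
      · exact subset_convexHull ℝ _ ⟨x, hx, rfl⟩
      · exact subset_convexHull ℝ _ ⟨a0, ha0, rfl⟩) 1 one_pos
  have h2 := hφ.of_CA hp
  have h3 : ∀ᶠ z in (p : Filter (V × V)), z.1 ∈ A := by
    have : A ∈ p.map Prod.fst := by rw [hp.qx]; exact hA
    exact this
  obtain ⟨z, ⟨⟨hz1, hz2⟩, hz3⟩, hz4⟩ := (((h1.and h2).and h3).and hp.arc).exists
  simp only [if_pos hz3, if_pos (And.intro hz4 hz2)] at hz1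
  exact lt_irrefl _ hz1

end Pool.Agent.Lib.MP_b0c2b5_co.AT
end
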