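import Pool.Agent.Lib.MP_b0c2b5_co.Mg.G001

section

/-!
# AT, K5a: SPREAD (paper 1.5).

PROOF. Let `a : A` be bad if there is no such `θ` on `D a`, and suppose that almost all `w` have bad `w.1`. For bad `a` (with `D a` nonempty: almost all) apply `mm0` to `G :=` the convex hull of all test functions `z ↦ h (res (s j) z) (z (b j))` of all `j`: there is `g ∈ G` with `g z > δ` for all `z ∈ D a`. The test functions of a
fixed `j` form a convex set (`K j` is convex), so `g = Σ_j α_j f_j` with `f_j` a test function of `j` (sum over the `j` with `K j` nonempty), so for every `z ∈ D a` some `f_j z > δ`. Choose `h_j a` for all bad `a` (any maps into `K j` for the other `a`; if `K j` is empty then `j` does not occur). Then for almost all `w` there is `j`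
with `h_j w.1 (res (s j) w.2) (w.2 (b j)) > δ`; one `j` works for almost all `w`: contradiction to `hu j`.
-/

set_option autoImplicit false

namespace Pool.Agent.Lib.MP_b0c2b5_co.AT

open LS Filter
open scoped Classical Pointwise

variable {V : Type}

/-- 1.5 -/
theorem spread {A I J : Type} [Fintype I] [Fintype J] (r : Ultrafilter (A × (I → V))) (D : A → Finset (I → V))
    (hD : ∀ᶠ w in (r : Filter (A × (I → V))), w.2 ∈ D w.1) (b : J → I) (s : J → Finset I) (K : J → Set (V → ℝ))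
    (hK : ∀ j, IsRes (K j))
    (hu : ∀ j, Unk r (fun w => (w.1, res (s j) w.2)) (fun w => w.2 (b j)) (K j)) {δ : ℝ} (hδ : 0 < δ) :
    ∀ᶠ w in (r : Filter (A × (I → V))), ∃ θ, IsPr (D w.1) θ ∧ ∀ j, ∀ h : (I → Option V) → V → ℝ, (∀ s, h s ∈ K j) →
      Ex (D w.1) θ (fun z => h (res (s j) z) (z (b j))) ≤ δ := by
  by_contra hcon
  rw [← Ultrafilter.eventually_not] at hcon
  have key : ∀ a, (D a).Nonempty → (¬ ∃ θ, IsPr (D a) θ ∧ ∀ j, ∀ h : (I → Option V) → V → ℝ, (∀ s, h s ∈ K j) →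
      Ex (D a) θ (fun z => h (res (s j) z) (z (b j))) ≤ δ) →
      ∃ h : J → (I → Option V) → V → ℝ, (∀ j, (K j).Nonempty → ∀ s, h j s ∈ K j) ∧
        ∀ z ∈ D a, ∃ j, (K j).Nonempty ∧ δ < h j (res (s j) z) (z (b j)) := by
    intro a ha hbad
    by_contra hno
    apply hbad
    obtain ⟨θ, hθ, hG⟩ := mm0 (D a) ha {g | ∃ α : {j // (K j).Nonempty} → ℝ, (∀ j, 0 ≤ α j) ∧ ∑ j, α j = 1 ∧
      ∃ h : {j // (K j).Nonempty} → (I → Option V) → V → ℝ, (∀ j t, h j t ∈ α j • K j) ∧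
        g = fun z => ∑ j : {j // (K j).Nonempty}, h j (res (s j) z) (z (b j))} (by
        rintro g1 ⟨α1, ha1, hs1, h1, hh1, rfl⟩ g2 ⟨α2, ha2, hs2, h2, hh2, rfl⟩ u v hu hv huv
        refine ⟨fun j => u * α1 j + v * α2 j, fun j => add_nonneg (mul_nonneg hu (ha1 j)) (mul_nonneg hv (ha2 j)), ?_,
          fun j t => u • h1 j t + v • h2 j t, fun j t => ?_, ?_⟩
        · rw [Finset.sum_add_distrib, ← Finset.mul_sum, ← Finset.mul_sum, hs1, hs2, mul_one, mul_one, huv]
        · rw [(hK j).conv.add_smul (mul_nonneg hu (ha1 j)) (mul_nonneg hv (ha2 j)), ← smul_smul, ← smul_smul]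
          exact Set.add_mem_add (Set.smul_mem_smul_set (hh1 j t)) (Set.smul_mem_smul_set (hh2 j t))
        · funext z
          simp only [Pi.add_apply, Pi.smul_apply, smul_eq_mul, Finset.sum_add_distrib, Finset.mul_sum]) δ (by
        rintro g ⟨α, ha0, hs, h, hh, rfl⟩
        by_contra hcon2
        push Not at hcon2
        apply hno
        refine ⟨fun j t => if hj : (K j).Nonempty then (if α ⟨j, hj⟩ = 0 then hj.some else (α ⟨j, hj⟩)⁻¹ • h ⟨j, hj⟩ t)
          else 0, fun j hj t => ?_, fun z hz => ?_⟩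
        · beta_reduce
          rw [dif_pos hj]
          split_ifs with h0
          · exact hj.some_mem
          · have := Set.smul_mem_smul_set (a := (α ⟨j, hj⟩)⁻¹) (hh ⟨j, hj⟩ t)
            rwa [smul_smul, inv_mul_cancel₀ h0, one_smul] at this
        · have h1 := hcon2 z hz
          have h2 : ∑ j : {j // (K j).Nonempty}, α j * δ < ∑ j : {j // (K j).Nonempty}, h j (res (s j) z) (z (b j)) := by
            rw [← Finset.sum_mul, hs, one_mul]
            exact h1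
          obtain ⟨⟨j, hj⟩, _, hlt⟩ := Finset.exists_lt_of_sum_lt h2
          refine ⟨j, hj, ?_⟩
          beta_reduce
          rw [dif_pos hj]
          have h0 : α ⟨j, hj⟩ ≠ 0 := by
            intro h0
            have h3 := hh ⟨j, hj⟩ (res (s j) z)
            rw [h0, Set.zero_smul_set hj] at h3
            have h4 : h ⟨j, hj⟩ (res (s j) z) = 0 := h3
            rw [h0, zero_mul] at hlt
            simp only [h4, Pi.zero_apply, lt_self_iff_false] at hlt
          rw [if_neg h0, Pi.smul_apply, smul_eq_mul]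
          have h5 : 0 < α ⟨j, hj⟩ := lt_of_le_of_ne (ha0 _) (Ne.symm h0)
          rw [← div_eq_inv_mul, lt_div_iff₀ h5, mul_comm]
          exact hlt)
    refine ⟨θ, hθ, fun j h hh => ?_⟩
    have hj : (K j).Nonempty := ⟨_, hh (fun _ => none)⟩
    refine hG _ ⟨fun j' => if j' = ⟨j, hj⟩ then 1 else 0, fun j' => ?_, ?_,
      fun j' t => if j' = ⟨j, hj⟩ then h t else 0, fun j' t => ?_, ?_⟩
    · dsimp only
      split_ifs
      · exact zero_le_one
      · exact le_rfl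
    · rw [Finset.sum_ite_eq' Finset.univ (⟨j, hj⟩ : {j // (K j).Nonempty}) (fun _ => (1 : ℝ)), if_pos (Finset.mem_univ _)]
    · dsimp only
      split_ifs with hjj
      · subst hjj
        rw [one_smul]
        exact hh t
      · rw [Set.zero_smul_set j'.2]
        exact Set.mem_singleton _
    · funext z
      rw [Finset.sum_eq_single (⟨j, hj⟩ : {j // (K j).Nonempty})]
      · beta_reduce
        rw [if_pos rfl]
      · intro j' _ hj'
        beta_reduce
        rw [if_neg hj']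
        rfl
      · intro hjj
        exact absurd (Finset.mem_univ _) hjj
  choose! H hH1 hH2 using key
  have hall : ∀ j, ∀ᶠ w in (r : Filter (A × (I → V))), (K j).Nonempty → (D w.1).Nonempty →
      (¬ ∃ θ, IsPr (D w.1) θ ∧ ∀ j, ∀ h : (I → Option V) → V → ℝ, (∀ s, h s ∈ K j) →
      Ex (D w.1) θ (fun z => h (res (s j) z) (z (b j))) ≤ δ) → H w.1 j (res (s j) w.2) (w.2 (b j)) < δ := by
    intro j
    by_cases hj : (K j).Nonempty
    · have := hu j (fun d => if (D d.1).Nonempty ∧ (¬ ∃ θ, IsPr (D d.1) θ ∧ ∀ j, ∀ h : (I → Option V) → V → ℝ,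
        (∀ s, h s ∈ K j) → Ex (D d.1) θ (fun z => h (res (s j) z) (z (b j))) ≤ δ) then H d.1 j d.2 else hj.some)
        (fun d => by
          split_ifs with hd
          · exact hH1 d.1 hd.1 hd.2 j hj d.2
          · exact hj.some_mem) δ hδ
      filter_upwards [this] with w hw _ h1 h2
      rwa [if_pos ⟨h1, h2⟩] at hw
    · exact Eventually.of_forall fun w h1 => absurd h1 hj
  obtain ⟨w, hw1, hw2, hw3⟩ := ((Filter.eventually_all.2 hall).and (hcon.and hD)).exists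
  obtain ⟨j, hj, hlt⟩ := hH2 w.1 ⟨_, hw3⟩ hw2 w.2 hw3
  exact absurd (hw1 j hj ⟨_, hw3⟩ hw2) (not_lt.2 hlt.le)

end Pool.Agent.Lib.MP_b0c2b5_co.AT
end

section

/-!
# AT, K5b: SPREAD for free sequences, AVERAGE (paper 1.6).

PROOFS. `spread_SP`: `spread` for the image `p.map (fun ω => (X ω, z ω))`, `J = I`, `b = id`, `s = past`. `average`: `g y := Ex (D y) (θ y) (l y ·) ∈ K` if `IsPr (D y) (θ y)` (finite convex combination), any element of `K` otherwise (if there is no `y` with `IsPr` nothing is to be shown); `g (Y ω) (c ω) < ε * η` for almost all `ω`; Markov.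
-/

set_option autoImplicit false

namespace Pool.Agent.Lib.MP_b0c2b5_co.AT

open LS Filter
open scoped Classical

variable {V : Type}

/-- 1.5 for free sequences -/
theorem spread_SP {W : World V} {q : Ultrafilter V} {U : Set (Set (V → ℝ))} (S : Sys W q U) {Ω A I : Type} [Fintype I]
    (p : Ultrafilter Ω) (X : Ω → A) (z : Ω → I → V) (past : I → Finset I)
    (hfree : ∀ b, Fr U p (fun ω => (X ω, res (past b) (z ω))) (fun ω => z ω b)) (D : A → Finset (I → V))
    (hD : ∀ᶠ ω in (p : Filter Ω), z ω ∈ D (X ω)) {K : Set (V → ℝ)} (hK : K ∈ U) {δ : ℝ} (hδ : 0 < δ) :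
    ∀ᶠ ω in (p : Filter Ω), (SP past K δ (D (X ω))).Nonempty := by
  have hr := spread (p.map (fun ω => (X ω, z ω))) D (by
    rw [Ultrafilter.coe_map, Filter.eventually_map]
    exact hD) (fun b : I => b) past (fun _ => K) (fun _ => S.res K hK)
    (fun j => (unk_map p (fun ω => (X ω, z ω)) (fun w => (w.1, res (past j) w.2)) (fun w => w.2 j) K).2 (hfree j K hK)) hδ
  rw [Ultrafilter.coe_map, Filter.eventually_map] at hr
  filter_upwards [hr] with ω hω
  obtain ⟨θ, h1, h2⟩ := hω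
  exact ⟨θ, h1, fun b h hh => h2 b h hh⟩

/-- 1.6 -/
theorem average {Ω Z D' : Type} (p : Ultrafilter Ω) (Y : Ω → D') (c : Ω → V) {K : Set (V → ℝ)} (hK : IsRes K)
    (hu : Unk p Y c K) (D : D' → Finset Z) (θ : D' → Z → ℝ) (l : D' → Z → V → ℝ) (hl : ∀ y z, l y z ∈ K) {ε η : ℝ}
    (hε : 0 < ε) (hη : 0 < η) :
    ∀ᶠ ω in (p : Filter Ω), IsPr (D (Y ω)) (θ (Y ω)) →
      Pr (D (Y ω)) (θ (Y ω)) (fun z => η ≤ l (Y ω) z (c ω)) ≤ ε := by
  by_cases hex : ∃ y0, IsPr (D y0) (θ y0)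
  · obtain ⟨y0, hy0⟩ := hex
    have hne : (D y0).Nonempty := by
      rw [Finset.nonempty_iff_ne_empty]
      intro h0
      have h1 := hy0.sum
      rw [h0, Finset.sum_empty] at h1
      exact zero_ne_one h1
    obtain ⟨z0, _⟩ := hne
    have hg : ∀ y, (if IsPr (D y) (θ y) then ∑ z ∈ D y, θ y z • l y z else l y0 z0) ∈ K := by
      intro y
      by_cases hy : IsPr (D y) (θ y)
      · rw [if_pos hy]
        exact hK.conv.sum_mem (fun z _ => hy.nn z) hy.sum (fun z _ => hl y z)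
      · rw [if_neg hy]
        exact hl y0 z0
    filter_upwards [hu (fun y => if IsPr (D y) (θ y) then ∑ z ∈ D y, θ y z • l y z else l y0 z0) hg (ε * η)
      (mul_pos hε hη)] with ω hω hpr
    have h1 : (∑ z ∈ D (Y ω), θ (Y ω) z • l (Y ω) z) (c ω) < ε * η := by
      have h2 := hω
      simp only [if_pos hpr] at h2
      exact h2
    rw [Finset.sum_apply] at h1
    have h3 : Pr (D (Y ω)) (θ (Y ω)) (fun z => η ≤ l (Y ω) z (c ω)) * η ≤
        ∑ z ∈ D (Y ω), (θ (Y ω) z • l (Y ω) z) (c ω) := by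
      unfold Pr Ex
      rw [Finset.sum_mul]
      apply Finset.sum_le_sum
      intro z _
      show θ (Y ω) z * (if η ≤ l (Y ω) z (c ω) then (1 : ℝ) else 0) * η ≤ θ (Y ω) z * l (Y ω) z (c ω)
      rw [mul_assoc]
      apply mul_le_mul_of_nonneg_left _ (hpr.nn z)
      split_ifs with hh
      · rw [one_mul]
        exact hh
      · rw [zero_mul]
        exact hK.nn _ (hl _ _) _
    have h4 : Pr (D (Y ω)) (θ (Y ω)) (fun z => η ≤ l (Y ω) z (c ω)) * η < ε * η := lt_of_le_of_lt h3 h1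
    exact (lt_of_mul_lt_mul_right h4 hη.le).le
  · exact Filter.Eventually.of_forall (fun ω h => (hex ⟨_, h⟩).elim)

end Pool.Agent.Lib.MP_b0c2b5_co.AT
end

section

/-!
# AT, K6: drawing an exact extension from definable probabilities.

PROOF. `cpt` for the family of all finite intersections of: `E`; `{w | (X w.1, w.2) ∈ d}`, `d ∈ Ds`; forward conditions `{w | g (w.1, res e.2.1 w.2) (w.2 e.1) < η}` for `e ∈ T`, `g : Ω × (I → Option V) → V → ℝ` with values in `e.2.2`, `η > 0`; backward conditions `{w | l (Y w.1, w.2) (c w.1) < η}` for `(D', Y, f, c, K)` as in the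
last conclusion and `l` with values in `K`. For finitely many (`n`) conditions with smallest `η`: one `d ∈ Ds` (closed under intersections), the finite `T'`, `δ := c η / (4 (n+1))`; a forward condition fails with probability at most `δ / η` (Markov; given `ω` the function `fun s => g (ω, s)` is allowed in the test), a backward
condition with probability at most `c / (4 (n+1))` for almost all `ω` (`average` with `D (f y)`, `θ (f y)`, `Y`); `pick`.
-/

set_option autoImplicit false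

namespace Pool.Agent.Lib.MP_b0c2b5_co.AT

open LS Filter
open scoped Classical

variable {V : Type}

lemma K6_min {α : Type*} (s : Finset α) (η : α → ℝ) (h : ∀ a ∈ s, 0 < η a) : ∃ η0 : ℝ, 0 < η0 ∧ ∀ a ∈ s, η0 ≤ η a := by
  induction s using Finset.induction_on with
  | empty => exact ⟨1, one_pos, by simp⟩
  | insert a s ha ih =>
    obtain ⟨η0, h0, h1⟩ := ih (fun b hb => h b (Finset.mem_insert_of_mem hb))
    refine ⟨min η0 (η a), lt_min h0 (h a (Finset.mem_insert_self _ _)), fun b hb => ?_⟩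
    rcases Finset.mem_insert.1 hb with rfl | hb
    · exact min_le_right _ _
    · exact (min_le_left _ _).trans (h1 b hb)

lemma K6_markov {Z : Type} (D : Finset Z) (θ : Z → ℝ) (hθ : IsPr D θ) (f : Z → ℝ) (hf : ∀ z, 0 ≤ f z) {δ η ε : ℝ}
    (hη : 0 < η) (h : Ex D θ f ≤ δ) (hδ : δ ≤ ε * η) : Pr D θ (fun z => ¬ f z < η) ≤ ε := by
  have h1 : Pr D θ (fun z => ¬ f z < η) * η ≤ Ex D θ f := by
    unfold Pr Ex
    rw [Finset.sum_mul]
    refine Finset.sum_le_sum fun z _ => ?_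
    by_cases h1 : f z < η
    · simp only [h1, not_true_eq_false, if_false, mul_zero, zero_mul]
      exact mul_nonneg (hθ.nn z) (hf z)
    · simp only [h1, not_false_eq_true, if_true, mul_one]
      exact mul_le_mul_of_nonneg_left (not_lt.1 h1) (hθ.nn z)
  by_contra h2
  rw [not_le] at h2
  have := mul_lt_mul_of_pos_right h2 hη
  linarith

/-- drawing an exact extension from definable probabilities -/
theorem draw {Ω A I : Type} [Fintype I] (p : Ultrafilter Ω) (X : Ω → A) (T : Set (I × Finset I × Set (V → ℝ)))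
    (hT : ∀ e ∈ T, IsRes e.2.2) (Ds : Set (Set (A × (I → V)))) (hne : Ds.Nonempty) (hDs : ∀ a ∈ Ds, ∀ b ∈ Ds, a ∩ b ∈ Ds)
    (E : Set (Ω × (I → V))) {c : ℝ} (hc : 0 < c)
    (h : ∀ d ∈ Ds, ∀ T' : Finset (I × Finset I × Set (V → ℝ)), ↑T' ⊆ T → ∀ δ : ℝ, 0 < δ →
      ∃ (D : A → Finset (I → V)) (θ : A → (I → V) → ℝ), ∀ᶠ ω in (p : Filter Ω),
        IsPr (D (X ω)) (θ (X ω)) ∧ (∀ z ∈ D (X ω), (X ω, z) ∈ d) ∧
        (∀ e ∈ T', ∀ h : (I → Option V) → V → ℝ, (∀ s, h s ∈ e.2.2) →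
          Ex (D (X ω)) (θ (X ω)) (fun z => h (res e.2.1 z) (z e.1)) ≤ δ) ∧
        c ≤ Pr (D (X ω)) (θ (X ω)) (fun z => (ω, z) ∈ E)) :
    ∃ p' : Ultrafilter (Ω × (I → V)), p'.map Prod.fst = p ∧ E ∈ p' ∧
      (∀ d ∈ Ds, ∀ᶠ w in (p' : Filter (Ω × (I → V))), (X w.1, w.2) ∈ d) ∧
      (∀ e ∈ T, Unk p' (fun w => (w.1, res e.2.1 w.2)) (fun w => w.2 e.1) e.2.2) ∧
      (∀ (D' : Type) (Y : Ω → D') (f : D' → A), (∀ ω, X ω = f (Y ω)) → ∀ (c : Ω → V) (K : Set (V → ℝ)), IsRes K →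
        Unk p Y c K → Unk p' (fun w => (Y w.1, w.2)) (fun w => c w.1) K) := by
  obtain ⟨Fw, hFw⟩ : ∃ Fw : Set (Set (Ω × (I → V))), Fw = {b | ∃ e ∈ T, ∃ g : Ω × (I → Option V) → V → ℝ,
    (∀ d, g d ∈ e.2.2) ∧ ∃ η : ℝ, 0 < η ∧ b = {w | g (w.1, res e.2.1 w.2) (w.2 e.1) < η}} := ⟨_, rfl⟩
  obtain ⟨Bw, hBw⟩ : ∃ Bw : Set (Set (Ω × (I → V))), Bw = {b | ∃ (D' : Type) (Y : Ω → D') (f : D' → A)
    (c' : Ω → V) (K : Set (V → ℝ)) (l : D' × (I → V) → V → ℝ) (η : ℝ), (∀ ω, X ω = f (Y ω)) ∧ IsRes K ∧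
    Unk p Y c' K ∧ (∀ d, l d ∈ K) ∧ 0 < η ∧ b = {w | l (Y w.1, w.2) (c' w.1) < η}} := ⟨_, rfl⟩
  obtain ⟨F, hF⟩ : ∃ F : Set (Set (Ω × (I → V))), F = {a | ∃ d ∈ Ds, ∃ Cs : Finset (Set (Ω × (I → V))),
    (∀ c' ∈ Cs, c' ∈ Fw ∪ Bw) ∧ a = {w | w ∈ E ∧ (X w.1, w.2) ∈ d ∧ ∀ c' ∈ Cs, w ∈ c'}} := ⟨_, rfl⟩
  obtain ⟨d0, hd0⟩ := hne
  obtain ⟨p', hp1, hp2⟩ := cpt p F (by
    rw [hF]
    exact ⟨_, d0, hd0, ∅, by simp, rfl⟩) (by
    rw [hF]
    rintro _ ⟨d1, hd1, C1, hC1, rfl⟩ _ ⟨d2, hd2, C2, hC2, rfl⟩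
    refine ⟨d1 ∩ d2, hDs _ hd1 _ hd2, C1 ∪ C2, fun c' hc' => ?_, ?_⟩
    · rcases Finset.mem_union.1 hc' with h1 | h1
      · exact hC1 _ h1
      · exact hC2 _ h1
    · ext w
      simp only [Set.mem_inter_iff, Set.mem_ofPred_eq, Finset.mem_union]
      constructor
      · rintro ⟨⟨h1, h2, h3⟩, _, h4, h5⟩
        exact ⟨h1, ⟨h2, h4⟩, fun c' hc' => hc'.elim (h3 c') (h5 c')⟩
      · rintro ⟨h1, ⟨h2, h4⟩, h5⟩
        exact ⟨⟨h1, h2, fun c' hc' => h5 c' (Or.inl hc')⟩, h1, h4, fun c' hc' => h5 c' (Or.inr hc')⟩) (by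
    rw [hF]
    rintro _ ⟨d, hd, Cs, hCs, rfl⟩
    -- data of the forward conditions
    obtain ⟨Cf, hCf⟩ : ∃ Cf : Finset (Set (Ω × (I → V))), Cf = Cs.filter (fun c' => c' ∈ Fw) := ⟨_, rfl⟩
    have hdata : ∀ c' ∈ Cf, ∃ e ∈ T, ∃ g : Ω × (I → Option V) → V → ℝ,
        (∀ d, g d ∈ e.2.2) ∧ ∃ η : ℝ, 0 < η ∧ c' = {w | g (w.1, res e.2.1 w.2) (w.2 e.1) < η} := by
      intro c' hc'
      rw [hCf, Finset.mem_filter, hFw] at hc'
      exact hc'.2
    choose ee hee gg hgg ηη hηη hcc using hdata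
    obtain ⟨η0, hη0, hη1⟩ := K6_min Cf.attach (fun c' => ηη c'.1 c'.2) (fun c' _ => hηη c'.1 c'.2)
    obtain ⟨ε, hε⟩ : ∃ ε : ℝ, ε = c / (Cs.card + 1) := ⟨_, rfl⟩
    have hε0 : 0 < ε := by rw [hε]; positivity
    obtain ⟨D, θ, hDθ⟩ := h d hd (Cf.attach.image (fun c' => ee c'.1 c'.2)) (by
      intro e he
      rw [Finset.mem_coe, Finset.mem_image] at he
      obtain ⟨c', hc', rfl⟩ := he
      exact hee c'.1 c'.2) (ε * η0) (mul_pos hε0 hη0)
    have hall : ∀ j : {c' // c' ∈ Cs}, ∀ᶠ ω in (p : Filter Ω), (IsPr (D (X ω)) (θ (X ω)) ∧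
        (∀ e ∈ Cf.attach.image (fun c' => ee c'.1 c'.2), ∀ h : (I → Option V) → V → ℝ, (∀ s, h s ∈ e.2.2) →
          Ex (D (X ω)) (θ (X ω)) (fun z => h (res e.2.1 z) (z e.1)) ≤ ε * η0)) →
        Pr (D (X ω)) (θ (X ω)) (fun z => ¬ (ω, z) ∈ j.1) ≤ ε := by
      rintro ⟨c', hc'⟩
      by_cases hf : c' ∈ Fw
      · refine Eventually.of_forall fun ω hω => ?_
        have hcf : c' ∈ Cf := by
          rw [hCf, Finset.mem_filter]
          exact ⟨hc', hf⟩
        have h1 := hω.2 (ee c' hcf) (Finset.mem_image.2 ⟨⟨c', hcf⟩, Finset.mem_attach _ _, rfl⟩)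
          (fun s => gg c' hcf (ω, s)) (fun s => hgg c' hcf _)
        have h2 := K6_markov (D (X ω)) (θ (X ω)) hω.1
          (fun z => gg c' hcf (ω, res (ee c' hcf).2.1 z) (z (ee c' hcf).1))
          (fun z => (hT _ (hee c' hcf)).nn _ (hgg c' hcf _) _) (hηη c' hcf) h1
          (mul_le_mul_of_nonneg_left (hη1 ⟨c', hcf⟩ (Finset.mem_attach _ _)) hε0.le)
        have h3 : (fun z => ¬ (ω, z) ∈ c') =
            (fun z => ¬ gg c' hcf (ω, res (ee c' hcf).2.1 z) (z (ee c' hcf).1) < ηη c' hcf) := by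
          funext z
          conv_lhs => rw [hcc c' hcf]
          rfl
        dsimp only
        rw [h3]
        exact h2
      · have hb : c' ∈ Bw := (hCs c' hc').resolve_left hf
        rw [hBw] at hb
        obtain ⟨D', Y, f, c1, K, l, η, hXf, hK, hu, hl, hη, rfl⟩ := hb
        have := average p Y c1 hK hu (fun y => D (f y)) (fun y => θ (f y)) (fun y z => l (y, z)) (fun y z => hl _)
          hε0 hη
        filter_upwards [this] with ω hω hω2
        have h4 := hω (by rw [← hXf]; exact hω2.1)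
        rw [← hXf] at h4
        have h3 : (fun z => ¬ (ω, z) ∈ {w : Ω × (I → V) | l (Y w.1, w.2) (c1 w.1) < η}) =
            (fun z => η ≤ l (Y ω, z) (c1 ω)) := by
          funext z
          simp only [Set.mem_ofPred_eq, not_lt]
        have h5 : Pr (D (X ω)) (θ (X ω)) (fun z => ¬ (ω, z) ∈ {w : Ω × (I → V) | l (Y w.1, w.2) (c1 w.1) < η}) ≤ ε := by
          rw [h3]
          exact h4
        exact h5
    filter_upwards [hDθ, Filter.eventually_all.2 hall] with ω hω hω2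
    obtain ⟨hpr, hd', hsp, hcE⟩ := hω
    obtain ⟨z, hzD, hzE, hz⟩ := pick (D (X ω)) (θ (X ω)) hpr (fun z => (ω, z) ∈ E)
      (fun (j : {c' // c' ∈ Cs}) z => ¬ (ω, z) ∈ j.1) (fun _ => ε) (fun j => hω2 j ⟨hpr, hsp⟩) (by
        rw [Finset.sum_const, Finset.card_univ, Fintype.card_coe, nsmul_eq_mul, hε]
        refine lt_of_lt_of_le ?_ hcE
        rw [mul_div_assoc', div_lt_iff₀ (by positivity)]
        nlinarith)
    exact ⟨z, hzE, hd' z hzD, fun c' hc' => not_not.1 (hz ⟨c', hc'⟩)⟩)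
  refine ⟨p', hp1, ?_, ?_, ?_, ?_⟩
  · have := hp2 {w | w ∈ E ∧ (X w.1, w.2) ∈ d0 ∧ ∀ c' ∈ (∅ : Finset (Set (Ω × (I → V)))), w ∈ c'} (by
      rw [hF]
      exact ⟨d0, hd0, ∅, by simp, rfl⟩)
    exact mem_of_superset this fun w hw => hw.1
  · intro d hd
    have := hp2 {w | w ∈ E ∧ (X w.1, w.2) ∈ d ∧ ∀ c' ∈ (∅ : Finset (Set (Ω × (I → V)))), w ∈ c'} (by
      rw [hF]
      exact ⟨d, hd, ∅, by simp, rfl⟩)
    exact mem_of_superset this fun w hw => hw.2.1
  · intro e he g hg δ hδ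
    have := hp2 {w | w ∈ E ∧ (X w.1, w.2) ∈ d0 ∧ ∀ c' ∈ ({{w : Ω × (I → V) |
        g (w.1, res e.2.1 w.2) (w.2 e.1) < δ}} : Finset (Set (Ω × (I → V)))), w ∈ c'} (by
      rw [hF]
      refine ⟨d0, hd0, _, fun c' hc' => ?_, rfl⟩
      rw [Finset.mem_singleton] at hc'
      left
      rw [hFw]
      exact ⟨e, he, g, hg, δ, hδ, hc'⟩)
    exact mem_of_superset this fun w hw => hw.2.2 _ (Finset.mem_singleton_self _)
  · intro D' Y f hXf c1 K hK hu l hl δ hδ
    have := hp2 {w | w ∈ E ∧ (X w.1, w.2) ∈ d0 ∧ ∀ c' ∈ ({{w : Ω × (I → V) |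
        l (Y w.1, w.2) (c1 w.1) < δ}} : Finset (Set (Ω × (I → V)))), w ∈ c'} (by
      rw [hF]
      refine ⟨d0, hd0, _, fun c' hc' => ?_, rfl⟩
      rw [Finset.mem_singleton] at hc'
      right
      rw [hBw]
      exact ⟨D', Y, f, c1, K, l, δ, hXf, hK, hu, hl, hδ, hc'⟩)
    exact mem_of_superset this fun w hw => hw.2.2 _ (Finset.mem_singleton_self _)

end Pool.Agent.Lib.MP_b0c2b5_co.AT
end
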