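import Pool.Agent.Lib.MP_b0c2b5_co.AT.N1
import Pool.Agent.Lib.MP_b0c2b5_co.Mg.G001
import Pool.Agent.Lib.MP_b0c2b5_co.Mg.G002

section

/-!
# AT, N0: nodes and trees, elementary facts.

PROOFS. All by induction on `m` (recursive definitions of `fa`, `anc`, `Ind`). `FibF`: the finitely many sequences in the fibre of `a`.
-/

set_option autoImplicit false

namespace Pool.Agent.Lib.MP_b0c2b5_co.AT

open LS Filter
open scoped Classical

variable {V : Type}

variable {W : World V} {t m : ℕ}

theorem N0_anc_none : ∀ {m : ℕ} (n : Nd t m), fa n = none → anc n = ∅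
  | 0, n, _ => n.elim
  | m + 1, n, h => by
    induction n using ndc with
    | h0 i => rfl
    | h1 i k =>
      rw [fa_n1] at h
      exact absurd h (by simp)

theorem fa_cases (n : Nd t m) : (fa n = none ∧ anc n = ∅) ∨ ∃ n', fa n = some n' ∧ anc n = insert n' (anc n') := by
  cases h : fa n with
  | none => exact Or.inl ⟨rfl, N0_anc_none n h⟩
  | some n' => exact Or.inr ⟨n', rfl, anc_fa_subset n n' h⟩

theorem not_mem_anc (n : Nd t m) : n ∉ anc n := not_mem_anc_self n

theorem N0_card (n n' : Nd t m) (h : fa n = some n') : (anc n').card < (anc n).card := by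
  rw [anc_fa_subset n n' h, Finset.card_insert_of_notMem (not_mem_anc_self n')]
  exact Nat.lt_succ_self _

/-- induction along the father relation -/
theorem node_ind {P : Nd t m → Prop} (h : ∀ n, (∀ n', fa n = some n' → P n') → P n) : ∀ n, P n := by
  intro n
  induction hc : (anc n).card using Nat.strong_induction_on generalizing n with
  | _ c ih =>
    refine h n ?_
    intro n' hn'
    exact ih _ (by rw [← hc]; exact N0_card n n' hn') n' rfl

theorem anc_sub {a n : Nd t m} (h : a ∈ anc n) : anc a ⊆ anc n := by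
  induction n using node_ind with
  | h n ih =>
    rcases fa_cases n with ⟨_, h1⟩ | ⟨n', h1, h2⟩
    · rw [h1] at h
      exact absurd h (Finset.notMem_empty _)
    · rw [h2, Finset.mem_insert] at h
      rw [h2]
      rcases h with h | h
      · rw [h]
        exact Finset.subset_insert _ _
      · exact (ih n' h1 h).trans (Finset.subset_insert _ _)

/-- two ancestors are comparable -/
theorem anc_total {a b n : Nd t m} (ha : a ∈ anc n) (hb : b ∈ anc n) : a = b ∨ a ∈ anc b ∨ b ∈ anc a := by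
  induction n using node_ind with
  | h n ih =>
    rcases fa_cases n with ⟨_, h1⟩ | ⟨n', h1, h2⟩
    · rw [h1] at ha
      exact absurd ha (Finset.notMem_empty _)
    · rw [h2, Finset.mem_insert] at ha hb
      rcases ha with ha | ha
      · rcases hb with hb | hb
        · exact Or.inl (ha.trans hb.symm)
        · rw [ha]
          exact Or.inr (Or.inr hb)
      · rcases hb with hb | hb
        · rw [hb]
          exact Or.inr (Or.inl ha)
        · exact ih n' h1 ha hb

theorem N0_rt {x : V} {τ : Nd t (m + 1) → V} (h : OutT W x τ) (i : Fin t) : W.lt x (rt τ i) :=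
  W.ho.arc _ _ ((outT_succ.1 h).1 i).1

theorem N0_lt : ∀ {m : ℕ} {x : V} {τ : Nd t m → V}, OutT W x τ → ∀ n, W.lt x (τ n)
  | 0, _, _, _, n => n.elim
  | m + 1, x, τ, h, n => by
    induction n using ndc with
    | h0 i => exact N0_rt h i
    | h1 i k => exact W.ho.trans _ _ _ (N0_rt h i) (N0_lt ((outT_succ.1 h).1 i).2 k)

theorem OutT.lt_root {x : V} {τ : Nd t m → V} (h : OutT W x τ) (n : Nd t m) : W.lt x (τ n) := N0_lt h n

theorem OutT.lt_anc {x : V} {τ : Nd t m → V} (h : OutT W x τ) {a n : Nd t m} (ha : a ∈ anc n) : W.lt (τ a) (τ n) := by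
  induction n using node_ind with
  | h n ih =>
    rcases fa_cases n with ⟨_, h1⟩ | ⟨n', h1, h2⟩
    · rw [h1] at ha
      exact absurd ha (Finset.notMem_empty _)
    · have h3 : W.lt (τ n') (τ n) := by
        have h4 := h.1 n
        rw [h1] at h4
        exact W.ho.arc _ _ h4
      rw [h2, Finset.mem_insert] at ha
      rcases ha with ha | ha
      · rw [ha]
        exact h3
      · exact W.ho.trans _ _ _ (ih n' h1 ha) h3

theorem OutT.fib {x : V} {τ : Nd t m → V} (h : OutT W x τ) (n : Nd t m) : W.fib (τ n) = W.fib x := by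
  induction n using node_ind with
  | h n ih =>
    have h4 := h.1 n
    cases h1 : fa n with
    | none =>
      rw [h1] at h4
      exact (W.rf _ _ h4).symm
    | some n' =>
      rw [h1] at h4
      rw [← ih n' h1]
      exact (W.rf _ _ h4).symm

/-- the sequences in the fibre of `a` -/
noncomputable def FibF (W : World V) (I : Type) [Fintype I] (a : V) : Finset (I → V) :=
  (show Set.Finite {z : I → V | ∀ i, W.fib (z i) = W.fib a} from by
    have h : {z : I → V | ∀ i, W.fib (z i) = W.fib a} = Set.pi Set.univ (fun _ => {v | W.fib v = W.fib a}) := by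
      ext z
      simp
    rw [h]
    exact Set.Finite.pi (fun _ => W.fin _)).toFinset

theorem mem_FibF {I : Type} [Fintype I] {a : V} {z : I → V} : z ∈ FibF W I a ↔ ∀ i, W.fib (z i) = W.fib a := by
  unfold FibF
  rw [Set.Finite.mem_toFinset]
  rfl

/-- the root of the second tree is not the head of a conflict arc below a common hub, and a hub of a tree is not adjacent to
its nonroot nodes (F) -/
theorem OutT.hub {x x' : V} {τ : Nd t m → V} (h : OutT W x τ) {e : V} (he : W.r e x) (he' : W.r e x') (a : Option (Nd t m)) :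
    ¬ W.r (ev x τ a) x' := by
  intro hr
  have h1 : W.lt (ev x τ a) x' := W.ho.arc _ _ hr
  have h2 : W.lt e (ev x τ a) := by
    cases a with
    | none => exact W.ho.arc _ _ he
    | some n => exact W.ho.trans _ _ _ (W.ho.arc _ _ he) (h.lt_root n)
  exact W.ho.sf _ _ _ he' h2 h1

end Pool.Agent.Lib.MP_b0c2b5_co.AT
end

section

/-!
# AT, R1: existence of the system (paper 2.1, 2.2).

PROOF. Let `𝒫` be the set of the ultrafilters `p` on `V × V` with both projections `q` and adjacent pairs. `𝒫` is nonempty (`cpt`: for `A ∈ q` the set of the `x ∈ A` without neighbours in `A` is `ColOn _ _ 1`, so not in `q`). EQ: for `p ∈ 𝒫` `Unk p fst snd (EQr V)`: otherwise there are `g`, `δ > 0` with `δ ≤ g x y` almost everywhere,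
`g x ∈ EQr V`; the set of the `y` with `g x y ≥ δ` has at most `1 / δ` elements (members of `EQr V` are finitely supported of total mass one). The graph of the adjacent pairs with `g x y ≥ δ` has bounded outdegree, the fibres are finite: it has a
colouring with finitely many colours; one colour class is in `q`: contradiction. Zorn: `un p := {K | IsRes K ∧ Unk p fst snd K}`; a chain of sets `un p_i` has an upper bound `un p`, `p` the limit of the `p_i` along an ultrafilter on the chain.
`U := un p` for a maximal one; `join` by `unk_jn`, `isRes_jn`; `eq` as above; `mini` by maximality.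
-/

set_option autoImplicit false

namespace Pool.Agent.Lib.MP_b0c2b5_co.AT

open LS Filter
open scoped Classical

variable {V : Type}

/-- if the relation `D` has a finite proper colouring on a set of `q`, then `D` is empty on a set of `q` -/
theorem R1_katetov {q : Ultrafilter V} {D : V → V → Prop} {A : Set V} {c : ℕ} (hA : A ∈ q)
    (hD : ColOn D A c) : ∃ B ∈ q, ∀ x ∈ B, ∀ y ∈ B, ¬ D x y := by
  obtain ⟨f, h1, h2⟩ := hD
  have h3 : ∃ i ∈ Finset.range c, A ∩ {x | f x = i} ∈ q := by
    have hu : (⋃ i ∈ Finset.range c, A ∩ {x | f x = i}) ∈ q := by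
      refine Filter.mem_of_superset hA ?_
      intro x hx
      simp only [Set.mem_iUnion, Finset.mem_range]
      exact ⟨f x, h1 x hx, hx, rfl⟩
    have hfin : (Finset.range c : Set ℕ).Finite := Finset.finite_toSet _
    have := (Ultrafilter.finite_biUnion_mem_iff (f := q) (s := fun i => A ∩ {x | f x = i}) hfin).1 (by simpa using hu)
    obtain ⟨i, hi, hi2⟩ := this
    exact ⟨i, by simpa using hi, hi2⟩
  obtain ⟨i, _, hi⟩ := h3
  refine ⟨_, hi, ?_⟩
  rintro x ⟨hx, hx2⟩ y ⟨hy, hy2⟩ hxy
  exact h2 x hx y hy hxy (hx2.trans hy2.symm)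

/-- a relation of out-degree at most `K` on a finite set has a proper colouring with `2 K + 1` colours -/
theorem R1_outdeg (D : V → V → Prop) (K : ℕ) (s : Finset V)
    (h : ∀ x ∈ s, (s.filter (fun y => D x y)).card ≤ K) :
    ∃ f : V → ℕ, (∀ x, f x < 2 * K + 1) ∧ ∀ x ∈ s, ∀ y ∈ s, x ≠ y → D x y → f x ≠ f y := by
  induction hn : s.card generalizing s with
  | zero =>
    refine ⟨fun _ => 0, fun _ => Nat.succ_pos _, ?_⟩
    intro x hx
    rw [Finset.card_eq_zero] at hn
    rw [hn] at hx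
    exact absurd hx (Finset.notMem_empty x)
  | succ n ih =>
    have hne : s.Nonempty := by
      rw [← Finset.card_pos]
      omega
    -- a vertex of in-degree at most K
    obtain ⟨v, hv, hvin⟩ : ∃ v ∈ s, (s.filter (fun x => D x v)).card ≤ K := by
      by_contra hcon
      push Not at hcon
      have h1 : ∑ v ∈ s, (s.filter (fun x => D x v)).card = ∑ x ∈ s, (s.filter (fun y => D x y)).card := by
        simp only [Finset.card_filter]
        exact Finset.sum_comm
      have h2 : ∑ x ∈ s, (s.filter (fun y => D x y)).card ≤ s.card * K := by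
        rw [← smul_eq_mul]
        exact Finset.sum_le_card_nsmul _ _ _ h
      have h3 : s.card * K < ∑ v ∈ s, (s.filter (fun x => D x v)).card := by
        have : ∑ v ∈ s, K < ∑ v ∈ s, (s.filter (fun x => D x v)).card := by
          refine Finset.sum_lt_sum_of_nonempty hne ?_
          intro v hv
          exact hcon v hv
        simpa using this
      omega
    have hcard : (s.erase v).card = n := by
      rw [Finset.card_erase_of_mem hv]
      omega
    obtain ⟨f, hf1, hf2⟩ := ih (s.erase v) (by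
      intro x hx
      refine le_trans (Finset.card_le_card ?_) (h x (Finset.mem_of_mem_erase hx))
      exact Finset.filter_subset_filter _ (Finset.erase_subset _ _)) hcard
    -- the neighbours of v
    let N : Finset V := s.filter (fun x => D x v) ∪ s.filter (fun y => D v y)
    have hN : N.card ≤ 2 * K := by
      refine le_trans (Finset.card_union_le _ _) ?_
      have := h v hv
      omega
    obtain ⟨i, hi, hiN⟩ : ∃ i ∈ Finset.range (2 * K + 1), i ∉ N.image f := by
      by_contra hcon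
      push Not at hcon
      have h1 : (Finset.range (2 * K + 1)).card ≤ (N.image f).card := Finset.card_le_card hcon
      rw [Finset.card_range] at h1
      have h2 : (N.image f).card ≤ N.card := Finset.card_image_le
      omega
    refine ⟨Function.update f v i, ?_, ?_⟩
    · intro x
      by_cases hx : x = v
      · subst hx
        rw [Function.update_self]
        exact Finset.mem_range.1 hi
      · rw [Function.update_of_ne hx]
        exact hf1 x
    · intro x hx y hy hxy hD
      by_cases hxv : x = v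
      · subst hxv
        rw [Function.update_self, Function.update_of_ne (Ne.symm hxy)]
        intro he
        apply hiN
        rw [he]
        exact Finset.mem_image_of_mem f (Finset.mem_union_right _ (Finset.mem_filter.2 ⟨hy, hD⟩))
      · by_cases hyv : y = v
        · subst hyv
          rw [Function.update_self, Function.update_of_ne hxv]
          intro he
          apply hiN
          rw [← he]
          exact Finset.mem_image_of_mem f (Finset.mem_union_left _ (Finset.mem_filter.2 ⟨hx, hD⟩))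
        · rw [Function.update_of_ne hxv, Function.update_of_ne hyv]
          exact hf2 x (Finset.mem_erase.2 ⟨hxv, hx⟩) y (Finset.mem_erase.2 ⟨hyv, hy⟩) hxy hD

/-- a relation of bounded out-degree inside the fibres has a finite proper colouring -/
theorem R1_outdegW (W : World V) (D : V → V → Prop) (K : ℕ)
    (hD : ∀ x y, D x y → W.fib x = W.fib y ∧ x ≠ y)
    (h : ∀ x, ∀ s : Finset V, (∀ y ∈ s, D x y) → s.card ≤ K) : ColOn D (Set.univ : Set V) (2 * K + 1) := by
  have h1 : ∀ n : ℕ, ∃ f : V → ℕ, (∀ x, f x < 2 * K + 1) ∧ ∀ x y, W.fib x = n → W.fib y = n → D x y → f x ≠ f y := by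
    intro n
    obtain ⟨f, hf1, hf2⟩ := R1_outdeg D K (W.fin n).toFinset (by
      intro x _
      exact h x _ (fun y hy => (Finset.mem_filter.1 hy).2))
    refine ⟨f, hf1, ?_⟩
    intro x y hx hy hxy
    exact hf2 x ((W.fin n).mem_toFinset.2 hx) y ((W.fin n).mem_toFinset.2 hy) (hD x y hxy).2 hxy
  choose f hf1 hf2 using h1
  refine ⟨fun x => f (W.fib x) x, fun x _ => hf1 _ x, ?_⟩
  intro x _ y _ hxy
  have e := (hD x y hxy).1
  have := hf2 (W.fib x) x y rfl e.symm hxy
  simpa [e] using this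

/-- members of `EQr V` are nonnegative with total mass at most one -/
theorem R1_EQ_mem {f : V → ℝ} (hf : f ∈ EQr V) : (∀ v, 0 ≤ f v) ∧ ∀ s : Finset V, ∑ v ∈ s, f v ≤ 1 := by
  have h1 : EQr V ⊆ {f : V → ℝ | (∀ v, 0 ≤ f v) ∧ ∀ s : Finset V, ∑ v ∈ s, f v ≤ 1} := by
    refine convexHull_min ?_ ?_
    · rintro _ ⟨a, rfl⟩
      refine ⟨?_, ?_⟩
      · intro v
        dsimp only
        split_ifs
        · exact zero_le_one
        · exact le_rfl
      · intro s
        rw [Finset.sum_ite_eq']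
        split_ifs
        · exact le_rfl
        · exact zero_le_one
    · intro f hf g hg a b ha hb hab
      refine ⟨?_, ?_⟩
      · intro v
        simp only [Pi.add_apply, Pi.smul_apply, smul_eq_mul]
        exact add_nonneg (mul_nonneg ha (hf.1 v)) (mul_nonneg hb (hg.1 v))
      · intro s
        simp only [Pi.add_apply, Pi.smul_apply, smul_eq_mul]
        rw [Finset.sum_add_distrib, ← Finset.mul_sum, ← Finset.mul_sum]
        calc a * ∑ i ∈ s, f i + b * ∑ i ∈ s, g i ≤ a * 1 + b * 1 :=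
              add_le_add (mul_le_mul_of_nonneg_left (hf.2 s) ha) (mul_le_mul_of_nonneg_left (hg.2 s) hb)
          _ = 1 := by rw [mul_one, mul_one, hab]
  exact h1 hf

/-- the exact adjacent pairs of `q`-points -/
def R1P (W : World V) (q : Ultrafilter V) : Set (Ultrafilter (V × V)) :=
  {p | p.map Prod.fst = q ∧ p.map Prod.snd = q ∧ ∀ᶠ z in (p : Filter (V × V)), W.r z.1 z.2 ∨ W.r z.2 z.1}

/-- EQ is unknown -/
theorem R1_EQ (W : World V) (q : Ultrafilter V) (p : Ultrafilter (V × V)) (hp : p ∈ R1P W q) :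
    Unk p Prod.fst Prod.snd (EQr V) := by
  obtain ⟨hp1, hp2, hp3⟩ := hp
  by_contra hcon
  rw [not_unk_iff] at hcon
  obtain ⟨g, hg, δ, hδ, hev⟩ := hcon
  let D : V → V → Prop := fun x y => (W.r x y ∨ W.r y x) ∧ δ ≤ g x y
  have hD1 : ∀ x y, D x y → W.fib x = W.fib y ∧ x ≠ y := by
    rintro x y ⟨h, _⟩
    refine ⟨?_, ?_⟩
    · rcases h with h | h
      · exact W.rf x y h
      · exact (W.rf y x h).symm
    · rintro rfl
      rcases h with h | h
      · exact W.ho.irr _ (W.ho.arc _ _ h)
      · exact W.ho.irr _ (W.ho.arc _ _ h)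
  obtain ⟨K, hK⟩ : ∃ K : ℕ, 1 / δ ≤ K := exists_nat_ge _
  have hD2 : ∀ x, ∀ s : Finset V, (∀ y ∈ s, D x y) → s.card ≤ K := by
    intro x s hs
    have h1 : (s.card : ℝ) * δ ≤ 1 := by
      have h2 : ∑ y ∈ s, δ ≤ ∑ y ∈ s, g x y := Finset.sum_le_sum (fun y hy => (hs y hy).2)
      rw [Finset.sum_const, nsmul_eq_mul] at h2
      exact h2.trans ((R1_EQ_mem (hg x)).2 s)
    have h3 : (s.card : ℝ) ≤ 1 / δ := by
      rw [le_div_iff₀ hδ]
      exact h1
    exact_mod_cast h3.trans hK
  obtain ⟨B, hB, hB2⟩ := R1_katetov (q := q) Filter.univ_mem (R1_outdegW W D K hD1 hD2)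
  have e1 : ∀ᶠ z in (p : Filter (V × V)), z.1 ∈ B := by
    have : B ∈ p.map Prod.fst := by
      rw [hp1]
      exact hB
    exact this
  have e2 : ∀ᶠ z in (p : Filter (V × V)), z.2 ∈ B := by
    have : B ∈ p.map Prod.snd := by
      rw [hp2]
      exact hB
    exact this
  obtain ⟨z, ⟨⟨h1, h2⟩, h3⟩, h4⟩ := (((e1.and e2).and hp3).and hev).exists
  exact hB2 _ h1 _ h2 ⟨h3, h4⟩

/-- there are exact adjacent pairs -/
theorem R1_ne (W : World V) (q : Ultrafilter V) (hq : ∀ A ∈ q, ∀ c, ¬ ColOn W.r A c) : ∃ p, p ∈ R1P W q := by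
  let F : Set (Set (V × V)) := {a | ∃ A ∈ q, a = {z : V × V | z.2 ∈ A ∧ (W.r z.1 z.2 ∨ W.r z.2 z.1)}}
  have hne : F.Nonempty := ⟨_, Set.univ, Filter.univ_mem, rfl⟩
  have hF : ∀ a ∈ F, ∀ b ∈ F, a ∩ b ∈ F := by
    rintro _ ⟨A, hA, rfl⟩ _ ⟨B, hB, rfl⟩
    refine ⟨A ∩ B, Filter.inter_mem hA hB, ?_⟩
    ext z
    constructor
    · rintro ⟨⟨h1, h2⟩, h3, _⟩
      exact ⟨⟨h1, h3⟩, h2⟩
    · rintro ⟨⟨h1, h3⟩, h2⟩
      exact ⟨⟨h1, h2⟩, h3, h2⟩
  have h : ∀ a ∈ F, ∀ᶠ x in (q : Filter V), ∃ y, (x, y) ∈ a := by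
    rintro _ ⟨A, hA, rfl⟩
    by_contra hcon
    rw [← Ultrafilter.eventually_not] at hcon
    have h1 : {x | ¬ ∃ y, (x, y) ∈ {z : V × V | z.2 ∈ A ∧ (W.r z.1 z.2 ∨ W.r z.2 z.1)}} ∩ A ∈ q :=
      Filter.inter_mem hcon hA
    refine hq _ h1 1 ⟨fun _ => 0, fun _ _ => Nat.one_pos, ?_⟩
    rintro x ⟨hx, _⟩ y ⟨_, hy⟩ hxy
    exact absurd ⟨y, hy, Or.inl hxy⟩ hx
  obtain ⟨p, hp1, hp2⟩ := cpt q F hne hF h
  refine ⟨p, hp1, ?_, ?_⟩
  · refine Ultrafilter.coe_inj.1 (q.unique ?_)
    intro A hA
    have h1 := hp2 _ ⟨A, hA, rfl⟩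
    change Prod.snd ⁻¹' A ∈ (p : Filter (V × V))
    exact Filter.mem_of_superset h1 (fun z hz => hz.1)
  · have := hp2 _ ⟨Set.univ, Filter.univ_mem, rfl⟩
    exact Filter.mem_of_superset this (fun z hz => hz.2)

/-- the unknown resources -/
def R1un (p : Ultrafilter (V × V)) : Set (Set (V → ℝ)) := {K | IsRes K ∧ Unk p Prod.fst Prod.snd K}

theorem R1_chain (W : World V) (q : Ultrafilter V) (c : Set (Set (Set (V → ℝ))))
    (hc : c ⊆ {u | ∃ p ∈ R1P W q, u = R1un p}) (hch : IsChain (· ⊆ ·) c) (hne : c.Nonempty) :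
    ∃ p ∈ R1P W q, ∀ u ∈ c, u ⊆ R1un p := by
  have h0 : ∀ u : c, ∃ p ∈ R1P W q, (u : Set (Set (V → ℝ))) = R1un p := fun u => hc u.2
  choose P hP hPu using h0
  have : Nonempty c := hne.to_subtype
  have : IsDirectedOrder c := by
    refine ⟨?_⟩
    intro a b
    rcases hch.total a.2 b.2 with h | h
    · exact ⟨b, h, le_rfl⟩
    · exact ⟨a, le_rfl, h⟩
  let 𝓤 : Ultrafilter c := Ultrafilter.of atTop
  let p : Ultrafilter (V × V) := Ultrafilter.bind 𝓤 P
  have hmem : ∀ s : Set (V × V), (∀ᶠ i in (𝓤 : Filter c), s ∈ P i) → s ∈ p := by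
    intro s hs
    change s ∈ Filter.bind (𝓤 : Filter c) (fun x => (P x : Filter (V × V)))
    rw [Filter.mem_bind']
    exact hs
  have htail : ∀ i : c, ∀ᶠ j in (𝓤 : Filter c), i ≤ j := fun i => Ultrafilter.of_le _ (Filter.Ici_mem_atTop i)
  refine ⟨p, ⟨?_, ?_, ?_⟩, ?_⟩
  · refine Ultrafilter.coe_inj.1 (q.unique ?_)
    intro A hA
    change Prod.fst ⁻¹' A ∈ p
    refine hmem _ (Filter.Eventually.of_forall ?_)
    intro i
    have h1 : A ∈ (P i).map Prod.fst := by
      rw [(hP i).1]
      exact hA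
    exact h1
  · refine Ultrafilter.coe_inj.1 (q.unique ?_)
    intro A hA
    change Prod.snd ⁻¹' A ∈ p
    refine hmem _ (Filter.Eventually.of_forall ?_)
    intro i
    have h1 : A ∈ (P i).map Prod.snd := by
      rw [(hP i).2.1]
      exact hA
    exact h1
  · exact hmem _ (Filter.Eventually.of_forall (fun i => (hP i).2.2))
  · intro u hu K hK
    have h1 : ∀ j : c, (⟨u, hu⟩ : c) ≤ j → K ∈ R1un (P j) := by
      intro j hj
      rw [← hPu j]
      exact hj hK
    refine ⟨(h1 ⟨u, hu⟩ le_rfl).1, ?_⟩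
    intro g hg δ hδ
    refine hmem _ ?_
    refine (htail ⟨u, hu⟩).mono ?_
    intro j hj
    exact (h1 j hj).2 g hg δ hδ

/-- 2.1, 2.2: a system exists for every ultrafilter of large sets -/
theorem exists_sys (W : World V) (q : Ultrafilter V) (hq : ∀ A ∈ q, ∀ c, ¬ ColOn W.r A c) : ∃ U, Sys W q U := by
  obtain ⟨p0, hp0⟩ := R1_ne W q hq
  obtain ⟨U, _, hU⟩ := zorn_subset_nonempty {u | ∃ p ∈ R1P W q, u = R1un p} (by
    intro c hc hch hne
    obtain ⟨p, hp, hp2⟩ := R1_chain W q c hc hch hne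
    exact ⟨R1un p, ⟨p, hp, rfl⟩, hp2⟩) (R1un p0) ⟨p0, hp0, rfl⟩
  obtain ⟨⟨p, hp, rfl⟩, hmax⟩ := hU
  refine ⟨R1un p, ?_⟩
  exact
    { large := hq
      res := fun K hK => hK.1
      join := fun K hK K' hK' => ⟨isRes_jn hK.1 hK'.1, unk_jn hK.1 hK'.1 hK.2 hK'.2⟩
      eq := ⟨isRes_EQ, R1_EQ W q p hp⟩
      mini := by
        intro p' h1 h2 h3 h4 K hK hKU hunk
        have h5 : R1un p ⊆ R1un p' := fun K' hK' => ⟨hK'.1, h4 K' hK'⟩
        have h6 : R1un p' ⊆ R1un p := hmax ⟨p', ⟨h1, h2, h3⟩, rfl⟩ h5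
        exact hKU (h6 ⟨hK, hunk⟩)
      ex := ⟨p, hp.1, hp.2.1, hp.2.2, fun K hK => hK.2⟩ }

end Pool.Agent.Lib.MP_b0c2b5_co.AT
end

section

/-!
# AT, D1: the reversed branch of a bi-free tree.

PROOF. `fas : Option (Nd t m) → ℕ → Option (Nd t m)`, `fas n 0 = n`, `fas n (i+1) =` the father of `fas n i` (`none` for `none`). `M := (anc n).card + 1` is the least number with `fas (some n) M = none`. `w ω i := ev (x ω) (τ ω) (fas (some n) (i+1))` for `i < M` (so `w ω (M-1) = x ω`), `w ω M := y ω`. `e0`, `e`: the arcs of the tree reversed, the last one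
is `hxy`. `free i`, `i < M`: `a := fas (some n) (i+1)`; the information `(τ n, w_0, .., w_(i-1))` is a function of `res (seg a n) τ` (`a ∈ anc n`) resp. of `res (insert n (anc n)) τ` (`a = none`): `bn`, `bx`. `free M`: a function of `(x, τ)`: `hy`.
-/

set_option autoImplicit false

namespace Pool.Agent.Lib.MP_b0c2b5_co.AT

open LS Filter
open scoped Classical

variable {V : Type}

/-- information which factors through known information -/
theorem D1_fac {Ω D D' : Type} {p : Ultrafilter Ω} {Y : Ω → D} {Y' : Ω → D'} {b : Ω → V} {K : Set (V → ℝ)}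
    (hf : ∀ ω ω', Y ω = Y ω' → Y' ω = Y' ω') (h : Unk p Y b K) : Unk p Y' b K := by
  have hne : Nonempty Ω := Filter.nonempty_of_neBot (p : Filter Ω)
  obtain ⟨ω0⟩ := hne
  refine Unk.comp (fun d => if h : ∃ ω, Y ω = d then Y' h.choose else Y' ω0) (Filter.Eventually.of_forall fun ω => ?_) h
  have hex : ∃ ω', Y ω' = Y ω := ⟨ω, rfl⟩
  show Y' ω = if h : ∃ ω', Y ω' = Y ω then Y' h.choose else Y' ω0
  rw [dif_pos hex]
  exact hf _ _ hex.choose_spec.symm

theorem D1_res {I : Type} {s : Finset I} {z z' : I → V} (h : res s z = res s z') {i : I} (hi : i ∈ s) : z i = z' i := by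
  have := congrFun h i
  simpa [res, hi] using this

/-- iterated fathers of `n` -/
def D1_fas {t m : ℕ} (n : Nd t m) : ℕ → Option (Nd t m)
  | 0 => some n
  | i + 1 => (D1_fas n i).bind fa

theorem D1_fas_some {t m : ℕ} (n : Nd t m) : ∀ i, i ≤ (anc n).card →
    ∃ a, D1_fas n i = some a ∧ (anc a).card + i = (anc n).card ∧ (a = n ∨ a ∈ anc n) := by
  intro i
  induction i with
  | zero => exact fun _ => ⟨n, rfl, rfl, Or.inl rfl⟩
  | succ i ih =>
    intro hi
    obtain ⟨a, h1, h2, h3⟩ := ih (by omega)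
    rcases fa_cases a with ⟨_, ha⟩ | ⟨a', ha, ha'⟩
    · rw [ha] at h2
      simp at h2
      omega
    · have hc : (anc a).card = (anc a').card + 1 := by
        rw [ha', Finset.card_insert_of_notMem (not_mem_anc a')]
      have hm : a' ∈ anc a := by rw [ha']; exact Finset.mem_insert_self _ _
      refine ⟨a', ?_, by omega, Or.inr ?_⟩
      · show (D1_fas n i).bind fa = some a'
        rw [h1]
        exact ha
      · rcases h3 with rfl | h3
        · exact hm
        · exact anc_sub h3 hm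

theorem D1_fas_none {t m : ℕ} (n : Nd t m) : D1_fas n ((anc n).card + 1) = none := by
  obtain ⟨a, h1, h2, _⟩ := D1_fas_some n (anc n).card le_rfl
  have h0 : anc a = ∅ := Finset.card_eq_zero.1 (by omega)
  show (D1_fas n (anc n).card).bind fa = none
  rw [h1]
  rcases fa_cases a with ⟨ha, _⟩ | ⟨a', _, ha'⟩
  · exact ha
  · rw [h0] at ha'
    exact absurd (ha' ▸ Finset.mem_insert_self a' (anc a')) (Finset.notMem_empty _)

theorem D1_fas_anc {t m : ℕ} (n : Nd t m) {j : ℕ} {b : Nd t m} (hb : D1_fas n j = some b) : ∀ {i : ℕ} {a : Nd t m},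
    j < i → D1_fas n i = some a → a ∈ anc b := by
  intro i
  induction i with
  | zero => intro a h; exact absurd h (Nat.not_lt_zero _)
  | succ i ih =>
    intro a hji ha
    have ha' : (D1_fas n i).bind fa = some a := ha
    obtain ⟨a1, h1, h2⟩ := Option.bind_eq_some_iff.1 ha'
    have hm : a ∈ anc a1 := by
      rcases fa_cases a1 with ⟨h3, _⟩ | ⟨a', h3, h4⟩
      · rw [h3] at h2
        exact absurd h2 (by simp)
      · rw [h3] at h2
        have : a' = a := Option.some.inj h2
        rw [h4, this]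
        exact Finset.mem_insert_self _ _
    rcases Nat.lt_or_ge j i with h | h
    · exact anc_sub (ih h h1) hm
    · have hij : j = i := by omega
      subst hij
      rw [hb] at h1
      have : b = a1 := Option.some.inj h1
      rw [this]
      exact hm

theorem rev_path {W : World V} {q : Ultrafilter V} {U : Set (Set (V → ℝ))} {t m : ℕ} {Ω : Type} {p : Ultrafilter Ω}
    {x : Ω → V} {τ : Ω → Nd t m → V} (arc : ∀ n, CA W q U p (fun ω => ev (x ω) (τ ω) (fa n)) (fun ω => τ ω n))
    (bx : ∀ n, Fr U p (fun ω => res (insert n (anc n)) (τ ω)) x)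
    (bn : ∀ n, ∀ a ∈ anc n, Fr U p (fun ω => res (seg a n) (τ ω)) (fun ω => τ ω a))
    (y : Ω → V) (hxy : CE W q U p x y) (hy : Fr U p (fun ω => (x ω, τ ω)) y) (n : Nd t m) :
    ∃ (M : ℕ) (w : Ω → Fin (M + 1) → V), FPath W q U p (fun ω => τ ω n) w ∧
      ∀ᶠ ω in (p : Filter Ω), w ω (Fin.last M) = y ω := by
  obtain ⟨M, hM⟩ : ∃ M, M = (anc n).card + 1 := ⟨_, rfl⟩
  have hnone : D1_fas n M = none := by rw [hM]; exact D1_fas_none n
  let w : Ω → Fin (M + 1) → V := fun ω i => if i.val = M then y ω else ev (x ω) (τ ω) (D1_fas n (i.val + 1))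
  have hw1 : ∀ i : Fin (M + 1), i.val = M → (fun ω => w ω i) = y := by
    intro i hi
    funext ω
    show (if i.val = M then y ω else _) = _
    rw [if_pos hi]
  have hw2 : ∀ i : Fin (M + 1), i.val ≠ M → (fun ω => w ω i) = fun ω => ev (x ω) (τ ω) (D1_fas n (i.val + 1)) := by
    intro i hi
    funext ω
    show (if i.val = M then y ω else _) = _
    rw [if_neg hi]
  refine ⟨M, w, ⟨?_, ?_, ?_⟩, ?_⟩
  · rw [hw2 0 (by simp; omega)]
    exact Or.inr (arc n)
  · intro i
    have h1 : (i.castSucc : Fin (M + 1)).val ≠ M := by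
      have := i.isLt
      simp
      omega
    rw [hw2 _ h1]
    rcases eq_or_ne i.succ.val M with h2 | h2
    · rw [hw1 _ h2]
      have h3 : i.castSucc.val + 1 = M := by simpa using h2
      rw [h3, hnone]
      exact hxy
    · rw [hw2 _ h2]
      have h4 := i.isLt
      have h5 : i.val + 1 ≠ M := by simpa using h2
      obtain ⟨a, ha, _, _⟩ := D1_fas_some n (i.val + 1) (by omega)
      have e1 : D1_fas n (i.castSucc.val + 1) = some a := ha
      have e2 : D1_fas n (i.succ.val + 1) = fa a := by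
        show (D1_fas n (i.val + 1)).bind fa = fa a
        rw [ha]
        rfl
      rw [e1, e2]
      exact Or.inr (arc a)
  · intro i K hK
    rcases eq_or_ne i.val M with h2 | h2
    · rw [hw1 _ h2]
      refine D1_fac ?_ (hy K hK)
      intro ω ω' h
      have hx : x ω = x ω' := congrArg Prod.fst h
      have hτ : τ ω = τ ω' := congrArg Prod.snd h
      refine Prod.ext (congrFun hτ n) ?_
      funext j
      show res _ (w ω) j = res _ (w ω') j
      unfold res
      by_cases hj : j ∈ Finset.Iio i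
      · rw [if_pos hj, if_pos hj]
        have hj' : j.val < i.val := by simpa using hj
        have h3 := hw2 j (by omega)
        rw [show w ω j = _ from congrFun h3 ω, show w ω' j = _ from congrFun h3 ω', hx, hτ]
      · rw [if_neg hj, if_neg hj]
    · have hi := i.isLt
      rw [hw2 _ h2]
      rcases Nat.lt_or_ge i.val (anc n).card with h3 | h3
      · obtain ⟨a, ha, _, ha'⟩ := D1_fas_some n (i.val + 1) (by omega)
        have han : a ∈ anc n := D1_fas_anc n (j := 0) rfl (Nat.succ_pos _) ha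
        rw [ha]
        refine D1_fac ?_ (bn n a han K hK)
        intro ω ω' h
        refine Prod.ext (D1_res h (Finset.mem_insert_self _ _)) ?_
        funext j
        show res _ (w ω) j = res _ (w ω') j
        unfold res
        by_cases hj : j ∈ Finset.Iio i
        · rw [if_pos hj, if_pos hj]
          have hj' : j.val < i.val := by simpa using hj
          have h3 := hw2 j (by omega)
          rw [show w ω j = _ from congrFun h3 ω, show w ω' j = _ from congrFun h3 ω']
          obtain ⟨b, hb, _, _⟩ := D1_fas_some n (j.val + 1) (by omega)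
          rw [hb]
          have hbn : b ∈ anc n := D1_fas_anc n (j := 0) rfl (Nat.succ_pos _) hb
          have hab : a ∈ anc b := D1_fas_anc n hb (by omega) ha
          have := D1_res h (i := b) (Finset.mem_insert_of_mem (Finset.mem_filter.2 ⟨hbn, hab⟩))
          exact congrArg some this
        · rw [if_neg hj, if_neg hj]
      · have h4 : i.val + 1 = M := by omega
        rw [h4, hnone]
        refine D1_fac ?_ (bx n K hK)
        intro ω ω' h
        refine Prod.ext (D1_res h (Finset.mem_insert_self _ _)) ?_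
        funext j
        show res _ (w ω) j = res _ (w ω') j
        unfold res
        by_cases hj : j ∈ Finset.Iio i
        · rw [if_pos hj, if_pos hj]
          have hj' : j.val < i.val := by simpa using hj
          have h3 := hw2 j (by omega)
          rw [show w ω j = _ from congrFun h3 ω, show w ω' j = _ from congrFun h3 ω']
          obtain ⟨b, hb, _, _⟩ := D1_fas_some n (j.val + 1) (by omega)
          rw [hb]
          have hbn : b ∈ anc n := D1_fas_anc n (j := 0) rfl (Nat.succ_pos _) hb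
          have := D1_res h (i := b) (Finset.mem_insert_of_mem hbn)
          exact congrArg some this
        · rw [if_neg hj, if_neg hj]
  · refine Filter.Eventually.of_forall fun ω => ?_
    exact congrFun (hw1 (Fin.last M) rfl) ω

end Pool.Agent.Lib.MP_b0c2b5_co.AT
end

section

/-!
# AT, H0: tree kernels.

PROOF. `spread_SP` for `X := x`, `z := τ`, `past := anc`, `D a := (FibF W _ a).filter (R a)`: for almost all `ω` the set `SP anc K δ (D (x ω))` is nonempty, so the set of the `y` with this property is in `p.map x = q`; choose `μ y` in it.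
-/

set_option autoImplicit false

namespace Pool.Agent.Lib.MP_b0c2b5_co.AT

open LS Filter
open scoped Classical

variable {V : Type}

theorem kernel {W : World V} {q : Ultrafilter V} {U : Set (Set (V → ℝ))} (S : Sys W q U) {t m : ℕ} {Ω : Type}
    (p : Ultrafilter Ω) (x : Ω → V) (τ : Ω → Nd t m → V) (hx : p.map x = q)
    (hfib : ∀ᶠ ω in (p : Filter Ω), ∀ n, W.fib (τ ω n) = W.fib (x ω))
    (hfree : ∀ n, Fr U p (fun ω => (x ω, res (anc n) (τ ω))) (fun ω => τ ω n)) (R : V → (Nd t m → V) → Prop)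
    (hR : ∀ᶠ ω in (p : Filter Ω), R (x ω) (τ ω)) {K : Set (V → ℝ)} (hK : K ∈ U) {δ : ℝ} (hδ : 0 < δ) :
    ∃ (D : V → Finset (Nd t m → V)) (μ : V → (Nd t m → V) → ℝ), ∀ᶠ y in (q : Filter V),
      μ y ∈ SP anc K δ (D y) ∧ ∀ σ ∈ D y, R y σ := by
  have hD : ∀ᶠ ω in (p : Filter Ω), τ ω ∈ (FibF W (Nd t m) (x ω)).filter (R (x ω)) := by
    filter_upwards [hfib, hR] with ω h1 h2
    exact Finset.mem_filter.2 ⟨mem_FibF.2 h1, h2⟩
  have h := spread_SP S p x τ anc hfree (fun a => (FibF W (Nd t m) a).filter (R a)) hD hK hδ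
  refine ⟨fun a => (FibF W (Nd t m) a).filter (R a),
    fun y => if hy : (SP anc K δ ((FibF W (Nd t m) y).filter (R y))).Nonempty then hy.some else 0, ?_⟩
  rw [← hx, Ultrafilter.coe_map, Filter.eventually_map]
  filter_upwards [h] with ω hω
  refine ⟨?_, fun σ hσ => (Finset.mem_filter.1 hσ).2⟩
  have hω' : (SP anc K δ ((FibF W (Nd t m) (x ω)).filter (R (x ω)))).Nonempty := hω
  rw [dif_pos hω']
  exact hω'.some_mem

end Pool.Agent.Lib.MP_b0c2b5_co.AT
end

section

/-!
# AT, H1: the hub lemma (finite part of Lemma D, Lemma E and NG).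

`t` independent branches at a hub `e`: if there is no tree satisfying the finite data, two of the branches have a conflict
(arc with nonroot head) with probability at least `1 / (2 t ^ 2)`.
-/

set_option autoImplicit false

namespace Pool.Agent.Lib.MP_b0c2b5_co.AT

open LS Filter
open scoped Classical

variable {V : Type}

/-! ### expectations -/

theorem H1_Ex_mono {Z : Type} {D : Finset Z} {θ : Z → ℝ} (hθ : IsPr D θ) {f g : Z → ℝ} (h : ∀ z ∈ D, f z ≤ g z) :
    Ex D θ f ≤ Ex D θ g :=
  Finset.sum_le_sum fun z hz => mul_le_mul_of_nonneg_left (h z hz) (hθ.nn z)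

theorem H1_Ex_const {Z : Type} {D : Finset Z} {θ : Z → ℝ} (hθ : IsPr D θ) (c : ℝ) : Ex D θ (fun _ => c) = c := by
  unfold Ex
  rw [← Finset.sum_mul, hθ.sum, one_mul]

theorem H1_Pr_nonneg {Z : Type} {D : Finset Z} {θ : Z → ℝ} (hθ : IsPr D θ) (E : Z → Prop) : 0 ≤ Pr D θ E :=
  Finset.sum_nonneg fun z _ => mul_nonneg (hθ.nn z) (by dsimp only; split_ifs <;> simp)

/-- product weights -/
noncomputable def H1_pw {I Z : Type} [Fintype I] (θ : I → Z → ℝ) : (I → Z) → ℝ := fun z => ∏ i, θ i (z i)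

theorem H1_sum_prod {I Z : Type} [Fintype I] [DecidableEq I] (D : I → Finset Z) (θ f : I → Z → ℝ) :
    ∑ z ∈ Fintype.piFinset D, H1_pw θ z * ∏ i, f i (z i) = ∏ i, ∑ a ∈ D i, θ i a * f i a := by
  rw [Finset.prod_univ_sum]
  refine Finset.sum_congr rfl fun z _ => ?_
  rw [H1_pw, ← Finset.prod_mul_distrib]

theorem H1_isPr {I Z : Type} [Fintype I] [DecidableEq I] {D : I → Finset Z} {θ : I → Z → ℝ} (h : ∀ i, IsPr (D i) (θ i)) :
    IsPr (Fintype.piFinset D) (H1_pw θ) where
  nn z := Finset.prod_nonneg fun i _ => (h i).nn _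
  supp z hz := by
    rw [Fintype.mem_piFinset] at hz
    push Not at hz
    obtain ⟨i, hi⟩ := hz
    exact Finset.prod_eq_zero (Finset.mem_univ i) ((h i).supp _ hi)
  sum := by
    have := H1_sum_prod D θ (fun _ _ => 1)
    simp only [Finset.prod_const_one, mul_one] at this
    rw [this]
    exact Finset.prod_eq_one fun i _ => (h i).sum

theorem H1_marg1 {I Z : Type} [Fintype I] [DecidableEq I] {D : I → Finset Z} {θ : I → Z → ℝ} (h : ∀ i, IsPr (D i) (θ i)) (i : I)
    (f : Z → ℝ) : Ex (Fintype.piFinset D) (H1_pw θ) (fun z => f (z i)) = Ex (D i) (θ i) f := by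
  have := H1_sum_prod D θ (fun k a => if k = i then f a else 1)
  have h1 : ∀ z : I → Z, (∏ k, if k = i then f (z k) else 1) = f (z i) := by
    intro z
    rw [Fintype.prod_eq_single i (fun k hk => if_neg hk), if_pos rfl]
  simp only [h1] at this
  unfold Ex
  rw [this, Fintype.prod_eq_single i]
  · simp
  · intro k hk
    simp only [if_neg hk, mul_one]
    exact (h k).sum

theorem H1_marg2 {I Z : Type} [Fintype I] [DecidableEq I] {D : I → Finset Z} {θ : I → Z → ℝ} (h : ∀ i, IsPr (D i) (θ i)) {i j : I}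
    (hij : i ≠ j) (f : Z → Z → ℝ) : Ex (Fintype.piFinset D) (H1_pw θ) (fun z => f (z i) (z j)) =
      Ex (D i) (θ i) (fun a => Ex (D j) (θ j) (fun b => f a b)) := by
  have h1 : ∀ a : Z, ∑ z ∈ Fintype.piFinset D, H1_pw θ z * ((if z i = a then 1 else 0) * f a (z j)) =
      (∑ x ∈ D i, θ i x * (if x = a then 1 else 0)) * Ex (D j) (θ j) (fun b => f a b) := by
    intro a
    have := H1_sum_prod D θ (fun k x => if k = i then (if x = a then 1 else 0) else if k = j then f a x else 1)
    have h2 : ∀ z : I → Z, (∏ k, if k = i then (if z k = a then (1 : ℝ) else 0) else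
        if k = j then f a (z k) else 1) = (if z i = a then 1 else 0) * f a (z j) := by
      intro z
      rw [Fintype.prod_eq_mul i j hij (fun k hk => by rw [if_neg hk.1, if_neg hk.2]), if_pos rfl,
        if_neg hij.symm, if_pos rfl]
    simp only [h2] at this
    rw [this, Fintype.prod_eq_mul i j hij]
    · simp only [if_pos, if_neg hij.symm]
      rfl
    · rintro k ⟨hk1, hk2⟩
      simp only [if_neg hk1, if_neg hk2, mul_one]
      exact (h k).sum
  have h3 : ∀ a ∈ D i, (∑ x ∈ D i, θ i x * (if x = a then (1 : ℝ) else 0)) = θ i a := by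
    intro a ha
    rw [Finset.sum_eq_single a]
    · simp
    · intro b _ hb
      rw [if_neg hb, mul_zero]
    · exact fun h => absurd ha h
  calc Ex (Fintype.piFinset D) (H1_pw θ) (fun z => f (z i) (z j))
      = ∑ z ∈ Fintype.piFinset D, ∑ a ∈ D i, H1_pw θ z * ((if z i = a then 1 else 0) * f a (z j)) := by
        unfold Ex
        refine Finset.sum_congr rfl fun z hz => ?_
        rw [← Finset.mul_sum]
        congr 1
        rw [Finset.sum_eq_single (z i)]
        · simp
        · intro b _ hb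
          rw [if_neg hb.symm, zero_mul]
        · intro hz'
          exact absurd (Fintype.mem_piFinset.1 hz i) hz'
    _ = ∑ a ∈ D i, ∑ z ∈ Fintype.piFinset D, H1_pw θ z * ((if z i = a then 1 else 0) * f a (z j)) :=
        Finset.sum_comm
    _ = Ex (D i) (θ i) (fun a => Ex (D j) (θ j) (fun b => f a b)) := by
        unfold Ex
        refine Finset.sum_congr rfl fun a ha => ?_
        rw [h1 a, h3 a ha]
        rfl

theorem H1_Pr1 {I Z : Type} [Fintype I] [DecidableEq I] {D : I → Finset Z} {θ : I → Z → ℝ} (h : ∀ i, IsPr (D i) (θ i)) (i : I)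
    (E : Z → Prop) : Pr (Fintype.piFinset D) (H1_pw θ) (fun z => E (z i)) = Pr (D i) (θ i) E :=
  H1_marg1 h i (fun z => if E z then 1 else 0)

theorem H1_Pr2 {I Z : Type} [Fintype I] [DecidableEq I] {D : I → Finset Z} {θ : I → Z → ℝ} (h : ∀ i, IsPr (D i) (θ i)) {i j : I}
    (hij : i ≠ j) (E : Z → Z → Prop) : Pr (Fintype.piFinset D) (H1_pw θ) (fun z => E (z i) (z j)) =
      Pr2 (D i) (θ i) (D j) (θ j) E :=
  H1_marg2 h hij (fun z z' => if E z z' then 1 else 0)

/-! ### the shortcut argument -/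

theorem H1_lt {W : World V} {t : ℕ} : ∀ {m : ℕ} {x : V} {τ : Nd t m → V}, OutT W x τ → ∀ n, W.lt x (τ n)
  | 0, _, _, _, n => n.elim
  | m + 1, x, τ, h, n => by
    rw [outT_succ] at h
    induction n using ndc with
    | h0 i => exact W.ho.arc _ _ (h.1 i).1
    | h1 i k => exact W.ho.trans _ _ _ (W.ho.arc _ _ (h.1 i).1) (H1_lt (h.1 i).2 k)

/-- a conflict between two branches at `e` is a common vertex or an arc with nonroot head -/
theorem H1_cross {W : World V} {t m : ℕ} {e x x' : V} {τ τ' : Nd t m → V} (h : W.r e x) (hτ : OutT W x τ)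
    (h' : W.r e x') (hc : Cross W x τ x' τ') :
    (∃ o o', ev x τ o = ev x' τ' o') ∨ Arr W x τ τ' := by
  obtain ⟨a, b, hab | hab⟩ := hc
  · exact Or.inl ⟨a, b, hab⟩
  · cases b with
    | some n => exact Or.inr ⟨a, n, hab⟩
    | none =>
      exfalso
      have h1 : W.lt e (ev x τ a) := by
        cases a with
        | none => exact W.ho.arc _ _ h
        | some n => exact W.ho.trans _ _ _ (W.ho.arc _ _ h) (H1_lt hτ n)
      exact W.ho.sf e x' (ev x τ a) h' h1 (W.ho.arc _ _ hab)

/-! ### the hub lemma -/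

/-- abstract form: a property `G i z` of the branches, all trees with good branches have a conflict -/
theorem H1_hub {W : World V} {t m : ℕ} (e : V) {Z : Type} (D : Fin t → Finset Z) (θ : Fin t → Z → ℝ)
    (hθ : ∀ i, IsPr (D i) (θ i)) (P : Fin t → Z → V) (T : Fin t → Z → Nd t m → V)
    (hgeo : ∀ i, ∀ z ∈ D i, W.r e (P i z) ∧ OutT W (P i z) (T i z)) (G : Fin t → Z → Prop)
    (hemp : ∀ z : Fin t → Z, (∀ i, z i ∈ D i ∧ G i (z i)) →
      ∃ i j, i ≠ j ∧ Cross W (P i (z i)) (T i (z i)) (P j (z j)) (T j (z j)))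
    {ε δ : ℝ} (hG : ∀ i, Pr (D i) (θ i) (fun z => ¬ G i z) ≤ δ)
    (heq : ∀ i (o : Option (Nd t m)) (v : V), Pr (D i) (θ i) (fun z => ev (P i z) (T i z) o = v) ≤ ε)
    (hε : t * δ + (t * (Fintype.card (Nd t m) + 1)) ^ 2 * ε ≤ 1 / 2) (hε0 : 0 ≤ ε) :
    ∃ i j, i ≠ j ∧ 1 / (2 * (t : ℝ) ^ 2) ≤
      Pr2 (D i) (θ i) (D j) (θ j) (fun z z' => Arr W (P i z) (T i z) (T j z')) := by
  by_contra hcon
  push Not at hcon
  have hprod := H1_isPr hθ
  have ht : 0 < t := by
    rcases Nat.eq_zero_or_pos t with rfl | ht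
    · obtain ⟨i, _⟩ := hemp (fun i => i.elim0) (fun i => i.elim0)
      exact i.elim0
    · exact ht
  -- the bad events
  obtain ⟨z, hz, _, hbad⟩ := pick (J := Fin t ⊕ ((Fin t × Fin t) × Option (Nd t m) × Option (Nd t m)) ⊕
      (Fin t × Fin t)) (Fintype.piFinset D) (H1_pw θ) hprod (fun _ => True)
    (fun J z => match J with
      | Sum.inl i => ¬ G i (z i)
      | Sum.inr (Sum.inl (ij, oo)) => ij.1 ≠ ij.2 ∧ ev (P ij.1 (z ij.1)) (T ij.1 (z ij.1)) oo.1 =
          ev (P ij.2 (z ij.2)) (T ij.2 (z ij.2)) oo.2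
      | Sum.inr (Sum.inr ij) => ij.1 ≠ ij.2 ∧ Arr W (P ij.1 (z ij.1)) (T ij.1 (z ij.1)) (T ij.2 (z ij.2)))
    (fun J => match J with
      | Sum.inl _ => δ
      | Sum.inr (Sum.inl _) => ε
      | Sum.inr (Sum.inr ij) => if ij.1 ≠ ij.2 then
          Pr2 (D ij.1) (θ ij.1) (D ij.2) (θ ij.2) (fun z z' => Arr W (P ij.1 z) (T ij.1 z) (T ij.2 z')) else 0)
    (by
      have hfalse : Pr (Fintype.piFinset D) (H1_pw θ) (fun _ => False) = 0 := by
        unfold Pr
        simp only [if_false]
        exact H1_Ex_const hprod 0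
      rintro (i | ⟨⟨i, j⟩, o, o'⟩ | ⟨i, j⟩)
      · exact (H1_Pr1 hθ i (fun z => ¬ G i z)).trans_le (hG i)
      · by_cases hij : i = j
        · subst hij
          simp only [ne_eq, not_true_eq_false, false_and]
          rw [hfalse]
          exact hε0
        · simp only [ne_eq, hij, not_false_eq_true, true_and]
          rw [H1_Pr2 hθ (Ne.symm hij) (fun z' z => ev (P i z) (T i z) o = ev (P j z') (T j z') o')]
          refine (H1_Ex_mono (hθ j) (g := fun _ => ε) fun z' _ => heq i o _).trans ?_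
          rw [H1_Ex_const (hθ j)]
      · by_cases hij : i = j
        · subst hij
          simp only [ne_eq, not_true_eq_false, false_and, if_false]
          rw [hfalse]
        · simp only [ne_eq, hij, not_false_eq_true, true_and, if_true]
          rw [H1_Pr2 hθ hij (fun z z' => Arr W (P i z) (T i z) (T j z'))])
    (by
      have htrue : Pr (Fintype.piFinset D) (H1_pw θ) (fun _ => True) = 1 := by
        unfold Pr
        simp only [if_true]
        exact H1_Ex_const hprod 1
      rw [htrue, Fintype.sum_sum_type, Fintype.sum_sum_type]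
      have h1 : ∑ _i : Fin t, δ = t * δ := by simp
      have h2 : ∑ _x : (Fin t × Fin t) × Option (Nd t m) × Option (Nd t m), ε =
          (t * (Fintype.card (Nd t m) + 1)) ^ 2 * ε := by
        rw [Finset.sum_const, Finset.card_univ, nsmul_eq_mul]
        congr 1
        rw [Fintype.card_prod, Fintype.card_prod, Fintype.card_prod, Fintype.card_option, Fintype.card_fin]
        push_cast
        ring
      have ht2 : (0 : ℝ) < 2 * (t : ℝ) ^ 2 := by positivity
      have h3 : ∑ ij : Fin t × Fin t, (if ij.1 ≠ ij.2 then Pr2 (D ij.1) (θ ij.1) (D ij.2) (θ ij.2)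
          (fun z z' => Arr W (P ij.1 z) (T ij.1 z) (T ij.2 z')) else 0) < 1 / 2 := by
        have h4 : ∑ _ij : Fin t × Fin t, 1 / (2 * (t : ℝ) ^ 2) = 1 / 2 := by
          simp
          field_simp
        rw [← h4]
        have : Nonempty (Fin t × Fin t) := ⟨(⟨0, ht⟩, ⟨0, ht⟩)⟩
        refine Finset.sum_lt_sum_of_nonempty Finset.univ_nonempty ?_
        rintro ⟨i, j⟩ _
        by_cases hij : i = j
        · simp only [ne_eq, hij, not_true_eq_false, if_false]
          positivity
        · simp only [ne_eq, hij, not_false_eq_true, if_true]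
          exact hcon i j hij
      show ∑ _i : Fin t, δ + (∑ _x : (Fin t × Fin t) × Option (Nd t m) × Option (Nd t m), ε +
        ∑ ij : Fin t × Fin t, (if ij.1 ≠ ij.2 then Pr2 (D ij.1) (θ ij.1) (D ij.2) (θ ij.2)
          (fun z z' => Arr W (P ij.1 z) (T ij.1 z) (T ij.2 z')) else 0)) < 1
      rw [h1, h2]
      linarith)
  rw [Fintype.mem_piFinset] at hz
  obtain ⟨i, j, hij, hc⟩ := hemp z fun i => ⟨hz i, not_not.1 (hbad (Sum.inl i))⟩
  rcases H1_cross (hgeo i _ (hz i)).1 (hgeo i _ (hz i)).2 (hgeo j _ (hz j)).1 hc with ⟨o, o', ho⟩ | h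
  · exact hbad (Sum.inr (Sum.inl ((i, j), (o, o')))) ⟨hij, ho⟩
  · exact hbad (Sum.inr (Sum.inr (i, j))) ⟨hij, h⟩

theorem H1_Pr_or {Z J : Type} [Fintype J] {D : Finset Z} {θ : Z → ℝ} (hθ : IsPr D θ) (B : J → Z → Prop) (E : Z → Prop)
    (hE : ∀ z ∈ D, E z → ∃ j, B j z) : Pr D θ E ≤ ∑ j, Pr D θ (B j) := by
  unfold Pr Ex
  rw [Finset.sum_comm]
  refine Finset.sum_le_sum fun z hz => ?_
  rw [← Finset.mul_sum]
  refine mul_le_mul_of_nonneg_left ?_ (hθ.nn z)
  dsimp only
  by_cases h : E z
  · obtain ⟨j, hj⟩ := hE z hz h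
    rw [if_pos h]
    calc (1 : ℝ) = if B j z then 1 else 0 := (if_pos hj).symm
      _ ≤ ∑ j, if B j z then 1 else 0 :=
        Finset.single_le_sum (f := fun j => if B j z then (1 : ℝ) else 0) (fun i _ => by split_ifs <;> simp)
          (Finset.mem_univ j)
  · rw [if_neg h]
    exact Finset.sum_nonneg fun i _ => by split_ifs <;> simp

/-- the hub lemma for F-trees -/
theorem hub_F {W : World V} {q : Ultrafilter V} {U : Set (Set (V → ℝ))} {t m : ℕ} (F : FD W q U t m) (hF : F.Emp)
    (e : V) {Z : Type} (D : Fin t → Finset Z) (θ : Fin t → Z → ℝ) (hθ : ∀ i, IsPr (D i) (θ i))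
    (P : Fin t → Z → V) (T : Fin t → Z → Nd t m → V) (hgeo : ∀ i, ∀ z ∈ D i, F.Geo e (P i z) (T i z)) {ε : ℝ}
    (hg0 : ∀ i, Pr (D i) (θ i) (fun z => ¬ F.g0 e (P i z) < F.η) ≤ ε)
    (hg : ∀ i n, Pr (D i) (θ i) (fun z => ¬ F.g n e (P i z) (res (anc n) (T i z)) (T i z n) < F.η) ≤ ε)
    (heq : ∀ i (o : Option (Nd t m)) (v : V), Pr (D i) (θ i) (fun z => ev (P i z) (T i z) o = v) ≤ ε)
    (hε : 4 * (t * (Fintype.card (Nd t m) + 1)) ^ 2 * ε ≤ 1) :
    ∃ i j, i ≠ j ∧ 1 / (2 * (t : ℝ) ^ 2) ≤
      Pr2 (D i) (θ i) (D j) (θ j) (fun z z' => Arr W (P i z) (T i z) (T j z')) := by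
  have ht : 0 < t := by
    rcases Nat.eq_zero_or_pos t with rfl | ht
    · obtain ⟨i, _⟩ := hF e (fun i => i.elim0) (fun i => i.elim0) (fun i => i.elim0)
      exact i.elim0
    · exact ht
  have hε0 : 0 ≤ ε := (H1_Pr_nonneg (hθ ⟨0, ht⟩) _).trans (hg0 ⟨0, ht⟩)
  obtain ⟨N, hN⟩ : ∃ N : ℝ, N = (Fintype.card (Nd t m) : ℝ) + 1 := ⟨_, rfl⟩
  have hN1 : 1 ≤ N := by
    rw [hN]
    have : (0 : ℝ) ≤ (Fintype.card (Nd t m) : ℝ) := Nat.cast_nonneg _
    linarith
  have ht1 : (1 : ℝ) ≤ (t : ℝ) := by exact_mod_cast ht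
  refine H1_hub e D θ hθ P T (fun i z hz => ⟨(hgeo i z hz).2.2.2.1, (hgeo i z hz).2.2.2.2.2.2⟩)
    (fun i z => F.Good e (P i z) (T i z)) (fun z hz => hF e _ _ fun i => (hz i).2) (ε := ε) (δ := N * ε)
    (fun i => ?_) heq ?_ hε0
  · refine (H1_Pr_or (hθ i) (J := Option (Nd t m)) (fun o z => match o with
      | none => ¬ F.g0 e (P i z) < F.η
      | some n => ¬ F.g n e (P i z) (res (anc n) (T i z)) (T i z n) < F.η) _ ?_).trans ?_
    · intro z hz hbad
      by_contra hcon
      rw [not_exists] at hcon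
      exact hbad ⟨hgeo i z hz, not_not.1 (hcon none), fun n => not_not.1 (hcon (some n))⟩
    · rw [Fintype.sum_option]
      calc _ ≤ ε + ∑ _n : Nd t m, ε := add_le_add (hg0 i) (Finset.sum_le_sum fun n _ => hg i n)
        _ = N * ε := by
          rw [Finset.sum_const, Finset.card_univ, nsmul_eq_mul, hN]
          ring
  · rw [← hN] at hε ⊢
    have h1 : (t : ℝ) * (N * ε) ≤ (t * N) ^ 2 * ε := by
      have : (1 : ℝ) ≤ t * N := by nlinarith
      have h2 : (t : ℝ) * N ≤ (t * N) ^ 2 := by nlinarith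
      nlinarith
    nlinarith

/-- the hub lemma for bi-free trees -/
theorem hub_B {W : World V} {q : Ultrafilter V} {U : Set (Set (V → ℝ))} {t m : ℕ} (F : BD W q U t m) (hF : F.Emp)
    (e : V) {Z : Type} (D : Fin t → Finset Z) (θ : Fin t → Z → ℝ) (hθ : ∀ i, IsPr (D i) (θ i))
    (P : Fin t → Z → V) (T : Fin t → Z → Nd t m → V)
    (hgeo : ∀ i, ∀ z ∈ D i, F.toFD.Geo e (P i z) (T i z) ∧ F.Inn (P i z) (T i z)) {ε : ℝ}
    (hg0 : ∀ i, Pr (D i) (θ i) (fun z => ¬ F.g0 e (P i z) < F.η) ≤ ε)
    (hg : ∀ i n, Pr (D i) (θ i) (fun z => ¬ F.g n e (P i z) (res (anc n) (T i z)) (T i z n) < F.η) ≤ ε)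
    (hb0 : ∀ i, Pr (D i) (θ i) (fun z => ¬ F.b0 (P i z) e < F.η) ≤ ε)
    (hbe : ∀ i n, Pr (D i) (θ i) (fun z => ¬ F.be n (P i z) (res (insert n (anc n)) (T i z)) e < F.η) ≤ ε)
    (heq : ∀ i (o : Option (Nd t m)) (v : V), Pr (D i) (θ i) (fun z => ev (P i z) (T i z) o = v) ≤ ε)
    (hε : 6 * (t * (Fintype.card (Nd t m) + 1)) ^ 2 * ε ≤ 1) :
    ∃ i j, i ≠ j ∧ 1 / (2 * (t : ℝ) ^ 2) ≤
      Pr2 (D i) (θ i) (D j) (θ j) (fun z z' => Arr W (P i z) (T i z) (T j z')) := by
  have ht : 0 < t := by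
    rcases Nat.eq_zero_or_pos t with rfl | ht
    · obtain ⟨i, _⟩ := hF e (fun i => i.elim0) (fun i => i.elim0) (fun i => i.elim0)
      exact i.elim0
    · exact ht
  have hε0 : 0 ≤ ε := (H1_Pr_nonneg (hθ ⟨0, ht⟩) _).trans (hg0 ⟨0, ht⟩)
  obtain ⟨N, hN⟩ : ∃ N : ℝ, N = (Fintype.card (Nd t m) : ℝ) + 1 := ⟨_, rfl⟩
  have hN1 : 1 ≤ N := by
    rw [hN]
    have : (0 : ℝ) ≤ (Fintype.card (Nd t m) : ℝ) := Nat.cast_nonneg _
    linarith
  have ht1 : (1 : ℝ) ≤ (t : ℝ) := by exact_mod_cast ht
  refine H1_hub e D θ hθ P T (fun i z hz => ⟨(hgeo i z hz).1.2.2.2.1, (hgeo i z hz).1.2.2.2.2.2.2⟩)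
    (fun i z => F.toFD.Good e (P i z) (T i z) ∧ F.Inn (P i z) (T i z) ∧ F.Bck e (P i z) (T i z))
    (fun z hz => hF e _ _ fun i => (hz i).2) (ε := ε) (δ := 2 * N * ε)
    (fun i => ?_) heq ?_ hε0
  · refine (H1_Pr_or (hθ i) (J := Option (Nd t m) ⊕ Option (Nd t m)) (fun o z => match o with
      | Sum.inl none => ¬ F.g0 e (P i z) < F.η
      | Sum.inl (some n) => ¬ F.g n e (P i z) (res (anc n) (T i z)) (T i z n) < F.η
      | Sum.inr none => ¬ F.b0 (P i z) e < F.η
      | Sum.inr (some n) => ¬ F.be n (P i z) (res (insert n (anc n)) (T i z)) e < F.η) _ ?_).trans ?_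
    · intro z hz hbad
      by_contra hcon
      rw [not_exists] at hcon
      exact hbad ⟨⟨(hgeo i z hz).1, not_not.1 (hcon (Sum.inl none)), fun n => not_not.1 (hcon (Sum.inl (some n)))⟩,
        (hgeo i z hz).2, not_not.1 (hcon (Sum.inr none)), fun n => not_not.1 (hcon (Sum.inr (some n)))⟩
    · rw [Fintype.sum_sum_type, Fintype.sum_option, Fintype.sum_option]
      calc _ ≤ (ε + ∑ _n : Nd t m, ε) + (ε + ∑ _n : Nd t m, ε) :=
            add_le_add (add_le_add (hg0 i) (Finset.sum_le_sum fun n _ => hg i n))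
              (add_le_add (hb0 i) (Finset.sum_le_sum fun n _ => hbe i n))
        _ = 2 * N * ε := by
          rw [Finset.sum_const, Finset.card_univ, nsmul_eq_mul, hN]
          ring
  · rw [← hN] at hε ⊢
    have h1 : (t : ℝ) * (N * ε) ≤ (t * N) ^ 2 * ε := by
      have : (1 : ℝ) ≤ t * N := by nlinarith
      have h2 : (t : ℝ) * N ≤ (t * N) ^ 2 := by nlinarith
      nlinarith
    nlinarith

end Pool.Agent.Lib.MP_b0c2b5_co.AT
end
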