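import Pool.Agent.Lib.MP_b0c2b5_co.Mg.G005
import Pool.Agent.Lib.MP_b0c2b5_co.Mg.G004
import Pool.Agent.Lib.MP_b0c2b5_co.Mg.G002
import Pool.Agent.Lib.MP_b0c2b5_co.AT.A0
import Pool.Agent.Lib.MP_b0c2b5_co.AT.N1
import Pool.Agent.Lib.MP_b0c2b5_co.Mg.G001

section

/-!
# AT, H2b: the hub lemma for F-trees (paper, Lemma E)

PROOF of `hubF`. `hub_choice` gives the hub `e`; `hub_F` for the conditional law; `Pr2_swap`, `Pr2_cond`.
-/

set_option autoImplicit false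

namespace Pool.Agent.Lib.MP_b0c2b5_co.AT

open LS Filter
open scoped Classical

variable {V : Type}

/-- a test is large with small probability -/
theorem H2b_small {I : Type} {past : I → Finset I} {K : Set (V → ℝ)} (hK : IsRes K) {δ m ε κ : ℝ} {D : Finset (I → V)}
    {θ : (I → V) → ℝ} (h : θ ∈ SP past K δ D) (hε : 0 ≤ ε) (hm : 0 < m) (hδ : δ ≤ ε * m) (hκ : m ≤ κ) (b : I)
    (H : (I → Option V) → V → ℝ) (hH : ∀ s, H s ∈ K) :
    Pr D θ (fun z => ¬ H (res (past b) z) (z b) < κ) ≤ ε := by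
  have hκ0 : 0 < κ := hm.trans_le hκ
  have h1 := markov h.1 (f := fun z => H (res (past b) z) (z b)) (fun z _ => hK.nn _ (hH _) _) hκ0
    ((h.2 b H hH).trans hδ)
  have h2 : Pr D θ (fun z => ¬ H (res (past b) z) (z b) < κ) = Pr D θ (fun z => κ ≤ H (res (past b) z) (z b)) := by
    congr 1
    funext z
    exact propext not_lt
  rw [h2]
  refine h1.trans ?_
  rw [div_le_iff₀ hκ0]
  exact mul_le_mul_of_nonneg_left hκ hε

theorem hubF {W : World V} {q : Ultrafilter V} {U : Set (Set (V → ℝ))} {t m : ℕ} (M : ℕ) (F : FD W q U t m) (hF : F.Emp) :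
    ∃ ε0 : ℝ, 0 < ε0 ∧ ∀ K1 : Set (V → ℝ), IsRes K1 → F.K ⊆ K1 → EQr V ⊆ K1 →
      ∀ (D : Finset (Fin (M + 1) ⊕ Nd t m → V)) (θ : (Fin (M + 1) ⊕ Nd t m → V) → ℝ) (δ δ1 : ℝ), 0 < δ1 → δ ≤ ε0 * δ1 →
      θ ∈ SP pastE K1 δ D →
      (∀ z ∈ D, z (Sum.inl (Fin.last M)) ∈ F.A ∧ (∀ n, z (Sum.inr n) ∈ F.A) ∧
        (∀ n, F.φ (ev (z (Sum.inl (Fin.last M))) (fun n => z (Sum.inr n)) (fa n)) (z (Sum.inr n))) ∧
        OutT W (z (Sum.inl (Fin.last M))) (fun n => z (Sum.inr n))) →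
      ∀ g ∈ ParR W F.A F.φ, (∀ z ∈ D, δ1 ≤ g (z (Sum.inl (Fin.last M)))) →
      δ1 ^ 2 / (2 * (t : ℝ) ^ 2) ≤ Pr2 D θ D θ (fun z z2 =>
        Arr W (z2 (Sum.inl (Fin.last M))) (fun n => z2 (Sum.inr n)) (fun n => z (Sum.inr n))) := by
  have ht : 1 ≤ t := hF.pos
  have ht1 : (1 : ℝ) ≤ (t : ℝ) := by exact_mod_cast ht
  have hN0 : (0 : ℝ) ≤ (Fintype.card (Nd t m) : ℝ) := Nat.cast_nonneg _
  obtain ⟨ε, hεdef⟩ : ∃ ε : ℝ, ε = 1 / (4 * ((t : ℝ) * ((Fintype.card (Nd t m) : ℝ) + 1)) ^ 2) := ⟨_, rfl⟩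
  have htN : 0 < ((t : ℝ) * ((Fintype.card (Nd t m) : ℝ) + 1)) ^ 2 := by positivity
  have hε : 0 < ε := by
    rw [hεdef]
    positivity
  have hFη := F.hη
  have hm : 0 < min 1 F.η := lt_min one_pos hFη
  refine ⟨ε * min 1 F.η, by positivity, ?_⟩
  intro K1 hK1 hFK hEQ D θ δ δ1 hδ1 hδ hθ hD g hg hgD
  obtain ⟨e, he, hE⟩ := hub_choice hg hθ.1 (fun z => z (Sum.inl (Fin.last M))) hgD
  obtain ⟨E, hEdef⟩ : ∃ E : (Fin (M + 1) ⊕ Nd t m → V) → Prop, E = fun z => W.r e (z (Sum.inl (Fin.last M))) ∧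
    F.φ e (z (Sum.inl (Fin.last M))) := ⟨_, rfl⟩
  rw [← hEdef] at hE
  have hcond := SP_cond hK1 hθ hδ1 hE
  have hδ' : δ / δ1 ≤ ε * min 1 F.η := by
    rwa [div_le_iff₀ hδ1]
  have hEQs : ∀ (b : Fin (M + 1) ⊕ Nd t m) (v : V),
      Pr (D.filter E) (cond D θ E) (fun z => z b = v) ≤ ε := by
    intro b v
    have h1 : (fun x : V => if x = v then (1 : ℝ) else 0) ∈ K1 := hEQ (subset_convexHull ℝ _ ⟨v, rfl⟩)
    refine le_trans (H1_Ex_mono hcond.1 ?_) (H2b_small hK1 hcond hε.le hm hδ' (min_le_left _ _) b (fun _ => _) (fun _ => h1))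
    intro z _
    beta_reduce
    by_cases hz : z b = v
    · rw [if_pos hz, if_pos (lt_irrefl 1)]
    · rw [if_neg hz]
      split_ifs <;> norm_num
  obtain ⟨i, j, hij, hArr⟩ := hub_F F hF e (fun _ => D.filter E) (fun _ => cond D θ E) (fun _ => hcond.1)
    (fun _ z => z (Sum.inl (Fin.last M))) (fun _ z n => z (Sum.inr n)) (by
      intro _ z hz
      rw [Finset.mem_filter] at hz
      obtain ⟨hz1, hz2⟩ := hz
      rw [hEdef] at hz2
      obtain ⟨h1, h2, h3, h4⟩ := hD z hz1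
      exact ⟨he, h1, h2, hz2.1, hz2.2, h3, h4⟩) (ε := ε)
    (fun _ => H2b_small hK1 hcond hε.le hm hδ' (min_le_right _ _) (Sum.inl (Fin.last M)) (fun _ => F.g0 e)
      (fun _ => hFK (F.hg0 e)))
    (by
      intro _ n
      have h1 := H2b_small hK1 hcond hε.le hm hδ' (min_le_right _ _) (Sum.inr n)
        (fun r => F.g n e ((r (Sum.inl (Fin.last M))).getD e) (fun k => if k ∈ anc n then r (Sum.inr k) else none))
        (fun r => hFK (F.hg n e _ _))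
      refine le_trans (le_of_eq ?_) h1
      congr 1
      funext z
      have h2 : res (pastE (Sum.inr n)) z (Sum.inl (Fin.last M)) = some (z (Sum.inl (Fin.last M))) := by
        refine res_pos z ?_
        unfold pastE
        exact Finset.mem_union_left _ (Finset.mem_image_of_mem _ (Finset.mem_univ _))
      have h3 : (fun k => if k ∈ anc n then res (pastE (M := M) (Sum.inr n)) z (Sum.inr k) else none) =
          res (anc n) (fun n => z (Sum.inr n)) := by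
        funext k
        by_cases hk : k ∈ anc n
        · rw [if_pos hk, res_pos _ hk, res_pos z]
          unfold pastE
          exact Finset.mem_union_right _ (Finset.mem_image_of_mem _ hk)
        · rw [if_neg hk, res_neg _ hk]
      rw [h2, h3]
      rfl)
    (by
      intro _ o v
      cases o with
      | none => exact hEQs (Sum.inl (Fin.last M)) v
      | some n => exact hEQs (Sum.inr n) v)
    (by
      rw [hεdef]
      have h0 := htN.ne'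
      field_simp
      norm_num)
  rw [Pr2_swap] at hArr
  have h1 := Pr2_cond hθ.1 hδ1 hE (fun z z2 =>
        Arr W (z2 (Sum.inl (Fin.last M))) (fun n => z2 (Sum.inr n)) (fun n => z (Sum.inr n)))
  refine le_trans ?_ h1
  have h2 : δ1 ^ 2 / (2 * (t : ℝ) ^ 2) = δ1 ^ 2 * (1 / (2 * (t : ℝ) ^ 2)) := by ring
  rw [h2]
  exact mul_le_mul_of_nonneg_left hArr (by positivity)

end Pool.Agent.Lib.MP_b0c2b5_co.AT
end

section

/-!
# AT, H3: the hub lemma for bi-free trees (paper, Lemma D, step 3).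

PROOF of `hubB`. `N := card (Nd t m) + 1`; `ε0` with `ε0 * N * (1 / F.η + 1) ≤ 1/(4t)` and `ε0 * N ^ 2 ≤ 1/(4 t ^ 2)`. `hub_choice` for `g` and `P ↦ P (Fin.last M)`: `e ∈ F.A` with `δ1 ≤ Pr D θ E`, `E P := W.r e (P last) ∧ phimu e (P last)`. `θ' := cond D θ E ∈ SP .. K1 (δP / δ1) (D.filter E)`. `Z := (Fin (M+1) → V) × (Nd t m → V)`,
`D2 :=` the pairs `(P, τ)` with `P ∈ D.filter E`, `τ ∈ Dm (P last)` (`Finset.sigma` or a filter of a product), law `θ2 (P, τ) := θ' P * μ (P last) τ`. `Good (P, τ) := F.toFD.Good e (P last) τ ∧ F.Inn (P last) τ ∧ F.Bck e (P last) τ` fails with probability `≤ 1/(4t)`: `F.g0`: test for `θ'` (`≤ ε0 / F.η`); `F.g n`: for fixed `P` test for `μ (P last)`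
(`≤ ε0 / F.η`); `F.be n`: Markov from `E` (`≤ ε0`); `F.b0` from `E`. `hub_abs` for the constant family, `Cr := Cross`, hypothesis `hF`. Equality `ev z a = ev z2 b`: probability `≤ ε0` for fixed `z, a, b` (`b = some n`: test for `μ`; `b = none`: test for `θ'`). `b = none` is no head (`OutT.hub`). So
`1/(2t^2) ≤ E_{z, z2} [Arr z z2] = E_{P', P ~ θ'} A(P, P')` with `A(P, P') := Pr2 μ_P μ_{P'} (Arr p' τ' τ'')` (here `z = (P', τ')`, `z2 = (P, τ'')`), `A ≤ 1`, so `A ≥ 1/(8t^2)` with probability `≥ 1/(8t^2)` for `θ' × θ'`; `Pr2_cond`.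
-/

set_option autoImplicit false

namespace Pool.Agent.Lib.MP_b0c2b5_co.AT

open LS Filter
open scoped Classical

variable {V : Type}

lemma H3_mem {X Y : Type} {D1 : Finset X} {DD : X → Finset Y} {z : X × Y} :
    z ∈ (D1.sigma DD).map (Equiv.sigmaEquivProd X Y).toEmbedding ↔ z.1 ∈ D1 ∧ z.2 ∈ DD z.1 := by
  constructor
  · intro h
    obtain ⟨s, hs, rfl⟩ := Finset.mem_map.1 h
    exact Finset.mem_sigma.1 hs
  · rintro ⟨h1, h2⟩
    exact Finset.mem_map.2 ⟨⟨z.1, z.2⟩, Finset.mem_sigma.2 ⟨h1, h2⟩, rfl⟩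

lemma H3_Ex {X Y : Type} (D1 : Finset X) (DD : X → Finset Y) (θ : X → ℝ) (ν : X → Y → ℝ) (f : X × Y → ℝ) :
    Ex ((D1.sigma DD).map (Equiv.sigmaEquivProd X Y).toEmbedding) (fun z => θ z.1 * ν z.1 z.2) f =
      Ex D1 θ (fun x => Ex (DD x) (ν x) (fun y => f (x, y))) := by
  unfold Ex
  rw [Finset.sum_map, Finset.sum_sigma]
  refine Finset.sum_congr rfl fun x _ => ?_
  rw [Finset.mul_sum]
  refine Finset.sum_congr rfl fun y _ => ?_
  show θ x * ν x y * f (x, y) = _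
  ring

lemma H3_Ex_congr {Z : Type} {D : Finset Z} {θ f g : Z → ℝ} (h : ∀ z ∈ D, f z = g z) : Ex D θ f = Ex D θ g := by
  unfold Ex
  exact Finset.sum_congr rfl fun z hz => by rw [h z hz]

lemma H3_Ex_comm {X Y : Type} (D : Finset X) (D' : Finset Y) (θ : X → ℝ) (θ' : Y → ℝ) (f : X → Y → ℝ) :
    Ex D θ (fun x => Ex D' θ' (fun y => f x y)) = Ex D' θ' (fun y => Ex D θ (fun x => f x y)) := by
  unfold Ex
  simp only [Finset.mul_sum]
  rw [Finset.sum_comm]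
  refine Finset.sum_congr rfl fun y _ => Finset.sum_congr rfl fun x _ => ?_
  ring

lemma H3_isPr {X Y : Type} {D1 : Finset X} {DD : X → Finset Y} {θ : X → ℝ} {ν : X → Y → ℝ} (hθ : IsPr D1 θ)
    (hν : ∀ x ∈ D1, IsPr (DD x) (ν x)) :
    IsPr ((D1.sigma DD).map (Equiv.sigmaEquivProd X Y).toEmbedding) (fun z => θ z.1 * ν z.1 z.2) where
  nn z := by
    by_cases h : z.1 ∈ D1
    · exact mul_nonneg (hθ.nn _) ((hν _ h).nn _)
    · simp only [hθ.supp _ h, zero_mul, le_refl]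
  supp z hz := by
    by_cases h : z.1 ∈ D1
    · have : z.2 ∉ DD z.1 := fun h2 => hz (H3_mem.2 ⟨h, h2⟩)
      simp only [(hν _ h).supp _ this, mul_zero]
    · simp only [hθ.supp _ h, zero_mul]
  sum := by
    have h1 := H3_Ex D1 DD θ ν (fun _ => 1)
    have h2 : Ex D1 θ (fun x => Ex (DD x) (ν x) (fun _ => 1)) = 1 := by
      have h3 : Ex D1 θ (fun x => Ex (DD x) (ν x) (fun _ => 1)) = Ex D1 θ (fun _ => 1) := by
        refine H3_Ex_congr fun x hx => ?_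
        unfold Ex
        simp only [mul_one]
        exact (hν x hx).sum
      rw [h3]
      unfold Ex
      simp only [mul_one]
      exact hθ.sum
    rw [h2] at h1
    unfold Ex at h1
    simpa only [mul_one] using h1

lemma H3_Pr {X Y : Type} (D1 : Finset X) (DD : X → Finset Y) (θ : X → ℝ) (ν : X → Y → ℝ) (B : X × Y → Prop) :
    Pr ((D1.sigma DD).map (Equiv.sigmaEquivProd X Y).toEmbedding) (fun z => θ z.1 * ν z.1 z.2) B =
      Ex D1 θ (fun x => Pr (DD x) (ν x) (fun y => B (x, y))) :=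
  H3_Ex D1 DD θ ν _

lemma H3_Pr_const {Z : Type} {D : Finset Z} {θ : Z → ℝ} (hθ : IsPr D θ) (C : Prop) :
    Pr D θ (fun _ => C) = if C then 1 else 0 := by
  unfold Pr
  exact H1_Ex_const hθ _

lemma H3_Pr_le_of {X Y : Type} {D1 : Finset X} {DD : X → Finset Y} {θ : X → ℝ} {ν : X → Y → ℝ} (hθ : IsPr D1 θ)
    {B : X × Y → Prop} {ε : ℝ} (h : ∀ x ∈ D1, Pr (DD x) (ν x) (fun y => B (x, y)) ≤ ε) :
    Pr ((D1.sigma DD).map (Equiv.sigmaEquivProd X Y).toEmbedding) (fun z => θ z.1 * ν z.1 z.2) B ≤ ε := by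
  rw [H3_Pr]
  refine (H1_Ex_mono hθ h).trans ?_
  rw [H1_Ex_const hθ]

lemma H3_Pr_fst {X Y : Type} {D1 : Finset X} {DD : X → Finset Y} {θ : X → ℝ} {ν : X → Y → ℝ}
    (hν : ∀ x ∈ D1, IsPr (DD x) (ν x)) (B : X → Prop) :
    Pr ((D1.sigma DD).map (Equiv.sigmaEquivProd X Y).toEmbedding) (fun z => θ z.1 * ν z.1 z.2) (fun z => B z.1) =
      Pr D1 θ B := by
  rw [H3_Pr]
  unfold Pr
  refine H3_Ex_congr fun x hx => ?_
  show Ex (DD x) (ν x) (fun _ => if B x then (1 : ℝ) else 0) = _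
  exact H1_Ex_const (hν x hx) _

lemma H3_Pr2_le {Z Z' : Type} {D : Finset Z} {θ : Z → ℝ} (hθ : IsPr D θ) {D' : Finset Z'} {θ' : Z' → ℝ}
    (hθ' : IsPr D' θ') (R : Z → Z' → Prop) : Pr2 D θ D' θ' R ≤ 1 := by
  unfold Pr2
  refine (H1_Ex_mono hθ (g := fun _ => 1) fun z _ => ?_).trans (H1_Ex_const hθ 1).le
  refine (H1_Ex_mono hθ' (g := fun _ => 1) fun z' _ => ?_).trans (H1_Ex_const hθ' 1).le
  split_ifs <;> norm_num

/-- averaging: a function bounded by one with mean at least `4 c` is at least `c` with probability at least `c` -/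
lemma H3_avg {Z Z' : Type} {D : Finset Z} {θ : Z → ℝ} (hθ : IsPr D θ) {D' : Finset Z'} {θ' : Z' → ℝ}
    (hθ' : IsPr D' θ') {A : Z → Z' → ℝ} (hA : ∀ z ∈ D, ∀ z' ∈ D', A z z' ≤ 1) {c : ℝ} (hc : 0 ≤ c)
    (h : 4 * c ≤ Ex D θ (fun z => Ex D' θ' (fun z' => A z z'))) :
    c ≤ Pr2 D θ D' θ' (fun z z' => c ≤ A z z') := by
  have h1 : Ex D θ (fun z => Ex D' θ' (fun z' => A z z')) ≤
      Ex D θ (fun z => Ex D' θ' (fun z' => if c ≤ A z z' then 1 else 0)) + c := by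
    have h2 : Ex D θ (fun z => Ex D' θ' (fun z' => A z z')) ≤
        Ex D θ (fun z => Ex D' θ' (fun z' => if c ≤ A z z' then 1 else 0) + c) := by
      refine H1_Ex_mono hθ fun z hz => ?_
      have h3 : Ex D' θ' (fun z' => A z z') ≤ Ex D' θ' (fun z' => (if c ≤ A z z' then 1 else 0) + c) := by
        refine H1_Ex_mono hθ' fun z' hz' => ?_
        split_ifs with hh
        · linarith [hA z hz z' hz']
        · linarith [not_le.1 hh]
      refine h3.trans_eq ?_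
      have h4 : ∀ f : Z' → ℝ, Ex D' θ' (fun z' => f z' + c) = Ex D' θ' f + c := by
        intro f
        unfold Ex
        simp only [mul_add, Finset.sum_add_distrib, ← Finset.sum_mul, hθ'.sum, one_mul]
      exact h4 _
    refine h2.trans_eq ?_
    have h4 : ∀ f : Z → ℝ, Ex D θ (fun z => f z + c) = Ex D θ f + c := by
      intro f
      unfold Ex
      simp only [mul_add, Finset.sum_add_distrib, ← Finset.sum_mul, hθ.sum, one_mul]
    exact h4 _
  have h5 : Pr2 D θ D' θ' (fun z z' => c ≤ A z z') =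
    Ex D θ (fun z => Ex D' θ' (fun z' => if c ≤ A z z' then 1 else 0)) := rfl
  rw [h5]
  linarith

theorem hubB {W : World V} {q : Ultrafilter V} {U : Set (Set (V → ℝ))} {t m : ℕ} (M : ℕ) (F : BD W q U t m) (hF : F.Emp) :
    ∃ ε0 : ℝ, 0 < ε0 ∧ ∀ K1 : Set (V → ℝ), IsRes K1 → F.K ⊆ K1 → EQr V ⊆ K1 →
      ∀ (Dm : V → Finset (Nd t m → V)) (μ : V → (Nd t m → V) → ℝ) (D : Finset (Fin (M + 1) → V))
        (θ : (Fin (M + 1) → V) → ℝ) (δτ δP δ1 : ℝ), δτ ≤ ε0 → 0 < δ1 → δP ≤ ε0 * δ1 →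
      θ ∈ SP (fun i => Finset.Iio i) K1 δP D →
      (∀ P ∈ D, μ (P (Fin.last M)) ∈ SP anc K1 δτ (Dm (P (Fin.last M))) ∧ P (Fin.last M) ∈ F.A ∧
        ∀ τ ∈ Dm (P (Fin.last M)), (∀ n, τ n ∈ F.A) ∧ (∀ n, F.φ (ev (P (Fin.last M)) τ (fa n)) (τ n)) ∧
          OutT W (P (Fin.last M)) τ ∧ F.Inn (P (Fin.last M)) τ) →
      ∀ g ∈ ParR W F.A (fun e p => F.φ e p ∧ F.b0 p e < F.η ∧
        ∀ n, Ex (Dm p) (μ p) (fun τ => F.be n p (res (insert n (anc n)) τ) e) < ε0 * F.η),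
      (∀ P ∈ D, δ1 ≤ g (P (Fin.last M))) →
      δ1 ^ 2 / (8 * (t : ℝ) ^ 2) ≤ Pr2 D θ D θ (fun P P' => 1 / (8 * (t : ℝ) ^ 2) ≤
        Pr2 (Dm (P (Fin.last M))) (μ (P (Fin.last M))) (Dm (P' (Fin.last M))) (μ (P' (Fin.last M)))
          (fun τ'' τ' => Arr W (P' (Fin.last M)) τ' τ'')) := by
  have ht : 1 ≤ t := hF.pos
  have ht1 : (1 : ℝ) ≤ (t : ℝ) := by exact_mod_cast ht
  have hη := F.hη
  set N : ℝ := (t : ℝ) * ((Fintype.card (Nd t m) : ℝ) + 1) with hN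
  have hNpos : 0 < N := by positivity
  set ε : ℝ := 1 / (6 * N ^ 2) with hε
  have hεpos : 0 < ε := by positivity
  refine ⟨ε / (1 / F.η + 1), by positivity, ?_⟩
  set ε0 : ℝ := ε / (1 / F.η + 1) with hε0
  have hε0pos : 0 < ε0 := by positivity
  have hsum : ε0 / F.η + ε0 = ε := by
    rw [hε0]
    field_simp
  have hle1 : ε0 / F.η ≤ ε := by linarith
  have hle2 : ε0 ≤ ε := by
    have : 0 < ε0 / F.η := by positivity
    linarith
  intro K1 hK1 hFK hEQ Dm μ D θ δτ δP δ1 hδτ hδ1 hδP hθ hD g hg hgD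
  obtain ⟨e, heA, he⟩ := hub_choice hg hθ.1 (fun P => P (Fin.last M)) hgD
  obtain ⟨E, hE⟩ : ∃ E : (Fin (M + 1) → V) → Prop, E = fun P => W.r e (P (Fin.last M)) ∧ (F.φ e (P (Fin.last M)) ∧
    F.b0 (P (Fin.last M)) e < F.η ∧ ∀ n, Ex (Dm (P (Fin.last M))) (μ (P (Fin.last M)))
      (fun τ => F.be n (P (Fin.last M)) (res (insert n (anc n)) τ) e) < ε0 * F.η) := ⟨_, rfl⟩
  rw [← hE] at he
  have hEpos : 0 < Pr D θ E := lt_of_lt_of_le hδ1 he
  have hcond := SP_cond hK1 hθ hδ1 he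
  have hδ : δP / δ1 ≤ ε0 := by rwa [div_le_iff₀ hδ1]
  obtain ⟨D1, hD1⟩ : ∃ D1 : Finset (Fin (M + 1) → V), D1 = D.filter E := ⟨_, rfl⟩
  obtain ⟨θ', hθ'⟩ : ∃ θ' : (Fin (M + 1) → V) → ℝ, θ' = cond D θ E := ⟨_, rfl⟩
  have hD1mem : ∀ P ∈ D1, P ∈ D ∧ (W.r e (P (Fin.last M)) ∧ (F.φ e (P (Fin.last M)) ∧
    F.b0 (P (Fin.last M)) e < F.η ∧ ∀ n, Ex (Dm (P (Fin.last M))) (μ (P (Fin.last M)))
      (fun τ => F.be n (P (Fin.last M)) (res (insert n (anc n)) τ) e) < ε0 * F.η)) := by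
    intro P hP
    rw [hD1] at hP
    obtain ⟨h1, h2⟩ := Finset.mem_filter.1 hP
    rw [hE] at h2
    exact ⟨h1, h2⟩
  have hcond2 := Pr2_cond hθ.1 hδ1 he
  rw [← hD1, ← hθ'] at hcond hcond2
  have hν : ∀ P ∈ D1, IsPr (Dm (P (Fin.last M))) (μ (P (Fin.last M))) := fun P hP => (hD P (hD1mem P hP).1).1.1
  set D2 := (D1.sigma (fun P => Dm (P (Fin.last M)))).map
    (Equiv.sigmaEquivProd (Fin (M + 1) → V) (Nd t m → V)).toEmbedding with hD2
  set θ2 : (Fin (M + 1) → V) × (Nd t m → V) → ℝ := fun z => θ' z.1 * μ (z.1 (Fin.last M)) z.2 with hθ2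
  have hθ2Pr : IsPr D2 θ2 := H3_isPr (X := Fin (M + 1) → V) (Y := Nd t m → V) (D1 := D1) (DD := fun P => Dm (P (Fin.last M))) (ν := fun P => μ (P (Fin.last M))) hcond.1 hν
  have hcompl : ∀ (x y : ℝ), (¬ x < y) = (y ≤ x) := fun x y => propext not_lt
  obtain ⟨i, j, _, hij⟩ := hub_B F hF e (fun _ => D2) (fun _ => θ2) (fun _ => hθ2Pr)
    (fun _ z => z.1 (Fin.last M)) (fun _ z => z.2) (by
      intro _ z hz
      obtain ⟨h1, h2⟩ := H3_mem.1 hz
      obtain ⟨h3, h4⟩ := hD1mem _ h1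
      obtain ⟨h5, h6, h7⟩ := hD _ h3
      obtain ⟨h8, h9, h10, h11⟩ := h7 _ h2
      exact ⟨⟨heA, h6, h8, h4.1, h4.2.1, h9, h10⟩, h11⟩) (ε := ε)
    (by
      -- g0
      intro _
      refine (le_of_eq (H3_Pr_fst (X := Fin (M + 1) → V) (Y := Nd t m → V) (D1 := D1) (DD := fun P => Dm (P (Fin.last M))) (ν := fun P => μ (P (Fin.last M))) (θ := θ') hν
        (fun P => ¬ F.g0 e (P (Fin.last M)) < F.η))).trans ?_
      simp only [hcompl]
      refine (markov hcond.1 (fun P _ => (hK1.nn _ (hFK (F.hg0 e)) _)) hη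
        (hcond.2 (Fin.last M) (fun _ => F.g0 e) (fun _ => hFK (F.hg0 e)))).trans ?_
      exact (div_le_div_of_nonneg_right hδ hη.le).trans hle1)
    (by
      -- g n
      intro _ n
      refine H3_Pr_le_of (X := Fin (M + 1) → V) (Y := Nd t m → V) (D1 := D1) (DD := fun P => Dm (P (Fin.last M))) (ν := fun P => μ (P (Fin.last M))) (θ := θ') hcond.1 fun P hP => ?_
      simp only [hcompl]
      have h5 := (hD _ (hD1mem _ hP).1).1
      refine (markov h5.1 (fun τ _ => (hK1.nn _ (hFK (F.hg n e _ _)) _)) hη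
        (h5.2 n (fun s => F.g n e (P (Fin.last M)) s) (fun s => hFK (F.hg n e _ s)))).trans ?_
      exact (div_le_div_of_nonneg_right hδτ hη.le).trans hle1)
    (by
      -- b0
      intro _
      refine (le_of_eq (H3_Pr_fst (X := Fin (M + 1) → V) (Y := Nd t m → V) (D1 := D1) (DD := fun P => Dm (P (Fin.last M))) (ν := fun P => μ (P (Fin.last M))) (θ := θ') hν
        (fun P => ¬ F.b0 (P (Fin.last M)) e < F.η))).trans ?_
      have : Pr D1 θ' (fun P => ¬ F.b0 (P (Fin.last M)) e < F.η) = 0 := by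
        unfold Pr Ex
        refine Finset.sum_eq_zero fun P hP => ?_
        have hb := (hD1mem _ hP).2.2.2.1
        simp [hb]
      rw [this]
      exact hεpos.le)
    (by
      -- be
      intro _ n
      refine H3_Pr_le_of (X := Fin (M + 1) → V) (Y := Nd t m → V) (D1 := D1) (DD := fun P => Dm (P (Fin.last M))) (ν := fun P => μ (P (Fin.last M))) (θ := θ') hcond.1 fun P hP => ?_
      simp only [hcompl]
      refine (markov (hν P hP) (fun τ _ => (hK1.nn _ (hFK (F.hbe n _ _)) _)) hη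
        ((hD1mem _ hP).2.2.2.2 n).le).trans ?_
      rw [mul_div_assoc, div_self hη.ne', mul_one]
      exact hle2)
    (by
      -- equality
      intro _ o v
      have hEv : (fun w : V => if w = v then (1 : ℝ) else 0) ∈ K1 :=
        hEQ (subset_convexHull ℝ _ ⟨v, rfl⟩)
      cases o with
      | none =>
        refine (le_of_eq (H3_Pr_fst (X := Fin (M + 1) → V) (Y := Nd t m → V) (D1 := D1) (DD := fun P => Dm (P (Fin.last M))) (ν := fun P => μ (P (Fin.last M))) (θ := θ') hν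
          (fun P => P (Fin.last M) = v))).trans ?_
        exact (hcond.2 (Fin.last M) (fun _ => fun w : V => if w = v then (1 : ℝ) else 0) (fun _ => hEv)).trans
          (hδ.trans hle2)
      | some n =>
        refine H3_Pr_le_of (X := Fin (M + 1) → V) (Y := Nd t m → V) (D1 := D1) (DD := fun P => Dm (P (Fin.last M))) (ν := fun P => μ (P (Fin.last M))) (θ := θ') hcond.1 fun P hP => ?_
        have h5 := (hD _ (hD1mem _ hP).1).1
        exact (h5.2 n (fun _ => fun w : V => if w = v then (1 : ℝ) else 0) (fun _ => hEv)).trans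
          (hδτ.trans hle2))
    (by
      rw [← hN, hε]
      field_simp
      exact le_refl _)
  -- rewrite the double expectation
  have hswap : Pr2 D2 θ2 D2 θ2 (fun z z' => Arr W (z.1 (Fin.last M)) z.2 z'.2) =
      Ex D1 θ' (fun P => Ex D1 θ' (fun P' => Pr2 (Dm (P (Fin.last M))) (μ (P (Fin.last M)))
        (Dm (P' (Fin.last M))) (μ (P' (Fin.last M))) (fun τ'' τ' => Arr W (P' (Fin.last M)) τ' τ''))) := by
    unfold Pr2
    rw [hD2, hθ2, H3_Ex D1 (fun P => Dm (P (Fin.last M))) θ' (fun P => μ (P (Fin.last M)))]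
    have h1 : ∀ P' ∈ D1, Ex (Dm (P' (Fin.last M))) (μ (P' (Fin.last M))) (fun τ' =>
        Ex ((D1.sigma (fun P => Dm (P (Fin.last M)))).map
          (Equiv.sigmaEquivProd (Fin (M + 1) → V) (Nd t m → V)).toEmbedding)
          (fun z => θ' z.1 * μ (z.1 (Fin.last M)) z.2)
          (fun z' => if Arr W (P' (Fin.last M)) τ' z'.2 then (1 : ℝ) else 0)) =
        Ex D1 θ' (fun P => Ex (Dm (P (Fin.last M))) (μ (P (Fin.last M))) (fun τ'' =>
          Ex (Dm (P' (Fin.last M))) (μ (P' (Fin.last M))) (fun τ' =>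
            if Arr W (P' (Fin.last M)) τ' τ'' then (1 : ℝ) else 0))) := by
      intro P' _
      have h2 : ∀ τ' ∈ Dm (P' (Fin.last M)), Ex ((D1.sigma (fun P => Dm (P (Fin.last M)))).map
          (Equiv.sigmaEquivProd (Fin (M + 1) → V) (Nd t m → V)).toEmbedding)
          (fun z => θ' z.1 * μ (z.1 (Fin.last M)) z.2)
          (fun z' => if Arr W (P' (Fin.last M)) τ' z'.2 then (1 : ℝ) else 0) =
          Ex D1 θ' (fun P => Ex (Dm (P (Fin.last M))) (μ (P (Fin.last M))) (fun τ'' =>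
            if Arr W (P' (Fin.last M)) τ' τ'' then (1 : ℝ) else 0)) := fun τ' _ =>
        H3_Ex D1 (fun P => Dm (P (Fin.last M))) θ' (fun P => μ (P (Fin.last M))) _
      rw [H3_Ex_congr h2, H3_Ex_comm]
      refine H3_Ex_congr fun P _ => ?_
      rw [H3_Ex_comm]
    refine (H3_Ex_congr h1).trans ?_
    rw [H3_Ex_comm]
  rw [hswap] at hij
  have hfin := H3_avg (c := 1 / (8 * (t : ℝ) ^ 2)) hcond.1 hcond.1 (fun P hP P' hP' =>
    H3_Pr2_le (hν P hP) (hν P' hP') (fun τ'' τ' => Arr W (P' (Fin.last M)) τ' τ'')) (by positivity)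
    ((by
      rw [show 4 * (1 / (8 * (t : ℝ) ^ 2)) = 1 / (2 * (t : ℝ) ^ 2) by field_simp; norm_num]
      : (4 * (1 / (8 * (t : ℝ) ^ 2)) : ℝ) = 1 / (2 * (t : ℝ) ^ 2)).le.trans hij)
  refine le_trans ?_ (hcond2 _)
  calc δ1 ^ 2 / (8 * (t : ℝ) ^ 2) = δ1 ^ 2 * (1 / (8 * (t : ℝ) ^ 2)) := by ring
    _ ≤ _ := mul_le_mul_of_nonneg_left hfin (by positivity)

end Pool.Agent.Lib.MP_b0c2b5_co.AT
end

section

/-!
# AT, K8: UP LEMMA (paper, section 3).

PROOF. `draw` with `X := v`, `E := {w | Rel (v w.1) (z' w.1) w.2}`, constant `c / 2`, `T := {(b, past b, K) | K ∈ U}`, `Ds := {d | (v, z') ∈ d almost everywhere, and ∀ w ∈ d, w.2 ∈ D0 w.1}`. Given `d`, finite `T'`, `δ`: `K ∈ U` containing `K1` and all resources of `T'` (`combine` or `S.join`), `δ' := min δ δ1`,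
`D a := (D0 a).filter (fun z => (a, z) ∈ d)`, `SS := SP past K δ' (D a)`, nonempty for almost all `a = v ω` (`spread_SP`), convex, closed, contained in `SP past K1 δ1 (D0 a)`. `mm` with `G := {fun z' => - Σ_z θ z [Rel a z z'] : θ ∈ SS}`, `α := - c`: there is `θ' = θ' a ∈ SS` with `c ≤ Pr2 θ θ' Rel` for all `θ ∈ SS`.
If for almost all `ω` `z' ω` were in `B a := {z ∈ D a | Pr (D a) θ' (Rel a z ·) < c / 2}`, `spread_SP` for `B` would give `θ ∈ SP past K δ' (B a) ⊆ SS` with `Pr2 θ θ' Rel ≤ c / 2`: contradiction. So `Pr (D a) (θ' a) (Rel a (z' ω) ·) ≥ c / 2` for almost all `ω`.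
-/

set_option autoImplicit false

namespace Pool.Agent.Lib.MP_b0c2b5_co.AT

open LS Filter
open scoped Classical

variable {V : Type}

lemma K8_Ex_subset {Z : Type} {D D' : Finset Z} {θ : Z → ℝ} (hs : D ⊆ D') (h0 : ∀ z, z ∉ D → θ z = 0)
    (f : Z → ℝ) : Ex D' θ f = Ex D θ f := by
  unfold Ex
  symm
  apply Finset.sum_subset hs
  intro z _ hz
  rw [h0 z hz, zero_mul]

lemma K8_IsPr_subset {Z : Type} {D D' : Finset Z} {θ : Z → ℝ} (hs : D ⊆ D') (h : IsPr D θ) : IsPr D' θ where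
  nn := h.nn
  supp z hz := h.supp z (fun hz' => hz (hs hz'))
  sum := by
    have := K8_Ex_subset hs h.supp (fun _ => 1)
    unfold Ex at this
    simp only [mul_one] at this
    rw [this, h.sum]

lemma K8_SP_subset {I : Type} {past : I → Finset I} {K K' : Set (V → ℝ)} {δ δ' : ℝ} {D D' : Finset (I → V)}
    (hs : D ⊆ D') (hK : K' ⊆ K) (hδ : δ ≤ δ') {θ : (I → V) → ℝ} (h : θ ∈ SP past K δ D) : θ ∈ SP past K' δ' D' := by
  refine ⟨K8_IsPr_subset hs h.1, fun b g hg => ?_⟩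
  rw [K8_Ex_subset hs h.1.supp]
  exact (h.2 b g (fun s => hK (hg s))).trans hδ

lemma K8_convex_SP {I : Type} (past : I → Finset I) (K : Set (V → ℝ)) (δ : ℝ) (D : Finset (I → V)) :
    Convex ℝ (SP past K δ D) := by
  intro θ hθ θ' hθ' a b ha hb hab
  refine ⟨⟨fun z => ?_, fun z hz => ?_, ?_⟩, fun i g hg => ?_⟩
  · have := hθ.1.nn z
    have := hθ'.1.nn z
    simp only [Pi.add_apply, Pi.smul_apply, smul_eq_mul]
    positivity
  · simp only [Pi.add_apply, Pi.smul_apply, smul_eq_mul, hθ.1.supp z hz, hθ'.1.supp z hz, mul_zero, add_zero]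
  · simp only [Pi.add_apply, Pi.smul_apply, smul_eq_mul, Finset.sum_add_distrib, ← Finset.mul_sum, hθ.1.sum,
      hθ'.1.sum, mul_one, hab]
  · have h1 := hθ.2 i g hg
    have h2 := hθ'.2 i g hg
    unfold Ex at h1 h2 ⊢
    simp only [Pi.add_apply, Pi.smul_apply, smul_eq_mul, add_mul, Finset.sum_add_distrib, mul_assoc,
      ← Finset.mul_sum]
    calc _ ≤ a * δ + b * δ := add_le_add (mul_le_mul_of_nonneg_left h1 ha) (mul_le_mul_of_nonneg_left h2 hb)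
      _ = δ := by rw [← add_mul, hab, one_mul]

lemma K8_closed_SP {I : Type} (past : I → Finset I) (K : Set (V → ℝ)) (δ : ℝ) (D : Finset (I → V)) :
    IsClosed (SP past K δ D) := by
  have e : SP past K δ D = (⋂ z, {θ : (I → V) → ℝ | 0 ≤ θ z}) ∩ (⋂ z, ⋂ (_ : z ∉ D), {θ : (I → V) → ℝ | θ z = 0}) ∩
      {θ : (I → V) → ℝ | ∑ z ∈ D, θ z = 1} ∩
      ⋂ (b : I), ⋂ (h : (I → Option V) → V → ℝ), ⋂ (_ : ∀ s, h s ∈ K),
        {θ : (I → V) → ℝ | Ex D θ (fun z => h (res (past b) z) (z b)) ≤ δ} := by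
    ext θ
    simp only [SP, Set.mem_ofPred_eq, Set.mem_inter_iff, Set.mem_iInter]
    constructor
    · rintro ⟨h1, h2⟩
      exact ⟨⟨⟨h1.nn, h1.supp⟩, h1.sum⟩, h2⟩
    · rintro ⟨⟨⟨h1, h2⟩, h3⟩, h4⟩
      exact ⟨⟨h1, h2, h3⟩, h4⟩
  rw [e]
  refine IsClosed.inter (IsClosed.inter (IsClosed.inter ?_ ?_) ?_) ?_
  · exact isClosed_iInter fun z => isClosed_le continuous_const (continuous_apply z)
  · exact isClosed_iInter fun z => isClosed_iInter fun _ => isClosed_eq (continuous_apply z) continuous_const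
  · exact isClosed_eq (continuous_finsetSum _ fun z _ => continuous_apply z) continuous_const
  · refine isClosed_iInter fun b => isClosed_iInter fun h => isClosed_iInter fun _ => isClosed_le ?_ continuous_const
    unfold Ex
    exact continuous_finsetSum _ fun z _ => (continuous_apply z).mul continuous_const

lemma K8_join {W : World V} {q : Ultrafilter V} {U : Set (Set (V → ℝ))} (S : Sys W q U) {K1 : Set (V → ℝ)}
    (hK1 : K1 ∈ U) {J : Type} (T : Finset J) (F : J → Set (V → ℝ)) (hF : ∀ e ∈ T, F e ∈ U) :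
    ∃ K ∈ U, K1 ⊆ K ∧ ∀ e ∈ T, F e ⊆ K := by
  induction T using Finset.induction_on with
  | empty => exact ⟨K1, hK1, subset_rfl, fun e he => by simp at he⟩
  | insert a s ha ih =>
    obtain ⟨K, hK, h1, h2⟩ := ih (fun e he => hF e (Finset.mem_insert_of_mem he))
    refine ⟨jn K (F a), S.join K hK (F a) (hF a (Finset.mem_insert_self _ _)), ?_, ?_⟩
    · exact h1.trans (Set.subset_union_left.trans (subset_convexHull ℝ _))
    · intro e he
      rcases Finset.mem_insert.1 he with rfl | he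
      · exact Set.subset_union_right.trans (subset_convexHull ℝ _)
      · exact (h2 e he).trans (Set.subset_union_left.trans (subset_convexHull ℝ _))

lemma K8_Pr2_comm {Z : Type} (D : Finset Z) (θ θ' : Z → ℝ) (R : Z → Z → Prop) :
    Ex D θ' (fun z2 => Pr D θ (fun z => R z z2)) = Ex D θ (fun z => Pr D θ' (fun z2 => R z z2)) := by
  unfold Pr Ex
  simp only [Finset.mul_sum]
  rw [Finset.sum_comm]
  refine Finset.sum_congr rfl fun z _ => Finset.sum_congr rfl fun z2 _ => ?_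
  ring

/-- the universal partner -/
lemma K8_partner {I : Type} (past : I → Finset I) (K : Set (V → ℝ)) (δ : ℝ) (D : Finset (I → V))
    (hne : (SP past K δ D).Nonempty) (R : (I → V) → (I → V) → Prop) (c : ℝ)
    (h : ∀ θ ∈ SP past K δ D, c ≤ Pr2 D θ D θ R) :
    ∃ θ' ∈ SP past K δ D, ∀ θ ∈ SP past K δ D, c ≤ Ex D θ (fun z => Pr D θ' (fun z2 => R z z2)) := by
  obtain ⟨θ', hθ', hG⟩ := mm D (SP past K δ D) (fun θ hθ => hθ.1) hne (K8_convex_SP past K δ D)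
    (K8_closed_SP past K δ D) {g | ∃ θ ∈ SP past K δ D, g = fun z2 => - Pr D θ (fun z => R z z2)} (by
      rintro g ⟨θ, hθ, rfl⟩ g' ⟨θ', hθ', rfl⟩ a b ha hb hab
      refine ⟨a • θ + b • θ', K8_convex_SP past K δ D hθ hθ' ha hb hab, ?_⟩
      ext z2
      simp only [Pr, Ex, Pi.add_apply, Pi.smul_apply, smul_eq_mul, add_mul, Finset.sum_add_distrib, mul_assoc,
        ← Finset.mul_sum]
      ring) (-c) (by
      rintro g ⟨θ, hθ, rfl⟩
      refine ⟨θ, hθ, ?_⟩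
      have h1 := h θ hθ
      have h2 := K8_Pr2_comm D θ θ R
      have h3 : Ex D θ (fun z2 => - Pr D θ (fun z => R z z2)) = - Ex D θ (fun z2 => Pr D θ (fun z => R z z2)) := by
        unfold Ex
        simp only [mul_neg, Finset.sum_neg_distrib]
      rw [h3, h2]
      have h4 : Pr2 D θ D θ R = Ex D θ (fun z => Pr D θ (fun z2 => R z z2)) := rfl
      rw [← h4]
      linarith)
  refine ⟨θ', hθ', fun θ hθ => ?_⟩
  have h1 := hG _ ⟨θ, hθ, rfl⟩
  have h3 : Ex D θ' (fun z2 => - Pr D θ (fun z => R z z2)) = - Ex D θ' (fun z2 => Pr D θ (fun z => R z z2)) := by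
    unfold Ex
    simp only [mul_neg, Finset.sum_neg_distrib]
  rw [h3, K8_Pr2_comm D θ θ' R] at h1
  linarith

/-- UP LEMMA (section 3) -/
theorem up {W : World V} {q : Ultrafilter V} {U : Set (Set (V → ℝ))} (S : Sys W q U) {Ω A I : Type} [Fintype I]
    (p : Ultrafilter Ω) (v : Ω → A) (z' : Ω → I → V) (past : I → Finset I) (D0 : A → Finset (I → V))
    (hD0 : ∀ᶠ ω in (p : Filter Ω), z' ω ∈ D0 (v ω))
    (hfree : ∀ b, Fr U p (fun ω => (v ω, res (past b) (z' ω))) (fun ω => z' ω b))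
    (Rel : A → (I → V) → (I → V) → Prop) (K1 : Set (V → ℝ)) (hK1 : K1 ∈ U) {δ1 c : ℝ} (hδ1 : 0 < δ1) (hc : 0 < c)
    (h : ∀ᶠ ω in (p : Filter Ω), ∀ θ ∈ SP past K1 δ1 (D0 (v ω)),
      c ≤ Pr2 (D0 (v ω)) θ (D0 (v ω)) θ (fun z z2 => Rel (v ω) z z2)) :
    ∃ p' : Ultrafilter (Ω × (I → V)), p'.map Prod.fst = p ∧
      p'.map (fun w => (v w.1, w.2)) = p.map (fun ω => (v ω, z' ω)) ∧
      (∀ᶠ w in (p' : Filter (Ω × (I → V))), Rel (v w.1) (z' w.1) w.2) ∧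
      (∀ b, Fr U p' (fun w => (w.1, res (past b) w.2)) (fun w => w.2 b)) ∧
      (∀ (D' : Type) (Y : Ω → D') (f : D' → A), (∀ ω, v ω = f (Y ω)) → ∀ (c : Ω → V) (K : Set (V → ℝ)), IsRes K →
        Unk p Y c K → Unk p' (fun w => (Y w.1, w.2)) (fun w => c w.1) K) := by
  have key : ∀ d ∈ {d : Set (A × (I → V)) | (∀ᶠ ω in (p : Filter Ω), (v ω, z' ω) ∈ d) ∧ ∀ w ∈ d, w.2 ∈ D0 w.1},
      ∀ T' : Finset (I × Finset I × Set (V → ℝ)), ↑T' ⊆ {e : I × Finset I × Set (V → ℝ) | ∃ b, ∃ K ∈ U, e = (b, past b, K)} →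
      ∀ δ : ℝ, 0 < δ →
      ∃ (D : A → Finset (I → V)) (θ : A → (I → V) → ℝ), ∀ᶠ ω in (p : Filter Ω),
        IsPr (D (v ω)) (θ (v ω)) ∧ (∀ z ∈ D (v ω), (v ω, z) ∈ d) ∧
        (∀ e ∈ T', ∀ h : (I → Option V) → V → ℝ, (∀ s, h s ∈ e.2.2) →
          Ex (D (v ω)) (θ (v ω)) (fun z => h (res e.2.1 z) (z e.1)) ≤ δ) ∧
        c / 2 ≤ Pr (D (v ω)) (θ (v ω)) (fun z => (ω, z) ∈ {w : Ω × (I → V) | Rel (v w.1) (z' w.1) w.2}) := by
    rintro d ⟨hd1, hd2⟩ T' hT' δ hδ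
    obtain ⟨K, hKU, hK1K, hTK⟩ := K8_join S hK1 T' (fun e => e.2.2) (by
      intro e he
      obtain ⟨b, K, hK, rfl⟩ := hT' he
      exact hK)
    set D : A → Finset (I → V) := fun a => (D0 a).filter (fun z => (a, z) ∈ d) with hD
    have hDsub : ∀ a, D a ⊆ D0 a := fun a => Finset.filter_subset _ _
    have hδ' : 0 < min δ δ1 := lt_min hδ hδ1
    have hzD : ∀ᶠ ω in (p : Filter Ω), z' ω ∈ D (v ω) := by
      filter_upwards [hD0, hd1] with ω h1 h2
      exact Finset.mem_filter.2 ⟨h1, h2⟩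
    have hex : ∀ᶠ ω in (p : Filter Ω), ∃ θ' ∈ SP past K (min δ δ1) (D (v ω)), ∀ θ ∈ SP past K (min δ δ1) (D (v ω)),
        c ≤ Ex (D (v ω)) θ (fun z => Pr (D (v ω)) θ' (fun z2 => Rel (v ω) z z2)) := by
      filter_upwards [h, spread_SP S p v z' past hfree D hzD hKU hδ'] with ω h1 h2
      apply K8_partner past K _ (D (v ω)) h2
      intro θ hθ
      have h3 := h1 θ (K8_SP_subset (hDsub _) hK1K (min_le_right _ _) hθ)
      unfold Pr2 at h3 ⊢
      rw [K8_Ex_subset (hDsub _) hθ.1.supp] at h3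
      have h4 : (fun z => Ex (D0 (v ω)) θ (fun z2 => if Rel (v ω) z z2 then (1 : ℝ) else 0)) =
          (fun z => Ex (D (v ω)) θ (fun z2 => if Rel (v ω) z z2 then (1 : ℝ) else 0)) := by
        ext z
        rw [K8_Ex_subset (hDsub _) hθ.1.supp]
      rw [h4] at h3
      exact h3
    set P : A → ((I → V) → ℝ) → Prop := fun a θ' => θ' ∈ SP past K (min δ δ1) (D a) ∧
      ∀ θ ∈ SP past K (min δ δ1) (D a), c ≤ Ex (D a) θ (fun z => Pr (D a) θ' (fun z2 => Rel a z z2)) with hP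
    set θ' : A → (I → V) → ℝ := fun a => if ha : ∃ θ', P a θ' then Classical.choose ha else 0 with hθ'
    have hθP : ∀ a, (∃ θ', P a θ') → P a (θ' a) := by
      intro a ha
      have : θ' a = Classical.choose ha := by rw [hθ']; exact dif_pos ha
      rw [this]
      exact Classical.choose_spec ha
    have hPa : ∀ᶠ ω in (p : Filter Ω), P (v ω) (θ' (v ω)) := by
      filter_upwards [hex] with ω h1
      obtain ⟨θ, h2, h3⟩ := h1
      exact hθP _ ⟨θ, h2, h3⟩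
    refine ⟨D, θ', ?_⟩
    have hbig : ∀ᶠ ω in (p : Filter Ω), c / 2 ≤ Pr (D (v ω)) (θ' (v ω)) (fun z => Rel (v ω) (z' ω) z) := by
      by_contra hcon
      rw [← Ultrafilter.eventually_not] at hcon
      set B : A → Finset (I → V) := fun a => (D a).filter (fun z => Pr (D a) (θ' a) (fun z2 => Rel a z z2) < c / 2)
        with hB
      have hzB : ∀ᶠ ω in (p : Filter Ω), z' ω ∈ B (v ω) := by
        filter_upwards [hzD, hcon] with ω h1 h2
        exact Finset.mem_filter.2 ⟨h1, not_le.1 h2⟩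
      have hall : ∀ᶠ ω in (p : Filter Ω), False := by
        filter_upwards [hPa, spread_SP S p v z' past hfree B hzB hKU hδ'] with ω h1 h2
        obtain ⟨θ, hθ⟩ := h2
        have hsub : B (v ω) ⊆ D (v ω) := Finset.filter_subset _ _
        have h3 := h1.2 θ (K8_SP_subset hsub subset_rfl le_rfl hθ)
        rw [K8_Ex_subset hsub hθ.1.supp] at h3
        have h4 : Ex (B (v ω)) θ (fun z => Pr (D (v ω)) (θ' (v ω)) (fun z2 => Rel (v ω) z z2)) ≤ c / 2 := by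
          unfold Ex
          calc ∑ z ∈ B (v ω), θ z * Pr (D (v ω)) (θ' (v ω)) (fun z2 => Rel (v ω) z z2)
              ≤ ∑ z ∈ B (v ω), θ z * (c / 2) := by
                apply Finset.sum_le_sum
                intro z hz
                exact mul_le_mul_of_nonneg_left (Finset.mem_filter.1 hz).2.le (hθ.1.nn z)
            _ = c / 2 := by rw [← Finset.sum_mul, hθ.1.sum, one_mul]
        linarith
      obtain ⟨_, hf⟩ := hall.exists
      exact hf
    filter_upwards [hPa, hbig] with ω h1 h2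
    refine ⟨h1.1.1, fun z hz => (Finset.mem_filter.1 hz).2, ?_, h2⟩
    intro e he g hg
    obtain ⟨b, K', hK', rfl⟩ := hT' he
    exact (h1.1.2 b g (fun s => hTK _ he (hg s))).trans (min_le_left _ _)
  obtain ⟨p', h1, h2, h3, h4, h5⟩ := draw p v {e : I × Finset I × Set (V → ℝ) | ∃ b, ∃ K ∈ U, e = (b, past b, K)}
    (by
      rintro e ⟨b, K, hK, rfl⟩
      exact S.res K hK)
    {d : Set (A × (I → V)) | (∀ᶠ ω in (p : Filter Ω), (v ω, z' ω) ∈ d) ∧ ∀ w ∈ d, w.2 ∈ D0 w.1}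
    ⟨{w | w.2 ∈ D0 w.1}, hD0, fun w hw => hw⟩ (by
      rintro a ⟨ha1, ha2⟩ b ⟨hb1, hb2⟩
      refine ⟨?_, fun w hw => ha2 w hw.1⟩
      filter_upwards [ha1, hb1] with ω h1 h2
      exact ⟨h1, h2⟩)
    {w : Ω × (I → V) | Rel (v w.1) (z' w.1) w.2} (half_pos hc) key
  refine ⟨p', h1, ?_, h2, ?_, h5⟩
  · apply Ultrafilter.coe_le_coe.1
    intro s hs
    have hs' : ∀ᶠ ω in (p : Filter Ω), (v ω, z' ω) ∈ s := hs
    have h6 := h3 (s ∩ {w | w.2 ∈ D0 w.1}) ⟨by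
      filter_upwards [hs', hD0] with ω h7 h8
      exact ⟨h7, h8⟩, fun w hw => hw.2⟩
    have h7 : ∀ᶠ w in (p' : Filter (Ω × (I → V))), (v w.1, w.2) ∈ s := h6.mono fun w hw => hw.1
    exact h7
  · intro b K hK
    exact h4 (b, past b, K) ⟨b, K, hK, rfl⟩

end Pool.Agent.Lib.MP_b0c2b5_co.AT
end

section

/-!
# AT, B1: Lemma B (no loss, paper 2.4).

PROOF of `lemmaB`. Suppose `sR W φ K' δ η K ∈ U` for all `φ, K', δ, η`.
(*) `p` on `Ω`, `Y : Ω → D`, `p.map y = q`, `Fr U p Y y` => there is `p'` on `Ω × V` over `p` with `CA W q U p' y z`, `z` free over `(Y, y)`, `Unk p' Y z K`. `cpt`: conditions `φ (y, z)`, `r y z` (`φ` in F_C), `h (Y, y) z < δ` (`h` into `K' ∈ U`), `g Y z ≤ η` (`g` into `K`; finitely many: replace by the mean). `y` is not in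
`XR W φ K' δ η (g (Y ω))` for almost all `ω`, since the indicator functions of the sets `XR .. (g d)` are in `sR .. ∈ U` and `y` is free over `Y`; so for `h (Y ω, y ω) ∈ K'` there is `z` with `r y z`, `φ y z`, `g z ≤ η`, `h z < δ`.
CLAIM_m: same hypotheses => `p'` on `Ω × (Nd t m → V)` over `p` with `CA` on all arcs, `OutT W y τ`, `Fr U p' ((Y, y), res (anc n) τ) (τ n)` and `Unk p' Y (τ n) K` for all `n`. Step: `z` from (*), `τ_z` from CLAIM_m for `((Y, y), z)` [so `K` is not known about its nodes from `(Y, y)`]; `r'` := type of `((Y, y); z, τ_z)`; `t` copies over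
`(Y, y)`. Conflict `a, b` in branches `i ≠ j`: `a = b` is excluded by EQ. Arc `r a b`: `b` is not the root `z_j` (`r y z_j`, `lt y a`, `lt a z_j` contradict `ho.sf`), so `Unk p' (Y, y) b K`, so `Unk p' a b K` (`copies`, third statement with `s = ∅`); `a, b` are free over each other: `CA a b`, so by `Sys.kn` `¬ Unk p' a b K`. `m = d`, `Ω = V × V`,
`p` an exact arc, `Y := fun _ => ()`, `y := snd`: an `OutT` of depth `d`, contradiction to `h1`.
-/

set_option autoImplicit false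

namespace Pool.Agent.Lib.MP_b0c2b5_co.AT

open LS Filter
open scoped Classical

variable {V : Type}

/-- the set `X_g` of 2.4 -/
def XR (W : World V) (φ : V → V → Prop) (K' : Set (V → ℝ)) (δ η : ℝ) (g : V → ℝ) : Set V :=
  {x | ∃ h ∈ K', ∀ y, W.r x y → φ x y → g y ≤ η → δ ≤ h y}

/-- the resource `sK` of 2.4 (children) -/
def sR (W : World V) (φ : V → V → Prop) (K' : Set (V → ℝ)) (δ η : ℝ) (K : Set (V → ℝ)) : Set (V → ℝ) :=
  convexHull ℝ {f | ∃ g ∈ K, f = fun x => if x ∈ XR W φ K' δ η g then (1 : ℝ) else 0}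

private theorem B1_hull {F : Set (V → ℝ)} (h : ∀ f ∈ F, ∀ v, 0 ≤ f v ∧ f v ≤ 1) : IsRes (convexHull ℝ F) := by
  have hsub : convexHull ℝ F ⊆ {f : V → ℝ | ∀ v, 0 ≤ f v ∧ f v ≤ 1} := by
    refine convexHull_min h ?_
    intro f hf g hg a b ha hb hab v
    simp only [Pi.add_apply, Pi.smul_apply, smul_eq_mul]
    refine ⟨add_nonneg (mul_nonneg ha (hf v).1) (mul_nonneg hb (hg v).1), ?_⟩
    calc a * f v + b * g v ≤ a * 1 + b * 1 :=
          add_le_add (mul_le_mul_of_nonneg_left (hf v).2 ha) (mul_le_mul_of_nonneg_left (hg v).2 hb)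
      _ = 1 := by rw [mul_one, mul_one, hab]
  exact ⟨convex_convexHull _ _, fun g hg v => (hsub hg v).1, fun g hg v => (hsub hg v).2⟩

theorem isRes_sR (W : World V) (φ : V → V → Prop) (K' : Set (V → ℝ)) (δ η : ℝ) (K : Set (V → ℝ)) :
    IsRes (sR W φ K' δ η K) := by
  refine B1_hull ?_
  rintro f ⟨g, _, rfl⟩ v
  show 0 ≤ (if v ∈ XR W φ K' δ η g then (1 : ℝ) else 0) ∧ (if v ∈ XR W φ K' δ η g then (1 : ℝ) else 0) ≤ 1
  split_ifs
  · exact ⟨zero_le_one, le_rfl⟩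
  · exact ⟨le_rfl, zero_le_one⟩

private theorem B1_half_mem {K K' : Set (V → ℝ)} {g h : V → ℝ} (hg : g ∈ K) (hh : h ∈ K') :
    (1/2 : ℝ) • g + (1/2 : ℝ) • h ∈ jn K K' :=
  have h1 : g ∈ convexHull ℝ (K ∪ K') := subset_convexHull ℝ _ (Or.inl hg)
  have h2 : h ∈ convexHull ℝ (K ∪ K') := subset_convexHull ℝ _ (Or.inr hh)
  convex_convexHull ℝ (K ∪ K') h1 h2 (by norm_num) (by norm_num) (by norm_num)

/-- the step (*) -/
private theorem B1_star {W : World V} {q : Ultrafilter V} {U : Set (Set (V → ℝ))} (S : Sys W q U)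
    {K : Set (V → ℝ)} (hK : IsRes K) (hKne : K.Nonempty)
    (hs : ∀ φ, InFC W q U φ → ∀ K' ∈ U, ∀ δ : ℝ, 0 < δ → ∀ η : ℝ, 0 < η → sR W φ K' δ η K ∈ U)
    {Ω D : Type} (p : Ultrafilter Ω) (Y : Ω → D) (y : Ω → V) (hy : p.map y = q) (hf : Fr U p Y y) :
    ∃ p' : Ultrafilter (Ω × V), p'.map Prod.fst = p ∧ CA W q U p' (fun w => y w.1) Prod.snd ∧
      Fr U p' Prod.fst Prod.snd ∧ Unk p' (fun w => Y w.1) Prod.snd K := by
  obtain ⟨k0, hk0⟩ := hKne
  -- simple members of F_C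
  have hEQ : ∀ x : V, (fun v : V => if v = x then (1 : ℝ) else 0) ∈ EQr V := fun x => subset_convexHull _ _ ⟨x, rfl⟩
  have hφT : ∀ A ∈ q, InFC W q U (fun _ z => z ∈ A) := fun A hA =>
    ⟨A, hA, EQr V, S.eq, fun x v => if v = x then (1 : ℝ) else 0, fun x v => if v = x then (1 : ℝ) else 0, hEQ, hEQ, 1,
      one_pos, fun x _ z hz _ _ _ => hz⟩
  have hφB : ∀ K1 ∈ U, ∀ g : V → V → ℝ, (∀ x, g x ∈ K1) → ∀ δ : ℝ, 0 < δ → InFC W q U (fun x z => g z x < δ) :=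
    fun K1 hK1 g hg δ hδ => ⟨Set.univ, Filter.univ_mem, K1, hK1, g, g, hg, hg, δ, hδ, fun x _ z _ _ _ h => h⟩
  let T : (V → V → Prop) → (Ω → V → ℝ) → (D → V → ℝ) → ℝ → Set (Ω × V) := fun φ h g δ =>
    {w | W.r (y w.1) w.2 ∧ φ (y w.1) w.2 ∧ h w.1 w.2 < δ ∧ g (Y w.1) w.2 ≤ δ}
  let F : Set (Set (Ω × V)) := {a | ∃ φ, InFC W q U φ ∧ ∃ K' ∈ U, ∃ h : Ω → V → ℝ, (∀ ω, h ω ∈ K') ∧
    ∃ g : D → V → ℝ, (∀ d, g d ∈ K) ∧ ∃ δ : ℝ, 0 < δ ∧ T φ h g δ ⊆ a}
  have hmem : ∀ φ, InFC W q U φ → ∀ K' ∈ U, ∀ h : Ω → V → ℝ, (∀ ω, h ω ∈ K') → ∀ g : D → V → ℝ, (∀ d, g d ∈ K) →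
      ∀ δ : ℝ, 0 < δ → T φ h g δ ∈ F := fun φ hφ K' hK' h hh g hg δ hδ =>
    ⟨φ, hφ, K', hK', h, hh, g, hg, δ, hδ, subset_rfl⟩
  obtain ⟨p', hp', hF⟩ := cpt p F ⟨_, hmem _ (hφT Set.univ Filter.univ_mem) _ S.eq
      (fun ω v => if v = y ω then (1 : ℝ) else 0) (fun ω => hEQ _) (fun _ => k0) (fun _ => hk0) 1 one_pos⟩ (by
    rintro a ⟨φ1, hφ1, K1, hK1, h1, hh1, g1, hg1, δ1, hδ1, ha⟩ b ⟨φ2, hφ2, K2, hK2, h2, hh2, g2, hg2, δ2, hδ2, hb⟩
    refine ⟨fun x z => φ1 x z ∧ φ2 x z, hφ1.and S hφ2, jn K1 K2, S.join K1 hK1 K2 hK2,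
      fun ω => (1/2 : ℝ) • h1 ω + (1/2 : ℝ) • h2 ω, fun ω => B1_half_mem (hh1 ω) (hh2 ω),
      fun d => (1/2 : ℝ) • g1 d + (1/2 : ℝ) • g2 d, fun d => hK.conv (hg1 d) (hg2 d) (by norm_num) (by norm_num)
        (by norm_num), min δ1 δ2 / 2, by positivity, ?_⟩
    rintro w ⟨e1, e2, e3, e4⟩
    simp only [Pi.add_apply, Pi.smul_apply, smul_eq_mul] at e3 e4
    have a1 := (S.res K1 hK1).nn _ (hh1 w.1) w.2
    have a2 := (S.res K2 hK2).nn _ (hh2 w.1) w.2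
    have a3 := hK.nn _ (hg1 (Y w.1)) w.2
    have a4 := hK.nn _ (hg2 (Y w.1)) w.2
    have b1 := min_le_left δ1 δ2
    have b2 := min_le_right δ1 δ2
    exact ⟨ha ⟨e1, e2.1, by linarith, by linarith⟩, hb ⟨e1, e2.2, by linarith, by linarith⟩⟩) (by
    rintro a ⟨φ, hφ, K', hK', h, hh, g, hg, δ, hδ, ha⟩
    have := hf _ (hs φ hφ K' hK' δ hδ δ hδ) (fun d x => if x ∈ XR W φ K' δ δ (g d) then (1 : ℝ) else 0)
      (fun d => subset_convexHull _ _ ⟨g d, hg d, rfl⟩) 1 one_pos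
    filter_upwards [this] with ω hω
    have hnot : y ω ∉ XR W φ K' δ δ (g (Y ω)) := by
      intro hx
      rw [if_pos hx] at hω
      exact lt_irrefl _ hω
    by_contra hcon
    push Not at hcon
    refine hnot ⟨h ω, hh ω, fun z h1 h2 h3 => ?_⟩
    by_contra h4
    exact hcon z (ha ⟨h1, h2, not_le.1 h4, h3⟩))
  have hA := fun φ hφ K' hK' h hh g hg δ hδ => hF _ (hmem φ hφ K' hK' h hh g hg δ hδ)
  have hφ' : ∀ φ, InFC W q U φ → ∀ᶠ w in (p' : Filter (Ω × V)), W.r (y w.1) w.2 ∧ φ (y w.1) w.2 := by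
    intro φ hφ
    filter_upwards [hA φ hφ _ S.eq (fun ω v => if v = y ω then (1 : ℝ) else 0) (fun ω => hEQ _) (fun _ => k0)
      (fun _ => hk0) 1 one_pos] with w hw
    exact ⟨hw.1, hw.2.1⟩
  have hfree : Fr U p' Prod.fst Prod.snd := by
    intro K1 hK1 g hg δ hδ
    filter_upwards [hA _ (hφT Set.univ Filter.univ_mem) K1 hK1 g hg (fun _ => k0) (fun _ => hk0) δ hδ] with w hw
    exact hw.2.2.1
  refine ⟨p', hp', ⟨?_, ?_, ?_, ?_, ?_⟩, hfree, ?_⟩
  · rw [← hy, ← hp', Ultrafilter.map_map]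
    rfl
  · refine Ultrafilter.coe_le_coe.1 ?_
    intro A hA'
    show ∀ᶠ w in (p' : Filter (Ω × V)), w.2 ∈ A
    filter_upwards [hφ' _ (hφT A hA')] with w hw
    exact hw.2
  · filter_upwards [hφ' _ (hφT Set.univ Filter.univ_mem)] with w hw
    exact hw.1
  · intro K1 hK1
    exact Unk.comp y (Filter.Eventually.of_forall fun w => rfl) (hfree K1 hK1)
  · intro K1 hK1 g hg δ hδ
    filter_upwards [hφ' _ (hφB K1 hK1 g hg δ hδ)] with w hw
    exact hw.2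
  · intro g hg δ hδ
    filter_upwards [hA _ (hφT Set.univ Filter.univ_mem) _ S.eq (fun ω v => if v = y ω then (1 : ℝ) else 0)
      (fun ω => hEQ _) g hg (δ / 2) (by positivity)] with w hw
    exact hw.2.2.2.trans_lt (by linarith)

/-- the trees of CLAIM_m -/
private theorem B1_claim {W : World V} {q : Ultrafilter V} {U : Set (Set (V → ℝ))} (S : Sys W q U)
    {K : Set (V → ℝ)} (hK : IsRes K) (hKU : K ∉ U) (hKne : K.Nonempty)
    (hs : ∀ φ, InFC W q U φ → ∀ K' ∈ U, ∀ δ : ℝ, 0 < δ → ∀ η : ℝ, 0 < η → sR W φ K' δ η K ∈ U) {t : ℕ} (m : ℕ) :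
    ∀ {Ω D : Type} (p : Ultrafilter Ω) (Y : Ω → D) (y : Ω → V), p.map y = q → Fr U p Y y →
    ∃ p' : Ultrafilter (Ω × (Nd t m → V)), p'.map Prod.fst = p ∧ (∀ n, p'.map (fun w => w.2 n) = q) ∧
      (∀ᶠ w in (p' : Filter (Ω × (Nd t m → V))), OutT W (y w.1) w.2) ∧
      (∀ n, Fr U p' (fun w => (w.1, res (anc n) w.2)) (fun w => w.2 n)) ∧
      ∀ n, Unk p' (fun w => Y w.1) (fun w => w.2 n) K := by
  induction m with
  | zero =>
    intro Ω D p Y y hy hf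
    refine ⟨p.map (fun ω => (ω, fun n : Nd t 0 => Empty.elim n)), ?_, fun n => n.elim, ?_, fun n => n.elim,
      fun n => n.elim⟩
    · rw [Ultrafilter.map_map]
      exact Ultrafilter.map_id p
    · refine Filter.Eventually.of_forall fun w => ⟨fun n => n.elim, trivial⟩
  | succ m ih =>
    intro Ω D p Y y hy hf
    obtain ⟨p1, h1, hCA, hfr1, hunk1⟩ := B1_star S hK hKne hs p Y y hy hf
    obtain ⟨p2, k1, k2, k3, k4, k5⟩ := ih p1 (Prod.fst : Ω × V → Ω) Prod.snd hCA.qy hfr1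
    have e1 : ∀ᶠ w in (p2 : Filter ((Ω × V) × (Nd t m → V))), W.r (y w.1.1) w.1.2 := by
      have : {z : Ω × V | W.r (y z.1) z.2} ∈ p2.map Prod.fst := by
        rw [k1]
        exact hCA.arc
      exact this
    have hm : ∀ o : Option (Nd t m), (p2.map (fun w => (w.1.1, ev w.1.2 w.2))).map (fun w => w.2 o) = q := by
      intro o
      rw [Ultrafilter.map_map]
      cases o with
      | none =>
        rw [← hCA.qy, ← k1, Ultrafilter.map_map]
        rfl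
      | some n => exact k2 n
    obtain ⟨p', l1, l2, l3, l4⟩ := graft S (t := t) (m := m) p (id : Ω → Ω) y {K} (fun K' hK' => by
        rw [Set.mem_singleton_iff] at hK'
        rw [hK']
        exact hK)
      (fun p' hp' hK' => S.kn hp'.qx hp'.qy (hp'.arc.mono fun _ h => Or.inl h) hp'.fw K hK hKU
        (hK' K (Set.mem_singleton K)))
      (p2.map (fun w => (w.1.1, ev w.1.2 w.2))) (by
        rw [Ultrafilter.map_map, Ultrafilter.map_id]
        rw [← h1, ← k1, Ultrafilter.map_map]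
        rfl) (by
        show ∀ᶠ w in (p2 : Filter ((Ω × V) × (Nd t m → V))), W.r (y w.1.1) w.1.2 ∧ OutT W w.1.2 w.2
        exact e1.and k3) hm (by
        intro o K1 hK1
        rw [unk_map]
        cases o with
        | none =>
          have := hfr1 K1 hK1
          rw [← k1, unk_map] at this
          refine Unk.comp (fun a => (a, fun _ => none)) ?_ this
          exact Filter.Eventually.of_forall fun w => Prod.ext rfl (res_empty (ev w.1.2 w.2))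
        | some n =>
          have := k4 n K1 hK1
          refine Unk.comp (fun d => (d.1.1, fun o : Option (Nd t m) => (match o with
            | none => some d.1.2
            | some n' => d.2 n' : Option V))) ?_ this
          exact Filter.Eventually.of_forall fun w => Prod.ext rfl (funext fun o => res_ancO_some _ _ _ o))
      (by
        intro K' hK' n
        rw [Set.mem_singleton_iff] at hK'
        rw [hK', unk_map]
        exact k5 n)
    refine ⟨p', l1, ?_, l3, l4, ?_⟩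
    · rintro ⟨i, o⟩
      rw [← hm o, ← l2 i, Ultrafilter.map_map]
      rfl
    · rintro ⟨i, o⟩
      have hr : Unk (p2.map (fun w => (w.1.1, ev w.1.2 w.2))) (fun w => Y w.1) (fun w => w.2 o) K := by
        rw [unk_map]
        cases o with
        | none =>
          have := hunk1
          rw [← k1, unk_map] at this
          exact this
        | some n => exact Unk.comp Y (Filter.Eventually.of_forall fun w => rfl) (k5 n)
      rw [← l2 i, unk_map] at hr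
      exact hr

/-- 2.4 -/
theorem lemmaB {W : World V} {q : Ultrafilter V} {U : Set (Set (V → ℝ))} (S : Sys W q U) {t d : ℕ} (h1 : NoOut W t d)
    (hC : ∃ p : Ultrafilter (V × V), CA W q U p Prod.fst Prod.snd) {K : Set (V → ℝ)} (hK : IsRes K) (hKU : K ∉ U) :
    ∃ φ, InFC W q U φ ∧ ∃ K' ∈ U, ∃ δ : ℝ, 0 < δ ∧ ∃ η : ℝ, 0 < η ∧ sR W φ K' δ η K ∉ U := by
  by_contra hcon
  push Not at hcon
  have hKne : K.Nonempty := by
    rw [Set.nonempty_iff_ne_empty]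
    intro hKe
    have hφ : InFC W q U (fun _ _ => True) :=
      ⟨Set.univ, Filter.univ_mem, EQr V, S.eq, fun x v => if v = x then (1 : ℝ) else 0,
        fun x v => if v = x then (1 : ℝ) else 0, fun x => subset_convexHull _ _ ⟨x, rfl⟩,
        fun x => subset_convexHull _ _ ⟨x, rfl⟩, 1, one_pos, fun _ _ _ _ _ _ _ => trivial⟩
    have := hcon _ hφ _ S.eq 1 one_pos 1 one_pos
    apply hKU
    have he : sR W (fun _ _ => True) (EQr V) 1 1 K = K := by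
      unfold sR
      rw [hKe]
      simp
    rwa [he] at this
  obtain ⟨p, hp⟩ := hC
  obtain ⟨p', -, -, h3, -, -⟩ := B1_claim S hK hKU hKne hcon (t := t) d p (fun _ => ()) (Prod.snd : V × V → V) hp.qy
    (fun K1 hK1 => Unk.comp (fun _ => ()) (Filter.Eventually.of_forall fun w => rfl) (hp.fw K1 hK1))
  obtain ⟨w, hw⟩ := h3.exists
  exact h1 ⟨_, w.2, hw⟩

end Pool.Agent.Lib.MP_b0c2b5_co.AT
end

section

/-!
# AT, S2a: HIT

PROOF of `exists_fam`. `kernel` twice for the exact F-tree `hT`: first `μ2` with `R x τ := TrS W A2 φ2 x τ`, then `B := A2 ∩` (good set of `μ2`), and `μ1` with `R x τ := TrS W B φ2 x τ`.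
PROOF of `hit`. `D' := (D1 y).filter (fun τ => ∀ n, T.l x (τ n) < T.η)`; if its probability is at least `1/2` then `SP_cond` gives a member of `SP anc T.K T.δ D'` (`2 δ' ≤ T.δ`, `T.K ⊆ K'`), against `T.star`.
PROOF of `ng`. `M := card (Nd t a)`. Every `y ∈ Y` has a position `s` with `Pr (τ s is a φ-child of e) ≥ η/(4M)`; if `Y.card > t * M` then `t` of them `y_1..y_t` have the same `s` (`Fin t` injection). Law `i` on pairs `(τ, σ)`: `τ` from `cond (D1 y_i) (μ1 y_i) (fun τ => W.r e (τ s) ∧ F.φ e (τ s))`, `σ` from `μ2 (τ s)`. `P := τ s`, tree `σ`. `Good := F.Good e (τ s) σ ∧` the tests of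
`T.hφ`-data are handled separately (below). `hub_abs`: `i ≠ j` with `3/(4t^2) ≤ Pr2 (Good ∧ Good ∧ Cross)`. For all positions `a', b'` the events `ev .. a' = ev .. b'`, `h (ev a') (ev b') ≥ ε`, `h' (ev b') (ev a') ≥ ε` (the maps `h, h'` of the finite data of `T.φ`) have small probability (tests for `μ2`, resp. for the conditional law of `τ s`; constant tests given the other
tree). So there is a realization with an arc `ev .. a' → ev .. b'` in `T.φ`: `Reach (a + a + 1 + a + a)` from `y_i` to `y_j`: contradiction.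
PROOF of `doubling`. `T.l x` is a finite convex combination of the generators `f_e` of `ParR`; for `y ∈ Y` by `hit`: `η/2 ≤ Σ_e λ_e Pr (∃ n, W.r e (τ n) ∧ F.φ e (τ n))`, so the `e` with `y ∈ S(e)` (probability `≥ η/4`) have weight `≥ η/4`; sum over `y ∈ Y` and `ng`: `Y.card * η/4 ≤ t M`.
-/

set_option autoImplicit false

namespace Pool.Agent.Lib.MP_b0c2b5_co.AT

open LS Filter
open scoped Classical

variable {V : Type}

variable {W : World V} {q : Ultrafilter V} {U : Set (Set (V → ℝ))}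

/-- two nested families of tree kernels -/
structure Fam {t a : ℕ} (W : World V) (q : Ultrafilter V) (A2 : Set V) (φ2 : V → V → Prop) (K' : Set (V → ℝ)) (δ' : ℝ)
    (V1 : Set V) (D1 D2 : V → Finset (Nd t a → V)) (μ1 μ2 : V → (Nd t a → V) → ℝ) : Prop where
  sub : V1 ⊆ A2
  mem : V1 ∈ q
  sp1 : ∀ y ∈ V1, μ1 y ∈ SP anc K' δ' (D1 y)
  tr1 : ∀ y ∈ V1, ∀ τ ∈ D1 y, TrS W A2 φ2 y τ
  sp2 : ∀ y ∈ V1, ∀ τ ∈ D1 y, ∀ n, μ2 (τ n) ∈ SP anc K' δ' (D2 (τ n))
  tr2 : ∀ y ∈ V1, ∀ τ ∈ D1 y, ∀ n, ∀ σ ∈ D2 (τ n), TrS W A2 φ2 (τ n) σ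

private lemma S2a_mono {t a : ℕ} {A B : Set V} {φ ψ : V → V → Prop} {x : V} {τ : Nd t a → V} (hAB : A ⊆ B)
    (hφ : ∀ x y, φ x y → ψ x y) (h : TrS W A φ x τ) : TrS W B ψ x τ :=
  ⟨h.1, hAB h.2.1, fun n => hAB (h.2.2.1 n), fun n => hφ _ _ (h.2.2.2 n)⟩

private lemma S2a_kernel (S : Sys W q U) {t a : ℕ} (r : Ultrafilter (V × (Nd t a → V)))
    (hr : IsF W q U r Prod.fst Prod.snd) {A : Set V} (hA : A ∈ q) {φ : V → V → Prop} (hφ : InFC W q U φ)
    {K : Set (V → ℝ)} (hK : K ∈ U) {δ : ℝ} (hδ : 0 < δ) :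
    ∃ (D : V → Finset (Nd t a → V)) (μ : V → (Nd t a → V) → ℝ), ∀ᶠ y in (q : Filter V),
      μ y ∈ SP anc K δ (D y) ∧ ∀ σ ∈ D y, TrS W A φ y σ := by
  refine kernel S r Prod.fst Prod.snd hr.qx ?_ hr.free (TrS W A φ) ?_ hK hδ
  · exact hr.out.mono fun w hw n => hw.fib n
  · have h1 : ∀ᶠ w in (r : Filter (V × (Nd t a → V))), w.1 ∈ A := by
      have h2 : A ∈ r.map Prod.fst := by
        rw [hr.qx]
        exact hA
      exact h2
    have h2 : ∀ᶠ w in (r : Filter (V × (Nd t a → V))), ∀ n, w.2 n ∈ A := by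
      rw [Filter.eventually_all]
      intro n
      have h3 : A ∈ r.map (fun w : V × (Nd t a → V) => w.2 n) := by
        rw [(hr.arc n).qy]
        exact hA
      exact h3
    have h3 : ∀ᶠ w in (r : Filter (V × (Nd t a → V))), ∀ n, φ (ev w.1 w.2 (fa n)) (w.2 n) := by
      rw [Filter.eventually_all]
      intro n
      exact InFC.of_CA hφ (hr.arc n)
    filter_upwards [hr.out, h1, h2, h3] with w e0 e1 e2 e3
    exact ⟨e0, e1, e2, e3⟩

theorem exists_fam (S : Sys W q U) {t a : ℕ} (r : Ultrafilter (V × (Nd t a → V))) (hr : IsF W q U r Prod.fst Prod.snd)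
    {A2 : Set V} (hA2 : A2 ∈ q) {φ2 : V → V → Prop} (hφ2 : InFC W q U φ2) {K' : Set (V → ℝ)} (hK' : K' ∈ U) {δ' : ℝ}
    (hδ' : 0 < δ') : ∃ (V1 : Set V) (D1 D2 : V → Finset (Nd t a → V)) (μ1 μ2 : V → (Nd t a → V) → ℝ),
      Fam W q A2 φ2 K' δ' V1 D1 D2 μ1 μ2 := by
  obtain ⟨D2, μ2, h2⟩ := S2a_kernel S r hr hA2 hφ2 hK' hδ'
  have hB : A2 ∩ {y | μ2 y ∈ SP anc K' δ' (D2 y) ∧ ∀ σ ∈ D2 y, TrS W A2 φ2 y σ} ∈ q := Filter.inter_mem hA2 h2
  obtain ⟨D1, μ1, h1⟩ := S2a_kernel S r hr hB hφ2 hK' hδ'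
  refine ⟨A2 ∩ {y | μ1 y ∈ SP anc K' δ' (D1 y) ∧ ∀ σ ∈ D1 y,
    TrS W (A2 ∩ {y | μ2 y ∈ SP anc K' δ' (D2 y) ∧ ∀ σ ∈ D2 y, TrS W A2 φ2 y σ}) φ2 y σ}, D1, D2, μ1, μ2, ?_⟩
  exact
    { sub := Set.inter_subset_left
      mem := Filter.inter_mem hA2 h1
      sp1 := fun y hy => hy.2.1
      tr1 := fun y hy τ hτ => S2a_mono Set.inter_subset_left (fun _ _ h => h) (hy.2.2 τ hτ)
      sp2 := fun y hy τ hτ n => ((hy.2.2 τ hτ).2.2.1 n).2.1
      tr2 := fun y hy τ hτ n σ hσ => ((hy.2.2 τ hτ).2.2.1 n).2.2 σ hσ }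

theorem hit (S : Sys W q U) {t a : ℕ} {F : FD W q U t a} {R : ℕ} (T : Star W q U F R) {A2 : Set V} {φ2 : V → V → Prop}
    (hA : A2 ⊆ T.A) (hφ : ∀ x y, φ2 x y → T.φ x y) {K' : Set (V → ℝ)} (hK' : K' ∈ U) (hKK : T.K ⊆ K') {δ' : ℝ}
    (hδ' : 2 * δ' ≤ T.δ) {V1 : Set V} {D1 D2 : V → Finset (Nd t a → V)} {μ1 μ2 : V → (Nd t a → V) → ℝ}
    (hFam : Fam W q A2 φ2 K' δ' V1 D1 D2 μ1 μ2) {x y : V} (hy : y ∈ V1) (hxy : FP.Reach (Gp W T.A T.φ) R x y) :
    1 / 2 ≤ Pr (D1 y) (μ1 y) (fun τ => ∃ n, T.η ≤ T.l x (τ n)) := by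
  by_contra hlt
  rw [not_le] at hlt
  have hsp := hFam.sp1 y hy
  have h1 := pr_good (J := Unit) (D := D1 y) (θ := μ1 y) hsp.1 (fun τ => ∀ n, T.l x (τ n) < T.η)
    (fun _ τ => ∃ n, T.η ≤ T.l x (τ n)) (fun z _ hz n => by
      by_contra hn
      exact hz () ⟨n, not_lt.1 hn⟩) (fun _ => Pr (D1 y) (μ1 y) (fun τ => ∃ n, T.η ≤ T.l x (τ n)))
    (fun _ => le_rfl)
  simp only [Finset.univ_unique, Finset.sum_const, Finset.card_singleton, one_smul] at h1
  have h2 : (1 / 2 : ℝ) ≤ Pr (D1 y) (μ1 y) (fun τ => ∀ n, T.l x (τ n) < T.η) := by linarith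
  have key : ∀ E : (Nd t a → V) → Prop, (∀ τ, E τ → ∀ n, T.l x (τ n) < T.η) →
      (1 / 2 : ℝ) ≤ Pr (D1 y) (μ1 y) E → False := by
    intro E hE h2
    have h3 := SP_cond (S.res _ hK') hsp (by norm_num : (0 : ℝ) < 1 / 2) h2
    have h4 : cond (D1 y) (μ1 y) E ∈ SP anc T.K T.δ ((D1 y).filter E) := by
      refine ⟨h3.1, fun b h hh => (h3.2 b h fun s => hKK (hh s)).trans ?_⟩
      linarith
    refine T.star R le_rfl x y hxy ((D1 y).filter E) ?_ ⟨_, h4⟩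
    intro τ hτ
    rw [Finset.mem_filter] at hτ
    exact ⟨S2a_mono hA hφ (hFam.tr1 y hy τ hτ.1), hE τ hτ.2⟩
  exact key _ (fun _ h => h) h2

end Pool.Agent.Lib.MP_b0c2b5_co.AT
end

section

/-!
# AT, S2b: NG

PROOF of `exists_fam`. `kernel` twice for the exact F-tree `hT`: first `μ2` with `R x τ := TrS W A2 φ2 x τ`, then `B := A2 ∩` (good set of `μ2`), and `μ1` with `R x τ := TrS W B φ2 x τ`.
PROOF of `hit`. `D' := (D1 y).filter (fun τ => ∀ n, T.l x (τ n) < T.η)`; if its probability is at least `1/2` then `SP_cond` gives a member of `SP anc T.K T.δ D'` (`2 δ' ≤ T.δ`, `T.K ⊆ K'`), against `T.star`.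
PROOF of `ng`. `M := card (Nd t a)`. Every `y ∈ Y` has a position `s` with `Pr (τ s is a φ-child of e) ≥ η/(4M)`; if `Y.card > t * M` then `t` of them `y_1..y_t` have the same `s` (`Fin t` injection). Law `i` on pairs `(τ, σ)`: `τ` from `cond (D1 y_i) (μ1 y_i) (fun τ => W.r e (τ s) ∧ F.φ e (τ s))`, `σ` from `μ2 (τ s)`. `P := τ s`, tree `σ`. `Good := F.Good e (τ s) σ ∧` the tests of
`T.hφ`-data are handled separately (below). `hub_abs`: `i ≠ j` with `3/(4t^2) ≤ Pr2 (Good ∧ Good ∧ Cross)`. For all positions `a', b'` the events `ev .. a' = ev .. b'`, `h (ev a') (ev b') ≥ ε`, `h' (ev b') (ev a') ≥ ε` (the maps `h, h'` of the finite data of `T.φ`) have small probability (tests for `μ2`, resp. for the conditional law of `τ s`; constant tests given the other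
tree). So there is a realization with an arc `ev .. a' → ev .. b'` in `T.φ`: `Reach (a + a + 1 + a + a)` from `y_i` to `y_j`: contradiction.
PROOF of `doubling`. `T.l x` is a finite convex combination of the generators `f_e` of `ParR`; for `y ∈ Y` by `hit`: `η/2 ≤ Σ_e λ_e Pr (∃ n, W.r e (τ n) ∧ F.φ e (τ n))`, so the `e` with `y ∈ S(e)` (probability `≥ η/4`) have weight `≥ η/4`; sum over `y ∈ Y` and `ng`: `Y.card * η/4 ≤ t M`.
-/

set_option autoImplicit false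

namespace Pool.Agent.Lib.MP_b0c2b5_co.AT

open LS Filter
open scoped Classical

variable {V : Type}

variable {W : World V} {q : Ultrafilter V} {U : Set (Set (V → ℝ))}

/-- the branch of a tree is a path of the graph -/
theorem S2b_reach {W : World V} {A : Set V} {φ : V → V → Prop} {t : ℕ} : ∀ {m : ℕ} {x : V} {τ : Nd t m → V},
    TrS W A φ x τ → ∀ o, FP.Reach (Gp W A φ) m x (ev x τ o)
  | 0, x, _, _, none => FP.Reach.rfl' 0 x
  | 0, _, _, _, some n => n.elim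
  | m + 1, x, _, _, none => FP.Reach.rfl' (m + 1) x
  | m + 1, x, τ, h, some n => by
    obtain ⟨h1, h2, h3, h4⟩ := h
    have key : ∀ i, TrS W A φ (rt τ i) (sb τ i) ∧ Gp W A φ x (rt τ i) := by
      intro i
      rw [outT_succ] at h1
      refine ⟨⟨(h1.1 i).2, h3 (n0 i), fun k => h3 (n1 i k), ?_⟩, h2, h3 (n0 i), Or.inl ⟨(h1.1 i).1, h4 (n0 i)⟩⟩
      intro k
      have h5 := h4 (n1 i k)
      rwa [ev_fa_n1] at h5
    induction n using ndc with
    | h0 i =>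
      exact Or.inr ⟨rt τ i, (key i).2, S2b_reach (key i).1 none⟩
    | h1 i k =>
      exact Or.inr ⟨rt τ i, (key i).2, S2b_reach (key i).1 (some k)⟩

/-- a conflict arc between trees at the nodes of two trees -/
theorem S2b_join {W : World V} {A : Set V} {φ : V → V → Prop} {t a : ℕ} {y y' : V} {τ τ' σ σ' : Nd t a → V}
    (s s' : Nd t a) (h : TrS W A φ y τ) (h' : TrS W A φ y' τ') (hσ : TrS W A φ (τ s) σ) (hσ' : TrS W A φ (τ' s') σ')
    {o o' : Option (Nd t a)} (hr : W.r (ev (τ s) σ o) (ev (τ' s') σ' o')) (hφ : φ (ev (τ s) σ o) (ev (τ' s') σ' o')) :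
    FP.Reach (Gp W A φ) (4 * a + 1) y y' := by
  have hA : ∀ {z : V} {ρ : Nd t a → V}, TrS W A φ z ρ → ∀ o, ev z ρ o ∈ A := by
    intro z ρ hz o
    cases o with
    | none => exact hz.2.1
    | some n => exact hz.2.2.1 n
  have hs : ∀ x y, Gp W A φ x y → Gp W A φ y x := fun x y h => h.symm
  have e1 : FP.Reach (Gp W A φ) a y (τ s) := S2b_reach h (some s)
  have e2 : FP.Reach (Gp W A φ) a (τ s) (ev (τ s) σ o) := S2b_reach hσ o
  have e3 : FP.Reach (Gp W A φ) 1 (ev (τ s) σ o) (ev (τ' s') σ' o') :=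
    FP.Reach.single ⟨hA hσ o, hA hσ' o', Or.inl ⟨hr, hφ⟩⟩
  have e4 : FP.Reach (Gp W A φ) a (ev (τ' s') σ' o') (τ' s') := FP.Reach.symm hs (S2b_reach hσ' o')
  have e5 : FP.Reach (Gp W A φ) a (τ' s') y' := FP.Reach.symm hs (S2b_reach h' (some s'))
  exact FP.Reach.mono (by omega) (((((e1.trans e2).trans e3).trans e4)).trans e5)

/-! ### two-stage laws -/

theorem S2b_Ex_sigma {Z Z' : Type} (D : Finset Z) (θ : Z → ℝ) (D' : Z → Finset Z') (κ : Z → Z' → ℝ)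
    (f : (_ : Z) × Z' → ℝ) : Ex (D.sigma D') (fun z => θ z.1 * κ z.1 z.2) f =
      Ex D θ (fun z => Ex (D' z) (κ z) (fun z' => f ⟨z, z'⟩)) := by
  unfold Ex
  rw [Finset.sum_sigma]
  refine Finset.sum_congr rfl fun z _ => ?_
  rw [Finset.mul_sum]
  exact Finset.sum_congr rfl fun z' _ => mul_assoc _ _ _

theorem S2b_isPr {Z Z' : Type} {D : Finset Z} {θ : Z → ℝ} {D' : Z → Finset Z'} {κ : Z → Z' → ℝ} (h : IsPr D θ)
    (h' : ∀ z ∈ D, IsPr (D' z) (κ z)) : IsPr (D.sigma D') (fun z : (_ : Z) × Z' => θ z.1 * κ z.1 z.2) where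
  nn z := by
    by_cases hz : z.1 ∈ D
    · exact mul_nonneg (h.nn _) ((h' _ hz).nn _)
    · rw [h.supp _ hz, zero_mul]
  supp z hz := by
    by_cases hz1 : z.1 ∈ D
    · have h2 : z.2 ∉ D' z.1 := fun h2 => hz (Finset.mem_sigma.2 ⟨hz1, h2⟩)
      rw [(h' _ hz1).supp _ h2, mul_zero]
    · rw [h.supp _ hz1, zero_mul]
  sum := by
    rw [Finset.sum_sigma, ← h.sum]
    refine Finset.sum_congr rfl fun z hz => ?_
    show ∑ z' ∈ D' z, θ z * κ z z' = θ z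
    rw [← Finset.mul_sum, (h' z hz).sum, mul_one]

theorem S2b_Ex_le {Z : Type} {D : Finset Z} {θ f : Z → ℝ} (hθ : IsPr D θ) {c : ℝ} (h : ∀ z ∈ D, f z ≤ c) :
    Ex D θ f ≤ c := by
  have := H1_Ex_mono hθ (g := fun _ => c) h
  rwa [H1_Ex_const hθ] at this

/-- small sections in the second variable -/
theorem S2b_fst {Z Z' : Type} {D : Finset Z} {θ : Z → ℝ} {D' : Z → Finset Z'} {κ : Z → Z' → ℝ} (h : IsPr D θ)
    (f : (_ : Z) × Z' → ℝ) {c : ℝ} (hf : ∀ z ∈ D, Ex (D' z) (κ z) (fun z' => f ⟨z, z'⟩) ≤ c) :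
    Ex (D.sigma D') (fun z => θ z.1 * κ z.1 z.2) f ≤ c := by
  rw [S2b_Ex_sigma]
  exact S2b_Ex_le h hf

/-- functions of the first variable -/
theorem S2b_first {Z Z' : Type} {D : Finset Z} {θ : Z → ℝ} {D' : Z → Finset Z'} {κ : Z → Z' → ℝ} 
    (h' : ∀ z ∈ D, IsPr (D' z) (κ z)) (f : Z → ℝ) :
    Ex (D.sigma D') (fun z : (_ : Z) × Z' => θ z.1 * κ z.1 z.2) (fun z => f z.1) = Ex D θ f := by
  rw [S2b_Ex_sigma]
  unfold Ex
  refine Finset.sum_congr rfl fun z hz => ?_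
  show θ z * Ex (D' z) (κ z) (fun _ => f z) = θ z * f z
  rw [H1_Ex_const (h' z hz)]

/-- small sections in the first variable, independent case -/
theorem S2b_snd {Z Z' : Type} {D : Finset Z} {θ : Z → ℝ} {D' : Finset Z'} {κ : Z' → ℝ} (h' : IsPr D' κ)
    (f : (_ : Z) × Z' → ℝ) {c : ℝ} (hf : ∀ z' ∈ D', Ex D θ (fun z => f ⟨z, z'⟩) ≤ c) :
    Ex (D.sigma fun _ => D') (fun z => θ z.1 * κ z.2) f ≤ c := by
  rw [S2b_Ex_sigma D θ (fun _ => D') (fun _ => κ)]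
  have : Ex D θ (fun z => Ex D' κ (fun z' => f ⟨z, z'⟩)) = Ex D' κ (fun z' => Ex D θ (fun z => f ⟨z, z'⟩)) := by
    unfold Ex
    simp only [Finset.mul_sum]
    rw [Finset.sum_comm]
    refine Finset.sum_congr rfl fun z' _ => Finset.sum_congr rfl fun z _ => by ring
  rw [this]
  exact S2b_Ex_le h' hf

theorem S2b_ind_mem (v : V) : (fun v' : V => if v' = v then (1 : ℝ) else 0) ∈ EQr V :=
  subset_convexHull ℝ _ ⟨v, rfl⟩

/-- the law of the pair (tree at `y` conditioned on an event, tree at its node `s`) -/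
theorem S2b_law {t a : ℕ} {A2 : Set V} {φ2 : V → V → Prop} {K' : Set (V → ℝ)} (hK' : IsRes K') {δ' : ℝ} {V1 : Set V}
    {D1 D2 : V → Finset (Nd t a → V)} {μ1 μ2 : V → (Nd t a → V) → ℝ} (hFam : Fam W q A2 φ2 K' δ' V1 D1 D2 μ1 μ2)
    {y : V} (hy : y ∈ V1) (s : Nd t a) (E : (Nd t a → V) → Prop) {c : ℝ} (hc : 0 < c) (hE : c ≤ Pr (D1 y) (μ1 y) E)
    {δ : ℝ} (h1 : δ' ≤ δ) (h2 : δ' / c ≤ δ) :
    ∃ (D : Finset ((_ : Nd t a → V) × (Nd t a → V))) (θ : (_ : Nd t a → V) × (Nd t a → V) → ℝ), IsPr D θ ∧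
      (∀ z ∈ D, TrS W A2 φ2 y z.1 ∧ TrS W A2 φ2 (z.1 s) z.2 ∧ E z.1) ∧
      (∀ g ∈ K', ∀ o, Ex D θ (fun z => g (ev (z.1 s) z.2 o)) ≤ δ) ∧
      (∀ (n : Nd t a) (h : V → (Nd t a → Option V) → V → ℝ), (∀ p r, h p r ∈ K') →
        Ex D θ (fun z => h (z.1 s) (res (anc n) z.2) (z.2 n)) ≤ δ) := by
  have hsp1 := hFam.sp1 y hy
  have hcond := SP_cond hK' hsp1 hc hE
  have hD1 : ∀ τ ∈ (D1 y).filter E, τ ∈ D1 y := fun τ hτ => (Finset.mem_filter.1 hτ).1
  have hk : ∀ τ ∈ (D1 y).filter E, IsPr (D2 (τ s)) (μ2 (τ s)) := fun τ hτ => (hFam.sp2 y hy τ (hD1 τ hτ) s).1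
  refine ⟨((D1 y).filter E).sigma (fun τ => D2 (τ s)), fun z => cond (D1 y) (μ1 y) E z.1 * μ2 (z.1 s) z.2,
    S2b_isPr (D' := fun τ => D2 (τ s)) (κ := fun τ => μ2 (τ s)) hcond.1 hk, ?_, ?_, ?_⟩
  · intro z hz
    obtain ⟨hz1, hz2⟩ := Finset.mem_sigma.1 hz
    exact ⟨hFam.tr1 y hy _ (hD1 _ hz1), hFam.tr2 y hy _ (hD1 _ hz1) s _ hz2, (Finset.mem_filter.1 hz1).2⟩
  · intro g hg o
    cases o with
    | none =>
      refine (le_of_eq (S2b_first (D' := fun τ => D2 (τ s)) (κ := fun τ => μ2 (τ s)) hk (fun τ : Nd t a → V => g (τ s)))).trans ?_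
      exact (hcond.2 s (fun _ => g) (fun _ => hg)).trans h2
    | some n =>
      refine S2b_fst (D' := fun τ => D2 (τ s)) (κ := fun τ => μ2 (τ s)) hcond.1 _ fun τ hτ => ?_
      exact ((hFam.sp2 y hy τ (hD1 τ hτ) s).2 n (fun _ => g) (fun _ => hg)).trans h1
  · intro n h hh
    refine S2b_fst (D' := fun τ => D2 (τ s)) (κ := fun τ => μ2 (τ s)) hcond.1 _ fun τ hτ => ?_
    exact ((hFam.sp2 y hy τ (hD1 τ hτ) s).2 n (fun r => h (τ s) r) (fun r => hh _ r)).trans h1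

theorem S2b_markov {Z : Type} {D : Finset Z} {θ f : Z → ℝ} (hθ : IsPr D θ) (hf : ∀ z ∈ D, 0 ≤ f z) {η δ ε : ℝ}
    (hη : 0 < η) (h : Ex D θ f ≤ δ) (hδ : δ ≤ ε * η) : Pr D θ (fun z => ¬ f z < η) ≤ ε := by
  have h1 := markov hθ hf hη h
  have h2 : (fun z => ¬ f z < η) = fun z => η ≤ f z := by
    funext z
    exact propext not_lt
  rw [h2]
  exact h1.trans ((div_le_iff₀ hη).2 hδ)

/-- a conflict in `φ` between two pairs of trees -/
theorem S2b_conf {t a : ℕ} (ht : 1 ≤ t) {A3 : Set V} {φ : V → V → Prop} {K' : Set (V → ℝ)} (hK' : IsRes K') {h h' : V → V → ℝ}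
    (hh : ∀ x, h x ∈ K') (hh' : ∀ x, h' x ∈ K') {ε3 : ℝ} (hε3 : 0 < ε3)
    (hφ : ∀ x ∈ A3, ∀ y ∈ A3, W.r x y → h x y < ε3 → h' y x < ε3 → φ x y)
    (s : Nd t a) {D D' : Finset ((_ : Nd t a → V) × (Nd t a → V))} {θ θ' : (_ : Nd t a → V) × (Nd t a → V) → ℝ}
    (hθ : IsPr D θ) (hθ' : IsPr D' θ') (hD : ∀ z ∈ D, ∀ o, ev (z.1 s) z.2 o ∈ A3) (hD' : ∀ z ∈ D', ∀ o, ev (z.1 s) z.2 o ∈ A3)
    {δ ε : ℝ} (hs : ∀ g ∈ K', ∀ o, Ex D θ (fun z => g (ev (z.1 s) z.2 o)) ≤ δ)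
    (hs' : ∀ g ∈ K', ∀ o, Ex D' θ' (fun z => g (ev (z.1 s) z.2 o)) ≤ δ) (hδ : δ ≤ ε * ε3)
    (hε : 8 * (t * (Fintype.card (Nd t a) + 1)) ^ 2 * ε ≤ 1) (hε0 : 0 ≤ ε)
    (hA : 1 / (2 * (t : ℝ) ^ 2) ≤ Pr2 D θ D' θ' (fun z z' => Arr W (z.1 s) z.2 z'.2)) :
    ∃ z ∈ D, ∃ z' ∈ D', ∃ o o', W.r (ev (z.1 s) z.2 o) (ev (z'.1 s) z'.2 o') ∧ φ (ev (z.1 s) z.2 o) (ev (z'.1 s) z'.2 o') := by
  have hnn : ∀ g ∈ K', ∀ v, 0 ≤ g v := hK'.nn
  obtain ⟨M, hM⟩ : ∃ M : ℝ, M = (Fintype.card (Nd t a) : ℝ) := ⟨_, rfl⟩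
  have hM0 : 0 ≤ M := by rw [hM]; exact Nat.cast_nonneg _
  have ht1 : (1 : ℝ) ≤ (t : ℝ) := by exact_mod_cast ht
  obtain ⟨z, hz, ⟨o, n, hr⟩, hB⟩ := pick (J := (Option (Nd t a) × Nd t a) ⊕ (Option (Nd t a) × Nd t a))
    (D.sigma fun _ => D') (fun z => θ z.1 * θ' z.2) (S2b_isPr (κ := fun _ => θ') hθ fun _ _ => hθ')
    (fun z => Arr W (z.1.1 s) z.1.2 z.2.2)
    (fun j z => match j with
      | Sum.inl on => ¬ h (ev (z.1.1 s) z.1.2 on.1) (z.2.2 on.2) < ε3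
      | Sum.inr on => ¬ h' (z.2.2 on.2) (ev (z.1.1 s) z.1.2 on.1) < ε3)
    (fun _ => ε)
    (by
      rintro (⟨o, n⟩ | ⟨o, n⟩)
      · refine S2b_markov (S2b_isPr (κ := fun _ => θ') hθ fun _ _ => hθ') (fun z _ => hnn _ (hh _) _) hε3
          (S2b_fst (κ := fun _ => θ') hθ _ fun z _ => ?_) hδ
        exact hs' _ (hh (ev (z.1 s) z.2 o)) (some n)
      · refine S2b_markov (S2b_isPr (κ := fun _ => θ') hθ fun _ _ => hθ') (fun z _ => hnn _ (hh' _) _) hε3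
          (S2b_snd hθ' _ fun z' _ => ?_) hδ
        exact hs _ (hh' (z'.2 n)) o)
    (by
      have e1 : Pr (D.sigma fun _ => D') (fun z : (_ : (_ : Nd t a → V) × (Nd t a → V)) × ((_ : Nd t a → V) × (Nd t a → V)) =>
          θ z.1 * θ' z.2) (fun z => Arr W (z.1.1 s) z.1.2 z.2.2) =
          Pr2 D θ D' θ' (fun z z' => Arr W (z.1 s) z.2 z'.2) := by
        unfold Pr Pr2
        exact S2b_Ex_sigma D θ (fun _ => D') (fun _ => θ') _
      rw [e1]
      refine lt_of_lt_of_le ?_ hA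
      rw [Finset.sum_const, Finset.card_univ, nsmul_eq_mul, Fintype.card_sum, Fintype.card_prod, Fintype.card_option]
      push_cast
      rw [← hM] at hε ⊢
      rw [lt_div_iff₀ (by positivity)]
      have h1 : (M + 1) * M ≤ (M + 1) ^ 2 := by nlinarith
      have h2 : 0 ≤ ε * (t : ℝ) ^ 2 := by positivity
      nlinarith)
  obtain ⟨hz1, hz2⟩ := Finset.mem_sigma.1 hz
  refine ⟨z.1, hz1, z.2, hz2, o, some n, hr, ?_⟩
  exact hφ _ (hD _ hz1 o) _ (hD' _ hz2 (some n)) hr (not_not.1 (hB (Sum.inl (o, n)))) (not_not.1 (hB (Sum.inr (o, n))))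

theorem ng (S : Sys W q U) {t a : ℕ} {F : FD W q U t a} (hF : F.Emp) (ha : 1 ≤ a) {R : ℕ} (T : Star W q U F R) :
    ∃ A2 ∈ q, ∃ K2 ∈ U, ∃ δ2 : ℝ, 0 < δ2 ∧ A2 ⊆ T.A ∧ ∀ (K' : Set (V → ℝ)), K' ∈ U → K2 ⊆ K' → ∀ (δ' : ℝ), δ' ≤ δ2 →
      ∀ (V1 : Set V) (D1 D2 : V → Finset (Nd t a → V)) (μ1 μ2 : V → (Nd t a → V) → ℝ),
      Fam W q A2 (fun x y => T.φ x y ∧ F.φ x y) K' δ' V1 D1 D2 μ1 μ2 → ∀ e ∈ F.A, ∀ Y : Finset V,
      (∀ y ∈ Y, y ∈ V1 ∧ T.η / 4 ≤ Pr (D1 y) (μ1 y) (fun τ => ∃ n, W.r e (τ n) ∧ F.φ e (τ n))) →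
      (∀ y ∈ Y, ∀ z ∈ Y, y ≠ z → ¬ FP.Reach (Gp W T.A T.φ) (4 * a + 1) y z) →
      Y.card ≤ t * Fintype.card (Nd t a) := by
  classical
  obtain ⟨A3, hA3, K3, hK3, h, h', hh, hh', ε3, hε3, hφ⟩ := T.hφ
  have ht : 0 < t := by
    rcases Nat.eq_zero_or_pos t with rfl | ht
    · obtain ⟨x0⟩ : Nonempty V := by
        obtain ⟨v, _⟩ := Ultrafilter.nonempty_of_mem hA3
        exact ⟨v⟩
      obtain ⟨i, _⟩ := hF x0 (fun i => i.elim0) (fun i => i.elim0) (fun i => i.elim0)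
      exact i.elim0
    · exact ht
  have ht1 : (1 : ℝ) ≤ (t : ℝ) := by exact_mod_cast ht
  obtain ⟨M, hM⟩ : ∃ M : ℝ, M = (Fintype.card (Nd t a) : ℝ) := ⟨_, rfl⟩
  have hM0 : 0 ≤ M := by rw [hM]; exact Nat.cast_nonneg _
  obtain ⟨c, hcdef⟩ : ∃ c : ℝ, c = T.η / (4 * (M + 1)) := ⟨_, rfl⟩
  have hTη := T.hη
  have hFη := F.hη
  have hc : 0 < c := by rw [hcdef]; positivity
  have htM : 0 < (t : ℝ) * (M + 1) := by positivity
  obtain ⟨ε, hε⟩ : ∃ ε : ℝ, ε = 1 / (8 * (t * (M + 1)) ^ 2) := ⟨_, rfl⟩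
  have hε0 : 0 < ε := by rw [hε]; positivity
  have hε8 : 8 * (t * (M + 1)) ^ 2 * ε = 1 := by
    rw [hε]
    field_simp
  -- bound for the expectations
  obtain ⟨δ, hδdef⟩ : ∃ δ : ℝ, δ = ε * min 1 (min F.η ε3) := ⟨_, rfl⟩
  have hδ0 : 0 < δ := by
    rw [hδdef]
    exact mul_pos hε0 (lt_min one_pos (lt_min hFη hε3))
  have hδ1 : δ ≤ ε := by
    rw [hδdef]
    calc ε * min 1 (min F.η ε3) ≤ ε * 1 := mul_le_mul_of_nonneg_left (min_le_left _ _) hε0.le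
      _ = ε := mul_one _
  have hδ2 : δ ≤ ε * F.η := by
    rw [hδdef]
    exact mul_le_mul_of_nonneg_left ((min_le_right _ _).trans (min_le_left _ _)) hε0.le
  have hδ3 : δ ≤ ε * ε3 := by
    rw [hδdef]
    exact mul_le_mul_of_nonneg_left ((min_le_right _ _).trans (min_le_right _ _)) hε0.le
  refine ⟨T.A ∩ F.A ∩ A3, Filter.inter_mem (Filter.inter_mem T.hA F.hA) hA3, jn (jn F.K K3) (EQr V),
    S.join _ (S.join _ F.hK _ hK3) _ S.eq, min δ (δ * c), lt_min hδ0 (mul_pos hδ0 hc), fun v hv => hv.1.1, ?_⟩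
  intro K' hK' hKK δ' hδ' V1 D1 D2 μ1 μ2 hFam e he Y hY hdist
  have hK'r : IsRes K' := S.res K' hK'
  have hKF : F.K ⊆ K' := fun g hg => hKK (subset_convexHull ℝ _ (Or.inl (subset_convexHull ℝ _ (Or.inl hg))))
  have hKK3 : K3 ⊆ K' := fun g hg => hKK (subset_convexHull ℝ _ (Or.inl (subset_convexHull ℝ _ (Or.inr hg))))
  have hKE : EQr V ⊆ K' := fun g hg => hKK (subset_convexHull ℝ _ (Or.inr hg))
  have hδ'1 : δ' ≤ δ := hδ'.trans (min_le_left _ _)
  have hδ'2 : δ' / c ≤ δ := (div_le_iff₀ hc).2 (hδ'.trans (min_le_right _ _))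
  by_contra hcard
  push Not at hcard
  -- positions
  have hpos : ∀ y ∈ Y, ∃ n, c ≤ Pr (D1 y) (μ1 y) (fun τ => W.r e (τ n) ∧ F.φ e (τ n)) := by
    intro y hy
    by_contra hn
    push Not at hn
    have h1 := (hY y hy).2.trans (H1_Pr_or (hFam.sp1 y (hY y hy).1).1
      (fun n τ => W.r e (τ n) ∧ F.φ e (τ n)) _ (fun τ _ h => h))
    have h2 : ∑ n : Nd t a, Pr (D1 y) (μ1 y) (fun τ => W.r e (τ n) ∧ F.φ e (τ n)) ≤ ∑ _n : Nd t a, c :=
      Finset.sum_le_sum fun n _ => (hn n).le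
    rw [Finset.sum_const, Finset.card_univ, nsmul_eq_mul, ← hM] at h2
    have h3 : M * c < T.η / 4 := by
      rw [hcdef, mul_div_assoc', div_lt_div_iff₀ (by positivity) (by norm_num)]
      nlinarith
    linarith
  obtain ⟨y0, hy0⟩ : Y.Nonempty := Finset.card_pos.1 (by omega)
  obtain ⟨n0', _⟩ := hpos y0 hy0
  let f : V → Nd t a := fun y =>
    if hy : ∃ n, c ≤ Pr (D1 y) (μ1 y) (fun τ => W.r e (τ n) ∧ F.φ e (τ n)) then hy.choose else n0'
  have hf : ∀ y ∈ Y, c ≤ Pr (D1 y) (μ1 y) (fun τ => W.r e (τ (f y)) ∧ F.φ e (τ (f y))) := by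
    intro y hy
    have h1 := hpos y hy
    have h2 : f y = h1.choose := dif_pos h1
    rw [h2]
    exact h1.choose_spec
  obtain ⟨s, -, hs⟩ := Finset.exists_lt_card_fiber_of_mul_lt_card_of_maps_to (s := Y) (t := Finset.univ) (f := f)
    (n := t) (fun _ _ => Finset.mem_univ _) (by rw [Finset.card_univ, mul_comm]; exact hcard)
  let G := Y.filter (fun y => f y = s)
  have hG : t ≤ G.card := hs.le
  let yy : Fin t → V := fun i => (G.equivFin.symm (Fin.castLE hG i)).1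
  have hyG : ∀ i, yy i ∈ G := fun i => (G.equivFin.symm (Fin.castLE hG i)).2
  have hyY : ∀ i, yy i ∈ Y := fun i => (Finset.mem_filter.1 (hyG i)).1
  have hyinj : ∀ i j, yy i = yy j → i = j := by
    intro i j hij
    have h1 : G.equivFin.symm (Fin.castLE hG i) = G.equivFin.symm (Fin.castLE hG j) := Subtype.ext hij
    exact Fin.castLE_injective hG (G.equivFin.symm.injective h1)
  have hprob : ∀ i, c ≤ Pr (D1 (yy i)) (μ1 (yy i)) (fun τ => W.r e (τ s) ∧ F.φ e (τ s)) := by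
    intro i
    have h1 := hf (yy i) (hyY i)
    rwa [(Finset.mem_filter.1 (hyG i)).2] at h1
  choose D θ hθ hD hex hsec using fun i => S2b_law hK'r hFam (hY (yy i) (hyY i)).1 s
    (fun τ => W.r e (τ s) ∧ F.φ e (τ s)) hc (hprob i) hδ'1 hδ'2
  have hA2 : ∀ i, ∀ z ∈ D i, ∀ o, ev (z.1 s) z.2 o ∈ T.A ∩ F.A ∩ A3 := by
    intro i z hz o
    obtain ⟨h1, h2, h3⟩ := hD i z hz
    cases o with
    | none => exact h2.2.1
    | some n => exact h2.2.2.1 n
  -- the hub lemma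
  obtain ⟨i, j, hij, hArr⟩ := hub_F F hF e D θ hθ (fun _ z => z.1 s) (fun _ z => z.2)
    (by
      intro i z hz
      obtain ⟨h1, h2, h3⟩ := hD i z hz
      exact ⟨he, (hA2 i z hz none).1.2, fun n => (hA2 i z hz (some n)).1.2, h3.1, h3.2,
        fun n => (h2.2.2.2 n).2, h2.1⟩)
    (ε := ε)
    (by
      intro i
      exact S2b_markov (hθ i) (fun z _ => hK'r.nn _ (hKF (F.hg0 e)) _) hFη (hex i _ (hKF (F.hg0 e)) none) hδ2)
    (by
      intro i n
      exact S2b_markov (hθ i) (fun z _ => hK'r.nn _ (hKF (F.hg n e _ _)) _) hFη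
        (hsec i n (fun p r => F.g n e p r) (fun p r => hKF (F.hg n e p r))) hδ2)
    (by
      intro i o v
      exact (hex i _ (hKE (S2b_ind_mem v)) o).trans hδ1)
    (by
      rw [← hM]
      linarith)
  obtain ⟨z, hz, z', hz', o, o', hr, hφ'⟩ := S2b_conf ht hK'r (fun x => hKK3 (hh x)) (fun x => hKK3 (hh' x)) hε3 hφ s
    (hθ i) (hθ j) (fun z hz o => (hA2 i z hz o).2) (fun z hz o => (hA2 j z hz o).2) (hex i) (hex j) hδ3
    (by rw [← hM]; exact hε8.le) hε0.le hArr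
  have hmono : ∀ {x : V} {τ : Nd t a → V}, TrS W (T.A ∩ F.A ∩ A3) (fun x y => T.φ x y ∧ F.φ x y) x τ →
      TrS W T.A T.φ x τ := fun h => ⟨h.1, h.2.1.1.1, fun n => (h.2.2.1 n).1.1, fun n => (h.2.2.2 n).1⟩
  exact hdist _ (hyY i) _ (hyY j) (fun h => hij (hyinj i j h))
    (S2b_join s s (hmono (hD i z hz).1) (hmono (hD j z' hz').1) (hmono (hD i z hz).2.1) (hmono (hD j z' hz').2.1) hr hφ')

end Pool.Agent.Lib.MP_b0c2b5_co.AT
end
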