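import Pool.Agent.Lib.MP_b0c2b5_co.AT.K7
import Pool.Agent.Lib.MP_b0c2b5_co.Mg.G001
import Pool.Agent.Lib.MP_b0c2b5_co.AT.N1
import Pool.Agent.Lib.MP_b0c2b5_co.Mg.G004
import Pool.Agent.Lib.MP_b0c2b5_co.AT.E1
import Pool.Agent.Lib.MP_b0c2b5_co.Mg.G006

section

/-!
# AT, A1: Lemma A.

PROOF. Suppose there is no exact C-arc. Let `p` be as in `S.ex`; `r x y` almost everywhere (otherwise replace `W` by `W.dual`, `Sys.dual`; the tree obtained at the end contradicts `h2`). CLAIM for all `m`: there is an ultrafilter `r_m` on `V × (Nd t m → V)` with `r_m.map fst = q`, all nodes of type `q`, `OutT W x τ`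
almost everywhere, and `Fr U r_m (fun w => (w.1, res (anc n) w.2)) (fun w => w.2 n)` for all `n`. Step: over `p` (points `x, y`) add by `ext_copy` over `X := y` a copy `τ` of `r_m` (all fibres are finite: `D0 a :=` all the trees in the fibre of `a`, `r_m`-almost all trees are in the fibre of the root); let `r'` be the type of
`(x; y, τ)` on `V × (Option (Nd t m) → V)`; `copies` over the point `x` gives `t` copies; `Fin t → Option (Nd t m) → V` is `Nd t (m+1) → V` (`gr`, `rt`, `sb`). Conflict between branches `i ≠ j`: `a, b` with `a = b` or `r a b`: by `copies` (third statement) `b` is free over (copy `i`) and `a` is free over (copy `j`) (all nodes are free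
over `(x, ancestors)`); `a ≠ b` by `S.eq`; `(a, b)` is an exact C-arc: contradiction (for fixed positions `a, b` almost everywhere). So almost all trees are `OutT`. `m = d` contradicts `h1`.
-/

set_option autoImplicit false

namespace Pool.Agent.Lib.MP_b0c2b5_co.AT

open LS Filter
open scoped Classical

variable {V : Type}

/-- the ancestors of `o` in `Option (Nd t m)`, the root of the branch included -/
noncomputable def A1s {t m : ℕ} : Option (Nd t m) → Finset (Option (Nd t m))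
  | none => ∅
  | some n => insert none ((anc n).image some)

theorem A1_fib {W : World V} {t : ℕ} : ∀ {m : ℕ} {x : V} {τ : Nd t m → V}, (∀ n, W.r (ev x τ (fa n)) (τ n)) →
    ∀ n, W.fib (τ n) = W.fib x
  | 0, _, _, _, n => n.elim
  | m + 1, x, τ, h, (i, none) => (W.rf _ _ (h (i, none))).symm
  | m + 1, x, τ, h, (i, some n) => by
    have h' : ∀ n', W.r (ev (rt τ i) (sb τ i) (fa n')) (sb τ i n') := by
      intro n'
      have := h (i, some n')
      have e : ev x τ (fa ((i, some n') : Nd t (m + 1))) = ev (rt τ i) (sb τ i) (fa n') := by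
        change τ (i, fa n') = ev (rt τ i) (sb τ i) (fa n')
        cases fa n' with
        | none => rfl
        | some n'' => rfl
      rw [e] at this
      exact this
    have h1 := A1_fib h' n
    have h2 := W.rf _ _ (h (i, none))
    exact h1.trans h2.symm

/-- functions with values in the fibre of `a` -/
noncomputable def A1D (W : World V) (I : Type) [Fintype I] (a : V) : Finset (I → V) :=
  (Set.Finite.pi' (fun _ : I => W.fin (W.fib a))).toFinset

theorem A1_memD {W : World V} {I : Type} [Fintype I] {a : V} {z : I → V} :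
    z ∈ A1D W I a ↔ ∀ i, W.fib (z i) = W.fib a := by
  rw [A1D, Set.Finite.mem_toFinset]
  rfl

theorem A1_unk_fst {Ω Z D : Type} {p : Ultrafilter Ω} {p' : Ultrafilter (Ω × Z)} (h : p'.map Prod.fst = p) {Y : Ω → D}
    {b : Ω → V} {K : Set (V → ℝ)} (hu : Unk p Y b K) : Unk p' (fun w => Y w.1) (fun w => b w.1) K := by
  rw [← h, unk_map] at hu
  exact hu

theorem A1_ne {W : World V} {q : Ultrafilter V} {U : Set (Set (V → ℝ))} (S : Sys W q U) {Ω : Type} {p : Ultrafilter Ω}
    {x y : Ω → V} (h : Fr U p x y) : ∀ᶠ ω in (p : Filter Ω), x ω ≠ y ω := by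
  have := h _ S.eq (fun a v => if v = a then (1 : ℝ) else 0) (fun a => subset_convexHull ℝ _ ⟨a, rfl⟩) 1 one_pos
  refine this.mono fun ω hω he => ?_
  rw [if_pos he.symm] at hω
  exact lt_irrefl _ hω

/-- the trees of Lemma A -/
def A1P (W : World V) (q : Ultrafilter V) (U : Set (Set (V → ℝ))) (t m : ℕ) : Prop :=
  ∃ r : Ultrafilter (V × (Nd t m → V)), r.map Prod.fst = q ∧ (∀ n, r.map (fun w => w.2 n) = q) ∧
    (∀ᶠ w in (r : Filter (V × (Nd t m → V))), OutT W w.1 w.2) ∧
    ∀ n, Fr U r (fun w => (w.1, res (anc n) w.2)) (fun w => w.2 n)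

theorem A1_step {W : World V} {q : Ultrafilter V} {U : Set (Set (V → ℝ))} (S : Sys W q U) {t m : ℕ}
    (hno : ∀ (Ω : Type) (p : Ultrafilter Ω) (x y : Ω → V), ¬ CA W q U p x y) (p : Ultrafilter (V × V))
    (hp1 : p.map Prod.fst = q) (hp2 : p.map Prod.snd = q) (har : ∀ᶠ z in (p : Filter (V × V)), W.r z.1 z.2)
    (hfr : Fr U p Prod.fst Prod.snd) (ih : A1P W q U t m) : A1P W q U t (m + 1) := by
  obtain ⟨r, hr1, hr2, hr3, hr4⟩ := ih
  obtain ⟨p1, a1, a2, a3, -⟩ := ext_copy p (Prod.snd : V × V → V) r (by rw [hr1, hp2]) (A1D W (Nd t m))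
    (hr3.mono fun w hw => A1_memD.2 (A1_fib hw.1))
  -- the type of a branch
  set e1 : (V × V) × (Nd t m → V) → V × (Option (Nd t m) → V) := fun w => (w.1.1, ev w.1.2 w.2) with he1
  set r' := p1.map e1 with hr'
  have b1 : r'.map Prod.fst = q := by
    rw [hr', Ultrafilter.map_map, ← hp1, ← a1, Ultrafilter.map_map]
    rfl
  have b2 : ∀ o, r'.map (fun w => w.2 o) = q := by
    intro o
    cases o with
    | none =>
      rw [hr', Ultrafilter.map_map, ← hp2, ← a1, Ultrafilter.map_map]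
      rfl
    | some n =>
      rw [hr', Ultrafilter.map_map, ← hr2 n, ← a2, Ultrafilter.map_map]
      rfl
  have b3 : ∀ᶠ w in (r' : Filter (V × (Option (Nd t m) → V))), W.r w.1 (w.2 none) := by
    have : ∀ᶠ w in (p1 : Filter ((V × V) × (Nd t m → V))), W.r w.1.1 w.1.2 := by
      rw [← a1] at har
      exact har
    exact this
  have b4 : ∀ᶠ w in (r' : Filter (V × (Option (Nd t m) → V))), OutT W (w.2 none) (fun n => w.2 (some n)) := by
    have : ∀ᶠ w in (p1 : Filter ((V × V) × (Nd t m → V))), OutT W w.1.2 w.2 := by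
      rw [← a2] at hr3
      exact hr3
    exact this
  have b5 : ∀ o, Fr U r' (fun w => (w.1, res (A1s o) w.2)) (fun w => w.2 o) := by
    intro o K hK
    rw [hr', unk_map]
    cases o with
    | none =>
      have h := A1_unk_fst a1 (hfr K hK)
      refine h.comp (fun x => (x, fun _ => none)) (Filter.Eventually.of_forall fun w => ?_)
      change (w.1.1, res ∅ (ev w.1.2 w.2)) = (w.1.1, fun _ => none)
      congr 1
    | some n =>
      have h := a3 n (anc n) K (S.res K hK) (hr4 n K hK)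
      refine h.comp (fun y => (y.1.1, fun o : Option (Nd t m) => match o with
        | none => some y.1.2
        | some n' => y.2 n')) (Filter.Eventually.of_forall fun w => ?_)
      change (w.1.1, res (A1s (some n)) (ev w.1.2 w.2)) = _
      refine Prod.ext rfl ?_
      funext o'
      cases o' with
      | none => simp [res, A1s, ev]
      | some n' => simp [res, A1s, ev]
  -- the copies
  obtain ⟨p2, c1, c2, c3, -⟩ := copies t q (id : V → V) r' (by rw [b1]; rfl) (A1D W (Option (Nd t m))) (by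
    filter_upwards [b3, b4] with w h1 h2
    rw [A1_memD]
    intro o
    have h3 := W.rf _ _ h1
    cases o with
    | none => exact h3.symm
    | some n => exact (A1_fib h2.1 n).trans h3.symm)
  have c2' : ∀ i, p2.map (fun w => (w.1, w.2 i)) = r' := c2
  have c4 : ∀ i o, Fr U p2 (fun w => (w.1, fun j => if j = i then res (A1s o) (w.2 i) else fun n => some (w.2 j n)))
      (fun w => w.2 i o) := fun i o K hK => c3 i o (A1s o) K (S.res K hK) (b5 o K hK)
  have c5 : ∀ i j, i ≠ j → ∀ o o', Fr U p2 (fun w => w.2 i o) (fun w => w.2 j o') := by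
    intro i j hij o o' K hK
    refine (c4 j o' K hK).comp (fun y => (y.2 i o).getD y.1) (Filter.Eventually.of_forall fun w => ?_)
    simp [if_neg hij]
  have c6 : ∀ i o, p2.map (fun w => w.2 i o) = q := by
    intro i o
    rw [← b2 o, ← c2' i, Ultrafilter.map_map]
    rfl
  refine ⟨p2.map (fun w => (w.1, fun n => w.2 n.1 n.2)), ?_, ?_, ?_, ?_⟩
  · rw [Ultrafilter.map_map]
    exact c1
  · intro n
    rw [Ultrafilter.map_map]
    exact c6 n.1 n.2
  · have d1 : ∀ i, ∀ᶠ w in (p2 : Filter (V × (Fin t → Option (Nd t m) → V))), W.r w.1 (w.2 i none) := by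
      intro i
      rw [← c2' i] at b3
      exact b3
    have d2 : ∀ i, ∀ᶠ w in (p2 : Filter (V × (Fin t → Option (Nd t m) → V))),
        OutT W (w.2 i none) (fun n => w.2 i (some n)) := by
      intro i
      rw [← c2' i] at b4
      exact b4
    have d3 : ∀ i j, i ≠ j → ∀ o o', ∀ᶠ w in (p2 : Filter (V × (Fin t → Option (Nd t m) → V))),
        ¬ (w.2 i o = w.2 j o' ∨ W.r (w.2 i o) (w.2 j o')) := by
      intro i j hij o o'
      have e1 := A1_ne S (c5 i j hij o o')
      have e2 : ∀ᶠ w in (p2 : Filter (V × (Fin t → Option (Nd t m) → V))), ¬ W.r (w.2 i o) (w.2 j o') := by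
        rw [Ultrafilter.eventually_not]
        intro hr
        exact hno _ p2 _ _ ⟨c6 i o, c6 j o', hr, c5 i j hij o o', c5 j i hij.symm o' o⟩
      filter_upwards [e1, e2] with w h1 h2
      rintro (h | h)
      · exact h1 h
      · exact h2 h
    have d1' := Filter.eventually_all.2 d1
    have d2' := Filter.eventually_all.2 d2
    have d3' : ∀ᶠ w in (p2 : Filter (V × (Fin t → Option (Nd t m) → V))), ∀ i j, i ≠ j → ∀ o o',
        ¬ (w.2 i o = w.2 j o' ∨ W.r (w.2 i o) (w.2 j o')) := by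
      rw [Filter.eventually_all]
      intro i
      rw [Filter.eventually_all]
      intro j
      by_cases hij : i = j
      · exact Filter.Eventually.of_forall fun w h => absurd hij h
      · have : ∀ᶠ w in (p2 : Filter (V × (Fin t → Option (Nd t m) → V))), ∀ o o',
            ¬ (w.2 i o = w.2 j o' ∨ W.r (w.2 i o) (w.2 j o')) := by
          rw [Filter.eventually_all]
          intro o
          rw [Filter.eventually_all]
          intro o'
          exact d3 i j hij o o'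
        exact this.mono fun w h _ => h
    have : ∀ᶠ w in (p2 : Filter (V × (Fin t → Option (Nd t m) → V))),
        OutT W w.1 (fun n : Nd t (m + 1) => w.2 n.1 n.2) := by
      filter_upwards [d1', d2', d3'] with w h1 h2 h3
      refine outT_succ.2 ⟨fun i => ⟨h1 i, h2 i⟩, ?_⟩
      rintro i j hij ⟨a, b, hab⟩
      have ea : ∀ k (a : Option (Nd t m)), ev (rt (fun n : Nd t (m + 1) => w.2 n.1 n.2) k)
          (sb (fun n : Nd t (m + 1) => w.2 n.1 n.2) k) a = w.2 k a := by
        intro k a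
        cases a <;> rfl
      rw [ea, ea] at hab
      exact h3 i j hij a b hab
    exact this
  · intro n
    induction n using ndc with
    | h0 i =>
      intro K hK
      rw [unk_map]
      refine (c4 i none K hK).comp (fun y => (y.1, fun _ => none)) (Filter.Eventually.of_forall fun w => ?_)
      exact Prod.ext rfl (res_anc_n0 (fun n : Nd t (m + 1) => w.2 n.1 n.2) i)
    | h1 i k =>
      intro K hK
      rw [unk_map]
      refine (c4 i (some k) K hK).comp (fun y => (y.1, lift1 i (y.2 i none) (fun k' => y.2 i (some k'))))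
        (Filter.Eventually.of_forall fun w => ?_)
      refine Prod.ext rfl ((res_anc_n1 (fun n : Nd t (m + 1) => w.2 n.1 n.2) i k).trans ?_)
      have e1 : (some (rt (fun n : Nd t (m + 1) => w.2 n.1 n.2) i) : Option V) =
          (if i = i then res (A1s (some k)) (w.2 i) else fun n => some (w.2 i n)) none := by
        rw [if_pos rfl]
        simp [res, A1s, rt]
      have e2 : res (anc k) (sb (fun n : Nd t (m + 1) => w.2 n.1 n.2) i) =
          fun k' => (if i = i then res (A1s (some k)) (w.2 i) else fun n => some (w.2 i n)) (some k') := by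
        rw [if_pos rfl]
        funext k'
        simp [res, A1s, sb]
      rw [e1, e2]

theorem A1_core {W : World V} {q : Ultrafilter V} {U : Set (Set (V → ℝ))} (S : Sys W q U) {t d : ℕ} (h1 : NoOut W t d)
    (hno : ∀ (Ω : Type) (p : Ultrafilter Ω) (x y : Ω → V), ¬ CA W q U p x y) (p : Ultrafilter (V × V))
    (hp1 : p.map Prod.fst = q) (hp2 : p.map Prod.snd = q) (har : ∀ᶠ z in (p : Filter (V × V)), W.r z.1 z.2)
    (hfr : Fr U p Prod.fst Prod.snd) : False := by
  have h : ∀ m, A1P W q U t m := by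
    intro m
    induction m with
    | zero =>
      refine ⟨q.map (fun x => (x, fun n : Nd t 0 => n.elim)), ?_, fun n => n.elim, ?_, fun n => n.elim⟩
      · rw [Ultrafilter.map_map]
        rfl
      · have : ∀ x : V, OutT W x (fun n : Nd t 0 => (n.elim : V)) := fun x => ⟨fun n => n.elim, trivial⟩
        exact Filter.Eventually.of_forall (f := (q : Filter V)) this
    | succ m ih => exact A1_step S hno p hp1 hp2 har hfr ih
  obtain ⟨r, -, -, h3, -⟩ := h d
  obtain ⟨w, hw⟩ := h3.exists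
  exact h1 ⟨w.1, w.2, hw⟩

theorem lemmaA {W : World V} {q : Ultrafilter V} {U : Set (Set (V → ℝ))} (S : Sys W q U) {t d : ℕ} (h1 : NoOut W t d)
    (h2 : NoOut W.dual t d) : ∃ p : Ultrafilter (V × V), CA W q U p Prod.fst Prod.snd := by
  by_contra hC
  have hno : ∀ (Ω : Type) (p : Ultrafilter Ω) (x y : Ω → V), ¬ CA W q U p x y := by
    intro Ω p x y h
    refine hC ⟨p.map (fun ω => (x ω, y ω)), ?_⟩
    rw [CA.map]
    exact h
  obtain ⟨p, hp1, hp2, hadj, hfr⟩ := S.ex
  rcases Ultrafilter.eventually_or.1 hadj with h | h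
  · exact A1_core S h1 hno p hp1 hp2 h hfr
  · exact A1_core S.dual h2 (fun Ω p x y hc => hno Ω p y x (CA_dual.1 hc)) p hp1 hp2 h hfr

end Pool.Agent.Lib.MP_b0c2b5_co.AT
end

section

/-!
# AT, E1a: exact trees, depth one

PROOFS. `hasB_one`: `r` := the type of a C-child on `V × (Option (Nd t 0) → V)` (`hC`; `Nd t 0` is empty), `copies` over `p := q`, `X := id`; `Fin t → Option (Nd t 0) → V` is `Nd t 1 → V`. Arcs and freeness from `r` (`bx` from the backward part of the C-arc, `anc n = ∅`, `bn` is empty). Induced: two children: distinct by EQ (the third statement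
of `copies`), not adjacent by `W.ho.sf` (`r x y_i`, `r x y_j`). `not_F`: definition. `fd_of_not`: suppose that no `F` is `Emp`. The sets `{(e, τ) | ∀ i, F.Good e (rt τ i) (sb τ i), and ∀ i ≠ j, ¬ Cross W (rt τ i) (sb τ i) (rt τ j) (sb τ j)}`, `F : FD W q U t m`, are nonempty and the intersection of two contains a third (means of the maps in `jn K K'`,
`A ∩ A'`, `InFC.and`, `η'' := (min η η') / 2`), so there is an ultrafilter `r` containing them all. `IsF`: nodes of type `q`: `F.A` is arbitrary. Arcs: forward freeness from the free choice of `F.g0`, `F.g`, both directions also from `F.φ` (all `φ` in F_C, e.g. `φ x y := h x y < δ ∧ h' y x < δ`). `free`: for a test map `G` of the node `(i, none)` take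
`F.g0 e := G (e, fun _ => none)`; for the node `(i, some n)` take `F.g n e p s := G (e, s')` with `s'` assembled from `i, p, s` (one `i` at a time, or the mean over `i`). `bd_of_not`: in the same way with `F.b0` (test for `bx`, node `(i, none)`), `F.be` (`bx`, node `(i, some n)`), `F.bx` (`bn`, ancestor `(i, none)`), `F.bn` (`bn`, ancestor `(i, some a)`).
`exists_F`: `P m := ∀ t, HasF W q U t m`; `P 1` (`hasB_one`), `¬ P d` by `not_F`; if `d = 0` then `NoOut W t 0` is false. Take `a ≥ 1` with `P a`, `¬ P (a+1)`. `exists_B` in the same way.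
-/

set_option autoImplicit false

namespace Pool.Agent.Lib.MP_b0c2b5_co.AT

open LS Filter
open scoped Classical

variable {V : Type}

variable {W : World V} {q : Ultrafilter V} {U : Set (Set (V → ℝ))}

def HasF (W : World V) (q : Ultrafilter V) (U : Set (Set (V → ℝ))) (t m : ℕ) : Prop :=
  ∃ r : Ultrafilter (V × (Nd t m → V)), IsF W q U r Prod.fst Prod.snd

def HasB (W : World V) (q : Ultrafilter V) (U : Set (Set (V → ℝ))) (t m : ℕ) : Prop :=
  ∃ r : Ultrafilter (V × (Nd t m → V)), IsB W q U r Prod.fst Prod.snd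

/-- a family of rooted subtrees as a tree -/
def E1a_as {t m : ℕ} (z : Fin t → Option (Nd t m) → V) : Nd t (m + 1) → V
  | (i, o) => z i o

theorem E1a_cases {t : ℕ} (n : Nd t 1) : ∃ i : Fin t, n = ((i, none) : Nd t 1) := by
  rcases n with ⟨i, o⟩
  cases o with
  | none => exact ⟨i, rfl⟩
  | some o => exact (Empty.elim o)

theorem E1a_anc {t : ℕ} (n : Nd t 1) : anc n = ∅ := by
  obtain ⟨i, rfl⟩ := E1a_cases n
  rfl

theorem E1a_fa {t : ℕ} (n : Nd t 1) : fa n = none := by
  obtain ⟨i, rfl⟩ := E1a_cases n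
  rfl

theorem E1a_opt {t : ℕ} (o : Option (Nd t 0)) : o = none := by
  cases o with
  | none => rfl
  | some o => exact (Empty.elim o)

/-- a test for equality -/
noncomputable def E1a_eqt {t : ℕ} (j : Fin t) (d : V × (Fin t → Option (Nd t 0) → Option V)) : V → ℝ :=
  fun v => if v = (d.2 j none).getD d.1 then 1 else 0

theorem E1a_eqt_mem {t : ℕ} (j : Fin t) (d : V × (Fin t → Option (Nd t 0) → Option V)) : E1a_eqt j d ∈ EQr V :=
  subset_convexHull ℝ _ ⟨(d.2 j none).getD d.1, rfl⟩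

theorem hasB_one (S : Sys W q U) (hC : ∃ p : Ultrafilter (V × V), CA W q U p Prod.fst Prod.snd) (t : ℕ) :
    HasB W q U t 1 := by
  obtain ⟨p0, hp0⟩ := hC
  obtain ⟨r, hrdef⟩ : ∃ r : Ultrafilter (V × (Option (Nd t 0) → V)), r = p0.map (fun z => (z.1, fun _ => z.2)) :=
    ⟨_, rfl⟩
  have hCr : CA W q U r (fun u => u.1) (fun u => u.2 none) := by
    rw [hrdef, CA.map]
    exact hp0
  have hr : r.map Prod.fst = q.map (fun x : V => x) := by
    have h1 : q.map (fun x : V => x) = q := Ultrafilter.map_id q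
    rw [h1]
    exact hCr.qx
  have hD0 : ∀ᶠ w in (r : Filter (V × (Option (Nd t 0) → V))), w.2 ∈ FibF W (Option (Nd t 0)) w.1 := by
    filter_upwards [hCr.arc] with w hw
    rw [mem_FibF]
    intro i
    rw [E1a_opt i]
    exact (W.rf _ _ hw).symm
  obtain ⟨p', h1, h2, h3, -⟩ := copies t q (fun x : V => x) r hr (fun a => FibF W (Option (Nd t 0)) a) hD0
  -- arcs
  have hCi : ∀ i : Fin t, CA W q U p' (fun w => w.1) (fun w => w.2 i none) := by
    intro i
    have h := hCr
    rw [← h2 i, CA.map] at h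
    exact h
  -- distinct children
  have hne : ∀ i j : Fin t, i ≠ j → ∀ᶠ w in (p' : Filter (V × (Fin t → Option (Nd t 0) → V))),
      w.2 i none ≠ w.2 j none := by
    intro i j hij
    have hU : Unk r (fun w => (w.1, res (∅ : Finset (Option (Nd t 0))) w.2)) (fun w => w.2 none) (EQr V) := by
      refine Unk.comp (fun x : V => (x, fun _ => none)) ?_ (hCr.fw _ S.eq)
      refine Filter.Eventually.of_forall (fun w => ?_)
      refine Prod.ext rfl ?_
      funext k
      simp [res]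
    have h := h3 i none ∅ (EQr V) isRes_EQ hU (fun d => E1a_eqt j d) (fun d => E1a_eqt_mem j d) (1 / 2) (by norm_num)
    filter_upwards [h] with w hw heq
    have hji : j ≠ i := fun h => hij h.symm
    simp only [E1a_eqt, if_neg hji, Option.getD_some] at hw
    rw [if_pos heq] at hw
    norm_num at hw
  refine ⟨p'.map (fun w => (w.1, E1a_as w.2)), ?_⟩
  have hCA : ∀ n : Nd t 1, CA W q U (p'.map (fun w => (w.1, E1a_as w.2))) (fun ω => ω.1) (fun ω => ω.2 n) := by
    intro n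
    obtain ⟨i, rfl⟩ := E1a_cases n
    rw [CA.map]
    exact hCi i
  constructor
  · constructor
    · exact (by
        rw [Ultrafilter.map_map]
        exact h1)
    · intro n
      have h := hCA n
      rw [E1a_fa n]
      exact h
    · have hall : ∀ᶠ w in (p' : Filter (V × (Fin t → Option (Nd t 0) → V))), (∀ i, W.r w.1 (w.2 i none)) ∧
          ∀ i j, i ≠ j → w.2 i none ≠ w.2 j none := by
        have ha : ∀ᶠ w in (p' : Filter (V × (Fin t → Option (Nd t 0) → V))), ∀ i, W.r w.1 (w.2 i none) :=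
          Filter.eventually_all.2 (fun i => (hCi i).arc)
        have hb : ∀ᶠ w in (p' : Filter (V × (Fin t → Option (Nd t 0) → V))), ∀ i j, i ≠ j →
            w.2 i none ≠ w.2 j none := by
          refine Filter.eventually_all.2 (fun i => Filter.eventually_all.2 (fun j => ?_))
          by_cases hij : i = j
          · exact Filter.Eventually.of_forall (fun w h => absurd hij h)
          · filter_upwards [hne i j hij] with w hw _
            exact hw
        exact ha.and hb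
      rw [Ultrafilter.coe_map, Filter.eventually_map]
      filter_upwards [hall] with w hw
      refine ⟨?_, ?_, ?_⟩
      · intro n
        obtain ⟨i, rfl⟩ := E1a_cases n
        exact hw.1 i
      · intro i
        exact trivial
      · rintro i j hij ⟨a, b, hab⟩
        rw [E1a_opt a, E1a_opt b] at hab
        rcases hab with hab | hab
        · exact hw.2 i j hij hab
        · exact W.ho.sf w.1 (w.2 j none) (w.2 i none) (hw.1 j) (W.ho.arc _ _ (hw.1 i)) (W.ho.arc _ _ hab)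
    · intro n K hK
      refine Unk.comp (fun x : V => (x, fun _ => none)) ?_ ((hCA n).fw K hK)
      refine Filter.Eventually.of_forall (fun w => ?_)
      refine Prod.ext rfl ?_
      funext k
      simp [res, E1a_anc n]
  · intro n K hK
    refine Unk.comp (fun y : V => fun k => if k ∈ insert n (anc n) then some y else none) ?_ ((hCA n).bw K hK)
    refine Filter.Eventually.of_forall (fun w => ?_)
    funext k
    simp only [res]
    by_cases hk : k ∈ insert n (anc n)
    · rw [if_pos hk, if_pos hk]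
      rw [E1a_anc n] at hk
      rw [show k = n by simpa using hk]
    · rw [if_neg hk, if_neg hk]
  · intro n a ha
    rw [E1a_anc n] at ha
    simp at ha

theorem not_F {t d : ℕ} (h1 : NoOut W t d) : ¬ HasF W q U t d := by
  rintro ⟨r, hr⟩
  obtain ⟨ω, hω⟩ := hr.out.exists
  exact h1 ⟨ω.1, ω.2, hω⟩

end Pool.Agent.Lib.MP_b0c2b5_co.AT
end

section

/-! # AT, E1b: finite data (from E1). -/

set_option autoImplicit false

namespace Pool.Agent.Lib.MP_b0c2b5_co.AT

open LS Filter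
open scoped Classical

variable {V : Type}

variable {W : World V} {q : Ultrafilter V} {U : Set (Set (V → ℝ))}

theorem fd_of_not (S : Sys W q U) {t m : ℕ} (h : ¬ HasF W q U t (m + 1)) : ∃ F : FD W q U t m, F.Emp :=
  fd_of_not0 S h

end Pool.Agent.Lib.MP_b0c2b5_co.AT
end

section

/-! # AT, E1c: finite data (from E1). -/

set_option autoImplicit false

namespace Pool.Agent.Lib.MP_b0c2b5_co.AT

open LS Filter
open scoped Classical

variable {V : Type}

variable {W : World V} {q : Ultrafilter V} {U : Set (Set (V → ℝ))}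

theorem bd_of_not (S : Sys W q U) {t m : ℕ} (h : ¬ HasB W q U t (m + 1)) : ∃ F : BD W q U t m, F.Emp :=
  bd_of_not0 S h

end Pool.Agent.Lib.MP_b0c2b5_co.AT
end

section

/-!
# AT, E1d: maximal depth

PROOFS. `hasB_one`: `r` := the type of a C-child on `V × (Option (Nd t 0) → V)` (`hC`; `Nd t 0` is empty), `copies` over `p := q`, `X := id`; `Fin t → Option (Nd t 0) → V` is `Nd t 1 → V`. Arcs and freeness from `r` (`bx` from the backward part of the C-arc, `anc n = ∅`, `bn` is empty). Induced: two children: distinct by EQ (the third statement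
of `copies`), not adjacent by `W.ho.sf` (`r x y_i`, `r x y_j`). `not_F`: definition. `fd_of_not`: suppose that no `F` is `Emp`. The sets `{(e, τ) | ∀ i, F.Good e (rt τ i) (sb τ i), and ∀ i ≠ j, ¬ Cross W (rt τ i) (sb τ i) (rt τ j) (sb τ j)}`, `F : FD W q U t m`, are nonempty and the intersection of two contains a third (means of the maps in `jn K K'`,
`A ∩ A'`, `InFC.and`, `η'' := (min η η') / 2`), so there is an ultrafilter `r` containing them all. `IsF`: nodes of type `q`: `F.A` is arbitrary. Arcs: forward freeness from the free choice of `F.g0`, `F.g`, both directions also from `F.φ` (all `φ` in F_C, e.g. `φ x y := h x y < δ ∧ h' y x < δ`). `free`: for a test map `G` of the node `(i, none)` take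
`F.g0 e := G (e, fun _ => none)`; for the node `(i, some n)` take `F.g n e p s := G (e, s')` with `s'` assembled from `i, p, s` (one `i` at a time, or the mean over `i`). `bd_of_not`: in the same way with `F.b0` (test for `bx`, node `(i, none)`), `F.be` (`bx`, node `(i, some n)`), `F.bx` (`bn`, ancestor `(i, none)`), `F.bn` (`bn`, ancestor `(i, some a)`).
`exists_F`: `P m := ∀ t, HasF W q U t m`; `P 1` (`hasB_one`), `¬ P d` by `not_F`; if `d = 0` then `NoOut W t 0` is false. Take `a ≥ 1` with `P a`, `¬ P (a+1)`. `exists_B` in the same way.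
-/

set_option autoImplicit false

namespace Pool.Agent.Lib.MP_b0c2b5_co.AT

open LS Filter
open scoped Classical

variable {V : Type}

variable {W : World V} {q : Ultrafilter V} {U : Set (Set (V → ℝ))}

theorem E1d_pick (P : ℕ → Prop) (h1 : P 1) {d : ℕ} (hd : 1 ≤ d) (h : ¬ P d) : ∃ a, 1 ≤ a ∧ P a ∧ ¬ P (a + 1) := by
  by_contra hc
  push Not at hc
  have key : ∀ n, 1 ≤ n → P n := by
    intro n hn
    induction n, hn using Nat.le_induction with
    | base => exact h1
    | succ n hn ih => exact hc n hn ih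
  exact h (key d hd)

theorem E1d_zero (W : World V) (q : Ultrafilter V) {t : ℕ} (h1 : NoOut W t 0) : False := by
  obtain ⟨x⟩ : Nonempty V := by
    by_contra hne
    rw [not_nonempty_iff] at hne
    have : (q : Filter V) = ⊥ := Filter.filter_eq_bot_of_isEmpty _
    exact q.neBot.ne this
  exact h1 ⟨x, fun n => n.elim, ⟨fun n => n.elim, trivial⟩⟩

theorem exists_F (S : Sys W q U) {t d : ℕ} (h1 : NoOut W t d)
    (hC : ∃ p : Ultrafilter (V × V), CA W q U p Prod.fst Prod.snd) :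
    ∃ a t', 1 ≤ a ∧ HasF W q U t' a ∧ ∃ F : FD W q U t' a, F.Emp := by
  rcases Nat.eq_zero_or_pos d with rfl | hd
  · exact (E1d_zero W q h1).elim
  obtain ⟨a, ha, h2, h3⟩ := E1d_pick (fun m => ∀ t, HasF W q U t m) (fun t => by
    obtain ⟨r, hr⟩ := hasB_one S hC t
    exact ⟨r, hr.toIsF⟩) hd (fun h => not_F h1 (h t))
  push Not at h3
  obtain ⟨t', ht'⟩ := h3
  exact ⟨a, t', ha, h2 t', fd_of_not S ht'⟩

theorem exists_B (S : Sys W q U) {t d : ℕ} (h1 : NoOut W t d)
    (hC : ∃ p : Ultrafilter (V × V), CA W q U p Prod.fst Prod.snd) :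
    ∃ b t', 1 ≤ b ∧ HasB W q U t' b ∧ ∃ F : BD W q U t' b, F.Emp := by
  rcases Nat.eq_zero_or_pos d with rfl | hd
  · exact (E1d_zero W q h1).elim
  obtain ⟨a, ha, h2, h3⟩ := E1d_pick (fun m => ∀ t, HasB W q U t m) (fun t => hasB_one S hC t) hd (fun h => by
    obtain ⟨r, hr⟩ := h t
    exact not_F h1 ⟨r, hr.toIsF⟩)
  push Not at h3
  obtain ⟨t', ht'⟩ := h3
  exact ⟨a, t', ha, h2 t', bd_of_not S ht'⟩

end Pool.Agent.Lib.MP_b0c2b5_co.AT
end

section

/-!
# AT, T1: TP (paper 2.5).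

PROOF. `CE` is `CA W q U p x1 x2` or `CA W q U p x2 x1`; in the second case replace `W` by `W.dual` (`Sys.dual`, `CA_dual`, `h2`). Let `IsRes K`, `K ∉ U`; `lemmaB` gives `φ, K', δ, η` with `sR W φ K' δ η K ∉ U`, so by `hk` (and `isRes_sR`) there are `G : D → V → ℝ` with values in `sR ..` and `κ > 0` with `κ ≤ G (Y ω) (x1 ω)` almost
everywhere. `G d` is a finite convex combination `Σ_j λ_j 1_{X_{g_j}}`, `g_j ∈ K`; put `g d := Σ_j λ_j g_j ∈ K`. Let `J := {j : x1 ∈ X_{g_j}}`, of weight `≥ κ`; `h_j ∈ K'` with `h_j ≥ δ` on `{y : r x1 y, φ x1 y, g_j y ≤ η}` for `j ∈ J`; `h (Y, x1) := Σ_{j ∈ J} λ_j h_j / Σ_{j ∈ J} λ_j ∈ K'` (any element of `K'` if `J` is empty).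
`h (Y, x1) (x2) < δ / 2` almost everywhere, and `r x1 x2`, `φ x1 x2`; so the `j ∈ J` with `g_j x2 ≤ η` have at most half of the weight of `J`, and `g (Y) x2 ≥ η κ / 2`.
In Lean: `T1_conv`: every `f ∈ sR` has `g ∈ K` and for all `x` with `f x > 0` some `h ∈ K'` with `f x ≤ g y / η + f x * (h y / δ)`.
-/

set_option autoImplicit false

namespace Pool.Agent.Lib.MP_b0c2b5_co.AT

open LS Filter
open scoped Classical

variable {V : Type}

private theorem T1_conv {W : World V} {φ : V → V → Prop} {K K' : Set (V → ℝ)} (hK : IsRes K) (hK' : IsRes K')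
    {δ η : ℝ} (hδ : 0 < δ) (hη : 0 < η) {f : V → ℝ} (hf : f ∈ sR W φ K' δ η K) :
    ∃ g ∈ K, ∀ x, 0 < f x → ∃ h ∈ K', ∀ y, W.r x y → φ x y → f x ≤ g y / η + f x * (h y / δ) := by
  have hsub : sR W φ K' δ η K ⊆ {f : V → ℝ | (∀ x, 0 ≤ f x) ∧ ∃ g ∈ K, ∀ x, 0 < f x → ∃ h ∈ K', ∀ y, W.r x y →
      φ x y → f x ≤ g y / η + f x * (h y / δ)} := by
    refine convexHull_min ?_ ?_
    · rintro f ⟨g, hg, rfl⟩
      refine ⟨fun x => ?_, g, hg, fun x hx => ?_⟩
      · show 0 ≤ (if x ∈ XR W φ K' δ η g then (1 : ℝ) else 0)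
        split_ifs
        · exact zero_le_one
        · exact le_rfl
      · by_cases hX : x ∈ XR W φ K' δ η g
        · obtain ⟨h, hh, hy⟩ := id hX
          refine ⟨h, hh, fun y h1 h2 => ?_⟩
          show (if x ∈ XR W φ K' δ η g then (1 : ℝ) else 0) ≤
            g y / η + (if x ∈ XR W φ K' δ η g then (1 : ℝ) else 0) * (h y / δ)
          rw [if_pos hX, one_mul]
          have n1 : 0 ≤ g y / η := div_nonneg (hK.nn g hg y) hη.le
          have n2 : 0 ≤ h y / δ := div_nonneg (hK'.nn h hh y) hδ.le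
          by_cases h3 : g y ≤ η
          · have := hy y h1 h2 h3
            have : 1 ≤ h y / δ := (one_le_div hδ).2 this
            linarith
          · have : 1 ≤ g y / η := (one_le_div hη).2 (not_le.1 h3).le
            linarith
        · have hx' : 0 < (if x ∈ XR W φ K' δ η g then (1 : ℝ) else 0) := hx
          rw [if_neg hX] at hx'
          exact absurd hx' (lt_irrefl _)
    · rintro f ⟨hf0, gf, hgf, hf⟩ g ⟨hg0, gg, hgg, hg⟩ a b ha hb hab
      refine ⟨fun x => ?_, a • gf + b • gg, hK.conv hgf hgg ha hb hab, fun x hx => ?_⟩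
      · simp only [Pi.add_apply, Pi.smul_apply, smul_eq_mul]
        exact add_nonneg (mul_nonneg ha (hf0 x)) (mul_nonneg hb (hg0 x))
      · simp only [Pi.add_apply, Pi.smul_apply, smul_eq_mul] at hx ⊢
        -- the inequalities of the two parts, with a suitable `h`
        have key : ∀ (f gf : V → ℝ) (a : ℝ), 0 ≤ a → gf ∈ K → (∀ x, 0 ≤ f x) → (∀ x, 0 < f x → ∃ h ∈ K', ∀ y, W.r x y →
            φ x y → f x ≤ gf y / η + f x * (h y / δ)) → ∀ h0 ∈ K', ∃ h ∈ K', ∀ y, W.r x y → φ x y →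
            a * f x ≤ a * gf y / η + a * f x * (h y / δ) := by
          intro f gf a ha hgf hf0 hf h0 hh0
          rcases (hf0 x).eq_or_lt with h | h
          · refine ⟨h0, hh0, fun y _ _ => ?_⟩
            rw [← h, mul_zero, zero_mul, add_zero]
            exact div_nonneg (mul_nonneg ha (hK.nn gf hgf y)) hη.le
          · obtain ⟨h1, hh1, hy⟩ := hf x h
            refine ⟨h1, hh1, fun y e1 e2 => ?_⟩
            have := mul_le_mul_of_nonneg_left (hy y e1 e2) ha
            calc a * f x ≤ a * (gf y / η + f x * (h1 y / δ)) := this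
              _ = a * gf y / η + a * f x * (h1 y / δ) := by ring
        -- a default member of `K'`
        have hdef : ∃ h0, h0 ∈ K' := by
          rcases (hf0 x).eq_or_lt with h | h
          · rcases (hg0 x).eq_or_lt with h' | h'
            · rw [← h, ← h', mul_zero, mul_zero, add_zero] at hx
              exact absurd hx (lt_irrefl _)
            · obtain ⟨h1, hh1, _⟩ := hg x h'
              exact ⟨h1, hh1⟩
          · obtain ⟨h1, hh1, _⟩ := hf x h
            exact ⟨h1, hh1⟩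
        obtain ⟨h0, hh0⟩ := hdef
        obtain ⟨h1, hh1, k1⟩ := key f gf a ha hgf hf0 hf h0 hh0
        obtain ⟨h2, hh2, k2⟩ := key g gg b hb hgg hg0 hg h0 hh0
        refine ⟨(a * f x / (a * f x + b * g x)) • h1 + (b * g x / (a * f x + b * g x)) • h2,
          hK'.conv hh1 hh2 (div_nonneg (mul_nonneg ha (hf0 x)) hx.le) (div_nonneg (mul_nonneg hb (hg0 x)) hx.le)
            (by rw [← add_div, div_self hx.ne']), fun y e1 e2 => ?_⟩
        simp only [Pi.add_apply, Pi.smul_apply, smul_eq_mul]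
        have e3 := k1 y e1 e2
        have e4 := k2 y e1 e2
        have e5 : (a * f x + b * g x) * ((a * f x / (a * f x + b * g x) * h1 y + b * g x / (a * f x + b * g x) * h2 y)
            / δ) = a * f x * (h1 y / δ) + b * g x * (h2 y / δ) := by
          have := hx.ne'
          field_simp
        rw [e5]
        have e6 : (a * gf y + b * gg y) / η = a * gf y / η + b * gg y / η := add_div _ _ _
        rw [e6]
        linarith
  exact (hsub hf).2

private theorem T1_core {W : World V} {q : Ultrafilter V} {U : Set (Set (V → ℝ))} (S : Sys W q U) {t d : ℕ}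
    (h1 : NoOut W t d) {Ω D : Type} {p : Ultrafilter Ω} {Y : Ω → D} {x1 x2 : Ω → V} (hk : Kn U p Y x1)
    (he : CA W q U p x1 x2) (hf : Fr U p (fun ω => (Y ω, x1 ω)) x2) : Kn U p Y x2 := by
  intro K hK hKU
  obtain ⟨φ, hφ, K', hK', δ, hδ, η, hη, hs⟩ := lemmaB S h1
    ⟨p.map fun ω => (x1 ω, x2 ω), by rw [CA.map]; exact he⟩ hK hKU
  have := hk _ (isRes_sR W φ K' δ η K) hs
  rw [not_unk_iff] at this ⊢
  obtain ⟨G, hG, κ, hκ, hev⟩ := this
  choose g hg hg2 using fun d => T1_conv hK (S.res K' hK') hδ hη (hG d)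
  choose! h hh hy using hg2
  -- a default member of `K'`
  obtain ⟨ω0, hω0⟩ := hev.exists
  have hk0 := hh (Y ω0) (x1 ω0) (hκ.trans_le hω0)
  have hsm := hf K' hK' (fun d => if 0 < G d.1 d.2 then h d.1 d.2 else h (Y ω0) (x1 ω0)) (fun d => by
    split_ifs with hd
    · exact hh _ _ hd
    · exact hk0) (δ / 2) (by positivity)
  refine ⟨g, hg, η * κ / 2, by positivity, ?_⟩
  filter_upwards [hev, hsm, he.arc, hφ.of_CA he] with ω e1 e2 e3 e4
  have hpos : 0 < G (Y ω) (x1 ω) := hκ.trans_le e1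
  rw [if_pos hpos] at e2
  have e5 := hy (Y ω) (x1 ω) hpos (x2 ω) e3 e4
  have e6 : h (Y ω) (x1 ω) (x2 ω) / δ ≤ 1 / 2 := by
    rw [div_le_iff₀ hδ]
    linarith
  have e7 : G (Y ω) (x1 ω) * (h (Y ω) (x1 ω) (x2 ω) / δ) ≤ G (Y ω) (x1 ω) * (1 / 2) :=
    mul_le_mul_of_nonneg_left e6 hpos.le
  have e8 : κ / 2 ≤ g (Y ω) (x2 ω) / η := by linarith
  rw [le_div_iff₀ hη] at e8
  linarith

/-- 2.5 TP -/
theorem tp {W : World V} {q : Ultrafilter V} {U : Set (Set (V → ℝ))} (S : Sys W q U) {t d : ℕ} (h1 : NoOut W t d)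
    (h2 : NoOut W.dual t d) {Ω D : Type} {p : Ultrafilter Ω} {Y : Ω → D} {x1 x2 : Ω → V} (hk : Kn U p Y x1)
    (he : CE W q U p x1 x2) (hf : Fr U p (fun ω => (Y ω, x1 ω)) x2) : Kn U p Y x2 := by
  rcases he with he | he
  · exact T1_core S h1 hk he hf
  · exact T1_core S.dual h2 hk (CA_dual.2 he) hf

end Pool.Agent.Lib.MP_b0c2b5_co.AT
end

section

/-!
# AT, T2: TP along free paths and down free trees.

PROOFS. `tp_path`: induction on `i` (`Fin.induction`) with `tp`. `tp_tree`: induction on the number of ancestors of the node: if `fa n = none` use `hk`, if `fa n = some n'` then `n' ∈ anc n` and `(Y, τ n')` is a function of `((Y, x), res (anc n) τ)` (`Unk.comp`).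
-/

set_option autoImplicit false

namespace Pool.Agent.Lib.MP_b0c2b5_co.AT

open LS Filter
open scoped Classical

variable {V : Type}

/-- TP along a free path -/
theorem tp_path {W : World V} {q : Ultrafilter V} {U : Set (Set (V → ℝ))} (S : Sys W q U) {t d : ℕ} (h1 : NoOut W t d)
    (h2 : NoOut W.dual t d) {Ω D : Type} {p : Ultrafilter Ω} {Y : Ω → D} {M : ℕ} {w : Ω → Fin (M + 1) → V}
    (hk : Kn U p Y (fun ω => w ω 0))
    (e : ∀ i : Fin M, CE W q U p (fun ω => w ω i.castSucc) (fun ω => w ω i.succ))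
    (hf : ∀ i : Fin M, Fr U p (fun ω => (Y ω, w ω i.castSucc)) (fun ω => w ω i.succ)) :
    ∀ i, Kn U p Y (fun ω => w ω i) := by
  intro i
  induction i using Fin.induction with
  | zero => exact hk
  | succ i ih => exact tp S h1 h2 ih (e i) (hf i)

/-- TP down a free tree -/
theorem tp_tree {W : World V} {q : Ultrafilter V} {U : Set (Set (V → ℝ))} (S : Sys W q U) {t d : ℕ} (h1 : NoOut W t d)
    (h2 : NoOut W.dual t d) {Ω D : Type} {p : Ultrafilter Ω} {Y : Ω → D} {t' m : ℕ} {x : Ω → V} {τ : Ω → Nd t' m → V}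
    (hk : Kn U p Y x) (harc : ∀ n, CA W q U p (fun ω => ev (x ω) (τ ω) (fa n)) (fun ω => τ ω n))
    (hf : ∀ n, Fr U p (fun ω => ((Y ω, x ω), res (anc n) (τ ω))) (fun ω => τ ω n)) :
    ∀ n, Kn U p Y (fun ω => τ ω n) := by
  intro n
  induction hc : (anc n).card using Nat.strong_induction_on generalizing n with
  | _ c ih =>
    cases hn : fa n with
    | none =>
      have harc' := harc n
      rw [hn] at harc'
      refine tp S h1 h2 hk (Or.inl harc') ?_
      intro K hK
      exact Unk.comp (fun a : (D × V) × (Nd t' m → Option V) => a.1) (Filter.Eventually.of_forall (fun _ => rfl))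
        (hf n K hK)
    | some a =>
      have harc' := harc n
      rw [hn] at harc'
      have ha : a ∈ anc n := fa_mem_anc n a hn
      have hlt : (anc a).card < c := by
        rw [← hc, anc_fa_subset n a hn, Finset.card_insert_of_notMem (not_mem_anc_self a)]
        exact Nat.lt_succ_self _
      refine tp S h1 h2 (ih _ hlt a rfl) (Or.inl harc') ?_
      intro K hK
      refine Unk.comp (fun b : (D × V) × (Nd t' m → Option V) => (b.1.1, (b.2 a).getD b.1.2))
        (Filter.Eventually.of_forall (fun ω => ?_)) (hf n K hK)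
      dsimp only
      rw [res_pos (τ ω) ha]
      rfl

end Pool.Agent.Lib.MP_b0c2b5_co.AT
end

section

/-!
# AT, D2: the finite part of Lemma D.

PROOF of `D_fin`. `ε0` from `hubB`; `c0 := 1/(8t^2)`, `N := card (Nd t m) + 1`; `K1 ∈ U` with `K, F.K, EQr V ⊆ K1` (`S.join`); `δτ ≤ ε0` small against `c0 η / N ^ 2`. KERNEL `Dm, μ` from `kernel` for `rB`, `K1`, `δτ`, `R x τ := (x, τ) ∈ R2 ∧ x ∈ F.A ∧ (∀ n, τ n ∈ F.A) ∧ (φ on all arcs) ∧ OutT W x τ ∧ F.Inn x τ` (all true `rB`-almost everywhere: `InFC.of_CA`,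
`hB.out`, `hB.bx`, `hB.bn` with the test maps of `F`, `F.K ∈ U`). `A1` := the good set of the kernel, in `q`. `phimu e p := F.φ e p ∧ F.b0 p e < F.η ∧ ∀ n, Ex (Dm p) (μ p) (fun τ => F.be n p (res (insert n (anc n)) τ) e) < ε0 * F.η` is in F_C (`inFC_iff`, `InFC.of_CA`, backward freeness of the arc; the `Ex ..` is the value at `e` of a member of `F.K` which is a
function of `p`, for `p ∈ A1`). So `ParR W F.A phimu ∉ U` (`par_not_mem`). `Kn U p v (w last)`: `S.kn` for `v, w 0` (`hP.e0`, `hP.free 0`), then `tp_path` with `Y := v`. So there are `g` with values in `ParR ..` and `δ1 > 0` with `δ1 ≤ g (v ω) (w ω last)` almost everywhere. `up` for `v`, `w`, `past := Iio`, `K1`, `δP := ε0 δ1`, `c := δ1^2/(8t^2)`,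
`D0 a := (FibF W _ a).filter (fun P => (a, P) ∈ R1 ∧ P last ∈ A1 ∧ P last ∈ F.A ∧ δ1 ≤ g a (P last))`, `Rel a P P' := c0 ≤ Pr2 (Dm (P last)) (μ (P last)) (Dm (P' last)) (μ (P' last)) (fun τ'' τ' => Arr W (P' last) τ' τ'')` (`hubB`). It gives `p'` on `Ω × (Fin (M+1) → V)`. For `p'`-almost all `(ω, P')`: `(v ω, P') ∈ R1`, `P' last ∈ A1`, `w ω last ∈ A1`, `Rel`,
`gP i (ω, res (Iio i) P') (P' i) < η`. Now `pick` on the product of `μ (w ω last)` (for `τ''`) and `μ (P' last)` (for `τ'`): the event `Arr` has probability `≥ c0`; bad events: `g1` (for fixed `ω, P'`: test for `μ (P' last)`, `≤ δτ / η`), `g2` (for fixed `ω, P', τ'`: test for `μ (w ω last)`), `g5 (some n') n` (for fixed `τ''`: constant test for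
`μ (P' last)`), `g5 none n` (`average` for `Y := w last`, `c := P' last`: `P' last` is free over `Ω`), `g6` (`average` for `Y := w last`, `c := y`, free by `hy`). Sum `< c0`.
-/

set_option autoImplicit false

namespace Pool.Agent.Lib.MP_b0c2b5_co.AT

open LS Filter
open scoped Classical

variable {V : Type}

variable {W : World V} {q : Ultrafilter V} {U : Set (Set (V → ℝ))}

/-! ### product of two laws -/

theorem D2_Ex_prod {Z Z' : Type} (D : Finset Z) (D' : Finset Z') (θ : Z → ℝ) (θ' : Z' → ℝ) (f : Z × Z' → ℝ) :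
    Ex (D ×ˢ D') (fun z => θ z.1 * θ' z.2) f = Ex D θ (fun z => Ex D' θ' (fun z' => f (z, z'))) := by
  unfold Ex
  rw [Finset.sum_product]
  refine Finset.sum_congr rfl fun z _ => ?_
  rw [Finset.mul_sum]
  exact Finset.sum_congr rfl fun z' _ => by ring

theorem D2_Ex_prod' {Z Z' : Type} (D : Finset Z) (D' : Finset Z') (θ : Z → ℝ) (θ' : Z' → ℝ) (f : Z × Z' → ℝ) :
    Ex (D ×ˢ D') (fun z => θ z.1 * θ' z.2) f = Ex D' θ' (fun z' => Ex D θ (fun z => f (z, z'))) := by
  unfold Ex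
  rw [Finset.sum_product_right]
  refine Finset.sum_congr rfl fun z _ => ?_
  rw [Finset.mul_sum]
  exact Finset.sum_congr rfl fun z' _ => by ring

theorem D2_isPr {Z Z' : Type} {D : Finset Z} {D' : Finset Z'} {θ : Z → ℝ} {θ' : Z' → ℝ} (h : IsPr D θ)
    (h' : IsPr D' θ') : IsPr (D ×ˢ D') (fun z => θ z.1 * θ' z.2) where
  nn z := mul_nonneg (h.nn _) (h'.nn _)
  supp z hz := by
    rw [Finset.mem_product, not_and_or] at hz
    rcases hz with hz | hz
    · simp [h.supp _ hz]
    · simp [h'.supp _ hz]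
  sum := by
    rw [Finset.sum_product]
    have : ∀ z ∈ D, ∑ z' ∈ D', θ z * θ' z' = θ z := fun z _ => by rw [← Finset.mul_sum, h'.sum, mul_one]
    rw [Finset.sum_congr rfl this, h.sum]

theorem D2_Ex_le {Z : Type} {D : Finset Z} {θ f : Z → ℝ} (hθ : IsPr D θ) {c : ℝ} (h : ∀ z ∈ D, f z ≤ c) :
    Ex D θ f ≤ c := by
  unfold Ex
  calc ∑ z ∈ D, θ z * f z ≤ ∑ z ∈ D, θ z * c := Finset.sum_le_sum fun z hz => mul_le_mul_of_nonneg_left (h z hz) (hθ.nn z)
    _ = c := by rw [← Finset.sum_mul, hθ.sum, one_mul]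

/-- an event with small sections (first variable fixed) -/
theorem D2_Pr_fst {Z Z' : Type} {D : Finset Z} {D' : Finset Z'} {θ : Z → ℝ} {θ' : Z' → ℝ} (h : IsPr D θ)
    (E : Z → Z' → Prop) {c : ℝ} (hE : ∀ z ∈ D, Pr D' θ' (E z) ≤ c) :
    Pr (D ×ˢ D') (fun z => θ z.1 * θ' z.2) (fun z => E z.1 z.2) ≤ c := by
  unfold Pr
  rw [D2_Ex_prod]
  exact D2_Ex_le h hE

/-- an event with small sections (second variable fixed) -/
theorem D2_Pr_snd {Z Z' : Type} {D : Finset Z} {D' : Finset Z'} {θ : Z → ℝ} {θ' : Z' → ℝ} (h' : IsPr D' θ')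
    (E : Z → Z' → Prop) {c : ℝ} (hE : ∀ z' ∈ D', Pr D θ (fun z => E z z') ≤ c) :
    Pr (D ×ˢ D') (fun z => θ z.1 * θ' z.2) (fun z => E z.1 z.2) ≤ c := by
  unfold Pr
  rw [D2_Ex_prod']
  exact D2_Ex_le h' hE

theorem D2_Pr_eq {Z Z' : Type} (D : Finset Z) (D' : Finset Z') (θ : Z → ℝ) (θ' : Z' → ℝ) (E : Z → Z' → Prop) :
    Pr (D ×ˢ D') (fun z => θ z.1 * θ' z.2) (fun z => E z.1 z.2) = Pr2 D θ D' θ' E := by
  unfold Pr Pr2
  rw [D2_Ex_prod]

/-! ### auxiliary facts -/

theorem D2_hC {Ω : Type} {p : Ultrafilter Ω} {x y : Ω → V} (h : CE W q U p x y) :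
    ∃ p : Ultrafilter (V × V), CA W q U p Prod.fst Prod.snd := by
  rcases h with h | h
  · exact ⟨p.map (fun ω => (x ω, y ω)), CA.map.2 h⟩
  · exact ⟨p.map (fun ω => (y ω, x ω)), CA.map.2 h⟩

theorem D2_fw {Ω : Type} {p : Ultrafilter Ω} {x y : Ω → V} (h : CE W q U p x y) : Fr U p x y := by
  rcases h with h | h
  · exact h.fw
  · exact h.bw

theorem D2_qx {Ω : Type} {p : Ultrafilter Ω} {x y : Ω → V} (h : CE W q U p x y) : p.map x = q := by
  rcases h with h | h
  · exact h.qx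
  · exact h.qy

theorem D2_qy {Ω : Type} {p : Ultrafilter Ω} {x y : Ω → V} (h : CE W q U p x y) : p.map y = q := by
  rcases h with h | h
  · exact h.qy
  · exact h.qx

theorem D2_adj {Ω : Type} {p : Ultrafilter Ω} {x y : Ω → V} (h : CE W q U p x y) :
    ∀ᶠ ω in (p : Filter Ω), W.r (x ω) (y ω) ∨ W.r (y ω) (x ω) := by
  rcases h with h | h
  · exact h.arc.mono fun ω hω => Or.inl hω
  · exact h.arc.mono fun ω hω => Or.inr hω

theorem D2_fib {Ω : Type} {p : Ultrafilter Ω} {x y : Ω → V} (h : CE W q U p x y) :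
    ∀ᶠ ω in (p : Filter Ω), W.fib (y ω) = W.fib (x ω) :=
  (D2_adj h).mono fun ω hω => hω.elim (fun h => (W.rf _ _ h).symm) (fun h => W.rf _ _ h)

theorem D2_kn (S : Sys W q U) {Ω : Type} {p : Ultrafilter Ω} {x y : Ω → V} (h : CE W q U p x y) : Kn U p x y :=
  S.kn (D2_qx h) (D2_qy h) (D2_adj h) (D2_fw h)

theorem D2_fr_comp {Ω D D' : Type} {p : Ultrafilter Ω} {Y : Ω → D} {Y' : Ω → D'} {b : Ω → V}
    (f : D → D') (hf : ∀ ω, Y' ω = f (Y ω)) (h : Fr U p Y b) : Fr U p Y' b :=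
  fun K hK => (h K hK).comp f (Filter.Eventually.of_forall hf)

theorem D2_mem_of_map {Z : Type} {p : Ultrafilter Z} {f : Z → V} (h : p.map f = q) {A : Set V} (hA : A ∈ q) :
    ∀ᶠ z in (p : Filter Z), f z ∈ A := by
  rw [← h] at hA
  exact hA

/-- the end of a free path is known -/
theorem D2_kn_path (S : Sys W q U) {t0 d : ℕ} (h1 : NoOut W t0 d) (h2 : NoOut W.dual t0 d) {Ω : Type}
    {p : Ultrafilter Ω} {M : ℕ} {v : Ω → V} {w : Ω → Fin (M + 1) → V} (hP : FPath W q U p v w) :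
    ∀ i, Kn U p v (fun ω => w ω i) := by
  refine tp_path S h1 h2 (D2_kn S hP.e0) hP.e fun i => ?_
  refine D2_fr_comp (fun s => (s.1, (s.2 i.castSucc).getD s.1)) (fun ω => ?_) (hP.free i.succ)
  have : res (Finset.Iio i.succ) (w ω) i.castSucc = some (w ω i.castSucc) :=
    if_pos (Finset.mem_Iio.2 Fin.castSucc_lt_succ)
  simp only [this, Option.getD_some]

theorem D2_path_fib {Ω : Type} {p : Ultrafilter Ω} {M : ℕ} {v : Ω → V} {w : Ω → Fin (M + 1) → V}
    (hP : FPath W q U p v w) : ∀ᶠ ω in (p : Filter Ω), ∀ i, W.fib (w ω i) = W.fib (v ω) := by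
  have h2 : ∀ᶠ ω in (p : Filter Ω), ∀ i : Fin M, W.fib (w ω i.succ) = W.fib (w ω i.castSucc) :=
    Filter.eventually_all.2 fun i => D2_fib (hP.e i)
  filter_upwards [D2_fib hP.e0, h2] with ω h1 h2 i
  induction i using Fin.induction with
  | zero => exact h1
  | succ i ih => rw [h2, ih]

/-- the mean of members of a resource -/
theorem D2_Ex_mem {K : Set (V → ℝ)} (hK : IsRes K) {Z : Type} {D : Finset Z} {θ : Z → ℝ} (hθ : IsPr D θ)
    {f : Z → V → ℝ} (hf : ∀ z, f z ∈ K) : (fun v => Ex D θ (fun z => f z v)) ∈ K := by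
  have : (fun v => Ex D θ (fun z => f z v)) = ∑ z ∈ D, θ z • f z := by
    ext v
    simp [Ex]
  rw [this]
  exact hK.conv.sum_mem (fun z _ => hθ.nn z) hθ.sum (fun z _ => hf z)

/-- the last choice, for fixed `ω, P'` -/
theorem D2_pick {t m : ℕ} {K K1 : Set (V → ℝ)} (hK : IsRes K) (hKK : K ⊆ K1) (x' : V)
    {D D' : Finset (Nd t m → V)} {μ μ' : (Nd t m → V) → ℝ} {δτ c0 ε' η : ℝ} (hμ : μ ∈ SP anc K1 δτ D)
    (hμ' : μ' ∈ SP anc K1 δτ D') (hArr : c0 ≤ Pr2 D μ D' μ' (fun τ'' τ' => Arr W x' τ' τ''))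
    (G1 : Nd t m → (Nd t m → Option V) → V → ℝ) (hG1 : ∀ n s, G1 n s ∈ K)
    (G2 : Nd t m → (Nd t m → V) → (Nd t m → Option V) → V → ℝ) (hG2 : ∀ n σ s, G2 n σ s ∈ K)
    (g5 : Option (Nd t m) → Nd t m → V → V → ℝ) (hg5 : ∀ a n s, g5 a n s ∈ K) (G6 : (Nd t m → V) → ℝ)
    (h5 : ∀ n, Pr D μ (fun τ'' => η ≤ g5 none n (τ'' n) x') ≤ ε') (h6 : Pr D μ (fun τ'' => η ≤ G6 τ'') ≤ ε')
    (hη : 0 < η) (hδ : δτ / η ≤ ε')
    (hsum : (2 * (Fintype.card (Nd t m) : ℝ) + (Fintype.card (Nd t m) + 1) * Fintype.card (Nd t m) + 1) * ε' < c0) :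
    ∃ τ'' ∈ D, ∃ τ' ∈ D', Arr W x' τ' τ'' ∧ (∀ n, G1 n (res (anc n) τ') (τ' n) < η) ∧
      (∀ n, G2 n τ' (res (anc n) τ'') (τ'' n) < η) ∧ (∀ a n, g5 a n (τ'' n) (ev x' τ' a) < η) ∧ G6 τ'' < η := by
  have hnn : ∀ g ∈ K, ∀ v, 0 ≤ g v := hK.nn
  obtain ⟨z, hz, hE, hB⟩ := pick (J := Nd t m ⊕ Nd t m ⊕ (Option (Nd t m) × Nd t m) ⊕ Unit) (D ×ˢ D')
    (fun z => μ z.1 * μ' z.2) (D2_isPr hμ.1 hμ'.1) (fun z => Arr W x' z.2 z.1)
    (fun j z => match j with
      | Sum.inl n => η ≤ G1 n (res (anc n) z.2) (z.2 n)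
      | Sum.inr (Sum.inl n) => η ≤ G2 n z.2 (res (anc n) z.1) (z.1 n)
      | Sum.inr (Sum.inr (Sum.inl an)) => η ≤ g5 an.1 an.2 (z.1 an.2) (ev x' z.2 an.1)
      | Sum.inr (Sum.inr (Sum.inr _)) => η ≤ G6 z.1)
    (fun _ => ε')
    (by
      rintro (n | n | ⟨a, n⟩ | _)
      · refine D2_Pr_fst hμ.1 (fun _ z' => η ≤ G1 n (res (anc n) z') (z' n)) fun _ _ => ?_
        exact (markov hμ'.1 (fun z' _ => hnn _ (hG1 n _) _) hη
          (hμ'.2 n (fun s => G1 n s) (fun s => hKK (hG1 n s)))).trans hδ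
      · refine D2_Pr_snd hμ'.1 (fun z z' => η ≤ G2 n z' (res (anc n) z) (z n)) fun z' _ => ?_
        exact (markov hμ.1 (fun z _ => hnn _ (hG2 n z' _) _) hη
          (hμ.2 n (fun s => G2 n z' s) (fun s => hKK (hG2 n z' s)))).trans hδ
      · cases a with
        | none =>
          exact D2_Pr_snd hμ'.1 (fun (z _ : Nd t m → V) => η ≤ g5 none n (z n) x') fun z' _ => h5 n
        | some a =>
          refine D2_Pr_fst hμ.1 (fun (z z' : Nd t m → V) => η ≤ g5 (some a) n (z n) (z' a)) fun z _ => ?_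
          exact (markov hμ'.1 (fun z' _ => hnn _ (hg5 _ n _) _) hη
            (hμ'.2 a (fun _ => g5 (some a) n (z n)) (fun s => hKK (hg5 _ n _)))).trans hδ
      · exact D2_Pr_snd hμ'.1 (fun z _ => η ≤ G6 z) fun z' _ => h6)
    (by
      rw [D2_Pr_eq D D' μ μ' (fun z z' => Arr W x' z' z)]
      refine lt_of_lt_of_le ?_ hArr
      refine lt_of_eq_of_lt ?_ hsum
      rw [Finset.sum_const, Finset.card_univ, nsmul_eq_mul]
      congr 1
      rw [Fintype.card_sum, Fintype.card_sum, Fintype.card_sum, Fintype.card_prod, Fintype.card_option,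
        Fintype.card_unit]
      push_cast
      ring)
  rw [Finset.mem_product] at hz
  exact ⟨z.1, hz.1, z.2, hz.2, hE, fun n => not_le.1 (hB (Sum.inl n)), fun n => not_le.1 (hB (Sum.inr (Sum.inl n))),
    fun a n => not_le.1 (hB (Sum.inr (Sum.inr (Sum.inl (a, n))))), not_le.1 (hB (Sum.inr (Sum.inr (Sum.inr ()))))⟩

/-- the good set of the kernel, for data `F` -/
def D2_R {t m : ℕ} (F : BD W q U t m) (R2 : Set (V × (Nd t m → V))) (x : V) (τ : Nd t m → V) : Prop :=
  (x, τ) ∈ R2 ∧ x ∈ F.A ∧ (∀ n, τ n ∈ F.A) ∧ (∀ n, F.φ (ev x τ (fa n)) (τ n)) ∧ OutT W x τ ∧ F.Inn x τ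

theorem D2_hR {t m : ℕ} (F : BD W q U t m) {rB : Ultrafilter (V × (Nd t m → V))}
    (hB : IsB W q U rB Prod.fst Prod.snd) {R2 : Set (V × (Nd t m → V))} (hR2 : R2 ∈ rB) :
    ∀ᶠ z in (rB : Filter (V × (Nd t m → V))), D2_R F R2 z.1 z.2 := by
  have e1 : ∀ᶠ z in (rB : Filter (V × (Nd t m → V))), z.1 ∈ F.A := D2_mem_of_map hB.qx F.hA
  have e2 : ∀ᶠ z in (rB : Filter (V × (Nd t m → V))), ∀ n, z.2 n ∈ F.A :=
    Filter.eventually_all.2 fun n => D2_mem_of_map (hB.arc n).qy F.hA
  have e3 : ∀ᶠ z in (rB : Filter (V × (Nd t m → V))), ∀ n, F.φ (ev z.1 z.2 (fa n)) (z.2 n) :=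
    Filter.eventually_all.2 fun n => InFC.of_CA F.hφ (hB.arc n)
  have e4 : ∀ᶠ z in (rB : Filter (V × (Nd t m → V))), ∀ n, F.bx n (res (insert n (anc n)) z.2) z.1 < F.η :=
    Filter.eventually_all.2 fun n => hB.bx n F.K F.hK (F.bx n) (F.hbx n) F.η F.hη
  have e5 : ∀ᶠ z in (rB : Filter (V × (Nd t m → V))), ∀ n, ∀ a, a ∈ anc n →
      F.bn n a (res (seg a n) z.2) (z.2 a) < F.η := by
    refine Filter.eventually_all.2 fun n => Filter.eventually_all.2 fun a => ?_
    by_cases ha : a ∈ anc n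
    · exact (hB.bn n a ha F.K F.hK (F.bn n a) (F.hbn n a) F.η F.hη).mono fun z hz _ => hz
    · exact Filter.Eventually.of_forall fun z h => absurd h ha
  filter_upwards [hR2, e1, e2, e3, hB.out, e4, e5] with z h0 h1 h2 h3 h4 h5 h6
  exact ⟨h0, h1, h2, h3, h4, h5, fun n a ha => h6 n a ha⟩

theorem D2_phimu {t m : ℕ} (S : Sys W q U) (F : BD W q U t m) (Dm : V → Finset (Nd t m → V))
    (μ : V → (Nd t m → V) → ℝ) (hμ : ∀ᶠ y in (q : Filter V), IsPr (Dm y) (μ y)) {ε0 : ℝ} (hε0 : 0 < ε0) :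
    InFC W q U (fun e p => F.φ e p ∧ F.b0 p e < F.η ∧
      ∀ n, Ex (Dm p) (μ p) (fun τ => F.be n p (res (insert n (anc n)) τ) e) < ε0 * F.η) := by
  rw [inFC_iff S]
  intro p hp
  have hKr := S.res F.K F.hK
  have e1 := InFC.of_CA F.hφ hp
  have e2 : ∀ᶠ z in (p : Filter (V × V)), F.b0 z.2 z.1 < F.η := hp.bw F.K F.hK F.b0 F.hb0 F.η F.hη
  have e3 : ∀ᶠ z in (p : Filter (V × V)), IsPr (Dm z.2) (μ z.2) := by
    have := hμ
    rw [← hp.qy] at this
    exact this
  have e4 : ∀ᶠ z in (p : Filter (V × V)), ∀ n, (if IsPr (Dm z.2) (μ z.2) then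
      (fun e => Ex (Dm z.2) (μ z.2) (fun τ => F.be n z.2 (res (insert n (anc n)) τ) e)) else F.b0 z.2) z.1 <
      ε0 * F.η := by
    refine Filter.eventually_all.2 fun n => hp.bw F.K F.hK (fun y => if IsPr (Dm y) (μ y) then
      (fun e => Ex (Dm y) (μ y) (fun τ => F.be n y (res (insert n (anc n)) τ) e)) else F.b0 y) (fun y => ?_)
      (ε0 * F.η) (mul_pos hε0 F.hη)
    split_ifs with hy
    · exact D2_Ex_mem hKr hy fun τ => F.hbe n y _
    · exact F.hb0 y
  filter_upwards [e1, e2, e3, e4] with z h1 h2 h3 h4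
  refine ⟨h1, h2, fun n => ?_⟩
  have := h4 n
  rwa [if_pos h3] at this

theorem D_fin (S : Sys W q U) {t0 d : ℕ} (h1 : NoOut W t0 d) (h2 : NoOut W.dual t0 d) {t m : ℕ} (F : BD W q U t m)
    (hF : F.Emp) (rB : Ultrafilter (V × (Nd t m → V))) (hB : IsB W q U rB Prod.fst Prod.snd) {Ω : Type}
    (p : Ultrafilter Ω) {M : ℕ} (v : Ω → V) (w : Ω → Fin (M + 1) → V) (hP : FPath W q U p v w) (y : Ω → V)
    (hy : CE W q U p (fun ω => w ω (Fin.last M)) y) (R1 : Set (V × (Fin (M + 1) → V)))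
    (hR1 : ∀ᶠ ω in (p : Filter Ω), (v ω, w ω) ∈ R1) (R2 : Set (V × (Nd t m → V))) (hR2 : R2 ∈ rB)
    {K : Set (V → ℝ)} (hK : K ∈ U) (gP : Fin (M + 1) → Ω × (Fin (M + 1) → Option V) → V → ℝ) (hgP : ∀ i s, gP i s ∈ K)
    (g1 : Nd t m → (Ω × (Fin (M + 1) → V)) × (Nd t m → Option V) → V → ℝ) (hg1 : ∀ n s, g1 n s ∈ K)
    (g2 : Nd t m → (Ω × (Fin (M + 1) → V) × (Nd t m → V)) × (Nd t m → Option V) → V → ℝ) (hg2 : ∀ n s, g2 n s ∈ K)
    (g5 : Option (Nd t m) → Nd t m → V → V → ℝ) (hg5 : ∀ a n s, g5 a n s ∈ K)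
    (g6 : V × (Nd t m → V) → V → ℝ) (hg6 : ∀ s, g6 s ∈ K) {η : ℝ} (hη : 0 < η) :
    ∀ᶠ ω in (p : Filter Ω), ∃ (P' : Fin (M + 1) → V) (τ' τ'' : Nd t m → V), (v ω, P') ∈ R1 ∧
      (P' (Fin.last M), τ') ∈ R2 ∧ (w ω (Fin.last M), τ'') ∈ R2 ∧ Arr W (P' (Fin.last M)) τ' τ'' ∧
      (∀ i, gP i (ω, res (Finset.Iio i) P') (P' i) < η) ∧
      (∀ n, g1 n ((ω, P'), res (anc n) τ') (τ' n) < η) ∧
      (∀ n, g2 n ((ω, P', τ'), res (anc n) τ'') (τ'' n) < η) ∧
      (∀ a n, g5 a n (τ'' n) (ev (P' (Fin.last M)) τ' a) < η) ∧ g6 (w ω (Fin.last M), τ'') (y ω) < η := by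
  -- constants
  obtain ⟨ε0, hε0, hub⟩ := hubB M F hF
  have ht : 1 ≤ t := hF.pos
  have ht' : (0 : ℝ) < t := by exact_mod_cast ht
  obtain ⟨c0, hc0⟩ : ∃ c0 : ℝ, c0 = 1 / (8 * (t : ℝ) ^ 2) := ⟨_, rfl⟩
  have hc0p : 0 < c0 := by rw [hc0]; positivity
  have hKr := S.res K hK
  obtain ⟨K1, hK1⟩ : ∃ K1, K1 = jn (jn K F.K) (EQr V) := ⟨_, rfl⟩
  have hK1U : K1 ∈ U := by rw [hK1]; exact S.join _ (S.join _ hK _ F.hK) _ S.eq
  have hK1r := S.res K1 hK1U
  have hKK1 : K ⊆ K1 := by
    rw [hK1]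
    exact ((Set.subset_union_left.trans (subset_convexHull ℝ _)).trans Set.subset_union_left).trans
      (subset_convexHull ℝ _)
  have hFK1 : F.K ⊆ K1 := by
    rw [hK1]
    exact ((Set.subset_union_right.trans (subset_convexHull ℝ _)).trans Set.subset_union_left).trans
      (subset_convexHull ℝ _)
  have hEK1 : EQr V ⊆ K1 := by
    rw [hK1]
    exact Set.subset_union_right.trans (subset_convexHull ℝ _)
  obtain ⟨Q, hQ⟩ : ∃ Q : ℝ, Q = 2 * (Fintype.card (Nd t m) : ℝ) + (Fintype.card (Nd t m) + 1) *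
    Fintype.card (Nd t m) + 1 := ⟨_, rfl⟩
  have hQp : 0 < Q := by rw [hQ]; positivity
  obtain ⟨ε', hε'⟩ : ∃ ε' : ℝ, ε' = c0 / (2 * Q) := ⟨_, rfl⟩
  have hε'p : 0 < ε' := by rw [hε']; positivity
  have hQε : Q * ε' < c0 := by
    have : Q * ε' = c0 / 2 := by rw [hε']; field_simp
    rw [this]
    linarith
  obtain ⟨δτ, hδτ⟩ : ∃ δτ : ℝ, δτ = min ε0 (ε' * η) := ⟨_, rfl⟩
  have hδτp : 0 < δτ := by rw [hδτ]; exact lt_min hε0 (mul_pos hε'p hη)
  have hδτ0 : δτ ≤ ε0 := by rw [hδτ]; exact min_le_left _ _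
  have hδτη : δτ / η ≤ ε' := by
    rw [div_le_iff₀ hη, hδτ]
    exact min_le_right _ _
  -- the kernel
  obtain ⟨Dm, μ, hker⟩ := kernel S rB Prod.fst Prod.snd hB.qx (hB.out.mono fun z hz n => hz.fib n) hB.free
    (D2_R F R2) (D2_hR F hB hR2) hK1U hδτp
  obtain ⟨A1, hA1⟩ : ∃ A1 : Set V, A1 = {y | μ y ∈ SP anc K1 δτ (Dm y) ∧ ∀ σ ∈ Dm y, D2_R F R2 y σ} := ⟨_, rfl⟩
  have hA1q : A1 ∈ q := by rw [hA1]; exact hker
  have hA1m : ∀ y ∈ A1, μ y ∈ SP anc K1 δτ (Dm y) ∧ ∀ σ ∈ Dm y, D2_R F R2 y σ := by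
    intro y hy'
    rw [hA1] at hy'
    exact hy'
  -- adapted hubs
  have hφμ := D2_phimu S F Dm μ (Filter.mem_of_superset hA1q fun y hy' => (hA1m y hy').1.1) hε0
  have hpar := par_not_mem S (D2_hC hP.e0) F.hA hφμ
  have hkn := D2_kn_path S h1 h2 hP (Fin.last M) _ (isRes_Par W F.A _) hpar
  rw [not_unk_iff] at hkn
  obtain ⟨g, hg, δ1, hδ1, hgδ⟩ := hkn
  -- up
  obtain ⟨D0, hD0⟩ : ∃ D0 : V → Finset (Fin (M + 1) → V), D0 = fun a => (FibF W (Fin (M + 1)) a).filter
    (fun P => (a, P) ∈ R1 ∧ P (Fin.last M) ∈ A1 ∧ P (Fin.last M) ∈ F.A ∧ δ1 ≤ g a (P (Fin.last M))) := ⟨_, rfl⟩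
  have hlast := D2_qx hy
  have hD0m : ∀ᶠ ω in (p : Filter Ω), w ω ∈ D0 (v ω) := by
    filter_upwards [D2_path_fib hP, hR1, D2_mem_of_map hlast hA1q, D2_mem_of_map hlast F.hA, hgδ] with
      ω e1 e2 e3 e4 e5
    rw [hD0]
    exact Finset.mem_filter.2 ⟨mem_FibF.2 e1, e2, e3, e4, e5⟩
  obtain ⟨p', hp1, hp2, hp3, hp4, _⟩ := up S p v w (fun i => Finset.Iio i) D0 hD0m hP.free
    (fun _ P P' => c0 ≤ Pr2 (Dm (P (Fin.last M))) (μ (P (Fin.last M))) (Dm (P' (Fin.last M))) (μ (P' (Fin.last M)))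
      (fun τ'' τ' => Arr W (P' (Fin.last M)) τ' τ'')) K1 hK1U (δ1 := ε0 * δ1) (c := δ1 ^ 2 / (8 * (t : ℝ) ^ 2))
    (mul_pos hε0 hδ1) (by positivity) (Filter.Eventually.of_forall fun ω θ hθ => by
      have := hub K1 hK1r hFK1 hEK1 Dm μ (D0 (v ω)) θ δτ (ε0 * δ1) δ1 hδτ0 hδ1 le_rfl hθ (fun P hP' => by
        rw [hD0] at hP'
        obtain ⟨_, _, a1, a2, _⟩ := Finset.mem_filter.1 hP'
        obtain ⟨b1, b2⟩ := hA1m _ a1
        exact ⟨b1, a2, fun τ hτ => ⟨(b2 τ hτ).2.2.1, (b2 τ hτ).2.2.2.1, (b2 τ hτ).2.2.2.2.1,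
          (b2 τ hτ).2.2.2.2.2⟩⟩) (g (v ω)) (hg (v ω)) (fun P hP' => by
        rw [hD0] at hP'
        exact (Finset.mem_filter.1 hP').2.2.2.2)
      rw [hc0]
      exact this)
  -- back to `p`
  have hback : ∀ E : Set Ω, (∀ᶠ z in (p' : Filter (Ω × (Fin (M + 1) → V))), z.1 ∈ E) →
      ∀ᶠ ω in (p : Filter Ω), ω ∈ E := by
    intro E hE
    have : E ∈ p'.map Prod.fst := hE
    rwa [hp1] at this
  have hforw : ∀ E : Ω → Prop, (∀ᶠ ω in (p : Filter Ω), E ω) →
      ∀ᶠ z in (p' : Filter (Ω × (Fin (M + 1) → V))), E z.1 := by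
    intro E hE
    have h' : {ω | E ω} ∈ p := hE
    rw [← hp1] at h'
    exact h'
  refine hback _ ?_
  -- the conditions on `(ω, P')`
  have htype : ∀ E : V × (Fin (M + 1) → V) → Prop, (∀ᶠ ω in (p : Filter Ω), E (v ω, w ω)) →
      ∀ᶠ z in (p' : Filter (Ω × (Fin (M + 1) → V))), E (v z.1, z.2) := by
    intro E hE
    have h' : {s | E s} ∈ p.map (fun ω => (v ω, w ω)) := hE
    rw [← hp2] at h'
    exact h'
  have c1 := htype (fun s => s ∈ R1) hR1
  have c2 := htype (fun s => s.2 (Fin.last M) ∈ A1) (D2_mem_of_map hlast hA1q)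
  have c3 := hforw (fun ω => w ω (Fin.last M) ∈ A1) (D2_mem_of_map hlast hA1q)
  have c4 : ∀ᶠ z in (p' : Filter (Ω × (Fin (M + 1) → V))), ∀ i, gP i (z.1, res (Finset.Iio i) z.2) (z.2 i) < η :=
    Filter.eventually_all.2 fun i => hp4 i K hK (gP i) (hgP i) η hη
  have c5 : ∀ᶠ z in (p' : Filter (Ω × (Fin (M + 1) → V))), ∀ n,
      IsPr (Dm (w z.1 (Fin.last M))) (μ (w z.1 (Fin.last M))) →
      Pr (Dm (w z.1 (Fin.last M))) (μ (w z.1 (Fin.last M))) (fun τ'' => η ≤ g5 none n (τ'' n) (z.2 (Fin.last M))) ≤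
        ε' := by
    refine Filter.eventually_all.2 fun n => ?_
    exact average p' (fun z => w z.1 (Fin.last M)) (fun z => z.2 (Fin.last M)) hKr
      ((hp4 (Fin.last M) K hK).comp (fun s => w s.1 (Fin.last M)) (Filter.Eventually.of_forall fun _ => rfl))
      Dm μ (fun _ τ'' => g5 none n (τ'' n)) (fun _ _ => hg5 _ _ _) hε'p hη
  have c6 := hforw _ (average p (fun ω => w ω (Fin.last M)) y hKr (D2_fw hy K hK) Dm μ
    (fun x τ'' => g6 (x, τ'')) (fun _ _ => hg6 _) hε'p hη)
  filter_upwards [c1, c2, c3, c4, c5, c6, hp3] with z e1 e2 e3 e4 e5 e6 e7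
  obtain ⟨hμ', hR'⟩ := hA1m _ e2
  obtain ⟨hμ, hR⟩ := hA1m _ e3
  obtain ⟨τ'', hτ'', τ', hτ', k1, k2, k3, k4, k5⟩ := D2_pick (W := W) hKr hKK1 (z.2 (Fin.last M)) hμ hμ' e7
    (fun n s => g1 n ((z.1, z.2), s)) (fun n s => hg1 n _) (fun n σ s => g2 n ((z.1, z.2, σ), s))
    (fun n σ s => hg2 n _) g5 hg5 (fun τ'' => g6 (w z.1 (Fin.last M), τ'') (y z.1)) (fun n => e5 n hμ.1) (e6 hμ.1) hη
    hδτη (by rw [← hQ]; exact hQε)
  exact ⟨z.2, τ', τ'', e1, (hR' τ' hτ').1, (hR τ'' hτ'').1, k1, e4, k2, k3, k4, k5⟩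

end Pool.Agent.Lib.MP_b0c2b5_co.AT
end
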