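import Pool.Agent.Lib.MP_b0c2b5_co.Mg.G001
import Pool.Agent.Lib.MP_b0c2b5_co.Mg.G004
import Pool.Agent.Lib.MP_b0c2b5_co.AT.Net

section

/-!
# AT, H1a: finite probability calculus

PROOFS. `Ex`, `Pr` are finite sums. `hub_abs`: the product law `∏ i, θ i (z i)` on `Fintype.piFinset D` (total mass one: `Finset.prod_univ_sum`); the event that all `z i` are good has probability at least `1 - t * (1/(4t)) = 3/4`; it is contained in the union over the at most `t ^ 2` pairs `i ≠ j` of the events `Good (z i) ∧ Good (z j) ∧ Cr (z i) (z j)`,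
whose probability is the `Pr2` of the pair (marginal of the product law). `cond`: conditioning `θ` on an event `E` of probability `c > 0`: `θ' z := if z ∈ D ∧ E z then θ z / c else 0`.
-/

set_option autoImplicit false

namespace Pool.Agent.Lib.MP_b0c2b5_co.AT

open LS Filter
open scoped Classical

variable {V : Type}

theorem Ex_le_one {Z : Type} {D : Finset Z} {θ f : Z → ℝ} (hθ : IsPr D θ) (hf : ∀ z ∈ D, f z ≤ 1) : Ex D θ f ≤ 1 := by
  have h : Ex D θ f ≤ ∑ z ∈ D, θ z := by
    refine Finset.sum_le_sum (fun z hz => ?_)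
    have := mul_le_mul_of_nonneg_left (hf z hz) (hθ.nn z)
    rwa [mul_one] at this
  rwa [hθ.sum] at h

theorem Ex_nonneg {Z : Type} {D : Finset Z} {θ f : Z → ℝ} (hθ : IsPr D θ) (hf : ∀ z ∈ D, 0 ≤ f z) : 0 ≤ Ex D θ f :=
  Finset.sum_nonneg (fun z hz => mul_nonneg (hθ.nn z) (hf z hz))

theorem Ex_mono {Z : Type} {D : Finset Z} {θ f g : Z → ℝ} (hθ : IsPr D θ) (h : ∀ z ∈ D, f z ≤ g z) : Ex D θ f ≤ Ex D θ g :=
  Finset.sum_le_sum (fun z hz => mul_le_mul_of_nonneg_left (h z hz) (hθ.nn z))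

theorem markov {Z : Type} {D : Finset Z} {θ f : Z → ℝ} (hθ : IsPr D θ) (hf : ∀ z ∈ D, 0 ≤ f z) {η δ : ℝ} (hη : 0 < η)
    (h : Ex D θ f ≤ δ) : Pr D θ (fun z => η ≤ f z) ≤ δ / η := by
  rw [le_div_iff₀ hη]
  refine le_trans ?_ h
  unfold Pr Ex
  rw [Finset.sum_mul]
  refine Finset.sum_le_sum (fun z hz => ?_)
  rw [mul_assoc]
  refine mul_le_mul_of_nonneg_left ?_ (hθ.nn z)
  dsimp only
  by_cases hz' : η ≤ f z
  · rw [if_pos hz', one_mul]
    exact hz'
  · rw [if_neg hz', zero_mul]
    exact hf z hz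

/-- union bound for the complement -/
theorem pr_good {Z J : Type} [Fintype J] {D : Finset Z} {θ : Z → ℝ} (hθ : IsPr D θ) (Good : Z → Prop) (B : J → Z → Prop)
    (h : ∀ z ∈ D, (∀ j, ¬ B j z) → Good z) (ε : J → ℝ) (hB : ∀ j, Pr D θ (B j) ≤ ε j) : 1 - ∑ j, ε j ≤ Pr D θ Good := by
  have h1 : (1 : ℝ) ≤ Pr D θ Good + ∑ j, Pr D θ (B j) := by
    have e : ∑ j, Pr D θ (B j) = ∑ z ∈ D, θ z * ∑ j, (if B j z then (1 : ℝ) else 0) := by
      unfold Pr Ex
      rw [Finset.sum_comm]
      refine Finset.sum_congr rfl (fun z _ => ?_)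
      rw [Finset.mul_sum]
    rw [e]
    refine hθ.sum.symm.le.trans ?_
    unfold Pr Ex
    rw [← Finset.sum_add_distrib]
    refine Finset.sum_le_sum (fun z hz => ?_)
    dsimp only
    rw [← mul_add]
    have hb : (1 : ℝ) ≤ (if Good z then (1 : ℝ) else 0) + ∑ j, (if B j z then (1 : ℝ) else 0) := by
      by_cases hg : Good z
      · rw [if_pos hg]
        have : (0 : ℝ) ≤ ∑ j, (if B j z then (1 : ℝ) else 0) := Finset.sum_nonneg (fun j _ => by split <;> norm_num)
        linarith
      · rw [if_neg hg, zero_add]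
        have hex : ∃ j, B j z := by
          by_contra hc
          push Not at hc
          exact hg (h z hz hc)
        obtain ⟨j, hj⟩ := hex
        have h2 := Finset.single_le_sum (f := fun j => if B j z then (1 : ℝ) else 0)
          (fun j _ => by split <;> norm_num) (Finset.mem_univ j)
        simp only [if_pos hj] at h2
        exact h2
    have := mul_le_mul_of_nonneg_left hb (hθ.nn z)
    rwa [mul_one] at this
  have h2 : ∑ j, Pr D θ (B j) ≤ ∑ j, ε j := Finset.sum_le_sum (fun j _ => hB j)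
  linarith

/-- conditional law -/
noncomputable def cond {Z : Type} (D : Finset Z) (θ : Z → ℝ) (E : Z → Prop) : Z → ℝ :=
  fun z => if E z then θ z / Pr D θ E else 0

theorem isPr_cond {Z : Type} {D : Finset Z} {θ : Z → ℝ} (hθ : IsPr D θ) {E : Z → Prop} (hE : 0 < Pr D θ E) :
    IsPr (D.filter E) (cond D θ E) := by
  refine ⟨fun z => ?_, fun z hz => ?_, ?_⟩
  · unfold cond
    split
    · exact div_nonneg (hθ.nn z) hE.le
    · exact le_rfl
  · unfold cond
    by_cases hz' : E z
    · rw [if_pos hz']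
      have : z ∉ D := fun h => hz (Finset.mem_filter.2 ⟨h, hz'⟩)
      rw [hθ.supp z this, zero_div]
    · rw [if_neg hz']
  · have h1 : ∑ z ∈ D.filter E, cond D θ E z = (∑ z ∈ D.filter E, θ z) / Pr D θ E := by
      rw [Finset.sum_div]
      refine Finset.sum_congr rfl (fun z hz => ?_)
      unfold cond
      rw [if_pos (Finset.mem_filter.1 hz).2]
    have h2 : ∑ z ∈ D.filter E, θ z = Pr D θ E := by
      unfold Pr Ex
      rw [Finset.sum_filter]
      refine Finset.sum_congr rfl (fun z _ => ?_)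
      dsimp only
      split
      · rw [mul_one]
      · rw [mul_zero]
    rw [h1, h2, div_self hE.ne']

theorem H1a_Ex_cond {Z : Type} {D : Finset Z} {θ : Z → ℝ} (E : Z → Prop) (f : Z → ℝ) :
    Ex (D.filter E) (cond D θ E) f = (Ex D θ (fun z => if E z then f z else 0)) / Pr D θ E := by
  unfold Ex
  rw [Finset.sum_div, Finset.sum_filter]
  refine Finset.sum_congr rfl (fun z _ => ?_)
  unfold cond
  by_cases hz : E z
  · simp only [if_pos hz]
    ring
  · simp only [if_neg hz, mul_zero, zero_div]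

/-- conditioning on an event of probability at least `c` costs a factor `1 / c` -/
theorem SP_cond {I : Type} {past : I → Finset I} {K : Set (V → ℝ)} {δ c : ℝ} {D : Finset (I → V)} {θ : (I → V) → ℝ}
    (hK : IsRes K) (h : θ ∈ SP past K δ D) {E : (I → V) → Prop} (hc : 0 < c) (hE : c ≤ Pr D θ E) :
    cond D θ E ∈ SP past K (δ / c) (D.filter E) := by
  refine ⟨isPr_cond h.1 (lt_of_lt_of_le hc hE), fun b g hg => ?_⟩
  rw [H1a_Ex_cond]
  have h1 : Ex D θ (fun z => if E z then g (res (past b) z) (z b) else 0) ≤ δ := by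
    refine le_trans (Ex_mono h.1 (fun z _ => ?_)) (h.2 b g hg)
    by_cases hz : E z
    · rw [if_pos hz]
    · rw [if_neg hz]
      exact hK.nn _ (hg _) _
  have h0 : 0 ≤ Ex D θ (fun z => if E z then g (res (past b) z) (z b) else 0) := by
    refine Ex_nonneg h.1 (fun z _ => ?_)
    by_cases hz : E z
    · rw [if_pos hz]
      exact hK.nn _ (hg _) _
    · rw [if_neg hz]
  exact div_le_div₀ (h0.trans h1) h1 hc hE

/-- the probability of an event for two independent points from conditional laws -/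
theorem Pr2_cond {Z : Type} {D : Finset Z} {θ : Z → ℝ} (hθ : IsPr D θ) {E : Z → Prop} {c : ℝ} (hc : 0 < c)
    (hE : c ≤ Pr D θ E) (R : Z → Z → Prop) :
    c ^ 2 * Pr2 (D.filter E) (cond D θ E) (D.filter E) (cond D θ E) R ≤ Pr2 D θ D θ R := by
  have hE0 : 0 < Pr D θ E := lt_of_lt_of_le hc hE
  have h1 : Pr2 (D.filter E) (cond D θ E) (D.filter E) (cond D θ E) R =
      Ex D θ (fun z => if E z then Ex D θ (fun z' => if E z' then (if R z z' then 1 else 0) else 0) else 0) /
        (Pr D θ E) ^ 2 := by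
    unfold Pr2
    rw [H1a_Ex_cond]
    have h2 : (fun z => if E z then Ex (D.filter E) (cond D θ E) (fun z' => if R z z' then (1 : ℝ) else 0) else 0) =
        fun z => (if E z then Ex D θ (fun z' => if E z' then (if R z z' then (1 : ℝ) else 0) else 0) else 0) / Pr D θ E := by
      funext z
      by_cases hz : E z
      · rw [if_pos hz, if_pos hz, H1a_Ex_cond]
      · rw [if_neg hz, if_neg hz, zero_div]
    rw [h2]
    have h3 : ∀ f : Z → ℝ, Ex D θ (fun z => f z / Pr D θ E) = Ex D θ f / Pr D θ E := by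
      intro f
      unfold Ex
      rw [Finset.sum_div]
      refine Finset.sum_congr rfl (fun z _ => ?_)
      ring
    rw [h3, sq, div_div]
  rw [h1]
  have h4 : Ex D θ (fun z => if E z then Ex D θ (fun z' => if E z' then (if R z z' then (1 : ℝ) else 0) else 0) else 0)
      ≤ Pr2 D θ D θ R := by
    unfold Pr2
    refine Ex_mono hθ (fun z _ => ?_)
    by_cases hz : E z
    · rw [if_pos hz]
      refine Ex_mono hθ (fun z' _ => ?_)
      by_cases hz' : E z'
      · rw [if_pos hz']
      · rw [if_neg hz']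
        split <;> norm_num
    · rw [if_neg hz]
      refine Ex_nonneg hθ (fun z' _ => ?_)
      split <;> norm_num
  have h5 : 0 ≤ Ex D θ (fun z => if E z then Ex D θ (fun z' => if E z' then (if R z z' then (1 : ℝ) else 0) else 0) else 0) := by
    refine Ex_nonneg hθ (fun z _ => ?_)
    split
    · refine Ex_nonneg hθ (fun z' _ => ?_)
      split
      · split <;> norm_num
      · exact le_rfl
    · exact le_rfl
  have h6 : c ^ 2 ≤ (Pr D θ E) ^ 2 := by
    exact pow_le_pow_left₀ hc.le hE 2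
  have h7 : 0 < (Pr D θ E) ^ 2 := by positivity
  refine le_trans ?_ h4
  rw [mul_div_assoc', div_le_iff₀ h7, mul_comm]
  exact mul_le_mul_of_nonneg_left h6 h5

theorem Pr2_swap {Z Z' : Type} (D : Finset Z) (θ : Z → ℝ) (D' : Finset Z') (θ' : Z' → ℝ) (R : Z → Z' → Prop) :
    Pr2 D θ D' θ' R = Pr2 D' θ' D θ (fun z' z => R z z') := by
  unfold Pr2 Ex
  have h : ∀ (A B : Type) (D : Finset A) (D' : Finset B) (u : A → ℝ) (v : B → ℝ) (f : A → B → ℝ),
      ∑ z ∈ D, u z * ∑ z' ∈ D', v z' * f z z' = ∑ z ∈ D, ∑ z' ∈ D', u z * v z' * f z z' := by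
    intro A B D D' u v f
    refine Finset.sum_congr rfl (fun z _ => ?_)
    rw [Finset.mul_sum]
    refine Finset.sum_congr rfl (fun z' _ => ?_)
    ring
  rw [h, h, Finset.sum_comm]
  refine Finset.sum_congr rfl (fun z' _ => ?_)
  refine Finset.sum_congr rfl (fun z _ => ?_)
  ring

end Pool.Agent.Lib.MP_b0c2b5_co.AT
end

section

/-!
# AT, H2a: hub choice

PROOF of `hubF`. `N := card (Nd t m) + 1`; `ε0` with `ε0 * N / F.η ≤ 1/(4t)` and `ε0 * N ^ 2 ≤ 1/(4 t ^ 2)`. `g ∈ ParR W F.A F.φ` (convex hull) and `δ1 ≤ Ex D θ (fun z => g (z (Sum.inl (Fin.last M))))`, linear in `g`: so there is `e ∈ F.A` with `δ1 ≤ Pr D θ E`, `E z := W.r e (z (inl last)) ∧ F.φ e (z (inl last))`. `θ' := cond D θ E ∈ SP pastE K1 (δ / δ1) (D.filter E)`,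
`δ / δ1 ≤ ε0`. `Good z := F.Good e (z (inl last)) (fun n => z (inr n))`: the geometric part holds on `D.filter E`, `F.g0 e (z (inl last)) ≥ F.η` has probability `≤ ε0 / F.η` (constant test), `F.g n e p (res (anc n) τ) (τ n) ≥ F.η` also (test at `inr n`: its past contains `inl last` and `inr '' anc n`). `hub_abs` for the constant family `θ'`, `Cr := Cross`:
`3/(4t^2) ≤ Pr2 θ' θ' (Good ∧ Good ∧ Cross z z2)`. In this event there are `a, b` with `ev z a = ev z2 b` (for fixed `z, a, b` of probability `≤ ε0`: constant test with `EQr`), or an arc `ev z a → ev z2 b`; `b ≠ none` by `OutT.hub`; so `Arr W (z ..) (z2 ..)`. So `1/(2t^2) ≤ Pr2 θ' θ' (Arr z z2)`, `Pr2_swap`, `Pr2_cond`.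
-/

set_option autoImplicit false

namespace Pool.Agent.Lib.MP_b0c2b5_co.AT

open LS Filter
open scoped Classical

variable {V : Type}

/-- the past in the sequence (path, tree) -/
noncomputable def pastE {M t m : ℕ} : Fin (M + 1) ⊕ Nd t m → Finset (Fin (M + 1) ⊕ Nd t m)
  | Sum.inl i => (Finset.Iio i).image Sum.inl
  | Sum.inr n => Finset.univ.image Sum.inl ∪ (anc n).image Sum.inr

theorem FD.Emp.pos {W : World V} {q : Ultrafilter V} {U : Set (Set (V → ℝ))} {t m : ℕ} {F : FD W q U t m} (hF : F.Emp) :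
    1 ≤ t := by
  by_contra h
  have ht : t = 0 := by omega
  subst ht
  obtain ⟨e, _⟩ := Ultrafilter.nonempty_of_mem F.hA
  obtain ⟨i, _⟩ := hF e (fun i => i.elim0) (fun i => i.elim0) (fun i => i.elim0)
  exact i.elim0

theorem BD.Emp.pos {W : World V} {q : Ultrafilter V} {U : Set (Set (V → ℝ))} {t m : ℕ} {F : BD W q U t m} (hF : F.Emp) :
    1 ≤ t := by
  by_contra h
  have ht : t = 0 := by omega
  subst ht
  obtain ⟨e, _⟩ := Ultrafilter.nonempty_of_mem F.hA
  obtain ⟨i, _⟩ := hF e (fun i => i.elim0) (fun i => i.elim0) (fun i => i.elim0)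
  exact i.elim0

/-- choosing a hub -/
theorem hub_choice {W : World V} {A : Set V} {φ : V → V → Prop} {g : V → ℝ} (hg : g ∈ ParR W A φ) {Z : Type}
    {D : Finset Z} {θ : Z → ℝ} (hθ : IsPr D θ) (P : Z → V) {δ1 : ℝ} (h : ∀ z ∈ D, δ1 ≤ g (P z)) :
    ∃ e ∈ A, δ1 ≤ Pr D θ (fun z => W.r e (P z) ∧ φ e (P z)) := by
  by_contra hcon
  push Not at hcon
  have hconv : Convex ℝ {f : V → ℝ | Ex D θ (fun z => f (P z)) < δ1} := by
    intro f hf f' hf' a b ha hb hab
    rw [Set.mem_ofPred_eq] at hf hf' ⊢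
    have h1 : Ex D θ (fun z => (a • f + b • f') (P z)) =
        a * Ex D θ (fun z => f (P z)) + b * Ex D θ (fun z => f' (P z)) := by
      unfold Ex
      rw [Finset.mul_sum, Finset.mul_sum, ← Finset.sum_add_distrib]
      refine Finset.sum_congr rfl fun z _ => ?_
      simp only [Pi.add_apply, Pi.smul_apply, smul_eq_mul]
      ring
    rw [h1]
    rcases eq_or_lt_of_le ha with rfl | ha'
    · have hb1 : b = 1 := by linarith
      subst hb1
      linarith
    · have h2 : a * Ex D θ (fun z => f (P z)) < a * δ1 := mul_lt_mul_of_pos_left hf ha'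
      have h3 : b * Ex D θ (fun z => f' (P z)) ≤ b * δ1 := mul_le_mul_of_nonneg_left hf'.le hb
      have h4 : a * δ1 + b * δ1 = δ1 := by rw [← add_mul, hab, one_mul]
      linarith
  have hsub : {f : V → ℝ | ∃ e ∈ A, f = fun y => if W.r e y ∧ φ e y then (1 : ℝ) else 0} ⊆
      {f : V → ℝ | Ex D θ (fun z => f (P z)) < δ1} := by
    rintro f ⟨e, he, rfl⟩
    rw [Set.mem_ofPred_eq]
    refine lt_of_le_of_lt (le_of_eq ?_) (hcon e he)
    unfold Pr Ex
    refine Finset.sum_congr rfl fun z _ => ?_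
    refine congrArg (fun u => θ z * u) ?_
    by_cases h5 : W.r e (P z) ∧ φ e (P z)
    · beta_reduce
      rw [if_pos h5, if_pos h5]
    · beta_reduce
      rw [if_neg h5, if_neg h5]
  have h1 : Ex D θ (fun z => g (P z)) < δ1 := convexHull_min hsub hconv hg
  have h2 : δ1 ≤ Ex D θ (fun z => g (P z)) := by
    calc δ1 = ∑ z ∈ D, θ z * δ1 := by rw [← Finset.sum_mul, hθ.sum, one_mul]
      _ ≤ ∑ z ∈ D, θ z * g (P z) :=
        Finset.sum_le_sum fun z hz => mul_le_mul_of_nonneg_left (h z hz) (hθ.nn z)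
  exact absurd h1 (not_lt.2 h2)

end Pool.Agent.Lib.MP_b0c2b5_co.AT
end

section

/-!
# AT, S1a: STAR, definitions

PROOF of `exists_star`. Suppose not. For all data `(A, φ, K, δ, l, η)` there are `k ≤ R` and a walk `x_0, .., x_k` (exact length: `walk_of_reach`) with a law `θ ∈ SP anc K δ D`, `D` a finite set of unhit trees at `x_k`. One `k` occurs cofinally (data can be joined: `A ∩ A'`, `InFC.and`, `jn K K'`, `min δ δ'`, mean of `l, l'` and `(min η η') / 2`; failure for stronger data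
gives failure with the same `k` for weaker data). Compactness (an ultrafilter on `(Fin (k+1) → V) × (Nd t a → V)` containing all sets given by finitely many conditions): `Gp W A φ (x_i) (x_(i+1))`, `TrS W A φ (x_k) τ`, `l (x_0) (τ n) < η` for all `n`, tests `g ((x_0..x_k), res (anc n) τ) (τ n) < η'` (`g` into `K`; draw `τ` from `θ` with `δ` small: Markov, `pick`).
So there is an exact tuple: all `x_i`, `τ n` of type `q` (for `k = 0` and `x_0`: from `TrS`), `CE (x_i) (x_(i+1))` (the orientation is fixed by the ultrafilter), `IsF` for `(x_k, τ)`, `τ` free over `(x_0..x_k)`, and `Unk p (x_0) (τ n) (ParR W F.A F.φ)` for all `n`. `lemmaE` and `par_not_mem`, `isRes_Par`: contradiction.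
-/

set_option autoImplicit false

namespace Pool.Agent.Lib.MP_b0c2b5_co.AT

open LS Filter
open scoped Classical

variable {V : Type}

/-- an induced out-tree in `A` with arcs in `φ` -/
def TrS (W : World V) (A : Set V) (φ : V → V → Prop) {t m : ℕ} (x : V) (τ : Nd t m → V) : Prop :=
  OutT W x τ ∧ x ∈ A ∧ (∀ n, τ n ∈ A) ∧ ∀ n, φ (ev x τ (fa n)) (τ n)

/-- the graph of `φ` on `A` -/
def Gp (W : World V) (A : Set V) (φ : V → V → Prop) (x y : V) : Prop :=
  x ∈ A ∧ y ∈ A ∧ ((W.r x y ∧ φ x y) ∨ (W.r y x ∧ φ y x))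

theorem Gp.symm {W : World V} {A : Set V} {φ : V → V → Prop} {x y : V} (h : Gp W A φ x y) : Gp W A φ y x :=
  ⟨h.2.1, h.1, h.2.2.symm⟩

theorem walk_of_reach {φ : V → V → Prop} {k : ℕ} {x y : V} (h : FP.Reach φ k x y) :
    ∃ j ≤ k, ∃ xs : ℕ → V, xs 0 = x ∧ xs j = y ∧ ∀ i < j, φ (xs i) (xs (i + 1)) := by
  induction k generalizing x with
  | zero =>
    have hxy : x = y := h
    exact ⟨0, le_rfl, fun _ => x, rfl, hxy, fun i hi => absurd hi (Nat.not_lt_zero i)⟩
  | succ k ih =>
    rcases h with h | ⟨z, hz, h⟩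
    · exact ⟨0, Nat.zero_le _, fun _ => x, rfl, h, fun i hi => absurd hi (Nat.not_lt_zero i)⟩
    · obtain ⟨j, hj, xs, h0, hj', hxs⟩ := ih h
      refine ⟨j + 1, Nat.succ_le_succ hj, fun i => Nat.casesOn i x xs, rfl, hj', fun i hi => ?_⟩
      cases i with
      | zero =>
        show φ x (xs 0)
        rw [h0]
        exact hz
      | succ i => exact hxs i (by omega)

/-- the data of (STAR) -/
structure Star (W : World V) (q : Ultrafilter V) (U : Set (Set (V → ℝ))) {t a : ℕ} (F : FD W q U t a) (R : ℕ) where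
  A : Set V
  hA : A ∈ q
  φ : V → V → Prop
  hφ : InFC W q U φ
  K : Set (V → ℝ)
  hK : K ∈ U
  δ : ℝ
  hδ : 0 < δ
  l : V → V → ℝ
  hl : ∀ x, l x ∈ ParR W F.A F.φ
  η : ℝ
  hη : 0 < η
  star : ∀ k ≤ R, ∀ x y, FP.Reach (Gp W A φ) k x y → ∀ D : Finset (Nd t a → V),
    (∀ τ ∈ D, TrS W A φ y τ ∧ ∀ n, l x (τ n) < η) → ¬ (SP anc K δ D).Nonempty

end Pool.Agent.Lib.MP_b0c2b5_co.AT
end

section

/-!
# AT, H1b: t independent laws

PROOFS. `Ex`, `Pr` are finite sums. `hub_abs`: the product law `∏ i, θ i (z i)` on `Fintype.piFinset D` (total mass one: `Finset.prod_univ_sum`); the event that all `z i` are good has probability at least `1 - t * (1/(4t)) = 3/4`; it is contained in the union over the at most `t ^ 2` pairs `i ≠ j` of the events `Good (z i) ∧ Good (z j) ∧ Cr (z i) (z j)`,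
whose probability is the `Pr2` of the pair (marginal of the product law). `cond`: conditioning `θ` on an event `E` of probability `c > 0`: `θ' z := if z ∈ D ∧ E z then θ z / c else 0`.
-/

set_option autoImplicit false

namespace Pool.Agent.Lib.MP_b0c2b5_co.AT

open LS Filter
open scoped Classical

variable {V : Type}

/-- marginal of the product law on two coordinates -/
theorem H1b_marg {Z : Type} {t : ℕ} (D : Fin t → Finset Z) (θ : Fin t → Z → ℝ) (hθ : ∀ i, IsPr (D i) (θ i))
    {i j : Fin t} (hij : i ≠ j) (F : Z → Z → ℝ) :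
    ∑ z ∈ Fintype.piFinset D, (∏ k, θ k (z k)) * F (z i) (z j) =
      ∑ a ∈ D i, θ i a * ∑ b ∈ D j, θ j b * F a b := by
  have h1 : ∀ a ∈ D i, ∀ b ∈ D j, ∑ z ∈ Fintype.piFinset D,
      ∏ k, (θ k (z k) * ((if k = i then (if z k = a then (1 : ℝ) else 0) else 1) *
        (if k = j then (if z k = b then (1 : ℝ) else 0) else 1))) = θ i a * θ j b := by
    intro a ha b hb
    have h0 := Finset.prod_univ_sum D (fun k x => θ k x * ((if k = i then (if x = a then (1 : ℝ) else 0) else 1) *
        (if k = j then (if x = b then (1 : ℝ) else 0) else 1)))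
    rw [← h0]
    have h2 : ∀ k, ∑ x ∈ D k, (θ k x * ((if k = i then (if x = a then (1 : ℝ) else 0) else 1) *
        (if k = j then (if x = b then (1 : ℝ) else 0) else 1))) =
        (if k = i then θ i a else 1) * (if k = j then θ j b else 1) := by
      intro k
      by_cases hki : k = i
      · subst hki
        have hkj : k ≠ j := hij
        simp only [if_true, if_neg hkj, mul_one]
        simp [ha]
      · by_cases hkj : k = j
        · subst hkj
          simp only [if_true, if_neg hki, one_mul]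
          simp [hb]
        · simp only [if_neg hki, if_neg hkj, mul_one]
          exact (hθ k).sum
    rw [Finset.prod_congr rfl (fun k _ => h2 k), Finset.prod_mul_distrib]
    simp
  have h3 : ∀ z ∈ Fintype.piFinset D, (∏ k, θ k (z k)) * F (z i) (z j) =
      ∑ a ∈ D i, ∑ b ∈ D j, F a b * ∏ k, (θ k (z k) * ((if k = i then (if z k = a then (1 : ℝ) else 0) else 1) *
        (if k = j then (if z k = b then (1 : ℝ) else 0) else 1))) := by
    intro z hz
    have hzi : z i ∈ D i := Fintype.mem_piFinset.1 hz i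
    have hzj : z j ∈ D j := Fintype.mem_piFinset.1 hz j
    have h4 : ∀ a b, ∏ k, (θ k (z k) * ((if k = i then (if z k = a then (1 : ℝ) else 0) else 1) *
        (if k = j then (if z k = b then (1 : ℝ) else 0) else 1))) =
        (∏ k, θ k (z k)) * ((if z i = a then 1 else 0) * (if z j = b then 1 else 0)) := by
      intro a b
      rw [Finset.prod_mul_distrib, Finset.prod_mul_distrib]
      simp
    simp only [h4]
    rw [Finset.sum_eq_single_of_mem (z i) hzi, Finset.sum_eq_single_of_mem (z j) hzj]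
    · simp
      ring
    · intro b _ hb
      simp [Ne.symm hb]
    · intro a _ ha
      simp [Ne.symm ha]
  rw [Finset.sum_congr rfl h3, Finset.sum_comm]
  refine Finset.sum_congr rfl fun a ha => ?_
  rw [Finset.sum_comm, Finset.mul_sum]
  refine Finset.sum_congr rfl fun b hb => ?_
  rw [← Finset.mul_sum, h1 a ha b hb]
  ring

theorem hub_abs {Z : Type} {t : ℕ} (ht : 1 ≤ t) (D : Fin t → Finset Z) (θ : Fin t → Z → ℝ) (hθ : ∀ i, IsPr (D i) (θ i))
    (Good : Z → Prop) (Cr : Z → Z → Prop) (hG : ∀ i, 1 - 1 / (4 * (t : ℝ)) ≤ Pr (D i) (θ i) Good)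
    (hE : ∀ z : Fin t → Z, (∀ i, z i ∈ D i) → (∀ i, Good (z i)) → ∃ i j, i ≠ j ∧ Cr (z i) (z j)) :
    ∃ i j, i ≠ j ∧ 3 / (4 * (t : ℝ) ^ 2) ≤ Pr2 (D i) (θ i) (D j) (θ j) (fun z z' => Good z ∧ Good z' ∧ Cr z z') := by
  by_contra hcon
  push Not at hcon
  have htR : (1 : ℝ) ≤ (t : ℝ) := by exact_mod_cast ht
  have htp : (0 : ℝ) < (t : ℝ) := by linarith
  -- all good with probability at least 3/4
  have hw : ∀ z : Fin t → Z, 0 ≤ ∏ k, θ k (z k) := fun z => Finset.prod_nonneg fun k _ => (hθ k).nn _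
  have hgood : (3 : ℝ) / 4 ≤ ∑ z ∈ Fintype.piFinset D, (∏ k, θ k (z k)) * (if ∀ i, Good (z i) then 1 else 0) := by
    have h1 : ∑ z ∈ Fintype.piFinset D, (∏ k, θ k (z k)) * (if ∀ i, Good (z i) then (1 : ℝ) else 0) =
        ∏ i, Pr (D i) (θ i) Good := by
      unfold Pr Ex
      rw [Finset.prod_univ_sum]
      refine Finset.sum_congr rfl fun z _ => ?_
      rw [Finset.prod_mul_distrib]
      congr 1
      by_cases h : ∀ i, Good (z i)
      · rw [if_pos h]
        exact (Finset.prod_eq_one fun i _ => if_pos (h i)).symm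
      · rw [if_neg h]
        push Not at h
        obtain ⟨i, hi⟩ := h
        exact (Finset.prod_eq_zero (Finset.mem_univ i) (if_neg hi)).symm
    rw [h1]
    have h2 : (1 - 1 / (4 * (t : ℝ))) ^ t ≤ ∏ i, Pr (D i) (θ i) Good := by
      have h3 : ∏ _i : Fin t, (1 - 1 / (4 * (t : ℝ))) ≤ ∏ i, Pr (D i) (θ i) Good := by
        refine Finset.prod_le_prod (fun i _ => ?_) (fun i _ => hG i)
        have : 1 / (4 * (t : ℝ)) ≤ 1 := by
          rw [div_le_one (by positivity)]
          linarith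
        linarith
      simpa using h3
    have h4 : (3 : ℝ) / 4 ≤ (1 - 1 / (4 * (t : ℝ))) ^ t := by
      have h5 := one_add_mul_le_pow (a := -(1 / (4 * (t : ℝ)))) (by
        have : 1 / (4 * (t : ℝ)) ≤ 1 := by
          rw [div_le_one (by positivity)]
          linarith
        linarith) t
      have h6 : 1 + (t : ℝ) * -(1 / (4 * (t : ℝ))) = 3 / 4 := by
        field_simp
        norm_num
      rw [h6] at h5
      rw [sub_eq_add_neg]
      exact h5
    exact h4.trans h2
  -- union bound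
  have hun : ∀ z ∈ Fintype.piFinset D, (∏ k, θ k (z k)) * (if ∀ i, Good (z i) then (1 : ℝ) else 0) ≤
      ∑ ij ∈ (Finset.univ : Finset (Fin t × Fin t)).filter (fun ij => ij.1 ≠ ij.2),
        (∏ k, θ k (z k)) * (if Good (z ij.1) ∧ Good (z ij.2) ∧ Cr (z ij.1) (z ij.2) then (1 : ℝ) else 0) := by
    intro z hz
    have hnn : ∀ ij ∈ (Finset.univ : Finset (Fin t × Fin t)).filter (fun ij => ij.1 ≠ ij.2),
        0 ≤ (∏ k, θ k (z k)) * (if Good (z ij.1) ∧ Good (z ij.2) ∧ Cr (z ij.1) (z ij.2) then (1 : ℝ) else 0) := by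
      intro ij _
      refine mul_nonneg (hw z) ?_
      split_ifs <;> norm_num
    by_cases h : ∀ i, Good (z i)
    · obtain ⟨i, j, hij, hc⟩ := hE z (fun i => Fintype.mem_piFinset.1 hz i) h
      refine le_trans ?_ (Finset.single_le_sum hnn (Finset.mem_filter.2 ⟨Finset.mem_univ (i, j), hij⟩))
      rw [if_pos h, if_pos ⟨h i, h j, hc⟩]
    · rw [if_neg h, mul_zero]
      exact Finset.sum_nonneg hnn
  have htot := hgood.trans (Finset.sum_le_sum hun)
  rw [Finset.sum_comm] at htot
  have hmarg : ∀ ij ∈ (Finset.univ : Finset (Fin t × Fin t)).filter (fun ij => ij.1 ≠ ij.2),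
      ∑ z ∈ Fintype.piFinset D, (∏ k, θ k (z k)) *
        (if Good (z ij.1) ∧ Good (z ij.2) ∧ Cr (z ij.1) (z ij.2) then (1 : ℝ) else 0) ≤
      3 / (4 * (t : ℝ) ^ 2) := by
    intro ij hij
    have hne : ij.1 ≠ ij.2 := (Finset.mem_filter.1 hij).2
    have h1 := H1b_marg D θ hθ hne (fun a b => if Good a ∧ Good b ∧ Cr a b then (1 : ℝ) else 0)
    rw [h1]
    refine le_trans (le_of_eq ?_) (hcon ij.1 ij.2 hne).le
    unfold Pr2 Ex
    refine Finset.sum_congr rfl fun a _ => ?_
    refine congrArg (fun u => θ ij.1 a * u) ?_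
    refine Finset.sum_congr rfl fun b _ => ?_
    refine congrArg (fun u => θ ij.2 b * u) ?_
    by_cases h5 : Good a ∧ Good b ∧ Cr a b
    · beta_reduce
      rw [if_pos h5, if_pos h5]
    · beta_reduce
      rw [if_neg h5, if_neg h5]
  have hlt : ∑ ij ∈ (Finset.univ : Finset (Fin t × Fin t)).filter (fun ij => ij.1 ≠ ij.2),
      ∑ z ∈ Fintype.piFinset D, (∏ k, θ k (z k)) *
        (if Good (z ij.1) ∧ Good (z ij.2) ∧ Cr (z ij.1) (z ij.2) then (1 : ℝ) else 0) < 3 / 4 := by
    have hcard : (((Finset.univ : Finset (Fin t × Fin t)).filter (fun ij => ij.1 ≠ ij.2)).card : ℝ) ≤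
        (t : ℝ) ^ 2 - t := by
      have h1 : (Finset.univ : Finset (Fin t × Fin t)).filter (fun ij => ij.1 ≠ ij.2) =
          (Finset.univ : Finset (Fin t)).offDiag := by
        ext ⟨a, b⟩
        simp
      rw [h1, Finset.offDiag_card, Finset.card_univ, Fintype.card_fin]
      have h2 : t ≤ t * t := Nat.le_mul_self t
      push_cast [Nat.cast_sub h2]
      nlinarith
    calc _ ≤ ∑ _ij ∈ (Finset.univ : Finset (Fin t × Fin t)).filter (fun ij => ij.1 ≠ ij.2),
          3 / (4 * (t : ℝ) ^ 2) := Finset.sum_le_sum hmarg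
      _ = (((Finset.univ : Finset (Fin t × Fin t)).filter (fun ij => ij.1 ≠ ij.2)).card : ℝ) *
          (3 / (4 * (t : ℝ) ^ 2)) := by rw [Finset.sum_const, nsmul_eq_mul]
      _ ≤ ((t : ℝ) ^ 2 - t) * (3 / (4 * (t : ℝ) ^ 2)) :=
          mul_le_mul_of_nonneg_right hcard (by positivity)
      _ < (t : ℝ) ^ 2 * (3 / (4 * (t : ℝ) ^ 2)) :=
          mul_lt_mul_of_pos_right (by linarith) (by positivity)
      _ = 3 / 4 := by field_simp
  exact absurd htot (not_le.2 hlt)

end Pool.Agent.Lib.MP_b0c2b5_co.AT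
end
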