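import Pool.Agent.Lib.MP_b0c2b5_co.Mg.G003
import Pool.Agent.Lib.MP_b0c2b5_co.Mg.G004
import Pool.Agent.Lib.MP_b0c2b5_co.Mg.G006
import Pool.Agent.Lib.MP_b0c2b5_co.Mg.G005
import Pool.Agent.Lib.MP_b0c2b5_co.Mg.G002
import Pool.Agent.Lib.MP_b0c2b5_co.Mg.G001

section

/-!
# AT, D3: the exact triple of Lemma D (compactness).

PROOF. `cpt` for `Z := (Fin (M+1) → V) × (Nd t m → V) × (Nd t m → V)` and the family of all supersets of the sets of the triples satisfying the conclusion of `D_fin` for data `R1, R2, K, gP, g1, g2, g5, g6, η`; two data are combined by `R1 ∩ R1'`, `R2 ∩ R2'`, `jn K K'`, the means `(g + g') / 2` and `(min η η') / 2`. Every conclusion is a family of such conditions (the other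
test maps constant; `K` is nonempty unless there is nothing to show; equality of ultrafilters from `≤`).
-/

set_option autoImplicit false

namespace Pool.Agent.Lib.MP_b0c2b5_co.AT

open LS Filter
open scoped Classical

variable {V : Type}

variable {W : World V} {q : Ultrafilter V} {U : Set (Set (V → ℝ))}

/-- the sets of triples of `D_fin` -/
def D3base (W : World V) {t m M : ℕ} {Ω : Type} (v : Ω → V) (w : Ω → Fin (M + 1) → V) (y : Ω → V)
    (R1 : Set (V × (Fin (M + 1) → V))) (R2 : Set (V × (Nd t m → V)))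
    (gP : Fin (M + 1) → Ω × (Fin (M + 1) → Option V) → V → ℝ)
    (g1 : Nd t m → (Ω × (Fin (M + 1) → V)) × (Nd t m → Option V) → V → ℝ)
    (g2 : Nd t m → (Ω × (Fin (M + 1) → V) × (Nd t m → V)) × (Nd t m → Option V) → V → ℝ)
    (g5 : Option (Nd t m) → Nd t m → V → V → ℝ)
    (g6 : V × (Nd t m → V) → V → ℝ) (η : ℝ) : Set (Ω × ((Fin (M + 1) → V) × (Nd t m → V) × (Nd t m → V))) :=
  {z | (v z.1, z.2.1) ∈ R1 ∧ (z.2.1 (Fin.last M), z.2.2.1) ∈ R2 ∧ (w z.1 (Fin.last M), z.2.2.2) ∈ R2 ∧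
    Arr W (z.2.1 (Fin.last M)) z.2.2.1 z.2.2.2 ∧
    (∀ i, gP i (z.1, res (Finset.Iio i) z.2.1) (z.2.1 i) < η) ∧
    (∀ n, g1 n ((z.1, z.2.1), res (anc n) z.2.2.1) (z.2.2.1 n) < η) ∧
    (∀ n, g2 n ((z.1, z.2.1, z.2.2.1), res (anc n) z.2.2.2) (z.2.2.2 n) < η) ∧
    (∀ a n, g5 a n (z.2.2.2 n) (ev (z.2.1 (Fin.last M)) z.2.2.1 a) < η) ∧
    g6 (w z.1 (Fin.last M), z.2.2.2) (y z.1) < η}

/-- the mean of two members -/
noncomputable def D3h (f g : V → ℝ) : V → ℝ := fun v => (f v + g v) / 2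

theorem D3h_mem {K K' : Set (V → ℝ)} {f g : V → ℝ} (hf : f ∈ K) (hg : g ∈ K') : D3h f g ∈ jn K K' := by
  have h1 : f ∈ jn K K' := subset_convexHull ℝ _ (Or.inl hf)
  have h2 : g ∈ jn K K' := subset_convexHull ℝ _ (Or.inr hg)
  have h3 := (convex_convexHull ℝ (K ∪ K')) h1 h2 (a := 1 / 2) (b := 1 / 2) (by norm_num) (by norm_num) (by norm_num)
  have h4 : D3h f g = (1 / 2 : ℝ) • f + (1 / 2 : ℝ) • g := by
    funext v
    show (f v + g v) / 2 = (1 / 2 : ℝ) * f v + (1 / 2 : ℝ) * g v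
    ring
  rw [h4]
  exact h3

theorem D3h_lt {K K' : Set (V → ℝ)} (hK : IsRes K) (hK' : IsRes K') {f g : V → ℝ} (hf : f ∈ K) (hg : g ∈ K')
    {η η' : ℝ} {v : V} (h : D3h f g v < min η η' / 2) : f v < η ∧ g v < η' := by
  have h1 := hK.nn f hf v
  have h2 := hK'.nn g hg v
  have h3 := min_le_left η η'
  have h4 := min_le_right η η'
  have h5 : (f v + g v) / 2 < min η η' / 2 := h
  constructor <;> linarith

theorem D3_eq {Z : Type} {p r : Ultrafilter Z} (h : ∀ R ∈ r, R ∈ p) : p = r :=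
  Ultrafilter.eq_of_le (show (p : Filter Z) ≤ (r : Filter Z) from h)

theorem D_step (S : Sys W q U) {t0 d : ℕ} (h1 : NoOut W t0 d) (h2 : NoOut W.dual t0 d) {t m : ℕ} (F : BD W q U t m)
    (hF : F.Emp) (rB : Ultrafilter (V × (Nd t m → V))) (hB : IsB W q U rB Prod.fst Prod.snd) {Ω : Type}
    (p : Ultrafilter Ω) {M : ℕ} (v : Ω → V) (w : Ω → Fin (M + 1) → V) (hP : FPath W q U p v w) (y : Ω → V)
    (hy : CE W q U p (fun ω => w ω (Fin.last M)) y) :
    ∃ p' : Ultrafilter (Ω × ((Fin (M + 1) → V) × (Nd t m → V) × (Nd t m → V))), p'.map Prod.fst = p ∧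
      p'.map (fun z => (v z.1, z.2.1)) = p.map (fun ω => (v ω, w ω)) ∧
      (∀ i, Fr U p' (fun z => (z.1, res (Finset.Iio i) z.2.1)) (fun z => z.2.1 i)) ∧
      p'.map (fun z => (z.2.1 (Fin.last M), z.2.2.1)) = rB ∧
      p'.map (fun z => (w z.1 (Fin.last M), z.2.2.2)) = rB ∧
      (∀ n, Fr U p' (fun z => ((z.1, z.2.1), res (anc n) z.2.2.1)) (fun z => z.2.2.1 n)) ∧
      (∀ n, Fr U p' (fun z => ((z.1, z.2.1, z.2.2.1), res (anc n) z.2.2.2)) (fun z => z.2.2.2 n)) ∧
      (∀ᶠ z in (p' : Filter (Ω × ((Fin (M + 1) → V) × (Nd t m → V) × (Nd t m → V)))), Arr W (z.2.1 (Fin.last M)) z.2.2.1 z.2.2.2) ∧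
      (∀ a n, Fr U p' (fun z => z.2.2.2 n) (fun z => ev (z.2.1 (Fin.last M)) z.2.2.1 a)) ∧
      Fr U p' (fun z => (w z.1 (Fin.last M), z.2.2.2)) (fun z => y z.1) := by
  have hΩ : Nonempty Ω := Filter.nonempty_of_neBot (p : Filter Ω)
  have hV : Nonempty V := ⟨v hΩ.some⟩
  obtain ⟨v0⟩ := hV
  have heq : (fun v : V => if v = v0 then (1 : ℝ) else 0) ∈ EQr V := subset_convexHull ℝ _ ⟨v0, rfl⟩
  have hcp := cpt p {a : Set (Ω × ((Fin (M + 1) → V) × (Nd t m → V) × (Nd t m → V))) |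
    ∃ R1 : Set (V × (Fin (M + 1) → V)), (∀ᶠ ω in (p : Filter Ω), (v ω, w ω) ∈ R1) ∧ ∃ R2 ∈ rB, ∃ K ∈ U,
    ∃ gP : Fin (M + 1) → Ω × (Fin (M + 1) → Option V) → V → ℝ, (∀ i s, gP i s ∈ K) ∧
    ∃ g1 : Nd t m → (Ω × (Fin (M + 1) → V)) × (Nd t m → Option V) → V → ℝ, (∀ n s, g1 n s ∈ K) ∧
    ∃ g2 : Nd t m → (Ω × (Fin (M + 1) → V) × (Nd t m → V)) × (Nd t m → Option V) → V → ℝ, (∀ n s, g2 n s ∈ K) ∧
    ∃ g5 : Option (Nd t m) → Nd t m → V → V → ℝ, (∀ a n s, g5 a n s ∈ K) ∧
    ∃ g6 : V × (Nd t m → V) → V → ℝ, (∀ s, g6 s ∈ K) ∧ ∃ η : ℝ, 0 < η ∧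
      D3base W v w y R1 R2 gP g1 g2 g5 g6 η ⊆ a} ?_ ?_ ?_
  · obtain ⟨p', hp1, hp2⟩ := hcp
    have key : ∀ R1 : Set (V × (Fin (M + 1) → V)), (∀ᶠ ω in (p : Filter Ω), (v ω, w ω) ∈ R1) → ∀ R2 ∈ rB, ∀ K ∈ U,
        ∀ gP : Fin (M + 1) → Ω × (Fin (M + 1) → Option V) → V → ℝ, (∀ i s, gP i s ∈ K) →
        ∀ g1 : Nd t m → (Ω × (Fin (M + 1) → V)) × (Nd t m → Option V) → V → ℝ, (∀ n s, g1 n s ∈ K) →
        ∀ g2 : Nd t m → (Ω × (Fin (M + 1) → V) × (Nd t m → V)) × (Nd t m → Option V) → V → ℝ, (∀ n s, g2 n s ∈ K) →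
        ∀ g5 : Option (Nd t m) → Nd t m → V → V → ℝ, (∀ a n s, g5 a n s ∈ K) →
        ∀ g6 : V × (Nd t m → V) → V → ℝ, (∀ s, g6 s ∈ K) → ∀ η : ℝ, 0 < η →
        ∀ᶠ z in (p' : Filter (Ω × ((Fin (M + 1) → V) × (Nd t m → V) × (Nd t m → V)))),
          z ∈ D3base W v w y R1 R2 gP g1 g2 g5 g6 η := by
      intro R1 hR1 R2 hR2 K hK gP hgP g1 hg1 g2 hg2 g5 hg5 g6 hg6 η hη
      exact hp2 _ ⟨R1, hR1, R2, hR2, K, hK, gP, hgP, g1, hg1, g2, hg2, g5, hg5, g6, hg6, η, hη, subset_rfl⟩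
    have hu : ∀ᶠ ω in (p : Filter Ω), (v ω, w ω) ∈ (Set.univ : Set (V × (Fin (M + 1) → V))) :=
      Filter.Eventually.of_forall fun _ => trivial
    have keyR := fun R1 hR1 R2 hR2 => key R1 hR1 R2 hR2 (EQr V) S.eq
      (fun _ _ v => if v = v0 then (1 : ℝ) else 0) (fun _ _ => heq)
      (fun _ _ v => if v = v0 then (1 : ℝ) else 0) (fun _ _ => heq)
      (fun _ _ v => if v = v0 then (1 : ℝ) else 0) (fun _ _ => heq)
      (fun _ _ _ v => if v = v0 then (1 : ℝ) else 0) (fun _ _ _ => heq)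
      (fun _ v => if v = v0 then (1 : ℝ) else 0) (fun _ => heq) 1 one_pos
    have hZ : Nonempty (Ω × ((Fin (M + 1) → V) × (Nd t m → V) × (Nd t m → V))) :=
      Filter.nonempty_of_neBot (p' : Filter (Ω × ((Fin (M + 1) → V) × (Nd t m → V) × (Nd t m → V))))
    obtain ⟨z0⟩ := hZ
    refine ⟨p', hp1, ?_, ?_, ?_, ?_, ?_, ?_, ?_, ?_, ?_⟩
    · refine D3_eq fun R hR => ?_
      exact (keyR R hR Set.univ Filter.univ_mem).mono fun z hz => hz.1
    · intro i K hK g hg δ hδ
      have hk := hg (z0.1, res (Finset.Iio i) z0.2.1)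
      exact (key Set.univ hu Set.univ Filter.univ_mem K hK (fun _ => g) (fun _ => hg) (fun _ _ => _) (fun _ _ => hk)
        (fun _ _ => _) (fun _ _ => hk) (fun _ _ _ => _) (fun _ _ _ => hk) (fun _ => _) (fun _ => hk) δ hδ).mono
        fun z hz => hz.2.2.2.2.1 i
    · refine D3_eq fun R hR => ?_
      exact (keyR Set.univ hu R hR).mono fun z hz => hz.2.1
    · refine D3_eq fun R hR => ?_
      exact (keyR Set.univ hu R hR).mono fun z hz => hz.2.2.1
    · intro n K hK g hg δ hδ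
      have hk := hg ((z0.1, z0.2.1), res (anc n) z0.2.2.1)
      exact (key Set.univ hu Set.univ Filter.univ_mem K hK (fun _ _ => _) (fun _ _ => hk) (fun _ => g) (fun _ => hg)
        (fun _ _ => _) (fun _ _ => hk) (fun _ _ _ => _) (fun _ _ _ => hk) (fun _ => _) (fun _ => hk) δ hδ).mono
        fun z hz => hz.2.2.2.2.2.1 n
    · intro n K hK g hg δ hδ
      have hk := hg ((z0.1, z0.2.1, z0.2.2.1), res (anc n) z0.2.2.2)
      exact (key Set.univ hu Set.univ Filter.univ_mem K hK (fun _ _ => _) (fun _ _ => hk) (fun _ _ => _) (fun _ _ => hk)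
        (fun _ => g) (fun _ => hg) (fun _ _ _ => _) (fun _ _ _ => hk) (fun _ => _) (fun _ => hk) δ hδ).mono
        fun z hz => hz.2.2.2.2.2.2.1 n
    · exact (keyR Set.univ hu Set.univ Filter.univ_mem).mono fun z hz => hz.2.2.2.1
    · intro a n K hK g hg δ hδ
      have hk := hg (z0.2.2.2 n)
      exact (key Set.univ hu Set.univ Filter.univ_mem K hK (fun _ _ => _) (fun _ _ => hk) (fun _ _ => _) (fun _ _ => hk)
        (fun _ _ => _) (fun _ _ => hk) (fun _ _ => g) (fun _ _ => hg) (fun _ => _) (fun _ => hk) δ hδ).mono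
        fun z hz => hz.2.2.2.2.2.2.2.1 a n
    · intro K hK g hg δ hδ
      have hk := hg (w z0.1 (Fin.last M), z0.2.2.2)
      exact (key Set.univ hu Set.univ Filter.univ_mem K hK (fun _ _ => _) (fun _ _ => hk) (fun _ _ => _) (fun _ _ => hk)
        (fun _ _ => _) (fun _ _ => hk) (fun _ _ _ => _) (fun _ _ _ => hk) g hg δ hδ).mono
        fun z hz => hz.2.2.2.2.2.2.2.2
  · exact ⟨Set.univ, Set.univ, Filter.Eventually.of_forall fun _ => trivial, Set.univ, Filter.univ_mem, EQr V, S.eq,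
      (fun _ _ v => if v = v0 then (1 : ℝ) else 0), (fun _ _ => heq),
      (fun _ _ v => if v = v0 then (1 : ℝ) else 0), (fun _ _ => heq),
      (fun _ _ v => if v = v0 then (1 : ℝ) else 0), (fun _ _ => heq),
      (fun _ _ _ v => if v = v0 then (1 : ℝ) else 0), (fun _ _ _ => heq),
      (fun _ v => if v = v0 then (1 : ℝ) else 0), (fun _ => heq), 1, one_pos, Set.subset_univ _⟩
  · rintro a ⟨R1, hR1, R2, hR2, K, hK, gP, hgP, g1, hg1, g2, hg2, g5, hg5, g6, hg6, η, hη, ha⟩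
      b ⟨R1', hR1', R2', hR2', K', hK', gP', hgP', g1', hg1', g2', hg2', g5', hg5', g6', hg6', η', hη', hb⟩
    have hr := S.res K hK
    have hr' := S.res K' hK'
    refine ⟨R1 ∩ R1', ?_, R2 ∩ R2', Filter.inter_mem hR2 hR2', jn K K', S.join K hK K' hK',
      fun i s => D3h (gP i s) (gP' i s), fun i s => D3h_mem (hgP i s) (hgP' i s),
      fun i s => D3h (g1 i s) (g1' i s), fun i s => D3h_mem (hg1 i s) (hg1' i s),
      fun i s => D3h (g2 i s) (g2' i s), fun i s => D3h_mem (hg2 i s) (hg2' i s),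
      fun a i s => D3h (g5 a i s) (g5' a i s), fun a i s => D3h_mem (hg5 a i s) (hg5' a i s),
      fun s => D3h (g6 s) (g6' s), fun s => D3h_mem (hg6 s) (hg6' s), min η η' / 2, ?_, ?_⟩
    · filter_upwards [hR1, hR1'] with ω e1 e2
      exact ⟨e1, e2⟩
    · have := lt_min hη hη'
      positivity
    · rintro z ⟨e1, e2, e3, e4, e5, e6, e7, e8, e9⟩
      exact ⟨ha ⟨e1.1, e2.1, e3.1, e4, fun i => (D3h_lt hr hr' (hgP _ _) (hgP' _ _) (e5 i)).1,
          fun n => (D3h_lt hr hr' (hg1 _ _) (hg1' _ _) (e6 n)).1, fun n => (D3h_lt hr hr' (hg2 _ _) (hg2' _ _) (e7 n)).1,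
          fun a n => (D3h_lt hr hr' (hg5 _ _ _) (hg5' _ _ _) (e8 a n)).1, (D3h_lt hr hr' (hg6 _) (hg6' _) e9).1⟩,
        hb ⟨e1.2, e2.2, e3.2, e4, fun i => (D3h_lt hr hr' (hgP _ _) (hgP' _ _) (e5 i)).2,
          fun n => (D3h_lt hr hr' (hg1 _ _) (hg1' _ _) (e6 n)).2, fun n => (D3h_lt hr hr' (hg2 _ _) (hg2' _ _) (e7 n)).2,
          fun a n => (D3h_lt hr hr' (hg5 _ _ _) (hg5' _ _ _) (e8 a n)).2, (D3h_lt hr hr' (hg6 _) (hg6' _) e9).2⟩⟩
  · rintro a ⟨R1, hR1, R2, hR2, K, hK, gP, hgP, g1, hg1, g2, hg2, g5, hg5, g6, hg6, η, hη, ha⟩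
    have := D_fin S h1 h2 F hF rB hB p v w hP y hy R1 hR1 R2 hR2 hK gP hgP g1 hg1 g2 hg2 g5 hg5 g6 hg6 hη
    filter_upwards [this] with ω hω
    obtain ⟨P', τ', τ'', e1, e2, e3, e4, e5, e6, e7, e8, e9⟩ := hω
    exact ⟨(P', τ', τ''), ha ⟨e1, e2, e3, e4, e5, e6, e7, e8, e9⟩⟩

end Pool.Agent.Lib.MP_b0c2b5_co.AT
end

section

/-!
# AT, D4: Lemma D.

PROOF. Induction on `k`. `k = 0`: `ext_copy` over `X := xs 0` of a C-child or C-parent `v` of `xs 0` (`hC` from `CE (xs 0) (xs 1)`; `r` := the type of a C-arc on `V × (Unit → V)`); `M = 1`, `w := (xs 0, xs 1)`: `e0`, `e` clear, `free 0`: `Fr v (xs 0)`; `free 1`: `Fr (xs 0) (xs 1)` and the last part of `ext_copy` with `Y := xs 0` give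
`Fr (xs 0, v) (xs 1)`; `Kn U p' (xs 0) v` by `S.kn`. Step: the induction hypothesis gives `p1` on `Ω1 := Ω × (V × (Fin (M+1) → V))` with a free path from `v` to `xs (k+1)`; `D_step` for `p1` and `y := xs (k+2)` (`CE (w last) y` as `w last = xs (k+1)` almost everywhere) gives `p2`. By `Arr` there are fixed `a, n` with `r (ev p' τ' a) (τ'' n)` almost everywhere
(finitely many pairs). `Kn U p2 (xs 0) v` (from `p1`, `unk_map`); `tp` to `P' 0` (`CE v (P' 0)` and its freeness from the type of `(v, P')` and from the third statement of `D_step`), `tp_path` along `P'`, `tp_tree` down `τ'` with `Y := xs 0`: `Kn U p2 (xs 0) (ev p' τ' a)`; `tp` for `x1 := ev p' τ' a`, `x2 := τ'' n` (`CA` by the last but one statement of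
`D_step` and the freeness of `τ''`): `Kn U p2 (xs 0) (τ'' n)`. `rev_path` for `x := w last`, `τ''`, `y`, `n` gives the new path; push `p2` forward to `Ω × (V × (Fin (M'+1) → V))`.
-/

set_option autoImplicit false

namespace Pool.Agent.Lib.MP_b0c2b5_co.AT

open LS Filter
open scoped Classical

variable {V : Type}

variable {W : World V} {q : Ultrafilter V} {U : Set (Set (V → ℝ))}

private theorem D4_kn_map {Ω Ω' D : Type} (p : Ultrafilter Ω) (e : Ω → Ω') (Y : Ω' → D) (b : Ω' → V) :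
    Kn U (p.map e) Y b ↔ Kn U p (fun ω => Y (e ω)) (fun ω => b (e ω)) := by
  unfold Kn
  simp only [unk_map]

private theorem D4_fr_map {Ω Ω' D : Type} (p : Ultrafilter Ω) (e : Ω → Ω') (Y : Ω' → D) (b : Ω' → V) :
    Fr U (p.map e) Y b ↔ Fr U p (fun ω => Y (e ω)) (fun ω => b (e ω)) := by
  unfold Fr
  simp only [unk_map]

private theorem D4_ce_map {Ω Ω' : Type} (p : Ultrafilter Ω) (e : Ω → Ω') (x y : Ω' → V) :
    CE W q U (p.map e) x y ↔ CE W q U p (fun ω => x (e ω)) (fun ω => y (e ω)) := by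
  unfold CE
  rw [CA.map, CA.map]

private theorem D4_fr_comp {Ω D D' : Type} {p : Ultrafilter Ω} {Y : Ω → D} {b : Ω → V} (h : Fr U p Y b) (f : D → D') :
    Fr U p (fun ω => f (Y ω)) b := fun K hK =>
  Unk.comp f (Filter.Eventually.of_forall fun _ => rfl) (h K hK)

private theorem D4_ce_kn (S : Sys W q U) {Ω : Type} {p : Ultrafilter Ω} {x y : Ω → V} (h : CE W q U p x y) :
    Kn U p x y := by
  rcases h with h | h
  · exact S.kn h.qx h.qy (h.arc.mono fun _ h => Or.inl h) h.fw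
  · exact S.kn h.qy h.qx (h.arc.mono fun _ h => Or.inr h) h.bw

private theorem D4_ce_fr {Ω : Type} {p : Ultrafilter Ω} {x y : Ω → V} (h : CE W q U p x y) : Fr U p x y := by
  rcases h with h | h
  · exact h.fw
  · exact h.bw

private theorem D4_hC {Ω : Type} {p : Ultrafilter Ω} {x y : Ω → V} (h : CE W q U p x y) :
    ∃ p : Ultrafilter (V × V), CA W q U p Prod.fst Prod.snd := by
  rcases h with h | h
  · exact ⟨p.map fun ω => (x ω, y ω), by rw [CA.map]; exact h⟩
  · exact ⟨p.map fun ω => (y ω, x ω), by rw [CA.map]; exact h⟩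

private theorem D4_q_congr {Ω : Type} {p : Ultrafilter Ω} {x x' : Ω → V} (hxe : ∀ᶠ w in (p : Filter Ω), x' w = x w)
    (h : p.map x = q) : p.map x' = q := by
  rw [← h]
  refine Ultrafilter.coe_le_coe.1 ?_
  intro A hA
  have hA' : ∀ᶠ w in (p : Filter _), x w ∈ A := hA
  show ∀ᶠ w in (p : Filter _), x' w ∈ A
  filter_upwards [hA', hxe] with w g1 g2
  rw [g2]
  exact g1

private theorem D4_ce_congr {Ω : Type} {p : Ultrafilter Ω} {x x' y : Ω → V} (hxe : ∀ᶠ w in (p : Filter Ω), x' w = x w)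
    (h : CE W q U p x y) : CE W q U p x' y := by
  rcases h with h | h
  · refine Or.inl ⟨D4_q_congr hxe h.qx, h.qy, ?_, ?_, ?_⟩
    · filter_upwards [h.arc, hxe] with w g1 g2
      rw [g2]
      exact g1
    · intro K hK
      exact Unk.comp id hxe (h.fw K hK)
    · intro K hK
      exact Unk.congr hxe (h.bw K hK)
  · refine Or.inr ⟨h.qx, D4_q_congr hxe h.qy, ?_, ?_, ?_⟩
    · filter_upwards [h.arc, hxe] with w g1 g2
      rw [g2]
      exact g1
    · intro K hK
      exact Unk.congr hxe (h.fw K hK)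
    · intro K hK
      exact Unk.comp id hxe (h.bw K hK)

/-- pushing the situation forward -/
private theorem D4_push {Ω Ω' : Type} (p : Ultrafilter Ω) (p' : Ultrafilter Ω') (pr : Ω' → Ω) (h : p'.map pr = p)
    (M : ℕ) (v : Ω' → V) (w : Ω' → Fin (M + 1) → V) (hP : FPath W q U p' v w) (x0 y : Ω → V)
    (hk : Kn U p' (fun z => x0 (pr z)) v) (hy : ∀ᶠ z in (p' : Filter Ω'), w z (Fin.last M) = y (pr z)) :
    ∃ (M : ℕ) (p' : Ultrafilter (Ω × (V × (Fin (M + 1) → V)))), p'.map Prod.fst = p ∧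
      FPath W q U p' (fun z => z.2.1) (fun z => z.2.2) ∧ Kn U p' (fun z => x0 z.1) (fun z => z.2.1) ∧
      ∀ᶠ z in (p' : Filter (Ω × (V × (Fin (M + 1) → V)))), z.2.2 (Fin.last M) = y z.1 := by
  refine ⟨M, p'.map (fun z => (pr z, (v z, w z))), ?_, ⟨?_, ?_, ?_⟩, ?_, ?_⟩
  · rw [Ultrafilter.map_map, ← h]
    rfl
  · rw [D4_ce_map]
    exact hP.e0
  · intro i
    rw [D4_ce_map]
    exact hP.e i
  · intro i
    rw [D4_fr_map]
    exact hP.free i
  · rw [D4_kn_map]
    exact hk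
  · exact hy

/-- the start of the induction -/
private theorem D4_zero (S : Sys W q U) {Ω : Type} (p : Ultrafilter Ω) (x0 x1 : Ω → V) (hx : CE W q U p x0 x1) :
    ∃ (M : ℕ) (p' : Ultrafilter (Ω × (V × (Fin (M + 1) → V)))), p'.map Prod.fst = p ∧
      FPath W q U p' (fun z => z.2.1) (fun z => z.2.2) ∧ Kn U p' (fun z => x0 z.1) (fun z => z.2.1) ∧
      ∀ᶠ z in (p' : Filter (Ω × (V × (Fin (M + 1) → V)))), z.2.2 (Fin.last M) = x1 z.1 := by
  obtain ⟨p0, h0⟩ := D4_hC hx
  have hq0 : p.map x0 = q := by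
    rcases hx with h | h
    · exact h.qx
    · exact h.qy
  obtain ⟨p', e1, e2, -, e4⟩ := ext_copy (I := Unit) p x0 (p0.map (fun z => (z.1, fun _ => z.2))) (by
    rw [Ultrafilter.map_map, hq0, ← h0.qx]
    rfl) (fun a => FibF W Unit a) (by
    show ∀ᶠ z in (p0 : Filter (V × V)), (fun _ : Unit => z.2) ∈ FibF W Unit z.1
    filter_upwards [h0.arc] with z hz
    rw [mem_FibF]
    intro _
    exact (W.rf _ _ hz).symm)
  -- the new vertex is a child of `x0`
  have hCA : CA W q U p' (fun w => x0 w.1) (fun w => w.2 ()) := by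
    have g : CA W q U (p'.map (fun w => (x0 w.1, w.2))) (fun z => z.1) (fun z => z.2 ()) := by
      rw [e2, CA.map]
      exact h0
    rw [CA.map] at g
    exact g
  have hCE' : CE W q U p' (fun w => x0 w.1) (fun w => x1 w.1) := by
    have g := hx
    rw [← e1, D4_ce_map] at g
    exact g
  refine D4_push p p' Prod.fst e1 1 (fun w => w.2 ()) (fun w => ![x0 w.1, x1 w.1]) ⟨?_, ?_, ?_⟩ x0 x1 ?_ ?_
  · exact Or.inr hCA
  · intro i
    have hi : i = 0 := Subsingleton.elim _ _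
    subst hi
    exact hCE'
  · intro i
    have hcase : ∀ i : Fin 2, i = 0 ∨ i = 1 := by decide
    rcases hcase i with rfl | rfl
    · intro K hK
      refine Unk.comp (fun d => (d, fun _ => none)) (Filter.Eventually.of_forall fun w => ?_) (hCA.bw K hK)
      refine Prod.ext rfl (funext fun j => ?_)
      show res (Finset.Iio 0) ![x0 w.1, x1 w.1] j = none
      unfold res
      refine if_neg ?_
      intro hj
      exact absurd (Finset.mem_Iio.1 hj) (Fin.not_lt_zero j)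
    · intro K hK
      have g := e4 V x0 id (fun _ => rfl) x1 K (S.res K hK) (D4_ce_fr hx K hK)
      refine Unk.comp (fun d => (d.2 (), fun j : Fin 2 => if j ∈ Finset.Iio (1 : Fin 2) then some d.1 else none))
        (Filter.Eventually.of_forall fun w => ?_) g
      refine Prod.ext rfl (funext fun j => ?_)
      show res (Finset.Iio 1) ![x0 w.1, x1 w.1] j = if j ∈ Finset.Iio (1 : Fin 2) then some (x0 w.1) else none
      unfold res
      by_cases hj : j ∈ Finset.Iio (1 : Fin 2)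
      · rw [if_pos hj, if_pos hj]
        have hj0 : j = 0 := by
          rcases hcase j with h | h
          · exact h
          · subst h
            exact absurd (Finset.mem_Iio.1 hj) (lt_irrefl _)
        subst hj0
        rfl
      · rw [if_neg hj, if_neg hj]
  · exact D4_ce_kn S (Or.inl hCA)
  · exact Filter.Eventually.of_forall fun w => rfl

theorem lemmaD (S : Sys W q U) {t0 d : ℕ} (h1 : NoOut W t0 d) (h2 : NoOut W.dual t0 d) {t m : ℕ} (F : BD W q U t m)
    (hF : F.Emp) (rB : Ultrafilter (V × (Nd t m → V))) (hB : IsB W q U rB Prod.fst Prod.snd) {Ω : Type}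
    (p : Ultrafilter Ω) (xs : ℕ → Ω → V) (k : ℕ) (hx : ∀ i ≤ k, CE W q U p (xs i) (xs (i + 1))) :
    ∃ (M : ℕ) (p' : Ultrafilter (Ω × (V × (Fin (M + 1) → V)))), p'.map Prod.fst = p ∧
      FPath W q U p' (fun z => z.2.1) (fun z => z.2.2) ∧ Kn U p' (fun z => xs 0 z.1) (fun z => z.2.1) ∧
      ∀ᶠ z in (p' : Filter (Ω × (V × (Fin (M + 1) → V)))), z.2.2 (Fin.last M) = xs (k + 1) z.1 := by
  induction k with
  | zero => exact D4_zero S p (xs 0) (xs 1) (hx 0 le_rfl)
  | succ k ih =>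
    obtain ⟨M, p1, a1, a2, a3, a4⟩ := ih (fun i hi => hx i (by omega))
    have hCE1 : CE W q U p1 (fun z => xs (k + 1) z.1) (fun z => xs (k + 2) z.1) := by
      have g := hx (k + 1) le_rfl
      rw [← a1, D4_ce_map] at g
      exact g
    have hCE2 : CE W q U p1 (fun z => z.2.2 (Fin.last M)) (fun z => xs (k + 2) z.1) := D4_ce_congr a4 hCE1
    obtain ⟨p2, b1, b2, b3, b4, b5, b6, b7, b8, b9, b10⟩ := D_step S h1 h2 F hF rB hB p1 (fun z => z.2.1)
      (fun z => z.2.2) a2 (fun z => xs (k + 2) z.1) hCE2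
    -- transport
    have hkn0 : Kn U p2 (fun z => xs 0 z.1.1) (fun z => z.1.2.1) := by
      have g := a3
      rw [← b1, D4_kn_map] at g
      exact g
    have hCE0 : CE W q U p2 (fun z => z.1.2.1) (fun z => z.2.1 0) := by
      have g : CE W q U (p1.map (fun ω => (ω.2.1, ω.2.2))) (fun s => s.1) (fun s => s.2 0) := by
        rw [D4_ce_map]
        exact a2.e0
      rw [← b2, D4_ce_map] at g
      exact g
    have hCEi : ∀ i : Fin M, CE W q U p2 (fun z => z.2.1 i.castSucc) (fun z => z.2.1 i.succ) := by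
      intro i
      have g : CE W q U (p1.map (fun ω => (ω.2.1, ω.2.2))) (fun s => s.2 i.castSucc) (fun s => s.2 i.succ) := by
        rw [D4_ce_map]
        exact a2.e i
      rw [← b2, D4_ce_map] at g
      exact g
    have hCAt : ∀ n, CA W q U p2 (fun z => ev (z.2.1 (Fin.last M)) z.2.2.1 (fa n)) (fun z => z.2.2.1 n) := by
      intro n
      have g := hB.arc n
      rw [← b4, CA.map] at g
      exact g
    have hCAt2 : ∀ n, CA W q U p2 (fun z => ev (z.1.2.2 (Fin.last M)) z.2.2.2 (fa n)) (fun z => z.2.2.2 n) := by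
      intro n
      have g := hB.arc n
      rw [← b5, CA.map] at g
      exact g
    -- fixed positions
    have hpig : ∃ (a' : Option (Nd t m)) (n : Nd t m), ∀ᶠ z in (p2 : Filter ((Ω × (V × (Fin (M + 1) → V))) ×
        ((Fin (M + 1) → V) × (Nd t m → V) × (Nd t m → V)))),
        W.r (ev (z.2.1 (Fin.last M)) z.2.2.1 a') (z.2.2.2 n) := by
      by_contra hcon
      push Not at hcon
      have hall : ∀ᶠ z in (p2 : Filter ((Ω × (V × (Fin (M + 1) → V))) ×
          ((Fin (M + 1) → V) × (Nd t m → V) × (Nd t m → V)))), ∀ a' n,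
          ¬ W.r (ev (z.2.1 (Fin.last M)) z.2.2.1 a') (z.2.2.2 n) :=
        Filter.eventually_all.2 fun a' => Filter.eventually_all.2 fun n => hcon a' n
      obtain ⟨z, hz1, hz2⟩ := (b8.and hall).exists
      obtain ⟨a', n, h⟩ := hz1
      exact hz2 a' n h
    obtain ⟨a', n, harc⟩ := hpig
    -- knowledge along the copy of the path
    have hk0 : Kn U p2 (fun z => xs 0 z.1.1) (fun z => z.2.1 0) := by
      refine tp S h1 h2 hkn0 hCE0 ?_
      exact D4_fr_comp (b3 0) (fun d => (xs 0 d.1.1, d.1.2.1))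
    have hkp : ∀ i, Kn U p2 (fun z => xs 0 z.1.1) (fun z => z.2.1 i) := by
      refine tp_path S h1 h2 (w := fun z : (Ω × (V × (Fin (M + 1) → V))) ×
          ((Fin (M + 1) → V) × (Nd t m → V) × (Nd t m → V)) => z.2.1) hk0 hCEi (fun i => ?_)
      intro K hK
      refine Unk.comp (fun d => (xs 0 d.1.1, (d.2 i.castSucc).getD d.1.2.1)) (Filter.Eventually.of_forall fun z => ?_)
        (b3 i.succ K hK)
      refine Prod.ext rfl ?_
      show z.2.1 i.castSucc = (res (Finset.Iio i.succ) z.2.1 i.castSucc).getD _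
      unfold res
      rw [if_pos (by rw [Finset.mem_Iio]; exact Fin.castSucc_lt_succ)]
      rfl
    have hkt : ∀ n, Kn U p2 (fun z => xs 0 z.1.1) (fun z => z.2.2.1 n) := by
      refine tp_tree S h1 h2 (x := fun z : (Ω × (V × (Fin (M + 1) → V))) ×
          ((Fin (M + 1) → V) × (Nd t m → V) × (Nd t m → V)) => z.2.1 (Fin.last M))
        (τ := fun z : (Ω × (V × (Fin (M + 1) → V))) ×
          ((Fin (M + 1) → V) × (Nd t m → V) × (Nd t m → V)) => z.2.2.1) (hkp (Fin.last M)) hCAt (fun n => ?_)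
      exact D4_fr_comp (b6 n) (fun d => ((xs 0 d.1.1.1, d.1.2 (Fin.last M)), d.2))
    have hku : Kn U p2 (fun z => xs 0 z.1.1) (fun z => ev (z.2.1 (Fin.last M)) z.2.2.1 a') := by
      cases a' with
      | none => exact hkp (Fin.last M)
      | some n' => exact hkt n'
    have hfu : Fr U p2 (fun z => (xs 0 z.1.1, ev (z.2.1 (Fin.last M)) z.2.2.1 a')) (fun z => z.2.2.2 n) :=
      D4_fr_comp (b7 n) (fun d => (xs 0 d.1.1.1, ev (d.1.2.1 (Fin.last M)) d.1.2.2 a'))
    have hqu : p2.map (fun z => ev (z.2.1 (Fin.last M)) z.2.2.1 a') = q := by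
      cases a' with
      | none =>
        have g := hB.qx
        rw [← b4, Ultrafilter.map_map] at g
        exact g
      | some n' => exact (hCAt n').qy
    have hCA : CA W q U p2 (fun z => ev (z.2.1 (Fin.last M)) z.2.2.1 a') (fun z => z.2.2.2 n) :=
      ⟨hqu, (hCAt2 n).qy, harc, D4_fr_comp hfu (fun d => d.2), b9 a' n⟩
    have hfin : Kn U p2 (fun z => xs 0 z.1.1) (fun z => z.2.2.2 n) := tp S h1 h2 hku (Or.inl hCA) hfu
    -- the reversed branch
    have hbx : ∀ n, Fr U p2 (fun z => res (insert n (anc n)) z.2.2.2) (fun z => z.1.2.2 (Fin.last M)) := by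
      intro n
      have g := hB.bx n
      rw [← b5, D4_fr_map] at g
      exact g
    have hbn : ∀ n, ∀ a ∈ anc n, Fr U p2 (fun z => res (seg a n) z.2.2.2) (fun z => z.2.2.2 a) := by
      intro n a ha
      have g := hB.bn n a ha
      rw [← b5, D4_fr_map] at g
      exact g
    have hCEy : CE W q U p2 (fun z => z.1.2.2 (Fin.last M)) (fun z => xs (k + 2) z.1.1) := by
      have g := hCE2
      rw [← b1, D4_ce_map] at g
      exact g
    obtain ⟨M', w', hw1, hw2⟩ := rev_path hCAt2 hbx hbn (fun z => xs (k + 2) z.1.1) hCEy b10 n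
    exact D4_push p p2 (fun z => z.1.1) (by rw [← a1, ← b1, Ultrafilter.map_map]; rfl) M' (fun z => z.2.2.2 n) w' hw1 (xs 0)
      (xs (k + 2)) hfin hw2

end Pool.Agent.Lib.MP_b0c2b5_co.AT
end

section

/-!
# AT, E2: Lemma E.

PROOF. `k = 0`: a child of the root: `CA (xs 0) (τ n)` for `fa n = none` (`n` exists: `1 ≤ t` by `hF.pos`, `1 ≤ a`), `S.kn`. `k = k' + 1`: `X ω := fun i : Fin (k+1) => xs i ω`, `lemmaD` for `p.map X` and the coordinates, `k'`: `p1` on `(Fin (k+1) → V) × (V × (Fin (M+1) → V))`; `ext_copy` over `X` (index set `Option (Fin (M+1))`) gives `p2` on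
`Ω × (Option (Fin (M+1)) → V)` with `v`, `w`, `w last = xs k`; the last part of `ext_copy` with `Y := (X, res (anc n) τ)`: `τ n` is free over `((X, res (anc n) τ), v, w)`. `z' := (w, τ)` is free over `v` with the pasts `pastE`. `Kn U p2 v (w last)` (`S.kn`, `tp_path`), `ParR W F.A F.φ ∉ U`: `g`, `δ1` with `δ1 ≤ g v (w last)`. `up` for `v`, `z'`, `pastE`,
`K1 ∈ U` containing `F.K`, `EQr V`, `δ := ε0 δ1`, `c := δ1^2/(2t^2)` (`hubF`), `D0 a := (FibF W _ a).filter (the hypotheses of hubF, δ1 ≤ g a (z last))`, `Rel _ z z2 := Arr W (z2 last) (z2 inr) (z inr)`: `p3`, `z'' = (w'', τ'')`. Fixed `a', n` with `r u'' u`, `u'' := ev (w'' last) τ'' a'`, `u := τ n`. `Kn U p3 (xs 0) v`; `tp` to `w'' 0`, `tp_path`, `tp_tree`: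
`Kn U p3 (xs 0) u''`. `u` is free over `(xs 0, u'')`: last statement of `up` with `Y := (v, xs 0)`. `u''` is free over `u` (fourth statement of `up`). So `CA u'' u` and `tp` gives `Kn U p3 (xs 0) u`; this is a statement about `p` (`unk_map`).
-/

set_option autoImplicit false

namespace Pool.Agent.Lib.MP_b0c2b5_co.AT

open LS Filter
open scoped Classical

variable {V : Type}

variable {W : World V} {q : Ultrafilter V} {U : Set (Set (V → ℝ))}

private theorem E2_kn_map {Ω Ω' D : Type} (p : Ultrafilter Ω) (e : Ω → Ω') (Y : Ω' → D) (b : Ω' → V) :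
    Kn U (p.map e) Y b ↔ Kn U p (fun ω => Y (e ω)) (fun ω => b (e ω)) := by
  unfold Kn
  simp only [unk_map]

private theorem E2_fr_map {Ω Ω' D : Type} (p : Ultrafilter Ω) (e : Ω → Ω') (Y : Ω' → D) (b : Ω' → V) :
    Fr U (p.map e) Y b ↔ Fr U p (fun ω => Y (e ω)) (fun ω => b (e ω)) := by
  unfold Fr
  simp only [unk_map]

private theorem E2_ce_map {Ω Ω' : Type} (p : Ultrafilter Ω) (e : Ω → Ω') (x y : Ω' → V) :
    CE W q U (p.map e) x y ↔ CE W q U p (fun ω => x (e ω)) (fun ω => y (e ω)) := by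
  unfold CE
  rw [CA.map, CA.map]

private theorem E2_fr_comp {Ω D D' : Type} {p : Ultrafilter Ω} {Y : Ω → D} {b : Ω → V} (h : Fr U p Y b) (f : D → D') :
    Fr U p (fun ω => f (Y ω)) b := fun K hK =>
  Unk.comp f (Filter.Eventually.of_forall fun _ => rfl) (h K hK)

private theorem E2_ce_fib {Ω : Type} {p : Ultrafilter Ω} {x y : Ω → V} (h : CE W q U p x y) :
    ∀ᶠ ω in (p : Filter Ω), W.fib (x ω) = W.fib (y ω) := by
  rcases h with h | h
  · filter_upwards [h.arc] with ω hω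
    exact W.rf _ _ hω
  · filter_upwards [h.arc] with ω hω
    exact (W.rf _ _ hω).symm

private theorem E2_ce_fr {Ω : Type} {p : Ultrafilter Ω} {x y : Ω → V} (h : CE W q U p x y) : Fr U p x y := by
  rcases h with h | h
  · exact h.fw
  · exact h.bw

private theorem E2_ce_kn (S : Sys W q U) {Ω : Type} {p : Ultrafilter Ω} {x y : Ω → V} (h : CE W q U p x y) :
    Kn U p x y := by
  rcases h with h | h
  · exact S.kn h.qx h.qy (h.arc.mono fun _ h => Or.inl h) h.fw
  · exact S.kn h.qy h.qx (h.arc.mono fun _ h => Or.inr h) h.bw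

private theorem E2_ce_q {Ω : Type} {p : Ultrafilter Ω} {x y : Ω → V} (h : CE W q U p x y) :
    p.map x = q ∧ p.map y = q := by
  rcases h with h | h
  · exact ⟨h.qx, h.qy⟩
  · exact ⟨h.qy, h.qx⟩

private theorem E2_hC {Ω : Type} {p : Ultrafilter Ω} {x y : Ω → V} (h : CE W q U p x y) :
    ∃ p : Ultrafilter (V × V), CA W q U p Prod.fst Prod.snd := by
  rcases h with h | h
  · exact ⟨p.map fun ω => (x ω, y ω), by rw [CA.map]; exact h⟩
  · exact ⟨p.map fun ω => (y ω, x ω), by rw [CA.map]; exact h⟩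

/-- the situation of Lemma E after adding the satellites: `p2`, `v`, `w`, `τ` -/
private theorem E2_core (S : Sys W q U) {t0 d : ℕ} (h1 : NoOut W t0 d) (h2 : NoOut W.dual t0 d) {t a : ℕ}
    (F : FD W q U t a) (hF : F.Emp) {Ω : Type} (p : Ultrafilter Ω) {M : ℕ} (x0 v : Ω → V) (w : Ω → Fin (M + 1) → V)
    (hP : FPath W q U p v w) (hk : Kn U p x0 v) (τ : Ω → Nd t a → V)
    (hτ : IsF W q U p (fun ω => w ω (Fin.last M)) τ)
    (hfree : ∀ n, Fr U p (fun ω => ((v ω, x0 ω), w ω, res (anc n) (τ ω))) (fun ω => τ ω n)) :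
    ∃ n, Kn U p x0 (fun ω => τ ω n) := by
  obtain ⟨hC⟩ : Nonempty (∃ p : Ultrafilter (V × V), CA W q U p Prod.fst Prod.snd) := ⟨E2_hC hP.e0⟩
  -- the sequence `(w, τ)`
  obtain ⟨z', hz'⟩ : ∃ z' : Ω → (Fin (M + 1) ⊕ Nd t a) → V, ∀ ω, z' ω = Sum.elim (w ω) (τ ω) := ⟨_, fun _ => rfl⟩
  have hz1 : ∀ ω i, z' ω (Sum.inl i) = w ω i := fun ω i => by rw [hz']; rfl
  have hz2 : ∀ ω n, z' ω (Sum.inr n) = τ ω n := fun ω n => by rw [hz']; rfl
  have hz2' : ∀ ω, (fun n => z' ω (Sum.inr n)) = τ ω := fun ω => funext (hz2 ω)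
  -- freeness with the pasts `pastE`
  have hfr : ∀ b, Fr U p (fun ω => (v ω, res (pastE b) (z' ω))) (fun ω => z' ω b) := by
    intro b K hK
    cases b with
    | inl i =>
      have h0 := hP.free i K hK
      refine Unk.congr (b := fun ω => w ω i) (Filter.Eventually.of_forall fun ω => hz1 ω i) ?_
      refine Unk.comp (fun d => (d.1, fun o : Fin (M + 1) ⊕ Nd t a => (match o with
        | Sum.inl j => d.2 j
        | Sum.inr _ => none : Option V))) (Filter.Eventually.of_forall fun ω => Prod.ext rfl (funext fun o => ?_)) h0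
      cases o with
      | inl j =>
        show res (pastE (Sum.inl i)) (z' ω) (Sum.inl j) = res (Finset.Iio i) (w ω) j
        unfold res
        have hiff : (Sum.inl j : Fin (M + 1) ⊕ Nd t a) ∈ pastE (Sum.inl i) ↔ j ∈ Finset.Iio i := by
          unfold pastE
          simp
        by_cases hj : j ∈ Finset.Iio i
        · rw [if_pos hj, if_pos (hiff.2 hj), hz1]
        · rw [if_neg hj, if_neg fun h => hj (hiff.1 h)]
      | inr n =>
        show res (pastE (Sum.inl i)) (z' ω) (Sum.inr n) = none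
        unfold res
        refine if_neg ?_
        unfold pastE
        simp
    | inr n =>
      have h0 := hfree n K hK
      refine Unk.congr (b := fun ω => τ ω n) (Filter.Eventually.of_forall fun ω => hz2 ω n) ?_
      refine Unk.comp (fun d => (d.1.1, fun o : Fin (M + 1) ⊕ Nd t a => (match o with
        | Sum.inl j => some (d.2.1 j)
        | Sum.inr n' => d.2.2 n' : Option V))) (Filter.Eventually.of_forall fun ω => Prod.ext rfl (funext fun o => ?_)) h0
      cases o with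
      | inl j =>
        show res (pastE (Sum.inr n)) (z' ω) (Sum.inl j) = some (w ω j)
        unfold res
        have : (Sum.inl j : Fin (M + 1) ⊕ Nd t a) ∈ pastE (Sum.inr n) := by
          unfold pastE
          simp
        rw [if_pos this, hz1]
      | inr n' =>
        show res (pastE (Sum.inr n)) (z' ω) (Sum.inr n') = res (anc n) (τ ω) n'
        unfold res
        have hiff : (Sum.inr n' : Fin (M + 1) ⊕ Nd t a) ∈ pastE (Sum.inr n) ↔ n' ∈ anc n := by
          unfold pastE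
          simp
        by_cases hj : n' ∈ anc n
        · rw [if_pos hj, if_pos (hiff.2 hj), hz2]
        · rw [if_neg hj, if_neg fun h => hj (hiff.1 h)]
  -- `v` knows `w last`
  have hpath_fr : ∀ i : Fin M, Fr U p (fun ω => (v ω, w ω i.castSucc)) (fun ω => w ω i.succ) := by
    intro i
    have := E2_fr_comp (hP.free i.succ) (fun d => (d.1, (d.2 i.castSucc).getD d.1))
    have he : (fun ω => ((v ω, res (Finset.Iio i.succ) (w ω)).1, ((v ω, res (Finset.Iio i.succ) (w ω)).2 i.castSucc).getD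
        (v ω, res (Finset.Iio i.succ) (w ω)).1)) = fun ω => (v ω, w ω i.castSucc) := by
      funext ω
      refine Prod.ext rfl ?_
      show (res (Finset.Iio i.succ) (w ω) i.castSucc).getD _ = w ω i.castSucc
      unfold res
      rw [if_pos (by rw [Finset.mem_Iio]; exact Fin.castSucc_lt_succ)]
      rfl
    rw [he] at this
    exact this
  have hkv : Kn U p v (fun ω => w ω (Fin.last M)) :=
    tp_path S h1 h2 (E2_ce_kn S hP.e0) hP.e hpath_fr (Fin.last M)
  -- the parents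
  have hpar := hkv _ (isRes_Par W F.A F.φ) (par_not_mem S hC F.hA F.hφ)
  rw [not_unk_iff] at hpar
  obtain ⟨g, hg, δ1, hδ1, hgev⟩ := hpar
  obtain ⟨ε0, hε0, hub⟩ := hubF M F hF
  have ht : 1 ≤ t := hF.pos
  -- the hypotheses of `hubF`
  obtain ⟨Q, hQ⟩ : ∃ Q : V → (Fin (M + 1) ⊕ Nd t a → V) → Prop, ∀ y z, Q y z ↔ ((z (Sum.inl (Fin.last M)) ∈ F.A ∧
      (∀ n, z (Sum.inr n) ∈ F.A) ∧
      (∀ n, F.φ (ev (z (Sum.inl (Fin.last M))) (fun n => z (Sum.inr n)) (fa n)) (z (Sum.inr n))) ∧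
      OutT W (z (Sum.inl (Fin.last M))) (fun n => z (Sum.inr n))) ∧ δ1 ≤ g y (z (Sum.inl (Fin.last M)))) :=
    ⟨_, fun _ _ => Iff.rfl⟩
  obtain ⟨D0, hD0⟩ : ∃ D0 : V → Finset (Fin (M + 1) ⊕ Nd t a → V),
      ∀ y z, z ∈ D0 y ↔ (∀ i, W.fib (z i) = W.fib y) ∧ Q y z :=
    ⟨fun y => (FibF W _ y).filter (Q y), fun y z => by rw [Finset.mem_filter, mem_FibF]⟩
  -- fibres
  have hfibw : ∀ i : Fin (M + 1), ∀ᶠ ω in (p : Filter Ω), W.fib (w ω i) = W.fib (v ω) := by
    intro i
    induction i using Fin.induction with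
    | zero => exact (E2_ce_fib hP.e0).mono fun _ h => h.symm
    | succ i ih =>
      filter_upwards [ih, E2_ce_fib (hP.e i)] with ω e1 e2
      exact e2.symm.trans e1
  have hA1 : ∀ᶠ ω in (p : Filter Ω), w ω (Fin.last M) ∈ F.A := by
    have : F.A ∈ p.map (fun ω => w ω (Fin.last M)) := by
      rw [hτ.qx]
      exact F.hA
    exact this
  have hA2 : ∀ᶠ ω in (p : Filter Ω), ∀ n, τ ω n ∈ F.A := by
    refine Filter.eventually_all.2 fun n => ?_
    have : F.A ∈ p.map (fun ω => τ ω n) := by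
      rw [(hτ.arc n).qy]
      exact F.hA
    exact this
  have hA3 : ∀ᶠ ω in (p : Filter Ω), ∀ n, F.φ (ev (w ω (Fin.last M)) (τ ω) (fa n)) (τ ω n) :=
    Filter.eventually_all.2 fun n => F.hφ.of_CA (hτ.arc n)
  have hmem : ∀ᶠ ω in (p : Filter Ω), z' ω ∈ D0 (v ω) := by
    filter_upwards [Filter.eventually_all.2 hfibw, hA1, hA2, hA3, hτ.out, hgev] with ω e1 e2 e3 e4 e5 e6
    rw [hD0, hQ, hz2']
    refine ⟨?_, ⟨?_, ?_, ?_, ?_⟩, ?_⟩
    · rintro (i | n)
      · rw [hz1]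
        exact e1 i
      · rw [hz2]
        exact (e5.fib n).trans (e1 (Fin.last M))
    · rw [hz1]
      exact e2
    · intro n
      rw [hz2]
      exact e3 n
    · intro n
      rw [hz1, hz2]
      exact e4 n
    · rw [hz1]
      exact e5
    · rw [hz1]
      exact e6
  have hK1 : jn F.K (EQr V) ∈ U := S.join _ F.hK _ S.eq
  have htpos : (0 : ℝ) < (t : ℝ) := by exact_mod_cast ht
  obtain ⟨p3, k1, k2, k3, k4, k5⟩ := up S p v z' pastE D0 hmem hfr
    (fun _ z z2 => Arr W (z2 (Sum.inl (Fin.last M))) (fun n => z2 (Sum.inr n)) (fun n => z (Sum.inr n)))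
    (jn F.K (EQr V)) hK1 (δ1 := ε0 * δ1) (c := δ1 ^ 2 / (2 * (t : ℝ) ^ 2)) (by positivity) (by positivity) (by
      refine Filter.Eventually.of_forall fun ω θ hθ => ?_
      refine hub _ (S.res _ hK1) ((Set.subset_union_left).trans (subset_convexHull ℝ _))
        ((Set.subset_union_right).trans (subset_convexHull ℝ _)) (D0 (v ω)) θ (ε0 * δ1) δ1 hδ1 le_rfl hθ
        (fun z hz => ((hQ _ _).1 ((hD0 _ _).1 hz).2).1) (g (v ω)) (hg (v ω))
        (fun z hz => ((hQ _ _).1 ((hD0 _ _).1 hz).2).2))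
  -- fixed positions
  have hpig : ∃ (a' : Option (Nd t a)) (n : Nd t a), ∀ᶠ y in (p3 : Filter (Ω × (Fin (M + 1) ⊕ Nd t a → V))),
      W.r (ev (y.2 (Sum.inl (Fin.last M))) (fun n => y.2 (Sum.inr n)) a') (τ y.1 n) := by
    by_contra hcon
    push Not at hcon
    have hall : ∀ᶠ y in (p3 : Filter (Ω × (Fin (M + 1) ⊕ Nd t a → V))), ∀ a' n,
        ¬ W.r (ev (y.2 (Sum.inl (Fin.last M))) (fun n => y.2 (Sum.inr n)) a') (τ y.1 n) := by
      exact Filter.eventually_all.2 fun a' => Filter.eventually_all.2 fun n => hcon a' n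
    obtain ⟨y, hy1, hy2⟩ := (k3.and hall).exists
    obtain ⟨a', n, h⟩ := hy1
    refine hy2 a' n ?_
    rw [← hz2 y.1 n]
    exact h
  obtain ⟨a', n, harc⟩ := hpig
  -- transport of the facts on `p`
  have hkn0 : Kn U p3 (fun y => x0 y.1) (fun y => v y.1) := by
    have := hk
    rw [← k1, E2_kn_map] at this
    exact this
  have hCEt : ∀ i j : Fin (M + 1), CE W q U p (fun ω => w ω i) (fun ω => w ω j) →
      CE W q U p3 (fun y => y.2 (Sum.inl i)) (fun y => y.2 (Sum.inl j)) := by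
    intro i j h
    have e0 : CE W q U (p.map (fun ω => (v ω, z' ω))) (fun s => s.2 (Sum.inl i)) (fun s => s.2 (Sum.inl j)) := by
      rw [E2_ce_map]
      simp only [hz1]
      exact h
    rw [← k2, E2_ce_map] at e0
    exact e0
  have hCE0 : CE W q U p3 (fun y => v y.1) (fun y => y.2 (Sum.inl 0)) := by
    have e0 : CE W q U (p.map (fun ω => (v ω, z' ω))) (fun s => s.1) (fun s => s.2 (Sum.inl 0)) := by
      rw [E2_ce_map]
      simp only [hz1]
      exact hP.e0
    rw [← k2, E2_ce_map] at e0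
    exact e0
  have hCAt : ∀ n, CA W q U p3 (fun y => ev (y.2 (Sum.inl (Fin.last M))) (fun n => y.2 (Sum.inr n)) (fa n))
      (fun y => y.2 (Sum.inr n)) := by
    intro n
    have e0 : CA W q U (p.map (fun ω => (v ω, z' ω)))
        (fun s => ev (s.2 (Sum.inl (Fin.last M))) (fun n => s.2 (Sum.inr n)) (fa n)) (fun s => s.2 (Sum.inr n)) := by
      rw [CA.map]
      simp only [hz1, hz2]
      exact hτ.arc n
    rw [← k2, CA.map] at e0
    exact e0
  -- freeness of the new sequence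
  have hk0 : Kn U p3 (fun y => x0 y.1) (fun y => y.2 (Sum.inl 0)) := by
    refine tp S h1 h2 hkn0 hCE0 ?_
    exact E2_fr_comp (k4 (Sum.inl 0)) (fun d => (x0 d.1, v d.1))
  have hkp : ∀ i, Kn U p3 (fun y => x0 y.1) (fun y => (fun i => y.2 (Sum.inl i) : Fin (M + 1) → V) i) := by
    refine tp_path S h1 h2 (w := fun y : Ω × (Fin (M + 1) ⊕ Nd t a → V) => fun i => y.2 (Sum.inl i)) hk0 (fun i => hCEt _ _ (hP.e i)) (fun i => ?_)
    have := E2_fr_comp (k4 (Sum.inl i.succ)) (fun d => (x0 d.1, (d.2 (Sum.inl i.castSucc)).getD (v d.1)))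
    have he : (fun y : Ω × (Fin (M + 1) ⊕ Nd t a → V) => (x0 (y.1, res (pastE (Sum.inl i.succ)) y.2).1,
        ((y.1, res (pastE (Sum.inl i.succ)) y.2).2 (Sum.inl i.castSucc)).getD (v (y.1, res (pastE (Sum.inl i.succ)) y.2).1))) =
        fun y => (x0 y.1, y.2 (Sum.inl i.castSucc)) := by
      funext y
      refine Prod.ext rfl ?_
      show (res (pastE (Sum.inl i.succ)) y.2 (Sum.inl i.castSucc)).getD _ = y.2 (Sum.inl i.castSucc)
      unfold res
      have : (Sum.inl i.castSucc : Fin (M + 1) ⊕ Nd t a) ∈ pastE (Sum.inl i.succ) := by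
        unfold pastE
        simp [Fin.castSucc_lt_succ]
      rw [if_pos this]
      rfl
    rw [he] at this
    exact this
  have hkt : ∀ n, Kn U p3 (fun y => x0 y.1) (fun y => (fun n => y.2 (Sum.inr n) : Nd t a → V) n) := by
    refine tp_tree S h1 h2 (x := fun y : Ω × (Fin (M + 1) ⊕ Nd t a → V) => y.2 (Sum.inl (Fin.last M)))
      (τ := fun y : Ω × (Fin (M + 1) ⊕ Nd t a → V) => fun n => y.2 (Sum.inr n))
      (hkp (Fin.last M)) hCAt (fun n => ?_)
    have := E2_fr_comp (k4 (Sum.inr n)) (fun d => ((x0 d.1, (d.2 (Sum.inl (Fin.last M))).getD (v d.1)),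
      fun n' : Nd t a => if n' ∈ anc n then d.2 (Sum.inr n') else none))
    have he : (fun y : Ω × (Fin (M + 1) ⊕ Nd t a → V) => ((x0 (y.1, res (pastE (Sum.inr n)) y.2).1,
        ((y.1, res (pastE (Sum.inr n)) y.2).2 (Sum.inl (Fin.last M))).getD (v (y.1, res (pastE (Sum.inr n)) y.2).1)),
        fun n' : Nd t a => if n' ∈ anc n then (y.1, res (pastE (Sum.inr n)) y.2).2 (Sum.inr n') else none)) =
        fun y => ((x0 y.1, y.2 (Sum.inl (Fin.last M))), res (anc n) (fun n => y.2 (Sum.inr n))) := by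
      funext y
      refine Prod.ext (Prod.ext rfl ?_) (funext fun n' => ?_)
      · show (res (pastE (Sum.inr n)) y.2 (Sum.inl (Fin.last M))).getD _ = y.2 (Sum.inl (Fin.last M))
        unfold res
        have : (Sum.inl (Fin.last M) : Fin (M + 1) ⊕ Nd t a) ∈ pastE (Sum.inr n) := by
          unfold pastE
          simp
        rw [if_pos this]
        rfl
      · show (if n' ∈ anc n then res (pastE (Sum.inr n)) y.2 (Sum.inr n') else none) =
          res (anc n) (fun n => y.2 (Sum.inr n)) n'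
        unfold res
        by_cases hn : n' ∈ anc n
        · have : (Sum.inr n' : Fin (M + 1) ⊕ Nd t a) ∈ pastE (Sum.inr n) := by
            unfold pastE
            simp [hn]
          rw [if_pos hn, if_pos this, if_pos hn]
        · rw [if_neg hn, if_neg hn]
    rw [he] at this
    exact this
  have hku : Kn U p3 (fun y => x0 y.1)
      (fun y => ev (y.2 (Sum.inl (Fin.last M))) (fun n => y.2 (Sum.inr n)) a') := by
    cases a' with
    | none => exact hkp (Fin.last M)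
    | some n' => exact hkt n'
  -- `u` is free over `(x0, u'')`
  have hfu : Fr U p3 (fun y => (x0 y.1, ev (y.2 (Sum.inl (Fin.last M))) (fun n => y.2 (Sum.inr n)) a'))
      (fun y => τ y.1 n) := by
    intro K hK
    have e0 : Unk p (fun ω => (v ω, x0 ω)) (fun ω => τ ω n) K :=
      Unk.comp (fun d => d.1) (Filter.Eventually.of_forall fun _ => rfl) (hfree n K hK)
    have := k5 (V × V) (fun ω => (v ω, x0 ω)) Prod.fst (fun _ => rfl) (fun ω => τ ω n) K (S.res K hK) e0
    exact Unk.comp (fun d => (d.1.2, ev (d.2 (Sum.inl (Fin.last M))) (fun n => d.2 (Sum.inr n)) a'))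
      (Filter.Eventually.of_forall fun _ => rfl) this
  have hbu : Fr U p3 (fun y => τ y.1 n)
      (fun y => ev (y.2 (Sum.inl (Fin.last M))) (fun n => y.2 (Sum.inr n)) a') := by
    cases a' with
    | none => exact E2_fr_comp (k4 (Sum.inl (Fin.last M))) (fun d => τ d.1 n)
    | some n' => exact E2_fr_comp (k4 (Sum.inr n')) (fun d => τ d.1 n)
  have hqu : p3.map (fun y => τ y.1 n) = q := by
    rw [← (hτ.arc n).qy, ← k1, Ultrafilter.map_map]
    rfl
  have hqu' : p3.map (fun y => ev (y.2 (Sum.inl (Fin.last M))) (fun n => y.2 (Sum.inr n)) a') = q := by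
    cases a' with
    | none =>
      have e0 : (p.map (fun ω => (v ω, z' ω))).map (fun s => s.2 (Sum.inl (Fin.last M))) = q := by
        rw [Ultrafilter.map_map, ← hτ.qx]
        congr 1
        funext ω
        exact hz1 ω _
      rw [← k2, Ultrafilter.map_map] at e0
      exact e0
    | some n' => exact (hCAt n').qy
  have hCA : CA W q U p3 (fun y => ev (y.2 (Sum.inl (Fin.last M))) (fun n => y.2 (Sum.inr n)) a')
      (fun y => τ y.1 n) :=
    ⟨hqu', hqu, harc, E2_fr_comp hfu (fun d => d.2), hbu⟩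
  have hfin := tp S h1 h2 hku (Or.inl hCA) hfu
  refine ⟨n, ?_⟩
  have : Kn U (p3.map Prod.fst) x0 (fun ω => τ ω n) := by
    rw [E2_kn_map]
    exact hfin
  rw [k1] at this
  exact this

theorem lemmaE (S : Sys W q U) {t0 d : ℕ} (h1 : NoOut W t0 d) (h2 : NoOut W.dual t0 d) {t' m : ℕ} (B : BD W q U t' m)
    (hB : B.Emp) (rB : Ultrafilter (V × (Nd t' m → V))) (hrB : IsB W q U rB Prod.fst Prod.snd) {t a : ℕ}
    (F : FD W q U t a) (hF : F.Emp) (ha : 1 ≤ a) {Ω : Type} (p : Ultrafilter Ω) (xs : ℕ → Ω → V) (k : ℕ)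
    (hx : ∀ i < k, CE W q U p (xs i) (xs (i + 1))) (τ : Ω → Nd t a → V) (hτ : IsF W q U p (xs k) τ)
    (hfree : ∀ n, Fr U p (fun ω => ((fun i : Fin (k + 1) => xs i ω), res (anc n) (τ ω))) (fun ω => τ ω n)) :
    ∃ n, Kn U p (xs 0) (fun ω => τ ω n) := by
  cases k with
  | zero =>
    obtain ⟨a, rfl⟩ := Nat.exists_eq_add_of_le' ha
    have ht : 1 ≤ t := hF.pos
    have := hτ.arc ((⟨0, ht⟩, none) : Fin t × Option (Nd t a))
    exact ⟨((⟨0, ht⟩, none) : Fin t × Option (Nd t a)), E2_ce_kn S (Or.inl this)⟩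
  | succ k =>
    -- the type of the path
    obtain ⟨X, hX⟩ : ∃ X : Ω → Fin (k + 2) → V, X = fun ω (i : Fin (k + 2)) => xs i ω := ⟨_, rfl⟩
    obtain ⟨xs', hxs'⟩ : ∃ xs' : ℕ → (Fin (k + 2) → V) → V, ∀ i f, xs' i f = if h : i < k + 2 then f ⟨i, h⟩ else f 0 :=
      ⟨fun i f => if h : i < k + 2 then f ⟨i, h⟩ else f 0, fun _ _ => rfl⟩
    have hxx : ∀ i, i < k + 2 → (fun ω => xs' i (X ω)) = xs i := by
      intro i hi
      funext ω
      rw [hxs', dif_pos hi, hX]
    obtain ⟨M, p1, e1, e2, e3, e4⟩ := lemmaD S h1 h2 B hB rB hrB (p.map X) xs' k (by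
      intro i hi
      rw [E2_ce_map, hxx i (by omega), hxx (i + 1) (by omega)]
      exact hx i (by omega))
    -- everything is in one fibre
    have hfw : ∀ i : Fin (M + 1), ∀ᶠ y in (p1 : Filter ((Fin (k + 2) → V) × (V × (Fin (M + 1) → V)))),
        W.fib (y.2.2 i) = W.fib (y.2.1) := by
      intro i
      induction i using Fin.induction with
      | zero => exact (E2_ce_fib e2.e0).mono fun _ h => h.symm
      | succ i ih =>
        filter_upwards [ih, E2_ce_fib (e2.e i)] with ω e1 e2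
        exact e2.symm.trans e1
    obtain ⟨enc, henc⟩ : ∃ enc : (Fin (k + 2) → V) × (V × (Fin (M + 1) → V)) → (Fin (k + 2) → V) ×
        (Option (Fin (M + 1)) → V), enc = fun y => (y.1, fun o => o.elim y.2.1 y.2.2) := ⟨_, rfl⟩
    obtain ⟨p2, f1, f2, -, f4⟩ := ext_copy p X (p1.map enc) (by
      rw [Ultrafilter.map_map, henc, ← e1]
      rfl) (fun f => FibF W _ (xs' (k + 1) f)) (by
      rw [henc]
      show ∀ᶠ y in (p1 : Filter ((Fin (k + 2) → V) × (V × (Fin (M + 1) → V)))),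
        (fun o : Option (Fin (M + 1)) => o.elim y.2.1 y.2.2) ∈ FibF W _ (xs' (k + 1) y.1)
      filter_upwards [Filter.eventually_all.2 hfw, e4] with y g1 g2
      rw [mem_FibF]
      intro o
      rw [← g2, g1]
      cases o with
      | none => rfl
      | some i => exact g1 i)
    -- transport from `p1` to `p2`
    have htr : ∀ (P : Ultrafilter ((Fin (k + 2) → V) × (V × (Fin (M + 1) → V))) → Prop),
        P p1 → P (p2.map (fun w => (X w.1, (w.2 none, fun i => w.2 (some i))))) := by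
      intro P hP
      have : p2.map (fun w => (X w.1, (w.2 none, fun i => w.2 (some i)))) = p1 := by
        have e0 : (p2.map (fun w => (X w.1, w.2))).map (fun s => (s.1, (s.2 none, fun i => s.2 (some i)))) = p1 := by
          rw [f2, Ultrafilter.map_map, henc]
          exact Ultrafilter.map_id p1
        rw [Ultrafilter.map_map] at e0
        exact e0
      rw [this]
      exact hP
    have hP2 : FPath W q U p2 (fun w => w.2 none) (fun w i => w.2 (some i)) := by
      have g1 := htr (fun P => CE W q U P (fun z => z.2.1) (fun z => z.2.2 0)) e2.e0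
      have g2 := fun i => htr (fun P => CE W q U P (fun z => z.2.2 (Fin.castSucc i)) (fun z => z.2.2 (Fin.succ i))) (e2.e i)
      have g3 := fun i => htr (fun P => Fr U P (fun z => (z.2.1, res (Finset.Iio i) z.2.2)) (fun z => z.2.2 i)) (e2.free i)
      simp only [E2_ce_map, E2_fr_map] at g1 g2 g3
      exact ⟨g1, g2, g3⟩
    have hk2 : Kn U p2 (fun w => xs 0 w.1) (fun w => w.2 none) := by
      have g1 := htr (fun P => Kn U P (fun z => xs' 0 z.1) (fun z => z.2.1)) e3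
      simp only [E2_kn_map] at g1
      have g2 : (fun w : Ω × (Option (Fin (M + 1)) → V) => xs' 0 (X w.1)) = fun w => xs 0 w.1 := by
        funext w
        exact congrFun (hxx 0 (by omega)) w.1
      rw [g2] at g1
      exact g1
    have hlast : ∀ᶠ w in (p2 : Filter (Ω × (Option (Fin (M + 1)) → V))), w.2 (some (Fin.last M)) = xs (k + 1) w.1 := by
      have g1 := htr (fun P => ∀ᶠ z in (P : Filter ((Fin (k + 2) → V) × (V × (Fin (M + 1) → V)))),
        z.2.2 (Fin.last M) = xs' (k + 1) z.1) e4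
      have g2 : ∀ᶠ w in (p2 : Filter (Ω × (Option (Fin (M + 1)) → V))), w.2 (some (Fin.last M)) = xs' (k + 1) (X w.1) := g1
      filter_upwards [g2] with w hw
      rw [hw]
      exact congrFun (hxx (k + 1) (by omega)) w.1
    -- the tree below `w last`
    have hmap : ∀ f : Ω → V, p2.map (fun w => f w.1) = p.map f := by
      intro f
      rw [← f1, Ultrafilter.map_map]
      rfl
    have hev : ∀ o : Option (Nd t a), ∀ᶠ w in (p2 : Filter (Ω × (Option (Fin (M + 1)) → V))),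
        ev (w.2 (some (Fin.last M))) (τ w.1) o = ev (xs (k + 1) w.1) (τ w.1) o := by
      intro o
      filter_upwards [hlast] with w hw
      rw [hw]
    have hFp2 : ∀ (x y : Ω → V), CA W q U p x y → CA W q U p2 (fun w => x w.1) (fun w => y w.1) := by
      intro x y h
      rw [← f1, CA.map] at h
      exact h
    have hFr2 : ∀ {D : Type} (Y : Ω → D) (y : Ω → V), Fr U p Y y → Fr U p2 (fun w => Y w.1) (fun w => y w.1) := by
      intro D Y y h
      rw [← f1, E2_fr_map] at h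
      exact h
    have hCAc : ∀ (x x' y : Ω × (Option (Fin (M + 1)) → V) → V), (∀ᶠ w in (p2 : Filter _), x' w = x w) →
        CA W q U p2 x y → CA W q U p2 x' y := by
      intro x x' y hxe h
      refine ⟨?_, h.qy, ?_, ?_, ?_⟩
      · rw [← h.qx]
        refine Ultrafilter.coe_le_coe.1 ?_
        intro A hA
        have hA' : ∀ᶠ w in (p2 : Filter _), x w ∈ A := hA
        show ∀ᶠ w in (p2 : Filter _), x' w ∈ A
        filter_upwards [hA', hxe] with w g1 g2
        rw [g2]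
        exact g1
      · filter_upwards [h.arc, hxe] with w g1 g2
        rw [g2]
        exact g1
      · intro K hK
        exact Unk.comp id hxe (h.fw K hK)
      · intro K hK
        exact Unk.congr hxe (h.bw K hK)
    obtain ⟨n, hn⟩ := E2_core S h1 h2 F hF p2 (fun w => xs 0 w.1) (fun w => w.2 none) (fun w i => w.2 (some i)) hP2 hk2
      (fun w => τ w.1) (by
        refine ⟨?_, fun n => ?_, ?_, fun n => ?_⟩
        · rw [← hτ.qx, ← hmap]
          refine Ultrafilter.coe_le_coe.1 ?_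
          intro A hA
          have hA' : ∀ᶠ w in (p2 : Filter (Ω × (Option (Fin (M + 1)) → V))), xs (k + 1) w.1 ∈ A := hA
          show ∀ᶠ w in (p2 : Filter (Ω × (Option (Fin (M + 1)) → V))), w.2 (some (Fin.last M)) ∈ A
          filter_upwards [hA', hlast] with w g1 g2
          rw [g2]
          exact g1
        · exact hCAc _ _ _ (hev (fa n)) (hFp2 _ _ (hτ.arc n))
        · have : ∀ᶠ w in (p2 : Filter (Ω × (Option (Fin (M + 1)) → V))), OutT W (xs (k + 1) w.1) (τ w.1) := by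
            have := hτ.out
            rw [← f1] at this
            exact this
          filter_upwards [this, hlast] with w g1 g2
          rw [g2]
          exact g1
        · intro K hK
          refine Unk.comp id ?_ (hFr2 _ _ (hτ.free n) K hK)
          filter_upwards [hlast] with w hw
          rw [hw]
          rfl) (by
        intro n K hK
        have g1 := f4 ((Fin (k + 2) → V) × (Nd t a → Option V)) (fun ω => (X ω, res (anc n) (τ ω))) Prod.fst (fun _ => rfl)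
          (fun ω => τ ω n) K (S.res K hK) (by
            rw [hX]
            exact hfree n K hK)
        refine Unk.comp (fun d => ((d.2 none, xs' 0 d.1.1), (fun i => d.2 (some i)), d.1.2)) ?_ g1
        refine Filter.Eventually.of_forall fun w => ?_
        have : xs 0 w.1 = xs' 0 (X w.1) := (congrFun (hxx 0 (by omega)) w.1).symm
        rw [this])
    refine ⟨n, ?_⟩
    have : Kn U (p2.map Prod.fst) (xs 0) (fun ω => τ ω n) := by
      rw [E2_kn_map]
      exact hn
    rw [f1] at this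
    exact this

end Pool.Agent.Lib.MP_b0c2b5_co.AT
end

section

/-!
# AT, S1b: STAR (paper, section 6)

PROOF of `exists_star`. Suppose not. For all data `(A, φ, K, δ, l, η)` there are `k ≤ R` and a walk `x_0, .., x_k` (exact length: `walk_of_reach`) with a law `θ ∈ SP anc K δ D`, `D` a finite set of unhit trees at `x_k`. One `k` occurs cofinally (data can be joined: `A ∩ A'`, `InFC.and`, `jn K K'`, `min δ δ'`, mean of `l, l'` and `(min η η') / 2`; failure for stronger data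
gives failure with the same `k` for weaker data). Compactness (an ultrafilter on `(Fin (k+1) → V) × (Nd t a → V)` containing all sets given by finitely many conditions): `Gp W A φ (x_i) (x_(i+1))`, `TrS W A φ (x_k) τ`, `l (x_0) (τ n) < η` for all `n`, tests `g ((x_0..x_k), res (anc n) τ) (τ n) < η'` (`g` into `K`; draw `τ` from `θ` with `δ` small: Markov, `pick`).
So there is an exact tuple: all `x_i`, `τ n` of type `q` (for `k = 0` and `x_0`: from `TrS`), `CE (x_i) (x_(i+1))` (the orientation is fixed by the ultrafilter), `IsF` for `(x_k, τ)`, `τ` free over `(x_0..x_k)`, and `Unk p (x_0) (τ n) (ParR W F.A F.φ)` for all `n`. `lemmaE` and `par_not_mem`, `isRes_Par`: contradiction.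
-/

set_option autoImplicit false

namespace Pool.Agent.Lib.MP_b0c2b5_co.AT

open LS Filter
open scoped Classical

variable {V : Type}

/-- the tree `τ` at `y` is not hit by `G x` -/
def S1b_UnH (W : World V) (A : Set V) (φ : V → V → Prop) (G : V → V → ℝ) (η : ℝ) {t m : ℕ} (x y : V)
    (τ : Nd t m → V) : Prop :=
  y ∈ A ∧ (∀ n, τ n ∈ A) ∧ (∀ n, φ (ev y τ (fa n)) (τ n)) ∧ OutT W y τ ∧ ∀ n, G x (τ n) < η

/-- data of one scale -/
structure S1b_SD (W : World V) (q : Ultrafilter V) (U : Set (Set (V → ℝ))) (A0 : Set V) (φ0 : V → V → Prop) where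
  A : Set V
  hA : A ∈ q
  φ : V → V → Prop
  hφ : InFC W q U φ
  K : Set (V → ℝ)
  hK : K ∈ U
  δ : ℝ
  hδ : 0 < δ
  G : V → V → ℝ
  hG : ∀ x, G x ∈ ParR W A0 φ0
  η : ℝ
  hη : 0 < η

/-- finer data -/
structure S1b_SD.Le {W : World V} {q : Ultrafilter V} {U : Set (Set (V → ℝ))} {A0 : Set V} {φ0 : V → V → Prop}
    (d d' : S1b_SD W q U A0 φ0) : Prop where
  hA : d.A ⊆ d'.A
  hφ : ∀ x y, d.φ x y → d'.φ x y
  hK : d'.K ⊆ d.K
  hδ : d.δ ≤ d'.δ
  hG : ∀ x v, d.G x v < d.η → d'.G x v < d'.η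

theorem S1b_SP_mono {I : Type} {past : I → Finset I} {K K' : Set (V → ℝ)} {δ δ' : ℝ} {D : Finset (I → V)}
    (hK : K' ⊆ K) (hδ : δ ≤ δ') : SP past K δ D ⊆ SP past K' δ' D := by
  rintro θ ⟨h1, h2⟩
  exact ⟨h1, fun b h hh => (h2 b h fun s => hK (hh s)).trans hδ⟩

theorem S1b_UnH.mono {W : World V} {q : Ultrafilter V} {U : Set (Set (V → ℝ))} {A0 : Set V} {φ0 : V → V → Prop}
    {d d' : S1b_SD W q U A0 φ0} (h : S1b_SD.Le d d') {t m : ℕ} {x y : V} {τ : Nd t m → V}
    (hu : S1b_UnH W d.A d.φ d.G d.η x y τ) : S1b_UnH W d'.A d'.φ d'.G d'.η x y τ :=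
  ⟨h.hA hu.1, fun n => h.hA (hu.2.1 n), fun n => h.hφ _ _ (hu.2.2.1 n), hu.2.2.2.1,
    fun n => h.hG _ _ (hu.2.2.2.2 n)⟩

theorem S1b_Gp_mono {W : World V} {A A' : Set V} {φ φ' : V → V → Prop} (hA : A ⊆ A') (hφ : ∀ x y, φ x y → φ' x y)
    {x y : V} (h : Gp W A φ x y) : Gp W A' φ' x y := by
  obtain ⟨h1, h2, h3⟩ := h
  refine ⟨hA h1, hA h2, ?_⟩
  rcases h3 with h3 | h3
  · exact Or.inl ⟨h3.1, hφ _ _ h3.2⟩
  · exact Or.inr ⟨h3.1, hφ _ _ h3.2⟩

/-- two data have a common refinement -/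
theorem S1b_SD.dir {W : World V} {q : Ultrafilter V} {U : Set (Set (V → ℝ))} (S : Sys W q U) {A0 : Set V}
    {φ0 : V → V → Prop} (d d' : S1b_SD W q U A0 φ0) : ∃ e : S1b_SD W q U A0 φ0, S1b_SD.Le e d ∧ S1b_SD.Le e d' := by
  have hnn : ∀ (d : S1b_SD W q U A0 φ0) x v, 0 ≤ d.G x v := fun d x v => (isRes_Par W A0 φ0).nn _ (d.hG x) v
  refine ⟨{ A := d.A ∩ d'.A, hA := inter_mem d.hA d'.hA, φ := fun x y => d.φ x y ∧ d'.φ x y, hφ := d.hφ.and S d'.hφ,
            K := jn d.K d'.K, hK := S.join _ d.hK _ d'.hK, δ := min d.δ d'.δ, hδ := lt_min d.hδ d'.hδ,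
            G := fun x v => (1/2) * d.G x v + (1/2) * d'.G x v, hG := fun x => ?_, η := min d.η d'.η / 2,
            hη := by have := lt_min d.hη d'.hη; linarith }, ?_, ?_⟩
  · have := (isRes_Par W A0 φ0).conv (d.hG x) (d'.hG x) (a := 1/2) (b := 1/2) (by norm_num) (by norm_num) (by norm_num)
    exact this
  · refine ⟨Set.inter_subset_left, fun x y h => h.1, ?_, min_le_left _ _, ?_⟩
    · exact Set.subset_union_left.trans (subset_convexHull ℝ _)
    · intro x v h
      have h1 := hnn d' x v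
      have h2 : min d.η d'.η ≤ d.η := min_le_left _ _
      change (1/2) * d.G x v + (1/2) * d'.G x v < min d.η d'.η / 2 at h
      linarith
  · refine ⟨Set.inter_subset_right, fun x y h => h.2, ?_, min_le_right _ _, ?_⟩
    · exact Set.subset_union_right.trans (subset_convexHull ℝ _)
    · intro x v h
      have h1 := hnn d x v
      have h2 : min d.η d'.η ≤ d'.η := min_le_right _ _
      change (1/2) * d.G x v + (1/2) * d'.G x v < min d.η d'.η / 2 at h
      linarith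

/-- an ultrafilter containing a directed family of nonempty sets -/
theorem S1b_dir_ultra {Ω J : Type*} [Nonempty J] (s : J → Set Ω) (hne : ∀ j, (s j).Nonempty)
    (hdir : ∀ i j, ∃ k, s k ⊆ s i ∩ s j) : ∃ p : Ultrafilter Ω, ∀ j, s j ∈ p := by
  have hd : Directed (· ≥ ·) (fun j => Filter.principal (s j)) := by
    intro i j
    obtain ⟨k, hk⟩ := hdir i j
    refine ⟨k, ?_, ?_⟩
    · exact Filter.principal_mono.2 (hk.trans Set.inter_subset_left)
    · exact Filter.principal_mono.2 (hk.trans Set.inter_subset_right)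
  have hn : (⨅ j, Filter.principal (s j)).NeBot := by
    refine Filter.iInf_neBot_of_directed' hd fun j => ?_
    exact Filter.principal_neBot_iff.2 (hne j)
  refine ⟨Ultrafilter.of (⨅ j, Filter.principal (s j)), fun j => ?_⟩
  have h1 : ((Ultrafilter.of (⨅ j, Filter.principal (s j)) : Ultrafilter Ω) : Filter Ω) ≤
      ⨅ j, Filter.principal (s j) := Ultrafilter.of_le _
  exact h1 (Filter.mem_iInf_of_mem j (Filter.mem_principal_self _))

/-- finitely many unknown resources are contained in one -/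
theorem S1b_join_fin {W : World V} {q : Ultrafilter V} {U : Set (Set (V → ℝ))} (S : Sys W q U) {K0 : Set (V → ℝ)}
    (hK0 : K0 ∈ U) {J : Type} (T : Finset J) (k : J → Set (V → ℝ)) (hT : ∀ e ∈ T, k e ∈ U) :
    ∃ K ∈ U, K0 ⊆ K ∧ ∀ e ∈ T, k e ⊆ K := by
  classical
  induction T using Finset.induction_on with
  | empty => exact ⟨K0, hK0, subset_rfl, fun e he => absurd he (Finset.notMem_empty e)⟩
  | insert a T ha ih =>
    obtain ⟨K, hK, h1, h2⟩ := ih fun e he => hT e (Finset.mem_insert_of_mem he)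
    refine ⟨jn K (k a), S.join _ hK _ (hT a (Finset.mem_insert_self a T)), ?_, ?_⟩
    · exact h1.trans (Set.subset_union_left.trans (subset_convexHull ℝ _))
    · intro e he
      rcases Finset.mem_insert.1 he with rfl | he
      · exact Set.subset_union_right.trans (subset_convexHull ℝ _)
      · exact (h2 e he).trans (Set.subset_union_left.trans (subset_convexHull ℝ _))

/-- the paths which have a spread probability on unhit trees at the end -/
def S1b_Bad {W : World V} {q : Ultrafilter V} {U : Set (Set (V → ℝ))} {A0 : Set V} {φ0 : V → V → Prop} (t m k : ℕ)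
    (d : S1b_SD W q U A0 φ0) : Set (Fin (k + 1) → V) :=
  {x | x 0 ∈ d.A ∧ (∀ i : Fin k, Gp W d.A d.φ (x i.castSucc) (x i.succ)) ∧
    ∃ (D : Finset (Nd t m → V)) (θ : (Nd t m → V) → ℝ),
      (∀ τ ∈ D, S1b_UnH W d.A d.φ d.G d.η (x 0) (x (Fin.last k)) τ) ∧ θ ∈ SP anc d.K d.δ D}

theorem S1b_Bad.mono {W : World V} {q : Ultrafilter V} {U : Set (Set (V → ℝ))} {A0 : Set V} {φ0 : V → V → Prop}
    {t m k : ℕ} {d d' : S1b_SD W q U A0 φ0} (h : S1b_SD.Le d d') : S1b_Bad t m k d ⊆ S1b_Bad t m k d' := by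
  rintro x ⟨h1, h2, D, θ, h3, h4⟩
  exact ⟨h.hA h1, fun i => S1b_Gp_mono h.hA h.hφ (h2 i), D, θ, fun τ hτ => (h3 τ hτ).mono h, S1b_SP_mono h.hK h.hδ h4⟩

theorem S1b_map_eq {Ω : Type} {p : Ultrafilter Ω} {q : Ultrafilter V} {x : Ω → V}
    (h : ∀ A ∈ q, ∀ᶠ ω in (p : Filter Ω), x ω ∈ A) : p.map x = q := by
  refine Ultrafilter.coe_le_coe.1 fun A hA => ?_
  exact h A hA

/-- the filter of the `C`-arcs contains the tests -/
theorem S1b_inFC_test {W : World V} {q : Ultrafilter V} {U : Set (Set (V → ℝ))} {K : Set (V → ℝ)} (hK : K ∈ U)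
    {g : V → V → ℝ} (hg : ∀ x, g x ∈ K) {δ : ℝ} (hδ : 0 < δ) :
    InFC W q U (fun x y => g x y < δ ∧ g y x < δ) :=
  ⟨Set.univ, univ_mem, K, hK, g, g, hg, hg, δ, hδ, fun _ _ _ _ _ h1 h2 => ⟨h1, h2⟩⟩

/-- an exact C-arc from all finite data -/
theorem S1b_CA_of {W : World V} {q : Ultrafilter V} {U : Set (Set (V → ℝ))} {Ω : Type} {p : Ultrafilter Ω}
    {x y : Ω → V} (hA : ∀ A ∈ q, ∀ᶠ ω in (p : Filter Ω), x ω ∈ A ∧ y ω ∈ A)
    (hr : ∀ᶠ ω in (p : Filter Ω), W.r (x ω) (y ω))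
    (hφ : ∀ φ, InFC W q U φ → ∀ᶠ ω in (p : Filter Ω), φ (x ω) (y ω)) : CA W q U p x y := by
  refine ⟨S1b_map_eq fun A h => (hA A h).mono fun _ h => h.1,
    S1b_map_eq fun A h => (hA A h).mono fun _ h => h.2, hr, ?_, ?_⟩
  · intro K hK g hg δ hδ
    exact (hφ _ (S1b_inFC_test hK hg hδ)).mono fun _ h => h.1
  · intro K hK g hg δ hδ
    exact (hφ _ (S1b_inFC_test hK hg hδ)).mono fun _ h => h.2

theorem S1b_eq_res_ne {W : World V} {q : Ultrafilter V} {U : Set (Set (V → ℝ))} (S : Sys W q U) :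
    ∃ K ∈ U, K.Nonempty := by
  obtain ⟨a⟩ : Nonempty V := Filter.nonempty_of_neBot (q : Filter V)
  exact ⟨EQr V, S.eq, _, subset_convexHull ℝ _ ⟨a, rfl⟩⟩

theorem S1b_inFC_true {W : World V} {q : Ultrafilter V} {U : Set (Set (V → ℝ))} (S : Sys W q U) :
    InFC W q U (fun _ _ => True) := by
  obtain ⟨K, hK, g, hg⟩ := S1b_eq_res_ne S
  exact ⟨Set.univ, univ_mem, K, hK, fun _ => g, fun _ => g, fun _ => hg, fun _ => hg, 1, one_pos,
    fun _ _ _ _ _ _ _ => trivial⟩

/-- an exact C-edge from all finite data -/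
theorem S1b_CE_of {W : World V} {q : Ultrafilter V} {U : Set (Set (V → ℝ))} (S : Sys W q U) {Ω : Type}
    {p : Ultrafilter Ω} {x y : Ω → V}
    (h : ∀ A ∈ q, ∀ φ, InFC W q U φ → ∀ᶠ ω in (p : Filter Ω), Gp W A φ (x ω) (y ω)) :
    CE W q U p x y := by
  have hA : ∀ A ∈ q, ∀ᶠ ω in (p : Filter Ω), x ω ∈ A ∧ y ω ∈ A := fun A hA =>
    (h A hA _ (S1b_inFC_true S)).mono fun _ h => ⟨h.1, h.2.1⟩
  have hor := h _ univ_mem _ (S1b_inFC_true S)
  have hor2 : ∀ᶠ ω in (p : Filter Ω), W.r (x ω) (y ω) ∨ W.r (y ω) (x ω) := hor.mono fun ω h => by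
    rcases h.2.2 with h | h
    · exact Or.inl h.1
    · exact Or.inr h.1
  have hφ : ∀ (K : Set (V → ℝ)), K ∈ U → ∀ g : V → V → ℝ, (∀ d, g d ∈ K) → ∀ δ : ℝ, 0 < δ →
      ∀ᶠ ω in (p : Filter Ω), g (x ω) (y ω) < δ ∧ g (y ω) (x ω) < δ := by
    intro K hK g hg δ hδ
    refine (h _ univ_mem _ (S1b_inFC_test hK hg hδ)).mono fun ω h => ?_
    rcases h.2.2 with h | h
    · exact h.2
    · exact ⟨h.2.2, h.2.1⟩
  have hq1 : p.map x = q := S1b_map_eq fun A h => (hA A h).mono fun _ h => h.1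
  have hq2 : p.map y = q := S1b_map_eq fun A h => (hA A h).mono fun _ h => h.2
  rcases (Ultrafilter.eventually_or.1 hor2) with hr | hr
  · exact Or.inl ⟨hq1, hq2, hr, fun K hK g hg δ hδ => (hφ K hK g hg δ hδ).mono fun _ h => h.1,
      fun K hK g hg δ hδ => (hφ K hK g hg δ hδ).mono fun _ h => h.2⟩
  · exact Or.inr ⟨hq2, hq1, hr, fun K hK g hg δ hδ => (hφ K hK g hg δ hδ).mono fun _ h => h.2,
      fun K hK g hg δ hδ => (hφ K hK g hg δ hδ).mono fun _ h => h.1⟩

/-- one scale for paths of length `k`, from the statement of Lemma E -/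
theorem S1b_starK {W : World V} {q : Ultrafilter V} {U : Set (Set (V → ℝ))} (S : Sys W q U) {A0 : Set V} (hA0 : A0 ∈ q)
    {φ0 : V → V → Prop} (hP : ParR W A0 φ0 ∉ U) {t m k : ℕ}
    (hE : ∀ {Ω : Type} (p : Ultrafilter Ω) (x : Ω → Fin (k + 1) → V) (τ : Ω → Nd t m → V),
      p.map (fun ω => x ω 0) = q →
      (∀ i : Fin k, CE W q U p (fun ω => x ω i.castSucc) (fun ω => x ω i.succ)) →
      (∀ n, CA W q U p (fun ω => ev (x ω (Fin.last k)) (τ ω) (fa n)) (fun ω => τ ω n)) →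
      (∀ᶠ ω in (p : Filter Ω), OutT W (x ω (Fin.last k)) (τ ω)) →
      (∀ n, Fr U p (fun ω => (x ω, res (anc n) (τ ω))) (fun ω => τ ω n)) →
      ∃ n, Kn U p (fun ω => x ω 0) (fun ω => τ ω n)) :
    ∃ d : S1b_SD W q U A0 φ0, S1b_Bad t m k d = ∅ := by
  by_contra hcon
  push Not at hcon
  have hne : ∀ d : S1b_SD W q U A0 φ0, (S1b_Bad t m k d).Nonempty := hcon
  obtain ⟨K0, hK0, g0, hg0⟩ := S1b_eq_res_ne S
  obtain ⟨e0, he0⟩ : A0.Nonempty := Ultrafilter.nonempty_of_mem hA0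
  have hG0 : (fun y => if W.r e0 y ∧ φ0 e0 y then (1 : ℝ) else 0) ∈ ParR W A0 φ0 :=
    subset_convexHull ℝ _ ⟨e0, he0, rfl⟩
  let d0 : S1b_SD W q U A0 φ0 :=
    { A := Set.univ, hA := univ_mem, φ := fun _ _ => True, hφ := S1b_inFC_true S, K := K0, hK := hK0, δ := 1,
      hδ := one_pos, G := fun _ => _, hG := fun _ => hG0, η := 1, hη := one_pos }
  have : Nonempty (S1b_SD W q U A0 φ0) := ⟨d0⟩
  obtain ⟨p, hp⟩ := S1b_dir_ultra (fun d : S1b_SD W q U A0 φ0 => S1b_Bad t m k d) hne (fun d d' => by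
    obtain ⟨e, h1, h2⟩ := S1b_SD.dir S d d'
    exact ⟨e, fun x hx => ⟨S1b_Bad.mono h1 hx, S1b_Bad.mono h2 hx⟩⟩)
  -- draw the tree
  let T : Set (Nd t m × Finset (Nd t m) × Set (V → ℝ)) := {e | ∃ n, ∃ K ∈ U, e = (n, anc n, K)}
  let Ds : Set (Set ((Fin (k + 1) → V) × (Nd t m → V))) := {d | ∃ sd : S1b_SD W q U A0 φ0,
    ∀ (x : Fin (k + 1) → V) (τ : Nd t m → V), S1b_UnH W sd.A sd.φ sd.G sd.η (x 0) (x (Fin.last k)) τ → (x, τ) ∈ d}
  obtain ⟨p', hp1, -, hp3, hp4, -⟩ := draw p (fun x : Fin (k + 1) → V => x) T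
    (by
      rintro e ⟨n, K, hK, rfl⟩
      exact S.res K hK) Ds
    ⟨Set.univ, d0, fun _ _ _ => Set.mem_univ _⟩
    (by
      rintro a ⟨sa, ha⟩ b ⟨sb, hb⟩
      obtain ⟨e, h1, h2⟩ := S1b_SD.dir S sa sb
      exact ⟨e, fun x τ h => ⟨ha x τ (h.mono h1), hb x τ (h.mono h2)⟩⟩)
    Set.univ (c := 1) one_pos
    (by
      rintro d ⟨sd, hsd⟩ T' hT' δ hδ
      obtain ⟨K', hK', hK1, hK2⟩ := S1b_join_fin S sd.hK T' (fun e => e.2.2) (fun e he => by
        obtain ⟨n, K, hK, rfl⟩ := hT' he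
        exact hK)
      let sd' : S1b_SD W q U A0 φ0 := { sd with K := K', hK := hK', δ := min sd.δ δ, hδ := lt_min sd.hδ hδ }
      have hB : ∀ᶠ x in (p : Filter (Fin (k + 1) → V)), x ∈ S1b_Bad t m k sd' := hp sd'
      have hch : ∀ x : Fin (k + 1) → V, ∃ (D : Finset (Nd t m → V)) (θ : (Nd t m → V) → ℝ), x ∈ S1b_Bad t m k sd' →
          (∀ τ ∈ D, S1b_UnH W sd'.A sd'.φ sd'.G sd'.η (x 0) (x (Fin.last k)) τ) ∧ θ ∈ SP anc sd'.K sd'.δ D := by
        intro x
        by_cases hx : x ∈ S1b_Bad t m k sd'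
        · obtain ⟨-, -, D, θ, h1, h2⟩ := hx
          exact ⟨D, θ, fun _ => ⟨h1, h2⟩⟩
        · exact ⟨∅, 0, fun h => absurd h hx⟩
      choose D θ hDθ using hch
      refine ⟨D, θ, hB.mono fun x hx => ?_⟩
      obtain ⟨h1, h2⟩ := hDθ x hx
      refine ⟨h2.1, fun z hz => hsd x z (h1 z hz), ?_, ?_⟩
      · intro e he h hh
        obtain ⟨n, K, hK, rfl⟩ := hT' he
        exact (h2.2 n h fun s => hK2 _ he (hh s)).trans (min_le_right _ _)
      · have h3 : Pr (D x) (θ x) (fun z => (x, z) ∈ (Set.univ : Set ((Fin (k + 1) → V) × (Nd t m → V)))) = 1 := by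
          have := h2.1.sum
          simp only [Pr, Ex, Set.mem_univ, if_true, mul_one]
          exact this
        exact h3.ge)
  -- the exact tuple
  have hpath : ∀ d : S1b_SD W q U A0 φ0, ∀ᶠ w in (p' : Filter ((Fin (k + 1) → V) × (Nd t m → V))),
      w.1 ∈ S1b_Bad t m k d := by
    intro d
    have h1 : (fun w : (Fin (k + 1) → V) × (Nd t m → V) => w.1) ⁻¹' (S1b_Bad t m k d) ∈ p' := by
      have h2 : S1b_Bad t m k d ∈ p'.map Prod.fst := hp1 ▸ hp d
      exact h2
    exact h1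
  have htree : ∀ d : S1b_SD W q U A0 φ0, ∀ᶠ w in (p' : Filter ((Fin (k + 1) → V) × (Nd t m → V))),
      S1b_UnH W d.A d.φ d.G d.η (w.1 0) (w.1 (Fin.last k)) w.2 := by
    intro d
    exact hp3 {w | S1b_UnH W d.A d.φ d.G d.η (w.1 0) (w.1 (Fin.last k)) w.2} ⟨d, fun x τ h => h⟩
  have hd : ∀ A ∈ q, ∀ φ, InFC W q U φ → ∃ d : S1b_SD W q U A0 φ0, d.A = A ∧ d.φ = φ := fun A hA φ hφ =>
    ⟨{ d0 with A := A, hA := hA, φ := φ, hφ := hφ }, rfl, rfl⟩
  obtain ⟨n, hn⟩ := hE p' (fun w => w.1) (fun w => w.2)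
    (S1b_map_eq fun A hA => by
      obtain ⟨d, hd1, -⟩ := hd A hA _ (S1b_inFC_true S)
      exact (hpath d).mono fun w hw => hd1 ▸ hw.1)
    (fun i => S1b_CE_of S fun A hA φ hφ => by
      obtain ⟨d, hd1, hd2⟩ := hd A hA φ hφ
      exact (hpath d).mono fun w hw => by
        have := hw.2.1 i
        rw [hd1, hd2] at this
        exact this)
    (fun n => by
      refine S1b_CA_of ?_ ?_ ?_
      · intro A hA
        obtain ⟨d, hd1, -⟩ := hd A hA _ (S1b_inFC_true S)
        refine (htree d).mono fun w hw => ?_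
        rw [hd1] at hw
        refine ⟨?_, hw.2.1 n⟩
        cases hfa : (fa n : Option (Nd t m)) with
        | none => exact hw.1
        | some n' => exact hw.2.1 n'
      · exact (htree d0).mono fun w hw => hw.2.2.2.1.1 n
      · intro φ hφ
        obtain ⟨d, -, hd2⟩ := hd _ univ_mem φ hφ
        refine (htree d).mono fun w hw => ?_
        have := hw.2.2.1 n
        rw [hd2] at this
        exact this)
    ((htree d0).mono fun w hw => hw.2.2.2.1)
    (fun n K hK => hp4 (n, anc n, K) ⟨n, K, hK, rfl⟩)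
  refine hn _ (isRes_Par W A0 φ0) hP ?_
  intro G hG η hη
  exact (htree { d0 with G := G, hG := hG, η := η, hη := hη }).mono fun w hw => hw.2.2.2.2 n

/-- one scale for all paths of length at most `R` -/
theorem S1b_star_all {W : World V} {q : Ultrafilter V} {U : Set (Set (V → ℝ))} (S : Sys W q U) {A0 : Set V}
    {φ0 : V → V → Prop} {t m : ℕ} (h : ∀ k, ∃ d : S1b_SD W q U A0 φ0, S1b_Bad t m k d = ∅) (R : ℕ) :
    ∃ d : S1b_SD W q U A0 φ0, ∀ k ≤ R, S1b_Bad t m k d = ∅ := by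
  induction R with
  | zero =>
    obtain ⟨d, hd⟩ := h 0
    exact ⟨d, fun k hk => by rw [Nat.le_zero.1 hk]; exact hd⟩
  | succ R ih =>
    obtain ⟨d, hd⟩ := ih
    obtain ⟨d', hd'⟩ := h (R + 1)
    obtain ⟨e, h1, h2⟩ := S1b_SD.dir S d d'
    refine ⟨e, fun k hk => ?_⟩
    rcases Nat.lt_or_ge k (R + 1) with hlt | hge
    · exact Set.subset_eq_empty (S1b_Bad.mono h1) (hd k (Nat.lt_succ_iff.1 hlt))
    · rw [le_antisymm hk hge]
      exact Set.subset_eq_empty (S1b_Bad.mono h2) hd'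

theorem S1b_reach_path {φ : V → V → Prop} {k : ℕ} : ∀ {x y : V}, FP.Reach φ k x y →
    ∃ l ≤ k, ∃ w : Fin (l + 1) → V, w 0 = x ∧ w (Fin.last l) = y ∧ ∀ i : Fin l, φ (w i.castSucc) (w i.succ) := by
  induction k with
  | zero =>
    intro x y h
    exact ⟨0, le_rfl, fun _ => x, rfl, h, fun i => i.elim0⟩
  | succ k ih =>
    intro x y h
    rcases h with h | ⟨z, hz, h⟩
    · exact ⟨0, Nat.zero_le _, fun _ => x, rfl, h, fun i => i.elim0⟩
    · obtain ⟨l, hl, w, h0, h1, h2⟩ := ih h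
      refine ⟨l + 1, Nat.succ_le_succ hl, Fin.cons x w, rfl, ?_, ?_⟩
      · rw [← Fin.succ_last, Fin.cons_succ]
        exact h1
      · intro i
        refine Fin.cases ?_ (fun j => ?_) i
        · simp only [Fin.castSucc_zero, Fin.cons_zero, Fin.cons_succ]
          rw [h0]
          exact hz
        · rw [← Fin.succ_castSucc, Fin.cons_succ, Fin.cons_succ]
          exact h2 j

theorem exists_star {W : World V} {q : Ultrafilter V} {U : Set (Set (V → ℝ))} (S : Sys W q U) {t0 d : ℕ}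
    (h1 : NoOut W t0 d) (h2 : NoOut W.dual t0 d) {t' m : ℕ} (B : BD W q U t' m)
    (hB : B.Emp) (rB : Ultrafilter (V × (Nd t' m → V))) (hrB : IsB W q U rB Prod.fst Prod.snd) {t a : ℕ}
    (F : FD W q U t a) (hF : F.Emp) (ha : 1 ≤ a) (R : ℕ) : Nonempty (Star W q U F R) := by
  have hC : ∃ p : Ultrafilter (V × V), CA W q U p Prod.fst Prod.snd := lemmaA S h1 h2
  have hk : ∀ k, ∃ e : S1b_SD W q U F.A F.φ, S1b_Bad t a k e = ∅ := by
    intro k
    refine S1b_starK S F.hA (par_not_mem S hC F.hA F.hφ) ?_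
    intro Ω p x τ hq hE hCA hO hfr
    let xs : ℕ → Ω → V := fun i ω => if h : i < k + 1 then x ω ⟨i, h⟩ else x ω 0
    have hxs : ∀ i (h : i < k + 1), xs i = fun ω => x ω ⟨i, h⟩ := by
      intro i h
      funext ω
      simp only [xs, dif_pos h]
    have h0 : xs 0 = fun ω => x ω 0 := hxs 0 (Nat.succ_pos k)
    have hl : xs k = fun ω => x ω (Fin.last k) := hxs k (Nat.lt_succ_self k)
    have hxC : ∀ i < k, CE W q U p (xs i) (xs (i + 1)) := by
      intro i hi
      rw [hxs i (Nat.lt_succ_of_lt hi), hxs (i + 1) (Nat.succ_lt_succ hi)]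
      exact hE ⟨i, hi⟩
    have hqk : p.map (xs k) = q := by
      rcases Nat.eq_zero_or_pos k with rfl | hk
      · rw [h0]
        exact hq
      · obtain ⟨j, rfl⟩ : ∃ j, k = j + 1 := ⟨k - 1, (Nat.succ_pred_eq_of_pos hk).symm⟩
        rcases hxC j (Nat.lt_succ_self j) with h | h
        · exact h.qy
        · exact h.qx
    have hF' : IsF W q U p (xs k) τ := by
      refine ⟨hqk, ?_, ?_, ?_⟩
      · rw [hl]
        exact hCA
      · rw [hl]
        exact hO
      · intro n K hK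
        refine Unk.comp (fun y : (Fin (k + 1) → V) × (Nd t a → Option V) => (y.1 (Fin.last k), y.2))
          (Eventually.of_forall fun ω => ?_) (hfr n K hK)
        rw [hl]
    have hfr' : ∀ n, Fr U p (fun ω => ((fun i : Fin (k + 1) => xs i ω), res (anc n) (τ ω))) (fun ω => τ ω n) := by
      intro n
      have : (fun ω => ((fun i : Fin (k + 1) => xs i ω), res (anc n) (τ ω))) =
          fun ω => (x ω, res (anc n) (τ ω)) := by
        funext ω
        refine Prod.ext ?_ rfl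
        funext i
        change xs i ω = x ω i
        rw [hxs i i.2]
      rw [this]
      exact hfr n
    obtain ⟨n, hn⟩ := lemmaE S h1 h2 B hB rB hrB F hF ha p xs k hxC τ hF' hfr'
    rw [h0] at hn
    exact ⟨n, hn⟩
  obtain ⟨e, he⟩ := S1b_star_all S hk R
  refine ⟨{ A := e.A, hA := e.hA, φ := e.φ, hφ := e.hφ, K := e.K, hK := e.hK, δ := e.δ, hδ := e.hδ, l := e.G,
            hl := e.hG, η := e.η, hη := e.hη, star := ?_ }⟩
  rintro k hkR x y hxy D hD ⟨θ, hθ⟩
  obtain ⟨τ, hτ⟩ : D.Nonempty := by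
    by_contra hc
    rw [Finset.not_nonempty_iff_eq_empty] at hc
    have := hθ.1.sum
    rw [hc] at this
    simp at this
  have hyA : y ∈ e.A := (hD τ hτ).1.2.1
  obtain ⟨j, hj, w, w0, w1, w2⟩ := S1b_reach_path hxy
  have hxA : x ∈ e.A := by
    rcases Nat.eq_zero_or_pos j with rfl | hj0
    · have : x = y := w0.symm.trans w1
      rw [this]
      exact hyA
    · have := (w2 ⟨0, hj0⟩).1
      rw [← w0]
      exact this
  have : w ∈ S1b_Bad t a j e := by
    refine ⟨w0 ▸ hxA, w2, D, θ, ?_, hθ⟩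
    rw [w0, w1]
    intro τ hτ
    obtain ⟨⟨a1, a2, a3, a4⟩, a5⟩ := hD τ hτ
    exact ⟨a2, a3, a4, a1, a5⟩
  rw [he j (hj.trans hkR)] at this
  exact this

end Pool.Agent.Lib.MP_b0c2b5_co.AT
end

section

/-!
# AT, S2c: DOUBLING

PROOF of `exists_fam`. `kernel` twice for the exact F-tree `hT`: first `μ2` with `R x τ := TrS W A2 φ2 x τ`, then `B := A2 ∩` (good set of `μ2`), and `μ1` with `R x τ := TrS W B φ2 x τ`.
PROOF of `hit`. `D' := (D1 y).filter (fun τ => ∀ n, T.l x (τ n) < T.η)`; if its probability is at least `1/2` then `SP_cond` gives a member of `SP anc T.K T.δ D'` (`2 δ' ≤ T.δ`, `T.K ⊆ K'`), against `T.star`.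
PROOF of `ng`. `M := card (Nd t a)`. Every `y ∈ Y` has a position `s` with `Pr (τ s is a φ-child of e) ≥ η/(4M)`; if `Y.card > t * M` then `t` of them `y_1..y_t` have the same `s` (`Fin t` injection). Law `i` on pairs `(τ, σ)`: `τ` from `cond (D1 y_i) (μ1 y_i) (fun τ => W.r e (τ s) ∧ F.φ e (τ s))`, `σ` from `μ2 (τ s)`. `P := τ s`, tree `σ`. `Good := F.Good e (τ s) σ ∧` the tests of
`T.hφ`-data are handled separately (below). `hub_abs`: `i ≠ j` with `3/(4t^2) ≤ Pr2 (Good ∧ Good ∧ Cross)`. For all positions `a', b'` the events `ev .. a' = ev .. b'`, `h (ev a') (ev b') ≥ ε`, `h' (ev b') (ev a') ≥ ε` (the maps `h, h'` of the finite data of `T.φ`) have small probability (tests for `μ2`, resp. for the conditional law of `τ s`; constant tests given the other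
tree). So there is a realization with an arc `ev .. a' → ev .. b'` in `T.φ`: `Reach (a + a + 1 + a + a)` from `y_i` to `y_j`: contradiction.
PROOF of `doubling`. `T.l x` is a finite convex combination of the generators `f_e` of `ParR`; for `y ∈ Y` by `hit`: `η/2 ≤ Σ_e λ_e Pr (∃ n, W.r e (τ n) ∧ F.φ e (τ n))`, so the `e` with `y ∈ S(e)` (probability `≥ η/4`) have weight `≥ η/4`; sum over `y ∈ Y` and `ng`: `Y.card * η/4 ≤ t M`.
-/

set_option autoImplicit false

namespace Pool.Agent.Lib.MP_b0c2b5_co.AT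

open LS Filter
open scoped Classical

variable {V : Type}

variable {W : World V} {q : Ultrafilter V} {U : Set (Set (V → ℝ))}

/-- double counting with weights -/
theorem S2c_count {J Y0 : Type} [Fintype J] (w : J → ℝ) (hw0 : ∀ i, 0 ≤ w i) (hw1 : ∑ i, w i = 1) (Y : Finset Y0)
    (P : J → Y0 → ℝ) (hP1 : ∀ i, ∀ y ∈ Y, P i y ≤ 1) (η : ℝ) (hη : 0 < η)
    (h : ∀ y ∈ Y, η / 2 ≤ ∑ i, w i * P i y) (M : ℕ) (hM : ∀ i, (Y.filter (fun y => η / 4 ≤ P i y)).card ≤ M) :
    (Y.card : ℝ) * (η / 4) ≤ M := by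
  have h1 : ∀ y ∈ Y, η / 4 ≤ ∑ i, w i * (if η / 4 ≤ P i y then (1 : ℝ) else 0) := by
    intro y hy
    have h2 : ∑ i, w i * P i y ≤ ∑ i, (w i * (if η / 4 ≤ P i y then (1 : ℝ) else 0) + w i * (η / 4)) := by
      refine Finset.sum_le_sum fun i _ => ?_
      rw [← mul_add]
      refine mul_le_mul_of_nonneg_left ?_ (hw0 i)
      by_cases hc : η / 4 ≤ P i y
      · rw [if_pos hc]
        have := hP1 i y hy
        linarith
      · rw [if_neg hc]
        linarith
    rw [Finset.sum_add_distrib, ← Finset.sum_mul, hw1] at h2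
    have := h y hy
    linarith
  have h3 : (Y.card : ℝ) * (η / 4) ≤ ∑ y ∈ Y, ∑ i, w i * (if η / 4 ≤ P i y then (1 : ℝ) else 0) := by
    rw [← nsmul_eq_mul]
    exact Finset.card_nsmul_le_sum _ _ _ h1
  rw [Finset.sum_comm] at h3
  refine h3.trans ?_
  have h4 : ∀ i, ∑ y ∈ Y, w i * (if η / 4 ≤ P i y then (1 : ℝ) else 0) ≤ w i * M := by
    intro i
    rw [← Finset.mul_sum]
    refine mul_le_mul_of_nonneg_left ?_ (hw0 i)
    rw [Finset.sum_ite, Finset.sum_const_zero, add_zero, Finset.sum_const, nsmul_eq_mul, mul_one]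
    exact_mod_cast hM i
  calc ∑ i, ∑ y ∈ Y, w i * (if η / 4 ≤ P i y then (1 : ℝ) else 0) ≤ ∑ i, w i * (M : ℝ) :=
        Finset.sum_le_sum fun i _ => h4 i
    _ = M := by rw [← Finset.sum_mul, hw1, one_mul]

theorem S2c_Ex_le {Z : Type} {D : Finset Z} {θ : Z → ℝ} (hθ : IsPr D θ) {f g : Z → ℝ} (h : ∀ z ∈ D, f z ≤ g z) :
    Ex D θ f ≤ Ex D θ g :=
  Finset.sum_le_sum fun z hz => mul_le_mul_of_nonneg_left (h z hz) (hθ.nn z)

theorem S2c_Pr_le_one {Z : Type} {D : Finset Z} {θ : Z → ℝ} (hθ : IsPr D θ) (E : Z → Prop) : Pr D θ E ≤ 1 := by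
  have h : Pr D θ E ≤ Ex D θ (fun _ => 1) := S2c_Ex_le hθ fun z _ => by
    split_ifs <;> norm_num
  refine h.trans (le_of_eq ?_)
  unfold Ex
  simp only [mul_one]
  exact hθ.sum

/-- hubs: a convex combination of hub functions which is large on a tree -/
theorem S2c_hubs {W : World V} {A : Set V} {φ : V → V → Prop} {f : V → ℝ} (hf : f ∈ ParR W A φ) :
    ∃ (J : Type) (_ : Fintype J) (w : J → ℝ) (e : J → V), (∀ i, 0 ≤ w i) ∧ ∑ i, w i = 1 ∧ (∀ i, e i ∈ A) ∧
      ∀ v, f v = ∑ i, w i * (if W.r (e i) v ∧ φ (e i) v then (1 : ℝ) else 0) := by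
  rw [ParR, mem_convexHull_iff_exists_fintype] at hf
  obtain ⟨J, hJ, w, z, hw0, hw1, hz, hx⟩ := hf
  choose e he hze using hz
  refine ⟨J, hJ, w, e, hw0, hw1, he, fun v => ?_⟩
  rw [← hx, Finset.sum_apply]
  refine Finset.sum_congr rfl fun i _ => ?_
  rw [Pi.smul_apply, smul_eq_mul, hze i]

theorem doubling (S : Sys W q U) {t a : ℕ} {F : FD W q U t a} (hF : F.Emp) (ha : 1 ≤ a)
    (r : Ultrafilter (V × (Nd t a → V))) (hr : IsF W q U r Prod.fst Prod.snd)
    (T : Star W q U F (2 * (4 * a + 1))) :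
    ∃ V1 ∈ q, ∃ N : ℕ, ∀ x, ∀ Y : Finset V,
      (∀ y ∈ Y, y ∈ V1 ∧ FP.Reach (Gp W T.A T.φ) (2 * (4 * a + 1)) x y) →
      (∀ y ∈ Y, ∀ z ∈ Y, y ≠ z → ¬ FP.Reach (Gp W T.A T.φ) (4 * a + 1) y z) → Y.card ≤ N := by
  obtain ⟨A2, hA2, K2, hK2, δ2, hδ2, hAT, H⟩ := ng S hF ha T
  have hK' : jn T.K K2 ∈ U := S.join _ T.hK _ hK2
  have hsub1 : T.K ⊆ jn T.K K2 := fun g hg => subset_convexHull ℝ _ (Or.inl hg)
  have hsub2 : K2 ⊆ jn T.K K2 := fun g hg => subset_convexHull ℝ _ (Or.inr hg)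
  set δ' := min δ2 (T.δ / 2) with hδ'
  have hδ'0 : 0 < δ' := lt_min hδ2 (half_pos T.hδ)
  have hδ'1 : δ' ≤ δ2 := min_le_left _ _
  have hδ'2 : 2 * δ' ≤ T.δ := by
    have := min_le_right δ2 (T.δ / 2)
    linarith
  obtain ⟨V1, D1, D2, μ1, μ2, hFam⟩ := exists_fam S r hr hA2 (InFC.and S T.hφ F.hφ) hK' hδ'0
  obtain ⟨N, hN⟩ := exists_nat_ge (((t * Fintype.card (Nd t a) : ℕ) : ℝ) / (T.η / 4))
  refine ⟨V1, hFam.mem, N, fun x Y hY1 hY2 => ?_⟩
  obtain ⟨J, hJ, w, e, hw0, hw1, he, hl⟩ := S2c_hubs (T.hl x)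
  have hη4 : 0 < T.η / 4 := by
    have := T.hη
    linarith
  have hcount := S2c_count w hw0 hw1 Y
    (fun i y => Pr (D1 y) (μ1 y) (fun τ => ∃ n, W.r (e i) (τ n) ∧ F.φ (e i) (τ n)))
    (fun i y hy => S2c_Pr_le_one (hFam.sp1 y (hY1 y hy).1).1 _) T.η T.hη (fun y hy => by
      have hpr := (hFam.sp1 y (hY1 y hy).1).1
      have h1 := hit S T hAT (fun x y h => h.1) hK' hsub1 hδ'2 hFam (hY1 y hy).1 (hY1 y hy).2
      have h2 : T.η * Pr (D1 y) (μ1 y) (fun τ => ∃ n, T.η ≤ T.l x (τ n)) ≤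
          Ex (D1 y) (μ1 y) (fun τ => ∑ i, w i * (if ∃ n, W.r (e i) (τ n) ∧ F.φ (e i) (τ n) then (1 : ℝ) else 0)) := by
        have h3 : T.η * Pr (D1 y) (μ1 y) (fun τ => ∃ n, T.η ≤ T.l x (τ n)) =
            Ex (D1 y) (μ1 y) (fun τ => T.η * (if ∃ n, T.η ≤ T.l x (τ n) then (1 : ℝ) else 0)) := by
          unfold Pr Ex
          rw [Finset.mul_sum]
          refine Finset.sum_congr rfl fun z _ => ?_
          by_cases hc : ∃ n, T.η ≤ T.l x (z n)
          · simp only [if_pos hc]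
            ring
          · simp only [if_neg hc]
            ring
        rw [h3]
        refine S2c_Ex_le hpr fun τ _ => ?_
        by_cases hc : ∃ n, T.η ≤ T.l x (τ n)
        · rw [if_pos hc, mul_one]
          obtain ⟨n, hn⟩ := hc
          refine hn.trans ?_
          rw [hl]
          refine Finset.sum_le_sum fun i _ => mul_le_mul_of_nonneg_left ?_ (hw0 i)
          by_cases hd : W.r (e i) (τ n) ∧ F.φ (e i) (τ n)
          · rw [if_pos hd, if_pos ⟨n, hd⟩]
          · rw [if_neg hd]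
            split_ifs <;> norm_num
        · rw [if_neg hc, mul_zero]
          refine Finset.sum_nonneg fun i _ => mul_nonneg (hw0 i) ?_
          split_ifs <;> norm_num
      have h4 : Ex (D1 y) (μ1 y) (fun τ => ∑ i, w i * (if ∃ n, W.r (e i) (τ n) ∧ F.φ (e i) (τ n) then (1 : ℝ) else 0)) =
          ∑ i, w i * Pr (D1 y) (μ1 y) (fun τ => ∃ n, W.r (e i) (τ n) ∧ F.φ (e i) (τ n)) := by
        unfold Pr Ex
        simp_rw [Finset.mul_sum]
        rw [Finset.sum_comm]
        refine Finset.sum_congr rfl fun i _ => Finset.sum_congr rfl fun z _ => ?_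
        by_cases hc : ∃ n, W.r (e i) (z n) ∧ F.φ (e i) (z n)
        · simp only [if_pos hc]
          ring
        · simp only [if_neg hc]
          ring
      rw [h4] at h2
      have h5 : T.η * (1 / 2) ≤ T.η * Pr (D1 y) (μ1 y) (fun τ => ∃ n, T.η ≤ T.l x (τ n)) :=
        mul_le_mul_of_nonneg_left h1 T.hη.le
      linarith) (t * Fintype.card (Nd t a)) (fun i => by
      refine H _ hK' hsub2 δ' hδ'1 V1 D1 D2 μ1 μ2 hFam (e i) (he i) _ ?_ ?_
      · intro y hy
        rw [Finset.mem_filter] at hy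
        exact ⟨(hY1 y hy.1).1, hy.2⟩
      · intro y hy z hz hne
        rw [Finset.mem_filter] at hy hz
        exact hY2 y hy.1 z hz.1 hne)
  have h6 : (Y.card : ℝ) ≤ ((t * Fintype.card (Nd t a) : ℕ) : ℝ) / (T.η / 4) := by
    rw [le_div_iff₀ hη4]
    exact hcount
  exact_mod_cast h6.trans hN

end Pool.Agent.Lib.MP_b0c2b5_co.AT
end
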