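import Pool.Agent.Lib.MP_b0c2b5_co.Mg.G007
import Pool.Agent.Lib.MP_b0c2b5_co.Mg.G003
import Pool.Agent.Lib.MP_b0c2b5_co.Mg.G004
import Pool.Agent.Lib.MP_b0c2b5_co.Mg.G001

section

/-!
# AT, S3: END (paper, section 6).

PROOF of `end_contra`. `doubling` and `FP.net_colour` (`φ := Gp W T.A T.φ`, symmetric, `V' := V1`, `R := 4a+1`) give `c`, `col`; the class `V2 := {x ∈ V1 ∩ T.A | col x = j}` is in `q` for one `j`; `x, y ∈ V2`, `Gp x y` imply `c x = c y`. The exact F-tree `(x, τ)` of `hr`: if almost everywhere `T.l (c x) (τ n) < T.η` for all `n`, then `spread_SP` for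
`D x := (FibF W _ x).filter (fun τ => TrS W T.A T.φ x τ ∧ ∀ n, T.l (c x) (τ n) < T.η)` contradicts `T.star` (`Reach (4a+1) (c x) x`). So there is a position `n` with `T.η ≤ T.l (c x) (τ n)` almost everywhere, and `c (τ n) = c x` (`node_ind` along the branch: nodes in `V2`, arcs in `T.φ` by `InFC.of_CA`). So `B := {z ∈ V2 | T.η ≤ T.l (c z) z} ∈ q`. The set of the
`x ∈ B'` with a child `y ∈ B'`, `T.φ x y`, is in `q` for every `B' ∈ q` (exact C-arc): so there is a directed path `y_0 → .. → y_N` in `B` with arcs in `T.φ`, `1 < (N+1) * T.η`. `c y_i = c y_0 =: x`, so `T.η ≤ T.l x (y_i)` for all `i`; but every generator `f_e` of `ParR` has `Σ_i f_e (y_i) ≤ 1` (`r e y_i`, `r e y_j`, `i < j`: `lt e y_i`, `lt y_i y_j`, against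
`ho.sf`), so `Σ_i T.l x (y_i) ≤ 1`: contradiction.
PROOF of `contra`. `exists_sys`, `lemmaA`, `exists_F`, `exists_B`, `exists_star` with `R := 2 * (4a+1)`, `end_contra`.
-/

set_option autoImplicit false

namespace Pool.Agent.Lib.MP_b0c2b5_co.AT

open LS Filter
open scoped Classical

variable {V : Type}

/-- pigeonhole in an ultrafilter -/
theorem S3_pigeon {Ω J : Type} [Finite J] (p : Ultrafilter Ω) (P : J → Ω → Prop)
    (h : ∀ᶠ ω in (p : Filter Ω), ∃ j, P j ω) : ∃ j, ∀ᶠ ω in (p : Filter Ω), P j ω := by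
  by_contra hcon
  rw [not_exists] at hcon
  have h1 : ∀ j, ∀ᶠ ω in (p : Filter Ω), ¬ P j ω := fun j => Ultrafilter.eventually_not.2 (hcon j)
  have h2 : ∀ᶠ ω in (p : Filter Ω), ∀ j, ¬ P j ω := Filter.eventually_all.2 h1
  obtain ⟨ω, ⟨j, hj⟩, hω⟩ := (h.and h2).exists
  exact hω j hj

/-- an event for a coordinate of type `q` -/
theorem S3_ev {Ω : Type} {p : Ultrafilter Ω} {q : Ultrafilter V} {x : Ω → V} (hx : p.map x = q) {A : Set V}
    (hA : A ∈ q) : ∀ᶠ ω in (p : Filter Ω), x ω ∈ A := by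
  have h : A ∈ p.map x := by
    rw [hx]
    exact hA
  exact h

theorem S3_ve {Ω : Type} {p : Ultrafilter Ω} {q : Ultrafilter V} {x : Ω → V} (hx : p.map x = q) {A : Set V}
    (hA : ∀ᶠ ω in (p : Filter Ω), x ω ∈ A) : A ∈ q := by
  rw [← hx]
  exact hA

/-- directed paths inside a set of `q` -/
theorem S3_path {W : World V} {q : Ultrafilter V} {U : Set (Set (V → ℝ))}
    (hC : ∃ p : Ultrafilter (V × V), CA W q U p Prod.fst Prod.snd) {φ : V → V → Prop} (hφ : InFC W q U φ) {B : Set V}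
    (hB : B ∈ q) (N : ℕ) : {x | ∃ ys : ℕ → V, ys 0 = x ∧ (∀ i ≤ N, ys i ∈ B) ∧
      ∀ i < N, W.r (ys i) (ys (i + 1)) ∧ φ (ys i) (ys (i + 1))} ∈ q := by
  induction N with
  | zero =>
    refine Filter.mem_of_superset hB ?_
    intro x hx
    refine ⟨fun _ => x, rfl, fun _ _ => hx, ?_⟩
    intro i hi
    exact absurd hi (Nat.not_lt_zero i)
  | succ N ih =>
    obtain ⟨p, hp⟩ := hC
    have h1 : ∀ᶠ z in (p : Filter (V × V)), z.1 ∈ B := S3_ev hp.qx hB
    have h2 : ∀ᶠ z in (p : Filter (V × V)), z.2 ∈ {x | ∃ ys : ℕ → V, ys 0 = x ∧ (∀ i ≤ N, ys i ∈ B) ∧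
      ∀ i < N, W.r (ys i) (ys (i + 1)) ∧ φ (ys i) (ys (i + 1))} := S3_ev hp.qy ih
    have h3 := hp.arc
    have h4 := hφ.of_CA hp
    refine S3_ve hp.qx ?_
    filter_upwards [h1, h2, h3, h4] with z hz1 hz2 hz3 hz4
    obtain ⟨ys, hy0, hy1, hy2⟩ := hz2
    refine ⟨fun i => match i with
      | 0 => z.1
      | i + 1 => ys i, rfl, ?_, ?_⟩
    · intro i hi
      rcases i with _ | i
      · exact hz1
      · exact hy1 i (by omega)
    · intro i hi
      rcases i with _ | i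
      · change W.r z.1 (ys 0) ∧ φ z.1 (ys 0)
        rw [hy0]
        exact ⟨hz3, hz4⟩
      · exact hy2 i (by omega)

/-- a function in the resource of the parents has mass at most one on a directed path -/
theorem S3_sum {W : World V} {A : Set V} {φ : V → V → Prop} {f : V → ℝ} (hf : f ∈ ParR W A φ) (ys : ℕ → V) (N : ℕ)
    (hys : ∀ i < N, W.r (ys i) (ys (i + 1))) : ∑ i ∈ Finset.range (N + 1), f (ys i) ≤ 1 := by
  have hlt : ∀ j, j ≤ N → ∀ i, i < j → W.lt (ys i) (ys j) := by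
    intro j
    induction j with
    | zero =>
      intro _ i hi
      exact absurd hi (Nat.not_lt_zero i)
    | succ j ih =>
      intro hj i hi
      have h1 : W.lt (ys j) (ys (j + 1)) := W.ho.arc _ _ (hys j (by omega))
      rcases Nat.lt_succ_iff_lt_or_eq.1 hi with h | h
      · exact W.ho.trans _ _ _ (ih (by omega) i h) h1
      · rw [h]
        exact h1
  have h1 : ParR W A φ ⊆ {f : V → ℝ | ∑ i ∈ Finset.range (N + 1), f (ys i) ≤ 1} := by
    refine convexHull_min ?_ ?_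
    · rintro _ ⟨e, _, rfl⟩
      change ∑ i ∈ Finset.range (N + 1), (if W.r e (ys i) ∧ φ e (ys i) then (1 : ℝ) else 0) ≤ 1
      rw [Finset.sum_boole]
      have h2 : ((Finset.range (N + 1)).filter (fun i => W.r e (ys i) ∧ φ e (ys i))).card ≤ 1 := by
        rw [Finset.card_le_one]
        intro i hi j hj
        rw [Finset.mem_filter, Finset.mem_range] at hi hj
        rcases Nat.lt_trichotomy i j with h | h | h
        · exact absurd (hlt j (by omega) i h) (W.ho.sf _ _ _ hj.2.1 (W.ho.arc _ _ hi.2.1))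
        · exact h
        · exact absurd (hlt i (by omega) j h) (W.ho.sf _ _ _ hi.2.1 (W.ho.arc _ _ hj.2.1))
      exact_mod_cast h2
    · intro f hf g hg a b ha hb hab
      change ∑ i ∈ Finset.range (N + 1), (a • f + b • g) (ys i) ≤ 1
      simp only [Pi.add_apply, Pi.smul_apply, smul_eq_mul]
      rw [Finset.sum_add_distrib, ← Finset.mul_sum, ← Finset.mul_sum]
      calc a * ∑ i ∈ Finset.range (N + 1), f (ys i) + b * ∑ i ∈ Finset.range (N + 1), g (ys i) ≤ a * 1 + b * 1 :=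
            add_le_add (mul_le_mul_of_nonneg_left hf ha) (mul_le_mul_of_nonneg_left hg hb)
        _ = 1 := by rw [mul_one, mul_one, hab]
  exact h1 hf

theorem end_contra {W : World V} {q : Ultrafilter V} {U : Set (Set (V → ℝ))} (S : Sys W q U)
    (hC : ∃ p : Ultrafilter (V × V), CA W q U p Prod.fst Prod.snd) {t a : ℕ} {F : FD W q U t a} (hF : F.Emp)
    (ha : 1 ≤ a) (r : Ultrafilter (V × (Nd t a → V))) (hr : IsF W q U r Prod.fst Prod.snd)
    (T : Star W q U F (2 * (4 * a + 1))) : False := by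
  obtain ⟨V1, hV1, N, hN⟩ := doubling S hF ha r hr T
  obtain ⟨c, col, hc1, hc2⟩ := FP.net_colour (Gp W T.A T.φ) (fun x y h => h.symm) V1 (4 * a + 1) N (by omega)
    (fun x _ Y h1 h2 => hN x Y h1 h2)
  -- one colour
  obtain ⟨j, hj⟩ : ∃ j, ∀ᶠ x in (q : Filter V), col x = j :=
    S3_pigeon q (fun j x => col x = j) (Filter.Eventually.of_forall (fun x => ⟨col x, rfl⟩))
  obtain ⟨V2, hV2def⟩ : ∃ V2 : Set V, V2 = {x | x ∈ V1 ∧ x ∈ T.A ∧ col x = j} := ⟨_, rfl⟩
  have hV2 : V2 ∈ q := by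
    rw [hV2def]
    have h1 : ∀ᶠ x in (q : Filter V), x ∈ V1 := hV1
    have h2 : ∀ᶠ x in (q : Filter V), x ∈ T.A := T.hA
    exact h1.and (h2.and hj)
  have hcc : ∀ x ∈ V2, ∀ y ∈ V2, W.r x y → T.φ x y → c x = c y := by
    intro x hx y hy hxy hφ
    rw [hV2def] at hx hy
    exact hc2 x hx.1 y hy.1 ⟨hx.2.1, hy.2.1, Or.inl ⟨hxy, hφ⟩⟩ (hx.2.2.trans hy.2.2.symm)
  -- the exact tree
  have e1 : ∀ᶠ z in (r : Filter (V × (Nd t a → V))), z.1 ∈ V2 := S3_ev hr.qx hV2
  have e2 : ∀ᶠ z in (r : Filter (V × (Nd t a → V))), ∀ n, z.2 n ∈ V2 :=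
    Filter.eventually_all.2 (fun n => S3_ev (hr.arc n).qy hV2)
  have e3 : ∀ᶠ z in (r : Filter (V × (Nd t a → V))), ∀ n, T.φ (ev z.1 z.2 (fa n)) (z.2 n) :=
    Filter.eventually_all.2 (fun n => T.hφ.of_CA (hr.arc n))
  have e4 := hr.out
  have e5 : ∀ᶠ z in (r : Filter (V × (Nd t a → V))), TrS W T.A T.φ z.1 z.2 := by
    filter_upwards [e1, e2, e3, e4] with z h1 h2 h3 h4
    rw [hV2def] at h1
    refine ⟨h4, h1.2.1, ?_, h3⟩
    intro n
    have h5 := h2 n
    rw [hV2def] at h5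
    exact h5.2.1
  -- labels are constant
  have e6 : ∀ᶠ z in (r : Filter (V × (Nd t a → V))), ∀ n, c (z.2 n) = c z.1 := by
    filter_upwards [e1, e2, e3, e4] with z h1 h2 h3 h4
    intro n
    induction n using node_ind with
    | h n ih =>
      have h5 := h3 n
      have h6 := h4.1 n
      cases hn : fa n with
      | none =>
        rw [hn] at h5 h6
        exact (hcc _ h1 _ (h2 n) h6 h5).symm
      | some n' =>
        rw [hn] at h5 h6
        rw [← ih n' hn]
        exact (hcc _ (h2 n') _ (h2 n) h6 h5).symm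
  -- a hit position
  have hpos : ∃ n, ∀ᶠ z in (r : Filter (V × (Nd t a → V))), T.η ≤ T.l (c z.1) (z.2 n) := by
    by_contra hcon
    rw [not_exists] at hcon
    have h1 : ∀ᶠ z in (r : Filter (V × (Nd t a → V))), ∀ n, T.l (c z.1) (z.2 n) < T.η := by
      refine Filter.eventually_all.2 (fun n => ?_)
      have h2 := Ultrafilter.eventually_not.2 (hcon n)
      filter_upwards [h2] with z hz
      exact not_le.1 hz
    have h3 := spread_SP S r Prod.fst Prod.snd anc hr.free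
      (fun x => (FibF W (Nd t a) x).filter (fun τ => TrS W T.A T.φ x τ ∧ ∀ n, T.l (c x) (τ n) < T.η)) (by
        filter_upwards [e5, h1] with z hz1 hz2
        rw [Finset.mem_filter]
        refine ⟨?_, hz1, hz2⟩
        rw [mem_FibF]
        intro n
        exact hz1.1.fib n) T.hK T.hδ
    obtain ⟨z, hz1, hz2⟩ := (e1.and h3).exists
    rw [hV2def] at hz1
    refine T.star (4 * a + 1) (by omega) (c z.1) z.1 (hc1 z.1 hz1.1).2 _ ?_ hz2
    intro τ hτ
    exact (Finset.mem_filter.1 hτ).2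
  obtain ⟨n, hn⟩ := hpos
  obtain ⟨B, hBdef⟩ : ∃ B : Set V, B = {z | z ∈ V2 ∧ T.η ≤ T.l (c z) z} := ⟨_, rfl⟩
  have hB : B ∈ q := by
    refine S3_ve (hr.arc n).qy ?_
    filter_upwards [e2, e6, hn] with z h1 h2 h3
    rw [hBdef]
    refine ⟨h1 n, ?_⟩
    rw [h2 n]
    exact h3
  -- a long directed path
  obtain ⟨M, hM⟩ : ∃ M : ℕ, 1 / T.η < M := exists_nat_gt _
  obtain ⟨x, ys, _, hy1, hy2⟩ := (q.nonempty_of_mem (S3_path hC T.hφ hB M))
  have hyB : ∀ i ≤ M, ys i ∈ V2 ∧ T.η ≤ T.l (c (ys i)) (ys i) := by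
    intro i hi
    have h := hy1 i hi
    rw [hBdef] at h
    exact h
  have hcy : ∀ i, i ≤ M → c (ys i) = c (ys 0) := by
    intro i
    induction i with
    | zero => intro _; rfl
    | succ i ih =>
      intro hi
      rw [← ih (by omega)]
      obtain ⟨h1, h2⟩ := hy2 i (by omega)
      exact (hcc _ (hyB i (by omega)).1 _ (hyB (i + 1) hi).1 h1 h2).symm
  have h1 : ∑ i ∈ Finset.range (M + 1), T.l (c (ys 0)) (ys i) ≤ 1 :=
    S3_sum (T.hl _) ys M (fun i hi => (hy2 i hi).1)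
  have h2 : ∑ i ∈ Finset.range (M + 1), T.η ≤ ∑ i ∈ Finset.range (M + 1), T.l (c (ys 0)) (ys i) := by
    refine Finset.sum_le_sum ?_
    intro i hi
    rw [Finset.mem_range] at hi
    have h3 := (hyB i (by omega)).2
    rw [hcy i (by omega)] at h3
    exact h3
  rw [Finset.sum_const, Finset.card_range, nsmul_eq_mul] at h2
  have h3 : 1 < (M : ℝ) * T.η := by
    rwa [div_lt_iff₀ T.hη] at hM
  have h4 : ((M + 1 : ℕ) : ℝ) * T.η = (M : ℝ) * T.η + T.η := by
    push_cast
    ring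
  have h5 := T.hη
  linarith

theorem contra {W : World V} {q : Ultrafilter V} (hq : ∀ A ∈ q, ∀ c, ¬ ColOn W.r A c) {t d : ℕ} (h1 : NoOut W t d)
    (h2 : NoOut W.dual t d) : False := by
  obtain ⟨U, S⟩ := exists_sys W q hq
  have hC := lemmaA S h1 h2
  obtain ⟨a, t1, ha, ⟨r, hr⟩, F, hF⟩ := exists_F S h1 hC
  obtain ⟨b, t2, hb, ⟨rB, hrB⟩, B, hB⟩ := exists_B S h1 hC
  obtain ⟨T⟩ := exists_star S h1 h2 B hB rB hrB F hF ha (2 * (4 * a + 1))
  exact end_contra S hC hF ha r hr T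

end Pool.Agent.Lib.MP_b0c2b5_co.AT
end

section

/-!
# AT, Z1: the colouring bound for worlds.

PROOF of `bounded`. Otherwise no finite number of colours suffices; the sets which are finitely colourable form a proper ideal, so there is an ultrafilter `q` without such sets (`exists_q` of Red.lean): `contra`.
The uniform bound for finite posets is in Red.lean (`final`).
-/

set_option autoImplicit false

namespace Pool.Agent.Lib.MP_b0c2b5_co.AT

open LS Filter
open scoped Classical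

variable {V : Type}

theorem bounded (W : World V) {t d : ℕ} (h1 : NoOut W t d) (h2 : NoOut W.dual t d) :
    ∃ C : ℕ, ColOn W.r (Set.univ : Set V) C := by
  by_contra hcon
  obtain ⟨q, hq⟩ := exists_q W.r hcon
  exact contra hq h1 h2

end Pool.Agent.Lib.MP_b0c2b5_co.AT
end
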